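import Pool.Agent.P.MP_4b59b0_al.Isom

set_option autoImplicit false

namespace Pool.Agent.P.MP_4b59b0_al

open Sp

variable {V U : Type} {X : Sp V} {Y : U → Set V} {ε : ℕ}

variable (X Y) in
/-- Twice the length of the projection of `[x, y]` to `Y u`. -/
noncomputable def ang (u : U) (x y : V) : ℕ :=
  sInf {θ | ∀ p ∈ Y u, ∀ q ∈ Y u, X.d x p + X.d y q ≤ X.d x q + X.d y p + θ}

theorem ang_le {u : U} {x y : V} {θ : ℕ}
    (h : ∀ p ∈ Y u, ∀ q ∈ Y u, X.d x p + X.d y q ≤ X.d x q + X.d y p + θ) : ang X Y u x y ≤ θ :=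
  Nat.sInf_le h

theorem ang_two_aux (u : U) (x y : V) :
    ∀ p ∈ Y u, ∀ q ∈ Y u, X.d x p + X.d y q ≤ X.d x q + X.d y p + 2 * X.d x y := by
  intro p _ q _
  have := X.tri x y p; have := X.tri y x q; have := X.symm x y; omega

theorem ang_spec (u : U) (x y : V) :
    ∀ p ∈ Y u, ∀ q ∈ Y u, X.d x p + X.d y q ≤ X.d x q + X.d y p + ang X Y u x y :=
  Nat.sInf_mem (s := {θ | ∀ p ∈ Y u, ∀ q ∈ Y u, X.d x p + X.d y q ≤ X.d x q + X.d y p + θ})
    ⟨_, ang_two_aux u x y⟩

theorem ang_le_two (u : U) (x y : V) : ang X Y u x y ≤ 2 * X.d x y := ang_le (ang_two_aux u x y)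

theorem ang_self (u : U) (x : V) : ang X Y u x x = 0 := by
  have := ang_le_two (X := X) (Y := Y) u x x
  rw [X.d_self] at this; omega

theorem ang_symm (u : U) (x y : V) : ang X Y u x y = ang X Y u y x := by
  have : ∀ x y, ang X Y u x y ≤ ang X Y u y x := fun x y => ang_le fun p hp q hq => by
    have := ang_spec (X := X) u y x q hq p hp; omega
  exact le_antisymm (this x y) (this y x)

theorem ang_tri (u : U) (x y z : V) : ang X Y u x z ≤ ang X Y u x y + ang X Y u y z :=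
  ang_le fun p hp q hq => by
    have := ang_spec (X := X) u x y p hp q hq; have := ang_spec (X := X) u y z p hp q hq; omega

theorem ang_wit {u : U} {x m : V} {θ : ℕ} (h : θ < ang X Y u x m) :
    ∃ q ∈ Y u, X.d x q + θ < X.d x m + X.d m q := by
  by_contra hc
  push Not at hc
  have : ang X Y u x m ≤ θ := ang_le fun p hp q hq => by
    have := hc q hq; have := X.tri x m p; omega
  omega

theorem ang_ge {u : U} {x y p q : V} (hp : p ∈ Y u) (hq : q ∈ Y u) :
    2 * X.d x y ≤ ang X Y u x y + 4 * X.d x p + 4 * X.d y q := by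
  have := ang_spec (X := X) u x y q hq p hp
  have := X.tri x q y; have := X.tri y p x; have := X.symm q y; have := X.symm p x
  have := X.symm x y
  omega

theorem Fam.ang_ov (F : Fam X Y ε) {u u' : U} (h : u ≠ u') {x y : V} (hx : x ∈ Y u')
    (hy : y ∈ Y u') : ang X Y u x y ≤ ε :=
  ang_le fun p hp q hq => F.ov u u' h x hx y hy p hp q hq

theorem ang_smul {H : Type} [Group H] [MulAction H V] [MulAction H U] (iso : X.Iso H)
    (eqv : Eqv H Y) (g : H) (u : U) (x y : V) :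
    ang X Y (g • u) (g • x) (g • y) = ang X Y u x y := by
  have : ∀ (g : H) u x y, ang X Y (g • u) (g • x) (g • y) ≤ ang X Y u x y := by
    intro g u x y
    refine ang_le fun p hp q hq => ?_
    have h1 := eqv g⁻¹ _ _ hp; have h2 := eqv g⁻¹ _ _ hq
    rw [inv_smul_smul] at h1 h2
    have := ang_spec (X := X) u x y _ h1 _ h2
    simpa only [iso.inv'] using this
  refine le_antisymm (this g u x y) ?_
  simpa using this g⁻¹ (g • u) (g • x) (g • y)

theorem Fam.a2' (F : Fam X Y ε) {u : U} {x m y : V} {c : ℕ} (h : X.Bt c x m y)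
    (hx : x ∈ Y u ∨ c + ε < ang X Y u x m) : ∃ q ∈ Y u, X.Bt (c + ε) y m q := by
  rcases hx with hx | hx
  · exact ⟨x, hx, h.symm.mono (by omega)⟩
  · obtain ⟨q, q1, q2⟩ := ang_wit hx
    refine ⟨q, q1, (F.hyp.l1 h q).resolve_left ?_⟩
    unfold Bt; omega

/-- A2. -/
theorem Fam.a2 (F : Fam X Y ε) {u : U} {x m y : V} {c : ℕ} (h : X.Bt c x m y)
    (hx : x ∈ Y u ∨ c + 2 * ε < ang X Y u x m) (hy : y ∈ Y u ∨ c + 2 * ε < ang X Y u y m) :
    ∃ p ∈ Y u, X.d m p ≤ c + 4 * ε := by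
  obtain ⟨q, q1, q2⟩ := F.a2' h (hx.imp id fun h => by omega)
  obtain ⟨q', q1', q2'⟩ := F.a2' q2 (hy.imp id fun h => by omega)
  obtain ⟨n, n1, n2⟩ := F.hyp.nb q2'
  obtain ⟨p, p1, p2⟩ := F.qc u q q' n q1 q1' n1
  have := X.tri m n p
  exact ⟨p, p1, by omega⟩

/-- A6: angles are almost additive along geodesics. -/
theorem Fam.a6 (F : Fam X Y ε) (u : U) {x m y : V} {c : ℕ} (h : X.Bt c x m y) :
    ang X Y u x m + ang X Y u m y ≤ ang X Y u x y + 2 * (c + ε) := by
  have s1 := ang_symm (X := X) (Y := Y) u x m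
  have s2 := ang_symm (X := X) (Y := Y) u y m
  have t1 := ang_tri (X := X) (Y := Y) u m x y
  have t2 := ang_tri (X := X) (Y := Y) u x y m
  by_cases h1 : ang X Y u x m ≤ c + ε
  · omega
  by_cases h2 : ang X Y u y m ≤ c + ε
  · omega
  obtain ⟨q, q1, q2⟩ := ang_wit (X := X) (Y := Y) (u := u) (x := x) (m := m)
    (θ := ang X Y u x m - 1) (by omega)
  obtain ⟨q', q1', q2'⟩ := ang_wit (X := X) (Y := Y) (u := u) (x := y) (m := m)
    (θ := ang X Y u y m - 1) (by omega)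
  have a1 := (F.hyp.l1 h q).resolve_left (by unfold Bt; omega)
  have a2 := (F.hyp.l1 h q').resolve_right (by unfold Bt; omega)
  have := ang_spec (X := X) u x y q' q1' q q1
  unfold Bt at *; omega

/-- U1. -/
theorem Fam.u1 (F : Fam X Y ε) {u u' : U} {x m p p' : V} {r : ℕ} (hp : p ∈ Y u) (hp' : p' ∈ Y u')
    (h1 : X.d m p ≤ r) (h2 : X.d m p' ≤ r) (a1 : 4 * r + 2 * ε < ang X Y u x m)
    (a2 : 4 * r + 2 * ε < ang X Y u' x m) : u = u' := by
  by_contra hne
  obtain ⟨q, q1, q2⟩ := ang_wit a1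
  obtain ⟨q', q1', q2'⟩ := ang_wit a2
  have h3 := F.ov u u' hne q' q1' p' hp' p hp q q1
  have h4 : X.Bt (4 * r + ε) q m q' := by
    have := X.tri q' p m; have := X.tri m p' q; have := X.tri p' m p
    have := X.symm p m; have := X.symm p' m; have := X.symm q m; have := X.symm q' m
    have := X.symm q q'
    unfold Bt; omega
  have := X.symm q m; have := X.symm q' m; have := X.symm x m; have := X.symm q x
  have := X.symm q' x
  rcases F.hyp.l1 h4 x with h5 | h5 <;> unfold Bt at h5 <;> omega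

theorem ang_ivt (u : U) (x y : V) {t t' : ℕ} (h : t + t' + 2 < ang X Y u x y) :
    ∃ m, X.Bt 0 x m y ∧ t < ang X Y u x m ∧ t' < ang X Y u y m := by
  obtain ⟨γ, g0, gn, hγ⟩ := X.exists_geo x y
  obtain ⟨i, hi, i1, i2⟩ := ivt (fun i => ang X Y u x (γ i) ≤ t) (X.d x y)
    (by simp [g0, ang_self]) (by rw [gn]; omega)
  have h1 := hγ.bt (Nat.zero_le (i + 1)) hi le_rfl
  rw [g0, gn] at h1
  have := ang_tri (X := X) (Y := Y) u x (γ i) (γ (i + 1))
  have := ang_tri (X := X) (Y := Y) u x (γ (i + 1)) y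
  have := ang_le_two (X := X) (Y := Y) u (γ i) (γ (i + 1))
  have := hγ i (i + 1) (by omega) hi
  have := ang_symm (X := X) (Y := Y) u y (γ (i + 1))
  exact ⟨_, h1, by omega, by omega⟩

/-- PA. -/
theorem Fam.pa {H : Type} [Group H] [MulAction H V] [MulAction H U] (F : Fam X Y ε)
    (iso : X.Iso H) (eqv : Eqv H Y) {g : H} {u : U} {p : V} {D : ℕ} (n : ℕ)
    (hp : X.d p (g • p) ≤ D) (hu : g • u ≠ u) : ang X Y u p (g ^ n • p) ≤ 100 * (D + ε) := by
  by_contra hc
  have pos := F.pos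
  obtain ⟨m, m1, m2, m3⟩ := ang_ivt (X := X) (Y := Y) u p (g ^ n • p) (t := 40 * (D + ε))
    (t' := 40 * (D + ε)) (by omega)
  have hy : X.d (g ^ n • p) (g • g ^ n • p) ≤ D :=
    (iso.disp_comm ((Commute.refl g).pow_right n) p).le.trans hp
  generalize g ^ n • p = y at *
  have hm := Sp.qc iso F.hyp hp hy m1
  have key : ∀ x, X.d x (g • x) ≤ D → 40 * (D + ε) < ang X Y u x m →
      30 * ε < ang X Y (g • u) x m := by
    intro x h1 h2
    rw [← ang_smul iso eqv g] at h2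
    have := ang_tri (X := X) (Y := Y) (g • u) (g • x) x (g • m)
    have := ang_tri (X := X) (Y := Y) (g • u) x m (g • m)
    have := ang_le_two (X := X) (Y := Y) (g • u) (g • x) x
    have := ang_le_two (X := X) (Y := Y) (g • u) m (g • m)
    have := X.symm x (g • x)
    omega
  have k1 := key p hp m2; have k2 := key y hy m3
  obtain ⟨q, q1, q2⟩ := F.a2 (u := u) m1 (Or.inr (by omega)) (Or.inr (by omega))
  obtain ⟨q', q1', q2'⟩ := F.a2 (u := g • u) m1 (Or.inr (by omega)) (Or.inr (by omega))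
  exact hu (F.u1 (x := p) q1' q1 q2' q2 (by omega) (by omega))

theorem Fam.proj (F : Fam X Y ε) (u : U) (x : V) :
    ∃ y ∈ Y u, ∀ p ∈ Y u, X.Bt (8 * ε) x y p := by
  classical
  have hex : ∃ t, ∃ y ∈ Y u, X.d x y = t := by
    obtain ⟨y, hy⟩ := F.ne u; exact ⟨_, y, hy, rfl⟩
  obtain ⟨y, y1, y2⟩ := Nat.find_spec hex
  refine ⟨y, y1, fun p hp => ?_⟩
  obtain ⟨n, n1, n2, n3⟩ := F.hyp.center y p x
  obtain ⟨z, z1, z2⟩ := F.qc u y p n y1 hp n1
  have h1 : Nat.find hex ≤ X.d x z := Nat.find_min' hex ⟨z, z1, rfl⟩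
  have := X.tri x n z; have := X.symm n x; have := X.symm y x; have := X.symm p x
  have := X.symm p n; have := X.tri y n p; have := F.pos
  unfold Bt at *; omega

theorem Fam.rot {H : Type} [Group H] [MulAction H V] [MulAction H U] (F : Fam X Y ε)
    (iso : X.Iso H) (eqv : Eqv H Y) {g : H} {u : U} {T : ℕ} (hu : g • u = u)
    (hT : ∀ y ∈ Y u, T ≤ X.d y (g • y)) (x : V) : 2 * T ≤ ang X Y u x (g • x) + 16 * ε := by
  obtain ⟨y, y1, y2⟩ := F.proj u x
  have h1 : g • y ∈ Y u := hu ▸ eqv g u y y1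
  have h2 : g⁻¹ • y ∈ Y u := by
    have := eqv g⁻¹ u y y1
    rwa [inv_smul_eq_iff.2 hu.symm] at this
  have h3 := y2 _ h1; have h4 := y2 _ h2
  have h5 := ang_spec (X := X) u x (g • x) _ h1 _ y1
  have := iso g x y; have := iso.inv' g x y; have := iso.disp_inv g y; have := hT y y1
  unfold Bt at *; omega

end Pool.Agent.P.MP_4b59b0_al
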