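import Pool.Agent.P.MP_4b59b0_al.Isom2

set_option autoImplicit false

namespace Pool.Agent.P.MP_4b59b0_al

open Sp FreeGroup

/-- Length of the longest common initial segment. -/
def lcp {β : Type} [DecidableEq β] : List β → List β → ℕ
  | a :: l, b :: l' => if a = b then lcp l l' + 1 else 0
  | _, _ => 0

theorem lcp_ultra {β : Type} [DecidableEq β] :
    ∀ l l' m : List β, lcp l m ≤ lcp l l' ∨ lcp l' m ≤ lcp l l'
  | [], _, _ => by left; simp [lcp]
  | _ :: _, [], _ => by right; simp [lcp]
  | _ :: _, _ :: _, [] => by left; simp [lcp]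
  | a :: l, b :: l', c :: m => by
    have := lcp_ultra l l' m
    simp only [lcp]
    by_cases h1 : a = c <;> by_cases h2 : b = c
    · subst h1; subst h2; simp only [if_true]; omega
    · right; simp [h2]
    · left; simp [h1]
    · left; simp [h1]

theorem norm_lcp {α : Type} [DecidableEq α] : ∀ l l' : List (α × Bool), IsReduced l →
    IsReduced l' → norm ((mk l)⁻¹ * mk l') + 2 * lcp l l' = l.length + l'.length
  | [], l', _, h' => by
    have : (mk ([] : List (α × Bool))) = 1 := rfl
    simp [this, lcp, FreeGroup.norm, h'.reduce_eq]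
  | a :: l, [], h, _ => by
    have : (mk ([] : List (α × Bool))) = 1 := rfl
    rw [this, mul_one, norm_inv_eq]
    simp only [FreeGroup.norm, toWord_mk, h.reduce_eq, lcp]; simp
  | a :: l, b :: l', h, h' => by
    by_cases e : a = b
    · subst e
      have := norm_lcp l l' h.tail h'.tail
      have e1 : ∀ l, mk (a :: l) = mk [a] * mk l := fun l => by rw [mul_mk]; rfl
      rw [e1, e1 l', mul_inv_rev, mul_assoc, inv_mul_cancel_left]
      simp only [lcp, if_true, List.length_cons]; omega
    · have hr : IsReduced (invRev (a :: l) ++ b :: l') := by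
        have h1 : IsReduced (invRev (a :: l)) :=
          IsReduced.of_reduce_eq (by rw [reduce_invRev, h.reduce_eq])
        refine List.isChain_append.2 ⟨h1, h', ?_⟩
        intro x hx y hy
        simp only [invRev, List.map_cons, List.reverse_cons, List.getLast?_append,
          List.getLast?_singleton, Option.some_or, Option.mem_def, Option.some.injEq,
          List.head?_cons] at hx hy
        subst hx; subst hy
        intro h2
        obtain ⟨a1, a2⟩ := a
        obtain ⟨b1, b2⟩ := b
        simp only at h2 ⊢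
        subst h2
        cases a2 <;> cases b2 <;> simp_all
      rw [inv_mk, mul_mk]
      simp only [FreeGroup.norm, toWord_mk, hr.reduce_eq, lcp, e, if_false]
      simp

theorem norm_lcp' {α : Type} [DecidableEq α] (x y : FreeGroup α) :
    norm (x⁻¹ * y) + 2 * lcp x.toWord y.toWord = norm x + norm y := by
  have := norm_lcp _ _ (isReduced_toWord (x := x)) (isReduced_toWord (x := y))
  rwa [mk_toWord, mk_toWord] at this

/-- The Cayley tree. -/
def tree (α : Type) [DecidableEq α] : Sp (FreeGroup α) where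
  d x y := norm (x⁻¹ * y)
  d_self x := by simp
  eq_of x y h := inv_mul_eq_one.1 (norm_eq_zero.1 h)
  symm x y := by rw [← norm_inv_eq]; simp
  tri x y z := by
    have := norm_mul_le (x⁻¹ * y) (y⁻¹ * z)
    simpa [mul_assoc] using this
  geod x y k hk := by
    set w := (x⁻¹ * y).toWord with hw
    have e : mk (w.take k) * mk (w.drop k) = x⁻¹ * y := by
      rw [mul_mk, List.take_append_drop, hw, mk_toWord]
    have h1 : norm (mk (w.take k)) ≤ k := norm_mk_le.trans (by simp)
    have h2 : norm (mk (w.drop k)) ≤ norm (x⁻¹ * y) - k :=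
      norm_mk_le.trans (by simp [FreeGroup.norm, hw])
    have h3 := norm_mul_le (mk (w.take k)) (mk (w.drop k))
    rw [e] at h3
    have e2 : (x * mk (w.take k))⁻¹ * y = mk (w.drop k) := by
      rw [mul_inv_rev, mul_assoc, ← e, inv_mul_cancel_left]
    refine ⟨x * mk (w.take k), ?_, ?_⟩
    · rw [inv_mul_cancel_left]; omega
    · rw [inv_mul_cancel_left, e2]; omega

theorem tree_iso (α : Type) [DecidableEq α] : (tree α).Iso (FreeGroup α) := by
  intro g x y
  show norm ((g * x)⁻¹ * (g * y)) = norm (x⁻¹ * y)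
  simp [mul_assoc]

theorem tree_d (α : Type) [DecidableEq α] (w x y : FreeGroup α) :
    (tree α).d x y + 2 * lcp (w⁻¹ * x).toWord (w⁻¹ * y).toWord =
      (tree α).d w x + (tree α).d w y := by
  rw [← tree_iso α w⁻¹ x y]; exact norm_lcp' _ _

theorem tree_hyp (α : Type) [DecidableEq α] : (tree α).Hyp 0 := by
  intro x y z w
  have h1 := tree_d α w x y; have h2 := tree_d α w x z; have h3 := tree_d α w y z
  have := lcp_ultra (w⁻¹ * x).toWord (w⁻¹ * y).toWord (w⁻¹ * z).toWord
  have := (tree α).symm z w; have := (tree α).symm y w; have := (tree α).symm x w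
  omega

theorem tree_free {α : Type} [DecidableEq α] {g x : FreeGroup α} (h : (tree α).d x (g • x) = 0) :
    g = 1 := by
  have := (tree α).eq_of _ _ h
  simpa using this

theorem tree_mid {α : Type} [DecidableEq α] {g : FreeGroup α} (hg : g ≠ 1) (q : FreeGroup α) :
    ∃ m, (tree α).d q m = (tree α).d q (g • q) / 2 ∧ (tree α).Bt 0 (g⁻¹ • m) m (g • m) ∧
      0 < (tree α).d m (g • m) := by
  obtain ⟨m, h1, h2⟩ := (tree α).exists_mid q (g • q)
  have h3 : (tree α).d m (g • m) ≠ 0 := fun h => hg (tree_free h)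
  refine ⟨m, h2, ?_, by omega⟩
  by_cases h4 : 1 < (tree α).d m (g • m)
  · exact (mid (tree_iso α) (tree_hyp α) h1 h2 (by omega)).1
  · have h5 := tree_d α m (g⁻¹ • m) (g • m)
    have h6 := (tree_iso α).disp_inv g m
    have h7 : (tree α).d (g⁻¹ • m) (g • m) ≠ 0 := by
      rw [(tree_iso α).inv, smul_smul]
      intro h
      have := tree_free h
      rw [← pow_two] at this
      exact hg ((pow_eq_one_iff_left (by norm_num)).1 this)
    have := (tree α).symm m (g⁻¹ • m)
    unfold Bt; omega

theorem base : ∃ X : Sp (FreeGroup (Fin 2)), CSA (FreeGroup (Fin 2)) ∧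
    (∀ δ A : ℕ, 1 ≤ δ → 1000 * δ ≤ A → Inv X (FreeGroup (Fin 2)) δ A) ∧
    (∀ (g x : FreeGroup (Fin 2)) (n : ℕ), g ≠ 1 → n ≤ X.d x (g ^ n • x)) := by
  have iso := tree_iso (Fin 2)
  have hyp := tree_hyp (Fin 2)
  have tf : ∀ (g : FreeGroup (Fin 2)) (n : ℕ), 0 < n → g ^ n = 1 → g = 1 :=
    fun g n hn h => (pow_eq_one_iff_left (by omega)).1 h
  have ct : ∀ a b c : FreeGroup (Fin 2), a ≠ 1 → Commute a b → Commute a c → Commute b c := by
    intro a b c ha hb hc
    obtain ⟨m, -, h1, h2⟩ := tree_mid ha 1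
    obtain ⟨h3, h4⟩ := ax0 iso hyp h1 (by omega)
    exact free_ct iso hyp h3 h4 (fun h hh => tree_free (x := m) (by omega)) hb hc
  refine ⟨tree _, ⟨tf, ct, fun a x ha hx => ?_⟩, fun δ A h1 hA => ⟨iso, hyp.mono (by omega), h1,
    fun g h x y gx gy hx hy hd => ?_, fun g h p q h1 hc hp hq => ?_⟩, fun g x n hg => ?_⟩
  · obtain ⟨m, -, h1, h2⟩ := tree_mid ha 1
    obtain ⟨h3, h4⟩ := ax0 iso hyp h1 (by omega)
    exact mal_of_conj tf ct (free_conj iso hyp h3 h4 (fun h hh => tree_free (x := m) (by omega)) hx)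
  · obtain ⟨m, m1, m2⟩ := (tree _).geod' x y (200 * δ + 1) (by omega)
    have := (tree _).tri x m y; have := (tree _).symm y m
    have h2 := comm iso hyp gx gy hx hy m2 (by omega) (by omega)
    have h3 := (tree _).eq_of _ _ (Nat.le_zero.1 h2)
    rw [smul_smul, smul_smul] at h3
    exact mul_right_cancel h3
  · obtain ⟨m, m1, m2, m3⟩ := tree_mid h1 q
    have h2 := (ax0 iso hyp m2 (by omega)).2.move iso hyp hc.symm p
    have := iso.disp_move g q m
    omega
  · obtain ⟨m, -, m2, m3⟩ := tree_mid hg x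
    have h2 := pow_lower iso hyp m2 (by omega) n x
    have : n * 1 ≤ n * (tree _).d m (g • m) := Nat.mul_le_mul_left _ m3
    omega

end Pool.Agent.P.MP_4b59b0_al
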