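import Mathlib

set_option autoImplicit false

namespace Pool.Agent.P.MP_4b59b0_al

/-- A geodesic integer-valued metric space (the vertex set of a connected graph). -/
structure Sp (V : Type) where
  d : V → V → ℕ
  d_self : ∀ x, d x x = 0
  eq_of : ∀ x y, d x y = 0 → x = y
  symm : ∀ x y, d x y = d y x
  tri : ∀ x y z, d x z ≤ d x y + d y z
  geod : ∀ x y k, k ≤ d x y → ∃ m, d x m = k ∧ d x m + d m y = d x y

namespace Sp

variable {V : Type} (X : Sp V)

/-- Four point condition. -/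
def Hyp (δ : ℕ) : Prop := ∀ x y z w,
  X.d x y + X.d z w ≤ X.d x z + X.d y w + δ ∨ X.d x y + X.d z w ≤ X.d x w + X.d y z + δ

/-- `m` is `c`-between `x` and `y`. -/
def Bt (c : ℕ) (x m y : V) : Prop := X.d x m + X.d m y ≤ X.d x y + c

/-- Every geodesic from `a` to `b` passes through `w`. -/
def On (a b w : V) : Prop :=
  X.Bt 0 a w b ∧ ∀ m, X.Bt 0 a m b → X.d a m = X.d a w → m = w

/-- A point on a side of a triangle is nearly between the endpoints of another side. -/
def Rips (δ : ℕ) : Prop := ∀ x y m z, X.Bt 0 x m y → X.Bt δ x m z ∨ X.Bt δ y m z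

/-- `γ 0, ..., γ n` is a geodesic path. -/
def IsGeo (γ : ℕ → V) (n : ℕ) : Prop := ∀ i j, i ≤ j → j ≤ n → X.d (γ i) (γ j) = j - i

variable {X}

theorem Hyp.mono {δ δ' : ℕ} (h : X.Hyp δ) (hd : δ ≤ δ') : X.Hyp δ' := by
  intro x y z w
  rcases h x y z w with h | h
  · left; omega
  · right; omega

theorem Bt.mono {c c' : ℕ} {x m y : V} (h : X.Bt c x m y) (hc : c ≤ c') : X.Bt c' x m y := by
  unfold Bt at *; omega

theorem Bt.symm {c : ℕ} {x m y : V} (h : X.Bt c x m y) : X.Bt c y m x := by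
  unfold Bt at *
  have := X.symm x m; have := X.symm m y; have := X.symm x y; omega

theorem bt_left (c : ℕ) (x y : V) : X.Bt c x x y := by
  unfold Bt; have := X.d_self x; omega

theorem bt_right (c : ℕ) (x y : V) : X.Bt c x y y := by
  unfold Bt; have := X.d_self y; omega

theorem d_pos {x y : V} (h : x ≠ y) : 0 < X.d x y :=
  Nat.pos_of_ne_zero fun h0 => h (X.eq_of x y h0)

theorem geod' (X : Sp V) (x y : V) (k : ℕ) (hk : k ≤ X.d x y) :
    ∃ m, X.d x m = k ∧ X.Bt 0 x m y := by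
  obtain ⟨m, h1, h2⟩ := X.geod x y k hk
  exact ⟨m, h1, by unfold Bt; omega⟩

theorem On.symm {a b w : V} (h : X.On a b w) : X.On b a w := by
  refine ⟨h.1.symm, fun m hm hd => h.2 m hm.symm ?_⟩
  have h1 := h.1
  unfold Bt at *
  have := X.tri a m b; have := X.tri a w b
  have := X.symm a m; have := X.symm m b; have := X.symm a b; have := X.symm w b
  have := X.symm b m
  omega

/-- L1. -/
theorem Hyp.l1 {δ c : ℕ} (hδ : X.Hyp δ) {x m y : V} (h : X.Bt c x m y) (w : V) :
    X.Bt (c + δ) x m w ∨ X.Bt (c + δ) y m w := by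
  unfold Bt at *
  have := X.symm y m
  rcases hδ x y m w with h1 | h1
  · right; omega
  · left; omega

theorem Hyp.rips {δ : ℕ} (hδ : X.Hyp δ) : X.Rips δ := by
  intro x y m z h
  simpa using hδ.l1 h z

/-- L2: two points between `x` and `y` are close if they are at the same distance from `x`. -/
theorem Hyp.l2 {δ c c' : ℕ} (hδ : X.Hyp δ) {x y m m' : V} (h : X.Bt c x m y)
    (h' : X.Bt c' x m' y) :
    X.d x m + X.d m m' ≤ X.d x m' + c + δ ∨ X.d x m' + X.d m m' ≤ X.d x m + c' + δ := by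
  unfold Bt at *
  have := X.symm m' y; have := X.symm m y
  rcases hδ x y m m' with h1 | h1
  · right; omega
  · left; omega

/-- NB: a `c`-between point is close to an exactly between point. -/
theorem Hyp.nb {δ c : ℕ} (hδ : X.Hyp δ) {x y m : V} (h : X.Bt c x m y) :
    ∃ n, X.Bt 0 x n y ∧ X.d m n ≤ c + δ := by
  by_cases hk : X.d x m ≤ X.d x y
  · obtain ⟨n, h1, h2⟩ := X.geod' x y _ hk
    refine ⟨n, h2, ?_⟩
    rcases hδ.l2 h h2 with h3 | h3 <;> omega
  · refine ⟨y, bt_right 0 x y, ?_⟩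
    unfold Bt at h; omega

/-- BC: changing the endpoints by a bounded amount. -/
theorem Hyp.bc {δ c D : ℕ} (hδ : X.Hyp δ) {a b a' b' m : V} (h : X.Bt c a m b)
    (ha : X.d a a' ≤ D) (hb : X.d b b' ≤ D) (fa : D + c + δ < X.d a m)
    (fb : D + c + δ < X.d b m) : X.Bt (c + δ) a' m b ∧ X.Bt (c + 2 * δ) a' m b' := by
  have h1 : X.Bt (c + δ) a' m b := by
    rcases hδ.l1 h a' with h1 | h1
    · unfold Bt at h1
      have := X.tri a a' m; have := X.symm m a'; omega
    · exact h1.symm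
  refine ⟨h1, ?_⟩
  rcases hδ.l1 h1 b' with h2 | h2
  · exact h2.mono (by omega)
  · unfold Bt at h2
    have := X.tri b b' m; have := X.symm m b'; omega

/-- Moving the endpoints costs twice the displacement. -/
theorem Bt.move {c D D' : ℕ} {a b a' b' m : V} (h : X.Bt c a m b)
    (ha : X.d a a' ≤ D) (hb : X.d b b' ≤ D') : X.Bt (c + 2 * D + 2 * D') a' m b' := by
  unfold Bt at *
  have := X.tri a' a m; have := X.tri m b b'; have := X.tri a a' b; have := X.tri a' b' b
  have := X.symm a a'; have := X.symm b b'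
  omega

/-- Moving the middle point costs twice the displacement. -/
theorem Bt.move_mid {c D : ℕ} {a b m m' : V} (h : X.Bt c a m b)
    (hm : X.d m m' ≤ D) : X.Bt (c + 2 * D) a m' b := by
  unfold Bt at *
  have := X.tri a m m'; have := X.tri m' m b; have := X.symm m m'
  omega

theorem Bt.trans_left {c c' : ℕ} {a b m m' : V} (h : X.Bt c a m b) (h' : X.Bt c' a m' m) :
    X.Bt (c + c') a m' b ∧ X.Bt (c + c') m' m b := by
  unfold Bt at *
  have := X.tri m' m b; have := X.tri a m' b; have := X.tri a m' m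
  constructor <;> omega

theorem Bt.trans_right {c c' : ℕ} {a b m m' : V} (h : X.Bt c a m b) (h' : X.Bt c' m m' b) :
    X.Bt (c + c') a m' b ∧ X.Bt (c + c') a m m' := by
  unfold Bt at *
  have := X.tri a m m'; have := X.tri a m' b; have := X.tri m m' b
  constructor <;> omega

/-- The center of a triangle. -/
theorem Hyp.center {δ : ℕ} (hδ : X.Hyp δ) (x y z : V) :
    ∃ n, X.Bt 0 x n y ∧ X.Bt (δ + 2) x n z ∧ X.Bt (δ + 2) y n z := by
  have t1 := X.tri x z y; have t2 := X.tri x y z; have t3 := X.tri y x z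
  have s1 := X.symm x y; have s2 := X.symm z y
  obtain ⟨n, h1, h2⟩ := X.geod' x y ((X.d x y + X.d x z - X.d y z) / 2) (by omega)
  refine ⟨n, h2, ?_⟩
  have h3 := hδ.l1 h2 z
  have := X.tri x n y; have := X.symm y n
  unfold Bt at *
  omega

/-- OV1: a positive overlap of two segments is realised by two points. -/
theorem Hyp.ov1 {δ t : ℕ} (hδ : X.Hyp δ) {x y p q : V}
    (h : X.d x q + X.d y p + 2 * t + 4 * δ + 4 ≤ X.d x p + X.d y q) :
    ∃ m m', X.Bt 0 x m y ∧ X.Bt 0 x m' y ∧ X.Bt (2 * δ) q m p ∧ X.Bt (2 * δ) q m' p ∧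
      X.d x m + t = X.d x m' := by
  have t1 := X.tri x y q; have t2 := X.tri y x q; have t3 := X.tri x y p; have t4 := X.tri y x p
  have s1 := X.symm x y
  have key : ∀ m, X.Bt 0 x m y → X.d x y + X.d x q + 2 * δ < 2 * X.d x m + X.d y q →
      2 * X.d x m + X.d y p + 2 * δ < X.d x y + X.d x p → X.Bt (2 * δ) q m p := by
    intro m hm h1 h2
    have e1 := X.tri x m y; have e2 := X.symm y m; have e3 := X.symm m q; have e4 := X.symm m p
    have e5 := X.tri y m q; have e6 := X.tri x m p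
    have hq : X.Bt δ y m q := by
      rcases hδ.l1 hm q with h3 | h3
      · unfold Bt at *; omega
      · simpa using h3
    rcases hδ.l1 hq p with h3 | h3
    · unfold Bt at *; omega
    · exact h3.mono (by omega)
  obtain ⟨m, hm1, hm2⟩ := X.geod' x y ((X.d x y + X.d x q - X.d y q) / 2 + δ + 1) (by omega)
  obtain ⟨m', hm1', hm2'⟩ := X.geod' x y ((X.d x y + X.d x q - X.d y q) / 2 + δ + 1 + t) (by omega)
  exact ⟨m, m', hm2, hm2', key m hm2 (by omega) (by omega), key m' hm2' (by omega) (by omega),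
    by omega⟩

theorem exists_geo_aux (X : Sp V) (y : V) : ∀ (n : ℕ) (x : V), X.d x y = n →
    ∃ γ : ℕ → V, γ 0 = x ∧ γ n = y ∧ ∀ i, i < n → X.d (γ i) (γ (i + 1)) ≤ 1 := by
  intro n
  induction n with
  | zero => intro x hx; exact ⟨fun _ => x, rfl, X.eq_of _ _ hx, fun i hi => by omega⟩
  | succ n ih =>
    intro x hx
    obtain ⟨m, h1, h2⟩ := X.geod x y 1 (by omega)
    obtain ⟨γ, g0, gn, gs⟩ := ih m (by omega)
    refine ⟨fun i => Nat.casesOn i x γ, rfl, gn, fun i hi => ?_⟩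
    cases i with
    | zero => simp [g0, h1]
    | succ i => exact gs i (by omega)

theorem path_le {γ : ℕ → V} {n : ℕ} (h : ∀ i, i < n → X.d (γ i) (γ (i + 1)) ≤ 1) :
    ∀ i j, i ≤ j → j ≤ n → X.d (γ i) (γ j) ≤ j - i := by
  intro i j hij
  induction j, hij using Nat.le_induction with
  | base => intro _; simp [X.d_self]
  | succ j hij ih =>
    intro hj
    have := ih (by omega); have := h j (by omega); have := X.tri (γ i) (γ j) (γ (j + 1))
    omega

theorem isGeo_of_path {γ : ℕ → V} {n : ℕ} (h : ∀ i, i < n → X.d (γ i) (γ (i + 1)) ≤ 1)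
    (hn : n ≤ X.d (γ 0) (γ n)) : X.IsGeo γ n := by
  intro i j hij hj
  have h1 := path_le h 0 i (by omega) (by omega)
  have h2 := path_le h i j hij hj
  have h3 := path_le h j n hj le_rfl
  have := X.tri (γ 0) (γ i) (γ n); have := X.tri (γ i) (γ j) (γ n)
  omega

/-- There is a geodesic path between any two points. -/
theorem exists_geo (X : Sp V) (x y : V) :
    ∃ γ : ℕ → V, γ 0 = x ∧ γ (X.d x y) = y ∧ X.IsGeo γ (X.d x y) := by
  obtain ⟨γ, g0, gn, gs⟩ := X.exists_geo_aux y _ x rfl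
  exact ⟨γ, g0, gn, isGeo_of_path gs (by rw [g0, gn])⟩

/-- There is a geodesic path through any between point. -/
theorem exists_geo_through {x y m : V} (h : X.Bt 0 x m y) :
    ∃ γ : ℕ → V, γ 0 = x ∧ γ (X.d x y) = y ∧ γ (X.d x m) = m ∧ X.IsGeo γ (X.d x y) := by
  obtain ⟨α, a0, an, as⟩ := X.exists_geo_aux m _ x rfl
  obtain ⟨β, b0, bn, bs⟩ := X.exists_geo_aux y _ m rfl
  have ht := X.tri x m y
  unfold Bt at h
  have e : X.d x y = X.d x m + X.d m y := by omega
  let γ : ℕ → V := fun i => if i ≤ X.d x m then α i else β (i - X.d x m)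
  have hβ : ∀ i, γ (X.d x m + i) = β i := by
    intro i
    by_cases hi : i = 0
    · subst hi; simp [γ, an, b0]
    · have : ¬ (X.d x m + i ≤ X.d x m) := by omega
      simp only [γ, this, if_false]; congr 1; omega
  have g0 : γ 0 = x := by simp [γ, a0]
  have gn : γ (X.d x y) = y := by rw [e, hβ, bn]
  refine ⟨γ, g0, gn, by simp [γ, an], isGeo_of_path (fun i hi => ?_) (by rw [g0, gn])⟩
  by_cases h1 : i < X.d x m
  · have h2 : i ≤ X.d x m := by omega
    have h3 : i + 1 ≤ X.d x m := by omega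
    simp only [γ, h2, h3, if_true]; exact as i h1
  · obtain ⟨k, rfl⟩ : ∃ k, i = X.d x m + k := ⟨i - X.d x m, by omega⟩
    rw [add_assoc, hβ, hβ]; exact bs k (by omega)

theorem IsGeo.bt {γ : ℕ → V} {n i j k : ℕ} (h : X.IsGeo γ n) (hij : i ≤ j) (hjk : j ≤ k)
    (hk : k ≤ n) : X.Bt 0 (γ i) (γ j) (γ k) := by
  unfold Bt
  rw [h i j hij (by omega), h j k hjk hk, h i k (by omega) hk]; omega

theorem IsGeo.d_le {γ : ℕ → V} {n i j t : ℕ} (h : X.IsGeo γ n) (hi : i ≤ n) (hj : j ≤ n)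
    (h1 : i ≤ j + t) (h2 : j ≤ i + t) : X.d (γ i) (γ j) ≤ t := by
  rcases le_total i j with h3 | h3
  · rw [h i j h3 hj]; omega
  · rw [X.symm, h j i h3 hi]; omega

/-- Discrete intermediate value principle. -/
theorem ivt (P : ℕ → Prop) (n : ℕ) (h0 : P 0) (hn : ¬ P n) : ∃ i, i < n ∧ P i ∧ ¬ P (i + 1) := by
  induction n with
  | zero => exact absurd h0 hn
  | succ n ih =>
    by_cases h : P n
    · exact ⟨n, by omega, h, hn⟩
    · obtain ⟨i, h1, h2⟩ := ih h
      exact ⟨i, by omega, h2⟩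

theorem Rips.hyp {δ : ℕ} (h : X.Rips δ) : X.Hyp (2 * δ + 2) := by
  intro x y z w
  obtain ⟨γ, g0, gn, hγ⟩ := X.exists_geo x y
  by_contra hc
  push Not at hc
  obtain ⟨c1, c2⟩ := hc
  have hb : ∀ i, i ≤ X.d x y → X.Bt 0 x (γ i) y := by
    intro i hi
    have := hγ.bt (Nat.zero_le i) hi le_rfl
    rwa [g0, gn] at this
  have key : ∀ i j, i ≤ X.d x y → j ≤ X.d x y → i ≤ j + 1 → j ≤ i + 1 →
      ¬ (X.Bt δ x (γ i) z ∧ X.Bt δ y (γ j) w) ∧ ¬ (X.Bt δ x (γ i) w ∧ X.Bt δ y (γ j) z) := by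
    intro i j hi hj h1 h2
    have e1 := hγ.d_le hi hj h1 h2
    have e2 := X.tri x (γ i) y; have e3 := X.tri (γ i) (γ j) y
    have e4 := X.tri z (γ i) w; have e5 := X.tri (γ i) (γ j) w
    have e6 := X.tri z (γ j) w; have e7 := X.tri (γ j) (γ i) w
    have := X.symm z (γ i); have := X.symm z (γ j); have := X.symm y (γ j)
    have := X.symm (γ i) (γ j)
    unfold Bt
    constructor <;> rintro ⟨h3, h4⟩ <;> omega
  have hP0 : X.Bt δ x (γ 0) z := by rw [g0]; exact bt_left _ _ _
  have hPn : ¬ X.Bt δ x (γ (X.d x y)) z := by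
    intro h1
    refine (key _ _ le_rfl le_rfl (by omega) (by omega)).1 ⟨h1, ?_⟩
    rw [gn]; exact bt_left _ _ _
  obtain ⟨i, hi, h1, h2⟩ := ivt (fun i => X.Bt δ x (γ i) z) _ hP0 hPn
  have h3 : X.Bt δ y (γ (i + 1)) z := (h x y _ z (hb (i + 1) (by omega))).resolve_left h2
  rcases h x y _ w (hb (i + 1) (by omega)) with h4 | h4
  · exact (key (i + 1) (i + 1) (by omega) (by omega) (by omega) (by omega)).2 ⟨h4, h3⟩
  · exact (key i (i + 1) (by omega) (by omega) (by omega) (by omega)).1 ⟨h1, h4⟩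

end Sp

/-! ### The path metric of a connected graph given by a reflexive symmetric relation -/

/-- Walks of length (at most) `n`. -/
def Walk {W : Type} (R : W → W → Prop) : ℕ → W → W → Prop
  | 0, x, y => x = y
  | n + 1, x, y => ∃ m, R x m ∧ Walk R n m y

theorem Walk.append {W : Type} {R : W → W → Prop} :
    ∀ {n k : ℕ} {x y z : W}, Walk R n x y → Walk R k y z → Walk R (n + k) x z := by
  intro n
  induction n with
  | zero => intro k x y z h1 h2; cases h1; simpa using h2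
  | succ n ih =>
    rintro k x y z ⟨m, h1, h2⟩ h3
    rw [Nat.add_right_comm]
    exact ⟨m, h1, ih h2 h3⟩

theorem Walk.split {W : Type} {R : W → W → Prop} :
    ∀ {n k : ℕ} {x z : W}, Walk R (n + k) x z → ∃ y, Walk R n x y ∧ Walk R k y z := by
  intro n
  induction n with
  | zero => intro k x z h; exact ⟨x, rfl, by simpa using h⟩
  | succ n ih =>
    intro k x z h
    rw [Nat.add_right_comm] at h
    obtain ⟨m, h1, h2⟩ := h
    obtain ⟨y, h3, h4⟩ := ih h2
    exact ⟨y, ⟨m, h1, h3⟩, h4⟩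

theorem Walk.single {W : Type} {R : W → W → Prop} {x y : W} (h : R x y) : Walk R 1 x y :=
  ⟨y, h, rfl⟩

theorem Walk.rev {W : Type} {R : W → W → Prop} (hs : ∀ x y, R x y → R y x) :
    ∀ {n : ℕ} {x y : W}, Walk R n x y → Walk R n y x := by
  intro n
  induction n with
  | zero => intro x y h; exact h.symm
  | succ n ih =>
    rintro x y ⟨m, h1, h2⟩
    exact (ih h2).append (Walk.single (hs _ _ h1))

theorem Walk.refl {W : Type} {R : W → W → Prop} (hr : ∀ x, R x x) :
    ∀ (n : ℕ) (x : W), Walk R n x x := by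
  intro n
  induction n with
  | zero => intro x; rfl
  | succ n ih => intro x; exact ⟨x, hr x, ih x⟩

theorem Walk.map {W : Type} {R : W → W → Prop} (f : W → W) (hf : ∀ x y, R x y → R (f x) (f y)) :
    ∀ {n : ℕ} {x y : W}, Walk R n x y → Walk R n (f x) (f y) := by
  intro n
  induction n with
  | zero => intro x y h; cases h; rfl
  | succ n ih => rintro x y ⟨m, h1, h2⟩; exact ⟨f m, hf _ _ h1, ih h2⟩

/-- A connected graph, given by a reflexive symmetric relation. -/
structure Gr (W : Type) where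
  R : W → W → Prop
  refl : ∀ x, R x x
  symm : ∀ x y, R x y → R y x
  conn : ∀ x y, ∃ n, Walk R n x y

namespace Gr

variable {W : Type} (Γ : Gr W)

open Classical in
noncomputable def dist (x y : W) : ℕ := Nat.find (Γ.conn x y)

theorem dist_spec (x y : W) : Walk Γ.R (Γ.dist x y) x y := by
  classical exact Nat.find_spec (Γ.conn x y)

theorem dist_le_iff {x y : W} {n : ℕ} : Γ.dist x y ≤ n ↔ Walk Γ.R n x y := by
  classical
  constructor
  · intro h
    obtain ⟨k, rfl⟩ := Nat.exists_eq_add_of_le h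
    exact (Γ.dist_spec x y).append (Walk.refl Γ.refl k y)
  · intro h; exact Nat.find_min' _ h

/-- The path metric. -/
noncomputable def sp : Sp W where
  d := Γ.dist
  d_self x := Nat.le_zero.1 (Γ.dist_le_iff.2 rfl)
  eq_of x y h := Γ.dist_le_iff.1 (Nat.le_zero.2 h)
  symm x y := le_antisymm (Γ.dist_le_iff.2 ((Γ.dist_spec y x).rev Γ.symm))
    (Γ.dist_le_iff.2 ((Γ.dist_spec x y).rev Γ.symm))
  tri x y z := Γ.dist_le_iff.2 ((Γ.dist_spec x y).append (Γ.dist_spec y z))
  geod x y k hk := by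
    obtain ⟨j, hj⟩ := Nat.exists_eq_add_of_le hk
    have h := Γ.dist_spec x y
    rw [hj] at h
    obtain ⟨m, h1, h2⟩ := h.split
    have h3 := Γ.dist_le_iff.2 h1
    have h4 := Γ.dist_le_iff.2 h2
    have h5 : Γ.dist x y ≤ Γ.dist x m + Γ.dist m y :=
      Γ.dist_le_iff.2 ((Γ.dist_spec x m).append (Γ.dist_spec m y))
    exact ⟨m, by omega, by omega⟩

theorem d_le_iff {x y : W} {n : ℕ} : Γ.sp.d x y ≤ n ↔ Walk Γ.R n x y := Γ.dist_le_iff

theorem d_le_one {x y : W} : Γ.sp.d x y ≤ 1 ↔ Γ.R x y := by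
  rw [d_le_iff]
  constructor
  · rintro ⟨m, h1, h2⟩; cases h2; exact h1
  · exact Walk.single

theorem d_map_le (f : W → W) (hf : ∀ x y, Γ.R x y → Γ.R (f x) (f y)) (x y : W) :
    Γ.sp.d (f x) (f y) ≤ Γ.sp.d x y :=
  Γ.d_le_iff.2 ((Γ.dist_spec x y).map f hf)

end Gr

end Pool.Agent.P.MP_4b59b0_al
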