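import Pool.Agent.P.MP_4b59b0_al.Basic

set_option autoImplicit false

namespace Pool.Agent.P.MP_4b59b0_al

open Sp

theorem bow_num (h : ℕ) : ∃ F, ∀ t, F < t → ∃ k, 4 * t + 4 * h + 2 ≤ 2 ^ k ∧
    2 * h + h * (k + 1) < t := by
  refine ⟨h * (10 * h + 10) + 2 * h + 1, fun t ht => ?_⟩
  have hsq : ∀ k, 4 ≤ k → k * k ≤ 2 ^ k := by
    intro k hk
    induction k, hk using Nat.le_induction with
    | base => norm_num
    | succ k hk ih => rw [pow_succ]; nlinarith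
  classical
  have hex : ∃ k, 4 * t + 4 * h + 2 ≤ 2 ^ k := ⟨_, Nat.lt_two_pow_self.le⟩
  refine ⟨Nat.find hex, Nat.find_spec hex, ?_⟩
  by_contra hc
  push Not at hc
  obtain ⟨k, hk⟩ : ∃ k, Nat.find hex = k := ⟨_, rfl⟩
  have h1 : 10 * h + 6 ≤ k := by
    by_contra h1
    have : h * (k + 1) ≤ h * (10 * h + 10) := Nat.mul_le_mul_left _ (by omega)
    rw [hk] at hc; omega
  have h2 := Nat.find_min hex (m := k - 1) (by omega)
  have h3 := hsq (k - 1) (by omega)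
  rw [hk] at hc
  obtain ⟨j, rfl⟩ : ∃ j, k = j + 1 := ⟨k - 1, by omega⟩
  simp only [Nat.add_sub_cancel] at h2 h3
  have h4 : (10 * h + 5) * j ≤ j * j := Nat.mul_le_mul_right _ (by omega)
  have h5 : h * 5 ≤ h * j := Nat.mul_le_mul_left _ (by omega)
  nlinarith

section

variable {W : Type} {Z : Sp W} {L : W → W → Set W} {h : ℕ}

theorem bow_dyadic (hsymm : ∀ a b c, c ∈ L a b → c ∈ L b a)
    (thin : ∀ a b e c, c ∈ L a b → ∃ c', (c' ∈ L a e ∨ c' ∈ L b e) ∧ Z.d c c' ≤ h)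
    (adj : ∀ a b c, Z.d a b ≤ 1 → c ∈ L a b → Z.d a c ≤ h)
    {γ : ℕ → W} {n : ℕ} (hγ : Z.IsGeo γ n) (k : ℕ) : ∀ i j c, i ≤ j → j ≤ n → j ≤ i + 2 ^ k →
      c ∈ L (γ i) (γ j) → ∃ l, i ≤ l ∧ l ≤ j ∧ Z.d c (γ l) ≤ h * (k + 1) := by
  induction k with
  | zero =>
    intro i j c hij hj hk hc
    refine ⟨i, le_rfl, hij, ?_⟩
    have := adj _ _ c (by rw [hγ i j hij hj]; omega) hc
    rw [Z.symm]; omega
  | succ k ih =>
    intro i j c hij hj hk hc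
    obtain ⟨c', h1, h2⟩ := thin _ _ (γ (min j (i + 2 ^ k))) c hc
    rw [pow_succ] at hk
    have : ∃ l, i ≤ l ∧ l ≤ j ∧ Z.d c' (γ l) ≤ h * (k + 1) := by
      rcases h1 with h1 | h1
      · obtain ⟨l, l1, l2, l3⟩ := ih i _ c' (by omega) (by omega) (by omega) h1
        exact ⟨l, l1, by omega, l3⟩
      · obtain ⟨l, l1, l2, l3⟩ := ih _ j c' (by omega) (by omega) (by omega) (hsymm _ _ _ h1)
        exact ⟨l, by omega, l2, l3⟩
    obtain ⟨l, l1, l2, l3⟩ := this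
    refine ⟨l, l1, l2, ?_⟩
    have := Z.tri c c' (γ l)
    rw [mul_add h (k + 1)]; omega

theorem bow_boot (hsymm : ∀ a b c, c ∈ L a b → c ∈ L b a)
    (thin : ∀ a b e c, c ∈ L a b → ∃ c', (c' ∈ L a e ∨ c' ∈ L b e) ∧ Z.d c c' ≤ h)
    (adj : ∀ a b c, Z.d a b ≤ 1 → c ∈ L a b → Z.d a c ≤ h)
    {γ : ℕ → W} {n : ℕ} (hγ : Z.IsGeo γ n) {F : ℕ}
    (hF : ∀ t, F < t → ∃ k, 4 * t + 4 * h + 2 ≤ 2 ^ k ∧ 2 * h + h * (k + 1) < t) :
    ∀ i j c, i ≤ j → j ≤ n → c ∈ L (γ i) (γ j) → ∃ l, i ≤ l ∧ l ≤ j ∧ Z.d c (γ l) ≤ F := by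
  have step : ∀ t, (∀ i j c, i ≤ j → j ≤ n → c ∈ L (γ i) (γ j) →
      ∃ l, i ≤ l ∧ l ≤ j ∧ Z.d c (γ l) ≤ t + 1) → F ≤ t →
      ∀ i j c, i ≤ j → j ≤ n → c ∈ L (γ i) (γ j) → ∃ l, i ≤ l ∧ l ≤ j ∧ Z.d c (γ l) ≤ t := by
    intro t ht hFt i j c hij hj hc
    obtain ⟨k, k1, k2⟩ := hF (t + 1) (by omega)
    obtain ⟨l, l1, l2, l3⟩ := ht i j c hij hj hc
    obtain ⟨i', hi'⟩ : ∃ i', i' = max i (l - (2 * t + 2 * h + 3)) := ⟨_, rfl⟩
    obtain ⟨j', hj'⟩ : ∃ j', j' = min j (l + (2 * t + 2 * h + 3)) := ⟨_, rfl⟩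
    obtain ⟨c₁, a1, a2⟩ := thin _ _ (γ i') c hc
    rcases a1 with a1 | a1
    · obtain ⟨l', m1, m2, m3⟩ := ht i i' c₁ (by omega) (by omega) a1
      by_cases e : i' = i
      · rw [e] at a1
        have := adj _ _ _ (by rw [Z.d_self]; omega) a1
        have := Z.tri c c₁ (γ i); have := Z.symm c₁ (γ i)
        exact ⟨i, le_rfl, hij, by omega⟩
      · exfalso
        have := hγ l' l (by omega) (by omega)
        have := Z.tri (γ l') c₁ (γ l); have := Z.tri c₁ c (γ l)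
        have := Z.symm c₁ c; have := Z.symm c₁ (γ l')
        omega
    · obtain ⟨c₂, b1, b2⟩ := thin _ _ (γ j') c₁ a1
      have := Z.tri c c₁ c₂
      rcases b1 with b1 | b1
      · obtain ⟨l', m1, m2, m3⟩ := ht j' j c₂ (by omega) (by omega) (hsymm _ _ _ b1)
        by_cases e : j' = j
        · rw [e] at b1
          have := adj _ _ _ (by rw [Z.d_self]; omega) b1
          have := Z.tri c c₂ (γ j); have := Z.symm c₂ (γ j)
          have : h * 1 ≤ h * (k + 1) := Nat.mul_le_mul_left _ (by omega)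
          exact ⟨j, hij, le_rfl, by omega⟩
        · exfalso
          have := hγ l l' (by omega) (by omega)
          have := Z.tri (γ l) c (γ l'); have := Z.tri c c₂ (γ l')
          have := Z.symm (γ l) c
          omega
      · obtain ⟨l', m1, m2, m3⟩ := bow_dyadic hsymm thin adj hγ k i' j' c₂ (by omega) (by omega)
          (by omega) b1
        have := Z.tri c c₂ (γ l')
        exact ⟨l', by omega, by omega, by omega⟩
  have all : ∀ e, (∀ i j c, i ≤ j → j ≤ n → c ∈ L (γ i) (γ j) →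
      ∃ l, i ≤ l ∧ l ≤ j ∧ Z.d c (γ l) ≤ F + e) →
      ∀ i j c, i ≤ j → j ≤ n → c ∈ L (γ i) (γ j) → ∃ l, i ≤ l ∧ l ≤ j ∧ Z.d c (γ l) ≤ F := by
    intro e
    induction e with
    | zero => exact fun h => h
    | succ e ih => exact fun h => ih (step (F + e) h (by omega))
  refine all (h * (n + 1)) fun i j c hij hj hc => ?_
  obtain ⟨l, l1, l2, l3⟩ := bow_dyadic hsymm thin adj hγ n i j c hij hj
    (by have : n < 2 ^ n := Nat.lt_two_pow_self
        omega) hc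
  exact ⟨l, l1, l2, by omega⟩

end

theorem bowditch (h : ℕ) : ∃ δ₀ K : ℕ, ∀ (W : Type) (Z : Sp W) (L : W → W → Set W),
    (∀ a b c, c ∈ L a b → c ∈ L b a) → (∀ a b, a ∈ L a b) →
    (∀ a b, Relation.ReflTransGen (fun c c' => c' ∈ L a b ∧ Z.d c c' ≤ h) a b) →
    (∀ a b e c, c ∈ L a b → ∃ c', (c' ∈ L a e ∨ c' ∈ L b e) ∧ Z.d c c' ≤ h) →
    (∀ a b c, Z.d a b ≤ 1 → c ∈ L a b → Z.d a c ≤ h) →
    Z.Hyp δ₀ ∧ (∀ a b c, c ∈ L a b → ∃ m, Z.Bt 0 a m b ∧ Z.d c m ≤ K) ∧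
      (∀ a b m, Z.Bt 0 a m b → ∃ c ∈ L a b, Z.d m c ≤ K) := by
  obtain ⟨F, hF⟩ := bow_num h
  refine ⟨2 * (2 * (4 * F + 2 * h)) + 2, 3 * F + h, fun W Z L hsymm hmem conn thin adj => ?_⟩
  have h1 : ∀ a b c, c ∈ L a b → ∃ m, Z.Bt 0 a m b ∧ Z.d c m ≤ F := by
    intro a b c hc
    obtain ⟨γ, g0, gn, hγ⟩ := Z.exists_geo a b
    obtain ⟨l, l1, l2, l3⟩ := bow_boot hsymm thin adj hγ hF 0 _ c (Nat.zero_le _) le_rfl
      (by rwa [g0, gn])
    refine ⟨γ l, ?_, l3⟩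
    have := hγ.bt l1 l2 le_rfl
    rwa [g0, gn] at this
  have h2 : ∀ a b m, Z.Bt 0 a m b → ∃ c ∈ L a b, Z.d m c ≤ 3 * F + h := by
    intro a b m hm
    obtain ⟨γ, g0, gn, gm, hγ⟩ := exists_geo_through hm
    have hk : Z.d a m ≤ Z.d a b := by unfold Bt at hm; omega
    have near : ∀ c ∈ L a b, ∃ l, l ≤ Z.d a b ∧ Z.d c (γ l) ≤ F := by
      intro c hc
      obtain ⟨l, -, l2, l3⟩ := bow_boot hsymm thin adj hγ hF 0 _ c (Nat.zero_le _) le_rfl
        (by rwa [g0, gn])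
      exact ⟨l, l2, l3⟩
    by_contra hc
    push Not at hc
    have key : ∀ e, Relation.ReflTransGen (fun c c' => c' ∈ L a b ∧ Z.d c c' ≤ h) a e →
        e ∈ L a b ∧ ∃ i, i ≤ Z.d a m ∧ Z.d e (γ i) ≤ F := by
      intro e he
      induction he with
      | refl => exact ⟨hmem a b, 0, Nat.zero_le _, by rw [g0, Z.d_self]; omega⟩
      | @tail c c' _ hcc ih =>
        obtain ⟨c1, i, i1, i2⟩ := ih
        obtain ⟨l, l1, l2⟩ := near c' hcc.1
        refine ⟨hcc.1, l, ?_, l2⟩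
        by_contra hl
        have e1 := hγ i l (by omega) l1
        have e2 := hγ i _ i1 hk
        rw [gm] at e2
        have := hc c c1
        have := Z.tri (γ i) c (γ l); have := Z.tri c c' (γ l); have := Z.symm (γ i) c
        have := Z.tri m (γ i) c; have := Z.symm m (γ i)
        have := hcc.2
        omega
    obtain ⟨c1, i, i1, i2⟩ := key b (conn a b)
    have e1 := hγ i _ (i1.trans hk) le_rfl
    have e2 := hγ _ _ hk le_rfl
    rw [gn] at e1 e2; rw [gm] at e2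
    have := hc b c1
    have := Z.symm b (γ i)
    omega
  refine ⟨Rips.hyp fun x y m z hm => ?_, fun a b c hc => ?_, h2⟩
  · obtain ⟨c, c1, c2⟩ := h2 x y m hm
    obtain ⟨c', c3, c4⟩ := thin x y z c c1
    have key : ∀ w, c' ∈ L w z → Z.Bt (2 * (4 * F + 2 * h)) w m z := by
      intro w hw
      obtain ⟨m', m1, m2⟩ := h1 w z c' hw
      have := Z.tri m c m'; have := Z.tri c c' m'; have := Z.symm m m'
      exact (m1.move_mid (D := 4 * F + 2 * h) (by omega)).mono (by omega)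
    exact c3.imp (key x) (key y)
  · obtain ⟨m, m1, m2⟩ := h1 a b c hc
    exact ⟨m, m1, by omega⟩

end Pool.Agent.P.MP_4b59b0_al
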