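import Pool.Agent.P.MP_4b59b0_al.Cone3

set_option autoImplicit false

namespace Pool.Agent.P.MP_4b59b0_al

open Sp

namespace CD

variable {V U : Type} {D : CD V U}

variable (D) in
def Ang (u : U) (a b : D.W) (θ : ℕ) : Prop := ∀ x ∈ D.Sh a, ∀ y ∈ D.Sh b, D.an u x y ≤ θ

theorem step {u : U} {a b : D.W} (h : D.R a b) (ha : a ≠ .apex u) (hb : b ≠ .apex u) :
    D.Ang u a b (2 ^ (D.ρ + 1) * D.s) := by
  intro x hx y hy
  obtain ⟨e1, e2, e3⟩ := h.ep
  have e4 := h.symm.ep.1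
  have := D.hs; have := D.hρ; have := le_pw (D := D) D.ρ
  rw [pw_succ]
  by_cases hr : D.lev a ≤ D.ρ ∧ D.lev b ≤ D.ρ
  · rw [sh_eq hr.1 hx, sh_eq hr.2 hy]
    have := e2 hr.1 hr.2; have := pw_mono (D := D) hr.1
    have := an_two (D := D) u (D.ft a) (D.ft b)
    omega
  · obtain ⟨v, hv⟩ := exists_in (a := a) (by omega)
    have hv' := e3 v hv (by omega)
    have hne : u ≠ v := by
      rintro rfl
      by_cases h1 : D.lev a ≤ D.ρ
      · exact hb (hv'.top (by omega))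
      · exact ha (hv.top (by omega))
    have := an_ov hne (hv.sh hx) (hv'.sh hy)
    omega

theorem apex_mem {u : U} {a b : D.W} (h : 2 ^ (D.ρ + 1) * D.s ≤ D.an u (D.ft a) (D.ft b)) :
    .apex u ∈ D.L a b := by
  obtain ⟨y, hy, h1⟩ := proj (D := D) u (D.ft a)
  exact Hi.mem ⟨y, hy, D.ρ + 1, h1, B_top u a, by unfold G; omega,
    (vt_top hy (Nat.lt_succ_self _)).symm⟩

theorem bgi_geo {K : ℕ} (hK : ∀ a b c, c ∈ D.L a b → ∃ m, D.Z.Bt 0 a m b ∧ D.Z.d c m ≤ K)
    {u : U} {γ : ℕ → D.W} {n : ℕ} (hγ : D.Z.IsGeo γ n) (hu : ∀ i, i ≤ n → γ i ≠ .apex u) :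
    D.an u (D.ft (γ 0)) (D.ft (γ n)) ≤ (2 * K + 4) * (2 ^ (D.ρ + 1) * D.s) := by
  have hS : 0 < 2 ^ (D.ρ + 1) * D.s := by
    have := le_pw (D := D) (D.ρ + 1); have := s_pos (D := D); omega
  have hm := fun a b => @apex_mem _ _ D u a b
  have st : ∀ i, i + 1 ≤ n → D.an u (D.ft (γ i)) (D.ft (γ (i + 1))) ≤ 2 ^ (D.ρ + 1) * D.s :=
    fun i hi => step (z_one.1 (hγ.d_le (by omega) hi (by omega) (by omega))) (hu i (by omega))
      (hu _ hi) _ (ft_sh _) _ (ft_sh _)
  generalize 2 ^ (D.ρ + 1) * D.s = S at *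
  have as : ∀ i k, i + k ≤ n → D.an u (D.ft (γ i)) (D.ft (γ (i + k))) ≤ k * S := by
    intro i k
    induction k with
    | zero => intro _; simp [an_self]
    | succ k ih =>
      intro hk
      have := ih (by omega); have := st (i + k) hk
      have := an_tri (D := D) u (D.ft (γ i)) (D.ft (γ (i + k))) (D.ft (γ (i + k + 1)))
      rw [Nat.succ_mul, ← add_assoc]; omega
  by_contra hc
  rw [show (2 * K + 4) * S = 2 * K * S + 4 * S by ring] at hc
  obtain ⟨i, hi, i1, i2⟩ := ivt (fun i => D.an u (D.ft (γ 0)) (D.ft (γ i)) < S) n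
    (by simpa [an_self] using hS) (by omega)
  have := st i hi
  have := an_tri (D := D) u (D.ft (γ 0)) (D.ft (γ i)) (D.ft (γ (i + 1)))
  have := an_tri (D := D) u (D.ft (γ 0)) (D.ft (γ (i + 1))) (D.ft (γ n))
  obtain ⟨k, hk, k1, k2⟩ := ivt (fun k => D.an u (D.ft (γ (n - k))) (D.ft (γ n)) < S) (n - (i + 1))
    (by simpa [an_self] using hS) (by rw [show n - (n - (i + 1)) = i + 1 by omega]; omega)
  obtain ⟨j, hj⟩ : ∃ j, n - (k + 1) = i + 1 + j := ⟨n - (k + 1) - (i + 1), by omega⟩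
  rw [hj] at k2
  rw [show n - k = i + 1 + j + 1 by omega] at k1
  have := st (i + 1 + j) (by omega)
  have := an_tri (D := D) u (D.ft (γ (i + 1 + j))) (D.ft (γ (i + 1 + j + 1))) (D.ft (γ n))
  have := an_tri (D := D) u (D.ft (γ (i + 1))) (D.ft (γ (i + 1 + j))) (D.ft (γ n))
  obtain ⟨m, m1, m2⟩ := hK _ _ _ (hm (γ 0) (γ (i + 1)) (by omega))
  obtain ⟨m', m1', m2'⟩ := hK _ _ _ (hm (γ (i + 1 + j)) (γ n) (by omega))
  have hjK : j ≤ 2 * K := by
    have := hγ 0 (i + 1) (by omega) hi; have := hγ (i + 1 + j) n (by omega) le_rfl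
    have := hγ 0 n (by omega) le_rfl
    have := D.Z.tri (γ 0) m (γ n); have := D.Z.tri m (.apex u) (γ n)
    have := D.Z.tri (.apex u) m' (γ n); have := D.Z.symm m (.apex u)
    unfold Bt at *; omega
  have := as (i + 1) j (by omega)
  have := Nat.mul_le_mul_right S hjK
  omega

theorem bgi_ang {K : ℕ} (hK : ∀ a b c, c ∈ D.L a b → ∃ m, D.Z.Bt 0 a m b ∧ D.Z.d c m ≤ K)
    {u : U} {γ : ℕ → D.W} {n : ℕ} (hγ : D.Z.IsGeo γ n) (hu : ∀ i, i ≤ n → γ i ≠ .apex u) :
    D.Ang u (γ 0) (γ n) ((2 * K + 6) * (2 ^ (D.ρ + 1) * D.s)) := by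
  intro x hx y hy
  have := bgi_geo hK hγ hu
  have := step (Or.inl rfl) (hu 0 (by omega)) (hu 0 (by omega)) x hx _ (ft_sh _)
  have := step (Or.inl rfl) (hu n le_rfl) (hu n le_rfl) _ (ft_sh _) y hy
  have := an_tri (D := D) u x (D.ft (γ 0)) y
  have := an_tri (D := D) u (D.ft (γ 0)) (D.ft (γ n)) y
  have : (2 * K + 6) * (2 ^ (D.ρ + 1) * D.s) =
    (2 * K + 4) * (2 ^ (D.ρ + 1) * D.s) + 2 * (2 ^ (D.ρ + 1) * D.s) := by ring
  omega

theorem bgi {K : ℕ} (hK : ∀ a b c, c ∈ D.L a b → ∃ m, D.Z.Bt 0 a m b ∧ D.Z.d c m ≤ K)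
    {u : U} {a b : D.W} (h : ¬ D.Ang u a b ((2 * K + 6) * (2 ^ (D.ρ + 1) * D.s))) :
    D.Z.On a b (.apex u) := by
  have key : ∀ γ : ℕ → D.W, γ 0 = a → γ (D.Z.d a b) = b → D.Z.IsGeo γ (D.Z.d a b) →
      γ (D.Z.d a (.apex u)) = .apex u ∧ D.Z.Bt 0 a (.apex u) b := by
    intro γ g0 gn hγ
    obtain ⟨i, hi, h1⟩ : ∃ i, i ≤ D.Z.d a b ∧ γ i = .apex u := by
      by_contra hc
      push Not at hc
      have := bgi_ang hK hγ hc
      rw [g0, gn] at this; exact h this
    have h2 := hγ 0 i (by omega) hi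
    have h3 := hγ.bt (Nat.zero_le i) hi le_rfl
    rw [g0, h1] at h2; rw [g0, gn, h1] at h3
    exact ⟨by rw [h2]; exact h1, h3⟩
  obtain ⟨γ, g0, gn, hγ⟩ := D.Z.exists_geo a b
  refine ⟨(key γ g0 gn hγ).2, fun m hm hd => ?_⟩
  obtain ⟨γ, g0, gn, gm, hγ⟩ := exists_geo_through hm
  rw [← gm, hd]; exact (key γ g0 gn hγ).1

theorem pl {M : ℕ} (hM : ∀ {u : U} {γ : ℕ → D.W} {n : ℕ}, D.Z.IsGeo γ n →
    (∀ i, i ≤ n → γ i ≠ .apex u) → D.Ang u (γ 0) (γ n) M) (x y : V) (θ : ℕ)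
    (h : ∀ u, D.an u x y ≤ θ) :
    D.X.d x y ≤ (2 ^ D.ρ * D.s + θ + 2 * M) * D.Z.d (.base x) (.base y) := by
  obtain ⟨γ, g0, gn, hγ⟩ := D.Z.exists_geo (.base x) (.base y)
  generalize D.Z.d (.base x) (.base y) = n at *
  generalize hC : 2 ^ D.ρ * D.s + θ + 2 * M = C
  have hρ := D.hρ
  have inj : ∀ i j, i < j → j ≤ n → γ i ≠ γ j := by
    intro i j hij hj he
    have := hγ i j hij.le hj
    rw [he, D.Z.d_self] at this; omega
  have ed : ∀ i, i + 1 ≤ n → D.R (γ i) (γ (i + 1)) :=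
    fun i hi => z_one.1 (hγ.d_le (by omega) hi (by omega) (by omega))
  have key : ∀ i, i ≤ n → D.lev (γ i) ≤ D.ρ → D.X.d x (D.ft (γ i)) ≤ C * i := by
    intro i
    induction i using Nat.strong_induction_on with
    | _ i ih =>
    intro hi hl
    rcases i with _ | i
    · rw [g0]; simp [ft, D.X.d_self]
    by_cases h1 : D.lev (γ i) ≤ D.ρ
    · have := ih i (by omega) (by omega) h1
      have := (ed i hi).ep.2.1 h1 hl
      have := pw_mono (D := D) h1
      have := D.X.tri x (D.ft (γ i)) (D.ft (γ (i + 1)))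
      rw [Nat.mul_succ]; omega
    obtain ⟨u, hu⟩ := exists_in (a := γ i) (by omega)
    have e := hu.top (by omega)
    rcases i with _ | i
    · rw [g0] at hu; exact hu.elim
    have a1 := (ed i (by omega)).ep.1
    have a2 := (ed i (by omega)).symm.ep.2.2 u hu (by omega)
    have a3 := (ed (i + 1) hi).symm.ep.1
    have a4 := (ed (i + 1) hi).ep.2.2 u hu (by omega)
    have a5 : D.lev (γ i) ≤ D.ρ := by
      by_contra hc
      exact inj i (i + 1) (by omega) (by omega) ((a2.top (by omega)).trans e.symm)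
    have b1 : D.Ang u (γ 0) (γ i) M :=
      hM (fun j k h1 h2 => hγ j k h1 (by omega)) fun j hj he =>
        inj j (i + 1) (by omega) (by omega) (he.trans e.symm)
    have b2 : D.Ang u (γ (i + 1 + 1 + 0)) (γ (i + 1 + 1 + (n - (i + 1 + 1)))) M :=
      hM (γ := fun j => γ (i + 1 + 1 + j))
        (fun j k h1 h2 => by rw [hγ _ _ (by omega) (by omega)]; omega) fun j hj he =>
        inj (i + 1) _ (by omega) (by omega) (e.trans he.symm)
    rw [show i + 1 + 1 + (n - (i + 1 + 1)) = n by omega, gn] at b2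
    rw [g0] at b1
    have c1 := b1 x rfl _ (ft_sh _)
    have c2 := b2 _ (ft_sh _) y rfl
    have := ih i (by omega) (by omega) a5
    have := an_in a2.ft a4.ft
    have := h u
    simp only [add_zero] at c2
    generalize D.ft (γ i) = p at *
    generalize D.ft (γ (i + 1 + 1)) = q at *
    have := an_tri (D := D) u p x q; have := an_tri (D := D) u x y q
    have := an_symm (D := D) u p x; have := an_symm (D := D) u y q
    have := D.X.tri x p q
    rw [Nat.mul_succ, Nat.mul_succ]; omega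
  have := key n le_rfl (by rw [gn]; simp [lev])
  rwa [gn] at this

theorem sh_base {x : V} {c : D.W} {n : ℕ} (h : D.Z.d (.base x) c ≤ n) (hn : n ≤ D.ρ) :
    D.lev c ≤ n ∧ D.X.d x (D.ft c) ≤ n * (2 ^ n * D.s) :=
  shw hn (z_le.1 h) (by simp [lev])

theorem L_base {x y : V} {c : D.W} (h : c ∈ D.L (.base x) (.base y)) (hl : D.lev c ≤ D.ρ) :
    D.X.Bt (9 * D.ε) x (D.ft c) y := by
  have key : ∀ {x y : V} {u : U}, D.Hi u (.base x) (.base y) c →
      D.X.Bt (9 * D.ε) x (D.ft c) y := by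
    rintro x y u ⟨z, hz, l, h1, h2, h3, rfl⟩
    rw [lev_vt] at hl
    rw [ft_vt hz (by omega)]
    exact (lohi (a := .base x) (b := .base y) hz h1 (fun h => h.elim) ((le_pw l).trans h3)).1
  rcases h with rfl | rfl | ⟨m, hm, rfl⟩ | ⟨u, h | h⟩
  · exact bt_left _ _ _
  · exact bt_right _ _ _
  · exact hm.1.mono (by omega)
  · exact key h
  · exact (key h).symm

section Action

variable {H : Type} [Group H] [MulAction H V] [MulAction H U]

theorem cone_congr {u u' : U} {y y' : V} {hy : y ∈ D.Y u} {hy' : y' ∈ D.Y u'} {k : ℕ} {h0 : 0 < k}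
    {hk : k ≤ D.ρ} (h : u = u') (h' : y = y') :
    (CV.cone u y hy k h0 hk : D.W) = .cone u' y' hy' k h0 hk := by
  subst h h'; rfl

def sm (eqv : Eqv H D.Y) (g : H) : D.W → D.W
  | .base x => .base (g • x)
  | .cone u y hy k h0 hk => .cone (g • u) (g • y) (eqv g u y hy) k h0 hk
  | .apex u => .apex (g • u)

variable (eqv : Eqv H D.Y)

theorem sm_one (a : D.W) : sm eqv 1 a = a := by
  cases a with
  | base x => simp [sm]
  | cone u y hy k h0 hk => exact cone_congr (one_smul _ _) (one_smul _ _)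
  | apex u => simp [sm]

theorem sm_mul (g h : H) (a : D.W) : sm eqv (g * h) a = sm eqv g (sm eqv h a) := by
  cases a with
  | base x => simp [sm, mul_smul]
  | cone u y hy k h0 hk => exact cone_congr (mul_smul _ _ _) (mul_smul _ _ _)
  | apex u => simp [sm, mul_smul]

@[reducible] def act : MulAction H D.W where
  smul := sm eqv
  one_smul := sm_one eqv
  mul_smul := sm_mul eqv

theorem sm_vt (g : H) {u : U} {y : V} (hy : y ∈ D.Y u) (l : ℕ) :
    sm eqv g (D.vt u y hy l) = D.vt (g • u) (g • y) (eqv g u y hy) l := by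
  rcases Nat.eq_zero_or_pos l with rfl | h0
  · rw [vt_zero, vt_zero]; rfl
  rcases le_or_gt l D.ρ with h | h
  · rw [vt_mid hy h0 h, vt_mid _ h0 h]; rfl
  · rw [vt_top hy h, vt_top _ h]; rfl

theorem sm_in (g : H) {u : U} {a : D.W} (h : D.In u a) : D.In (g • u) (sm eqv g a) := by
  cases a with
  | base x => exact h.elim
  | cone w y hy k h0 hk => cases h; rfl
  | apex w => cases h; rfl

theorem sm_sh (g : H) {a : D.W} {x : V} (h : x ∈ D.Sh a) : g • x ∈ D.Sh (sm eqv g a) := by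
  cases a with
  | base x => cases h; rfl
  | cone w y hy k h0 hk => cases h; rfl
  | apex w => exact eqv g w x h

theorem sm_R (iso : D.X.Iso H) (g : H) (a b : D.W) (h : D.R a b) :
    D.R (sm eqv g a) (sm eqv g b) := by
  have key : ∀ a b, D.E a b → D.E (sm eqv g a) (sm eqv g b) := by
    rintro a b (⟨x, y, h, rfl, rfl⟩ | ⟨u, y, hy, y', hy', l, h, rfl, rfl⟩ | ⟨u, y, hy, l, rfl, rfl⟩)
    · exact Or.inl ⟨g • x, g • y, by rwa [iso], rfl, rfl⟩
    · exact Or.inr (Or.inl ⟨_, _, _, _, _, l, by rwa [iso], sm_vt eqv g hy l, sm_vt eqv g hy' l⟩)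
    · exact Or.inr (Or.inr ⟨_, _, _, l, sm_vt eqv g hy l, sm_vt eqv g hy _⟩)
  rcases h with rfl | h | h
  exacts [Or.inl rfl, Or.inr (Or.inl (key _ _ h)), Or.inr (Or.inr (key _ _ h))]

theorem sm_iso (iso : D.X.Iso H) (g : H) (a b : D.W) :
    D.Z.d (sm eqv g a) (sm eqv g b) = D.Z.d a b := by
  refine le_antisymm (D.gr.d_map_le _ (sm_R eqv iso g) a b) ?_
  have := D.gr.d_map_le _ (sm_R eqv iso g⁻¹) (sm eqv g a) (sm eqv g b)
  rwa [← sm_mul, ← sm_mul, inv_mul_cancel, sm_one, sm_one] at this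

theorem sm_ang (iso : D.X.Iso H) (g : H) {u : U} {a b : D.W} {θ : ℕ} (h : D.Ang u a b θ) :
    D.Ang (g • u) (sm eqv g a) (sm eqv g b) θ := by
  intro x hx y hy
  have h1 := sm_sh eqv g⁻¹ hx; have h2 := sm_sh eqv g⁻¹ hy
  rw [← sm_mul, inv_mul_cancel, sm_one] at h1 h2
  have := h _ h1 _ h2
  unfold an at *
  rw [← ang_smul iso eqv g] at this
  simpa using this

end Action

end CD

theorem exists_coneOff : ∃ δ₀ K : ℕ, ∀ ε s ρ : ℕ, 100 * ε ≤ s → 1 ≤ ρ → ∃ M : ℕ,
    ∀ (V : Type) (X : Sp V) (H : Type) [Group H] [MulAction H V] (U : Type) [MulAction H U]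
      (Y : U → Set V), Fam X Y ε → X.Iso H → Eqv H Y →
      Nonempty (ConeOff X H Y δ₀ K ε s ρ M) := by
  obtain ⟨δ₀, K, h⟩ := cone_hyp
  refine ⟨δ₀, K + δ₀, fun ε s ρ hs hρ => ⟨(2 * K + 6) * (2 ^ (ρ + 1) * s), ?_⟩⟩
  intro V X H _ _ U _ Y F iso eqv
  let D : CD V U := ⟨X, Y, ε, s, ρ, F, hs, hρ⟩
  obtain ⟨h1, h2, h3⟩ := h V U D
  let := CD.act (D := D) eqv
  refine ⟨{
    W := D.W
    Z := D.Z
    ι := .base
    P := {
      ω := .apex
      Ang := D.Ang
      ω_smul := fun _ _ => rfl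
      ω_inj := fun _ _ h => by cases h; rfl
      symm := fun h x hx y hy => by rw [CD.an_symm]; exact h y hy x hx
      tri := fun {u a b c θ θ'} h h' x hx y hy => by
        have := h x hx _ (CD.ft_sh b); have := h' _ (CD.ft_sh b) y hy
        have := CD.an_tri (D := D) u x (D.ft b) y
        omega
      mono := fun h h' x hx y hy => (h x hx y hy).trans h'
      smul := fun g _ _ _ _ h => CD.sm_ang eqv iso g h
      bgi := fun h => CD.bgi h2 h }
    iso := CD.sm_iso eqv iso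
    hyp := h1
    ι_smul := fun _ _ => rfl
    ι_ne := fun _ _ h => by cases h
    sep := fun u u' hne => ?_
    shrink := fun x y => ?_
    pa := fun g u p E n hp hu => ?_
    pl := fun x y θ hθ => CD.pl (D := D) (CD.bgi_ang h2) x y θ fun u => hθ u x rfl y rfl
    rot := fun g u T θ a hu hT hθ hA => ?_
    shallow := fun c E hE => ?_
    sh := fun x y n hn hr => ?_
    hd := fun x p y c hb hc => ?_ }⟩
  · by_contra hc
    exact hne (CD.lv (D := D) (u := u) (CD.z_le.1 (not_lt.1 hc)) (Nat.lt_succ_self _) rfl).symm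
  · have := CD.s_pos (D := D)
    have hs0 : 0 < s := by change 100 ≤ s at this; omega
    have h4 := CD.zb (D := D) (x := x) (y := y) (k := X.d x y / s + 1) (by
      have := Nat.lt_div_mul_add (a := X.d x y) hs0
      change X.d x y ≤ (X.d x y / s + 1) * s
      rw [Nat.succ_mul]; omega)
    have := Nat.mul_le_mul_left s h4
    have := Nat.mul_div_le (X.d x y) s
    rw [Nat.mul_succ] at *
    omega
  · rintro _ rfl _ rfl
    exact F.pa iso eqv n hp hu
  · have h4 := hA _ (CD.ft_sh a) _ (CD.sm_sh eqv g (CD.ft_sh a))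
    have := F.rot iso eqv hu hT (D.ft a); have := F.pos
    change ang X Y u (D.ft a) (g • D.ft a) ≤ θ at h4
    omega
  · by_cases hl : D.lev c ≤ E
    · exact Or.inr ⟨D.ft c, by have := CD.zd c; rw [D.Z.symm]; omega⟩
    · obtain ⟨u, hu⟩ := CD.exists_in (a := c) (by omega)
      refine Or.inl ⟨u, ?_, fun g hg => ?_⟩
      · have := CD.z_apex hu.ft (l := D.lev c) (j := ρ) (by change ρ + 1 ≤ _; omega)
        rwa [← hu.eq_vt] at this
      · exact (CD.sm_in eqv g hu).uniq (CD.lv (CD.z_le.1 hg) (by omega) hu)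
  · rw [mul_assoc]; exact (CD.sh_base (D := D) hn hr).2
  · obtain ⟨n, n1, n2⟩ := h1.nb hb
    obtain ⟨c₁, c1, c2⟩ := h3 _ _ _ n1
    have := D.Z.tri (.base p) n c₁
    obtain ⟨e1, e2⟩ := CD.sh_base (D := D) (x := p) (c := c₁) (n := c + (K + δ₀)) (by omega) hc
    have e3 := (CD.L_base c1 (e1.trans hc)).move_mid ((D.X.symm _ _).le.trans e2)
    refine e3.mono ?_
    have := CD.le_pw (D := D) (c + (K + δ₀))
    change 9 * ε + 2 * ((c + (K + δ₀)) * (2 ^ (c + (K + δ₀)) * s)) ≤ _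
    change s ≤ 2 ^ (c + (K + δ₀)) * s at this
    rw [mul_assoc]
    generalize 2 ^ (c + (K + δ₀)) * s = t at *
    generalize c + (K + δ₀) = r
    nlinarith

end Pool.Agent.P.MP_4b59b0_al
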