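import Pool.Agent.P.MP_4b59b0_al.Ang

set_option autoImplicit false

namespace Pool.Agent.P.MP_4b59b0_al

open Sp

/-- The vertices of the cone-off. -/
inductive CV {V U : Type} (Y : U → Set V) (ρ : ℕ) : Type
  | base (x : V)
  | cone (u : U) (y : V) (hy : y ∈ Y u) (k : ℕ) (h0 : 0 < k) (hk : k ≤ ρ)
  | apex (u : U)

/-- The data of a cone-off. -/
structure CD (V U : Type) where
  X : Sp V
  Y : U → Set V
  ε : ℕ
  s : ℕ
  ρ : ℕ
  F : Fam X Y ε
  hs : 100 * ε ≤ s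
  hρ : 1 ≤ ρ

namespace CD

variable {V U : Type} (D : CD V U)

abbrev W : Type := CV D.Y D.ρ

noncomputable def ft : D.W → V
  | .base x => x
  | .cone _ y _ _ _ _ => y
  | .apex u => (D.F.ne u).some

def lev : D.W → ℕ
  | .base _ => 0
  | .cone _ _ _ k _ _ => k
  | .apex _ => D.ρ + 1

def In (u : U) : D.W → Prop
  | .base _ => False
  | .cone v _ _ _ _ _ => v = u
  | .apex v => v = u

def Sh : D.W → Set V
  | .base x => {x}
  | .cone _ y _ _ _ _ => {y}
  | .apex u => D.Y u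

def vt (u : U) (y : V) (hy : y ∈ D.Y u) (l : ℕ) : D.W :=
  if h0 : l = 0 then .base y else
    if h : l ≤ D.ρ then .cone u y hy l (Nat.pos_of_ne_zero h0) h else .apex u

variable {D}

theorem s_pos : 100 ≤ D.s := by have := D.hs; have := D.F.pos; omega

theorem vt_zero {u : U} {y : V} (hy : y ∈ D.Y u) : D.vt u y hy 0 = .base y := by simp [vt]

theorem vt_top {u : U} {y : V} (hy : y ∈ D.Y u) {l : ℕ} (h : D.ρ < l) :
    D.vt u y hy l = .apex u := by
  have h0 : l ≠ 0 := by omega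
  have h1 : ¬ l ≤ D.ρ := by omega
  simp [vt, h0, h1]

theorem vt_mid {u : U} {y : V} (hy : y ∈ D.Y u) {l : ℕ} (h0 : 0 < l) (h : l ≤ D.ρ) :
    D.vt u y hy l = .cone u y hy l h0 h := by
  have h1 : l ≠ 0 := by omega
  simp [vt, h1, h]

theorem lev_vt {u : U} {y : V} (hy : y ∈ D.Y u) (l : ℕ) :
    D.lev (D.vt u y hy l) = min l (D.ρ + 1) := by
  rcases Nat.eq_zero_or_pos l with rfl | h0
  · rw [vt_zero]; simp [lev]
  rcases le_or_gt l D.ρ with h | h
  · rw [vt_mid hy h0 h]; simp only [lev]; omega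
  · rw [vt_top hy h]; simp only [lev]; omega

theorem ft_vt {u : U} {y : V} (hy : y ∈ D.Y u) {l : ℕ} (h : l ≤ D.ρ) :
    D.ft (D.vt u y hy l) = y := by
  rcases Nat.eq_zero_or_pos l with rfl | h0
  · rw [vt_zero]; rfl
  · rw [vt_mid hy h0 h]; rfl

theorem in_vt {u v : U} {y : V} (hy : y ∈ D.Y u) {l : ℕ} :
    D.In v (D.vt u y hy l) ↔ 1 ≤ l ∧ u = v := by
  rcases Nat.eq_zero_or_pos l with rfl | h0
  · rw [vt_zero]; simp [In]
  rcases le_or_gt l D.ρ with h | h
  · rw [vt_mid hy h0 h]; simp only [In]; exact ⟨fun h => ⟨h0, h⟩, fun h => h.2⟩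
  · rw [vt_top hy h]; simp only [In]; exact ⟨fun h => ⟨h0, h⟩, fun h => h.2⟩

theorem In.uniq {u v : U} {a : D.W} (h : D.In u a) (h' : D.In v a) : u = v := by
  cases a with
  | base x => exact h.elim
  | cone w y hy k h0 hk => exact h.symm.trans h'
  | apex w => exact h.symm.trans h'

theorem ft_sh (a : D.W) : D.ft a ∈ D.Sh a := by
  cases a with
  | base x => rfl
  | cone w y hy k h0 hk => rfl
  | apex w => exact (D.F.ne w).some_mem

theorem In.sh {u : U} {a : D.W} (h : D.In u a) {x : V} (hx : x ∈ D.Sh a) : x ∈ D.Y u := by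
  cases a with
  | base x => exact h.elim
  | cone w y hy k h0 hk => cases h; cases hx; exact hy
  | apex w => cases h; exact hx

theorem In.ft {u : U} {a : D.W} (h : D.In u a) : D.ft a ∈ D.Y u := h.sh (ft_sh a)

theorem In.eq_vt {u : U} {a : D.W} (h : D.In u a) : a = D.vt u (D.ft a) h.ft (D.lev a) := by
  cases a with
  | base x => exact h.elim
  | cone w y hy k h0 hk => cases h; exact (vt_mid hy h0 hk).symm
  | apex w => cases h; exact (vt_top _ (Nat.lt_succ_self _)).symm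

theorem In.pos {u : U} {a : D.W} (h : D.In u a) : 1 ≤ D.lev a := by
  cases a with
  | base x => exact h.elim
  | cone w y hy k h0 hk => exact h0
  | apex w => simp [lev]

theorem In.top {u : U} {a : D.W} (h : D.In u a) (hl : D.ρ < D.lev a) : a = .apex u :=
  h.eq_vt.trans (vt_top _ hl)

theorem base_or (a : D.W) : (D.lev a = 0 ∧ a = .base (D.ft a)) ∨ ∃ u, D.In u a := by
  cases a with
  | base x => exact Or.inl ⟨rfl, rfl⟩
  | cone w y hy k h0 hk => exact Or.inr ⟨w, rfl⟩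
  | apex w => exact Or.inr ⟨w, rfl⟩

theorem exists_in {a : D.W} (h : 1 ≤ D.lev a) : ∃ u, D.In u a :=
  (base_or a).resolve_left fun h' => by omega

theorem lev_le (a : D.W) : D.lev a ≤ D.ρ + 1 := by
  cases a with
  | base x => simp [lev]
  | cone w y hy k h0 hk => simp only [lev]; omega
  | apex w => simp [lev]

theorem sh_eq {a : D.W} (h : D.lev a ≤ D.ρ) {x : V} (hx : x ∈ D.Sh a) : x = D.ft a := by
  cases a with
  | base x => exact hx
  | cone w y hy k h0 hk => exact hx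
  | apex w => simp [lev] at h

variable (D) in
/-- Oriented edges. -/
def E (a b : D.W) : Prop :=
  (∃ x y, D.X.d x y ≤ D.s ∧ a = .base x ∧ b = .base y) ∨
  (∃ u y hy y' hy' l, D.X.d y y' ≤ 2 ^ l * D.s ∧ a = D.vt u y hy l ∧ b = D.vt u y' hy' l) ∨
  (∃ u y hy l, a = D.vt u y hy l ∧ b = D.vt u y hy (l + 1))

variable (D) in
def R (a b : D.W) : Prop := a = b ∨ D.E a b ∨ D.E b a

theorem R.symm {a b : D.W} (h : D.R a b) : D.R b a := by
  rcases h with h | h | h
  exacts [Or.inl h.symm, Or.inr (Or.inr h), Or.inr (Or.inl h)]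

variable (D) in
def EP (a b : D.W) : Prop :=
  D.lev b ≤ D.lev a + 1 ∧
  (D.lev a ≤ D.ρ → D.lev b ≤ D.ρ → D.X.d (D.ft a) (D.ft b) ≤ 2 ^ D.lev a * D.s) ∧
  ∀ u, D.In u a → 1 ≤ D.lev b → D.In u b

theorem E.ep {a b : D.W} (h : D.E a b) : D.EP a b ∧ D.EP b a := by
  rcases h with ⟨x, y, h, rfl, rfl⟩ | ⟨u, y, hy, y', hy', l, h, rfl, rfl⟩ | ⟨u, y, hy, l, rfl, rfl⟩
  · have := D.X.symm x y
    refine ⟨⟨by simp [lev], fun _ _ => ?_, fun u h => h.elim⟩,
      ⟨by simp [lev], fun _ _ => ?_, fun u h => h.elim⟩⟩ <;> simp only [lev, ft] <;> omega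
  · have := D.X.symm y y'
    simp only [EP, lev_vt, in_vt]
    refine ⟨⟨by omega, fun h1 _ => ?_, fun u h _ => h⟩, ⟨by omega, fun h1 _ => ?_, fun u h _ => h⟩⟩
    · have h2 : l ≤ D.ρ := by omega
      rw [ft_vt _ h2, ft_vt _ h2, min_eq_left (by omega)]; exact h
    · have h2 : l ≤ D.ρ := by omega
      rw [ft_vt _ h2, ft_vt _ h2, min_eq_left (by omega)]; omega
  · simp only [EP, lev_vt, in_vt]
    refine ⟨⟨by omega, fun _ h1 => ?_, fun u h _ => ⟨by omega, h.2⟩⟩,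
      ⟨by omega, fun h1 _ => ?_, fun u h _ => ⟨by omega, h.2⟩⟩⟩
    · rw [ft_vt _ (by omega), ft_vt _ (by omega), D.X.d_self]; omega
    · rw [ft_vt _ (by omega), ft_vt _ (by omega), D.X.d_self]; omega

theorem R.ep {a b : D.W} (h : D.R a b) : D.EP a b := by
  rcases h with rfl | h | h
  · exact ⟨by omega, fun _ _ => by rw [D.X.d_self]; omega, fun u h _ => h⟩
  exacts [h.ep.1, h.ep.2]

theorem wv {u : U} {y : V} (hy : y ∈ D.Y u) (j : ℕ) :
    ∀ l, Walk D.R j (D.vt u y hy l) (D.vt u y hy (l + j)) := by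
  induction j with
  | zero => intro l; rfl
  | succ j ih =>
    intro l
    refine ⟨_, Or.inr (Or.inl (Or.inr (Or.inr ⟨u, y, hy, l, rfl, rfl⟩))), ?_⟩
    rw [← add_assoc, Nat.add_right_comm]; exact ih (l + 1)

theorem wb (k : ℕ) : ∀ x y : V, D.X.d x y ≤ k * D.s → Walk D.R k (.base x) (.base y) := by
  induction k with
  | zero => intro x y h; rw [D.X.eq_of x y (by omega)]; rfl
  | succ k ih =>
    intro x y h
    obtain ⟨m, h1, h2⟩ := D.X.geod x y (min D.s (D.X.d x y)) (min_le_right _ _)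
    rw [Nat.succ_mul] at h
    exact ⟨.base m, Or.inr (Or.inl (Or.inl ⟨x, m, by omega, rfl, rfl⟩)), ih m y (by omega)⟩

theorem wd (a : D.W) : Walk D.R (D.lev a) (.base (D.ft a)) a := by
  rcases base_or a with ⟨h1, h2⟩ | ⟨u, hu⟩
  · rw [h1]; exact h2.symm
  · have := wv hu.ft (D.lev a) 0
    rwa [vt_zero, zero_add, ← hu.eq_vt] at this

variable (D) in
/-- The cone-off graph. -/
def gr : Gr D.W where
  R := D.R
  refl _ := Or.inl rfl
  symm _ _ := R.symm
  conn a b := by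
    have h1 := s_pos (D := D)
    exact ⟨_, (((wd a).rev fun _ _ => R.symm).append (wb (D.X.d (D.ft a) (D.ft b)) _ _
      (Nat.le_mul_of_pos_right _ (by omega)))).append (wd b)⟩

variable (D) in
noncomputable def Z : Sp D.W := D.gr.sp

theorem z_le {a b : D.W} {n : ℕ} : D.Z.d a b ≤ n ↔ Walk D.R n a b := D.gr.d_le_iff

theorem z_one {a b : D.W} : D.Z.d a b ≤ 1 ↔ D.R a b := D.gr.d_le_one

theorem zv {u : U} {y : V} (hy : y ∈ D.Y u) {l l' j : ℕ} (h : l ≤ l' + j) (h' : l' ≤ l + j) :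
    D.Z.d (D.vt u y hy l) (D.vt u y hy l') ≤ j := by
  rcases le_total l l' with h1 | h1
  · obtain ⟨k, rfl⟩ := Nat.exists_eq_add_of_le h1
    have := z_le.2 (wv hy k l); omega
  · obtain ⟨k, rfl⟩ := Nat.exists_eq_add_of_le h1
    have := z_le.2 (wv hy k l'); rw [D.Z.symm]; omega

theorem zh {u : U} {y y' : V} (hy : y ∈ D.Y u) (hy' : y' ∈ D.Y u) {l : ℕ}
    (h : D.X.d y y' ≤ 2 ^ l * D.s) : D.Z.d (D.vt u y hy l) (D.vt u y' hy' l) ≤ 1 :=
  z_one.2 (Or.inr (Or.inl (Or.inr (Or.inl ⟨u, y, hy, y', hy', l, h, rfl, rfl⟩))))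

theorem zb {x y : V} {k : ℕ} (h : D.X.d x y ≤ k * D.s) : D.Z.d (.base x) (.base y) ≤ k :=
  z_le.2 (wb k x y h)

theorem zd (a : D.W) : D.Z.d (.base (D.ft a)) a ≤ D.lev a := z_le.2 (wd a)

theorem le_pw (l : ℕ) : D.s ≤ 2 ^ l * D.s := Nat.le_mul_of_pos_left _ (by positivity)

theorem pw_mono {l l' : ℕ} (h : l ≤ l') : 2 ^ l * D.s ≤ 2 ^ l' * D.s :=
  Nat.mul_le_mul_right _ (Nat.pow_le_pow_right (by omega) h)

theorem pw_succ (l : ℕ) : 2 ^ (l + 1) * D.s = 2 * (2 ^ l * D.s) := by ring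

theorem pw_lt {l l' : ℕ} (h : 2 ^ l * D.s < 2 ^ l' * D.s) : l < l' := by
  by_contra hc
  have := pw_mono (D := D) (not_lt.1 hc); omega

/-- Short walks from deep points stay in the cone. -/
theorem lv {u : U} : ∀ {n : ℕ} {a c : D.W}, Walk D.R n a c → n < D.lev a → D.In u a → D.In u c := by
  intro n
  induction n with
  | zero => intro a c h _ hu; cases h; exact hu
  | succ n ih =>
    rintro a c ⟨m, h1, h2⟩ hn hu
    have h3 := h1.symm.ep.1
    exact ih h2 (by omega) (h1.ep.2.2 u hu (by omega))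

/-- Short walks from shallow points have short shadows. -/
theorem shw {r : ℕ} (hr : r ≤ D.ρ) : ∀ {n : ℕ} {a c : D.W}, Walk D.R n a c → D.lev a + n ≤ r →
    D.lev c ≤ r ∧ D.X.d (D.ft a) (D.ft c) ≤ n * (2 ^ r * D.s) := by
  intro n
  induction n with
  | zero => intro a c h hn; cases h; rw [D.X.d_self]; omega
  | succ n ih =>
    rintro a c ⟨m, h1, h2⟩ hn
    obtain ⟨e1, e2, -⟩ := h1.ep
    obtain ⟨i1, i2⟩ := ih h2 (by omega)
    have := e2 (by omega) (by omega)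
    have := pw_mono (D := D) (show D.lev a ≤ r by omega)
    have := D.X.tri (D.ft a) (D.ft m) (D.ft c)
    rw [Nat.succ_mul]
    exact ⟨i1, by omega⟩

end CD

end Pool.Agent.P.MP_4b59b0_al
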