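import Pool.Agent.P.MP_4b59b0_al.Cone1
import Pool.Agent.P.MP_4b59b0_al.Bowditch

set_option autoImplicit false

namespace Pool.Agent.P.MP_4b59b0_al

open Sp

namespace CD

variable {V U : Type} (D : CD V U)

open Classical in
noncomputable def B (u : U) (a : D.W) : ℕ := if D.In u a then 2 ^ D.lev a * D.s else 0

noncomputable def an (u : U) (x y : V) : ℕ := ang D.X D.Y u x y

noncomputable def A (u : U) (a : D.W) (m : V) : ℕ := D.an u (D.ft a) m + D.B u a

noncomputable def G (u : U) (a b : D.W) : ℕ := D.an u (D.ft a) (D.ft b) + D.B u a + D.B u b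

def Lo (a b : D.W) (m : V) : Prop :=
  D.X.Bt 0 (D.ft a) m (D.ft b) ∧ ∀ u, D.A u a m ≤ D.s ∨ D.A u b m ≤ D.s

def Hi (u : U) (a b c : D.W) : Prop :=
  ∃ y hy l, D.an u (D.ft a) y ≤ 8 * D.ε ∧ D.B u a ≤ 2 ^ l * D.s ∧ 2 ^ l * D.s ≤ D.G u a b ∧
    c = D.vt u y hy l

/-- The guessed geodesics. -/
def L (a b : D.W) : Set D.W :=
  {c | c = a ∨ c = b ∨ (∃ m, D.Lo a b m ∧ c = .base m) ∨ ∃ u, D.Hi u a b c ∨ D.Hi u b a c}

variable {D}

theorem an_self (u : U) (x : V) : D.an u x x = 0 := ang_self u x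
theorem an_symm (u : U) (x y : V) : D.an u x y = D.an u y x := ang_symm u x y
theorem an_tri (u : U) (x y z : V) : D.an u x z ≤ D.an u x y + D.an u y z := ang_tri u x y z
theorem an_two (u : U) (x y : V) : D.an u x y ≤ 2 * D.X.d x y := ang_le_two u x y
theorem an_ov {u u' : U} (h : u ≠ u') {x y : V} (hx : x ∈ D.Y u') (hy : y ∈ D.Y u') :
    D.an u x y ≤ D.ε := D.F.ang_ov h hx hy

theorem an_in {u : U} {x y : V} (hx : x ∈ D.Y u) (hy : y ∈ D.Y u) :
    2 * D.X.d x y ≤ D.an u x y := by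
  have := ang_ge (X := D.X) (x := x) (y := y) hx hy
  rw [D.X.d_self, D.X.d_self] at this; exact this

theorem B_in {u : U} {a : D.W} (h : D.In u a) : D.B u a = 2 ^ D.lev a * D.s := if_pos h

theorem B_out {u : U} {a : D.W} (h : ¬ D.In u a) : D.B u a = 0 := if_neg h

theorem B_ge {u : U} {a : D.W} (h : D.In u a) : 2 * D.s ≤ D.B u a := by
  rw [B_in h]; simpa using pw_mono (D := D) h.pos

theorem B_top (u : U) (a : D.W) : D.B u a ≤ 2 ^ (D.ρ + 1) * D.s := by
  by_cases h : D.In u a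
  · rw [B_in h]; exact pw_mono (lev_le a)
  · rw [B_out h]; omega

theorem G_symm (u : U) (a b : D.W) : D.G u a b = D.G u b a := by
  unfold G; rw [an_symm]; omega

theorem Lo.symm {a b : D.W} {m : V} (h : D.Lo a b m) : D.Lo b a m :=
  ⟨h.1.symm, fun u => (h.2 u).symm⟩

theorem L_symm {a b c : D.W} (h : c ∈ D.L a b) : c ∈ D.L b a := by
  rcases h with h | h | ⟨m, h, h'⟩ | ⟨u, h⟩
  exacts [Or.inr (Or.inl h), Or.inl h, Or.inr (Or.inr (Or.inl ⟨m, h.symm, h'⟩)),
    Or.inr (Or.inr (Or.inr ⟨u, h.symm⟩))]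

theorem Hi.mem {u : U} {a b c : D.W} (h : D.Hi u a b c) : c ∈ D.L a b :=
  Or.inr (Or.inr (Or.inr ⟨u, Or.inl h⟩))

theorem Lo.mem {a b : D.W} {m : V} (h : D.Lo a b m) : .base m ∈ D.L a b :=
  Or.inr (Or.inr (Or.inl ⟨m, h, rfl⟩))

theorem proj (u : U) (x : V) : ∃ y ∈ D.Y u, D.an u x y ≤ 8 * D.ε := by
  obtain ⟨y, hy, h⟩ := D.F.proj u x
  refine ⟨y, hy, ang_le fun p _ q hq => ?_⟩
  have := h q hq; have := D.X.tri x y p
  unfold Bt at *; omega

theorem near {u : U} {a b : D.W} {m : V} (h : D.X.Bt 0 (D.ft a) m (D.ft b))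
    (ha : D.s < D.A u a m) (hb : D.s < D.A u b m) : ∃ p ∈ D.Y u, D.X.d m p ≤ 4 * D.ε := by
  have key : ∀ a, D.s < D.A u a m →
      D.ft a ∈ D.Y u ∨ 0 + 2 * D.ε < ang D.X D.Y u (D.ft a) m := by
    intro a ha
    by_cases hi : D.In u a
    · exact Or.inl hi.ft
    · have := B_out hi; have := D.hs
      unfold A an at ha; right; omega
  simpa using D.F.a2 h (key a ha) (key b hb)

theorem uq {u u' : U} {a : D.W} {m p p' : V} {r : ℕ} (hp : p ∈ D.Y u) (hp' : p' ∈ D.Y u')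
    (h1 : D.X.d m p ≤ r) (h2 : D.X.d m p' ≤ r) (a1 : 4 * r + 2 * D.ε < D.A u a m)
    (a2 : 4 * r + 2 * D.ε < D.A u' a m) : u = u' := by
  by_contra hne
  have key : ∀ {u u' : U} {p : V}, u ≠ u' → p ∈ D.Y u → D.X.d m p ≤ r → D.In u a →
      ¬ 4 * r + 2 * D.ε < D.A u' a m := by
    intro u u' p hne hp h1 hi
    have := B_out (fun h => hne (hi.uniq h))
    have := an_ov hne.symm hi.ft hp
    have := an_tri (D := D) u' (D.ft a) p m
    have := an_two (D := D) u' p m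
    have := D.X.symm m p
    unfold A; omega
  by_cases i1 : D.In u a
  · exact key hne hp h1 i1 a2
  by_cases i2 : D.In u' a
  · exact key (Ne.symm hne) hp' h2 i2 a1
  have := B_out i1; have := B_out i2
  unfold A an at *
  exact hne (D.F.u1 (x := D.ft a) hp hp' h1 h2 (by omega) (by omega))

theorem G_ge {u : U} {a b : D.W} {m : V} (h : D.X.Bt 0 (D.ft a) m (D.ft b))
    (ha : D.s < D.A u a m) (hb : D.s < D.A u b m) : D.s ≤ D.G u a b := by
  have := D.F.a6 u h; have := an_symm (D := D) u m (D.ft b); have := D.hs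
  unfold A G an at *; omega

theorem lohi {u : U} {a b : D.W} {y : V} (hy : y ∈ D.Y u) (h : D.an u (D.ft a) y ≤ 8 * D.ε)
    (hi : ¬ D.In u a) (hG : D.s ≤ D.G u a b) :
    D.X.Bt (9 * D.ε) (D.ft a) y (D.ft b) ∧ ∃ m, D.Lo a b m ∧ D.X.d y m ≤ 10 * D.ε := by
  have hs := D.hs; have pos := D.F.pos
  have b0 := B_out hi
  have h1 : ∀ q ∈ D.Y u, D.X.Bt (8 * D.ε) (D.ft a) y q := by
    intro q hq
    have := ang_spec (X := D.X) u (D.ft a) y y hy q hq
    have := D.X.d_self y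
    unfold an at h; unfold Bt; omega
  have h2 : D.X.Bt (9 * D.ε) (D.ft a) y (D.ft b) := by
    by_cases hb : D.In u b
    · exact (h1 _ hb.ft).mono (by omega)
    · have := B_out hb
      have := an_tri (D := D) u (D.ft a) y (D.ft b); have := an_symm (D := D) u y (D.ft b)
      obtain ⟨q, q1, q2⟩ := ang_wit (X := D.X) (Y := D.Y) (u := u) (x := D.ft b) (m := y)
        (θ := 9 * D.ε) (by unfold G an at *; omega)
      rcases D.F.hyp.l1 (h1 q q1) (D.ft b) with h3 | h3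
      · exact h3.mono (by omega)
      · have := h3.symm; unfold Bt at this; omega
  refine ⟨h2, ?_⟩
  obtain ⟨m, m1, m2⟩ := D.F.hyp.nb h2
  refine ⟨m, ⟨m1, fun u' => ?_⟩, by omega⟩
  by_contra hc
  push Not at hc
  obtain ⟨p, p1, p2⟩ := near m1 hc.1 hc.2
  have := an_tri (D := D) u (D.ft a) y m; have := an_two (D := D) u y m
  have := an_tri (D := D) u (D.ft a) m (D.ft b); have := an_symm (D := D) u m (D.ft b)
  have := D.X.symm y m
  have h3 : u = u' := uq (a := b) (m := m) (r := 10 * D.ε) hy p1 (by omega) (by omega)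
    (by unfold A G at *; omega) (by omega)
  subst h3
  unfold A at hc; omega

theorem hi_ex {u : U} {a b : D.W} (hG : D.s ≤ D.G u a b) :
    ∃ l, D.B u a ≤ 2 ^ l * D.s ∧ 2 ^ l * D.s ≤ D.G u a b ∧ (l = 0 ∨ 2 ^ l * D.s = D.B u a) := by
  by_cases h : D.In u a
  · have := B_in h
    exact ⟨D.lev a, by omega, by unfold G; omega, Or.inr this.symm⟩
  · exact ⟨0, by rw [B_out h]; omega, by omega, Or.inl rfl⟩

theorem climb {u : U} {a e : D.W} {n p : V} (hA : D.A u a n ≤ 4 * D.s) (hG : D.s ≤ D.G u a e)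
    (hp : p ∈ D.Y u) (hd : D.X.d n p ≤ 6 * D.ε) :
    ∃ c, D.Hi u a e c ∧ D.Z.d (.base n) c ≤ 5 := by
  obtain ⟨y, hy, h⟩ := proj (D := D) u (D.ft a)
  obtain ⟨l, l1, l2, l3⟩ := hi_ex hG
  refine ⟨_, ⟨y, hy, l, h, l1, l2, rfl⟩, ?_⟩
  have hs := D.hs; have := s_pos (D := D)
  have hl : l ≤ 2 := by
    rcases l3 with l3 | l3
    · omega
    · have : 2 ^ l * D.s < 2 ^ 3 * D.s := by unfold A at hA; omega
      have := pw_lt this; omega
  have h1 : D.Z.d (.base n) (.base y) ≤ 3 := by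
    refine zb ?_
    have := an_in hy hp; have := an_tri (D := D) u y (D.ft a) p
    have := an_tri (D := D) u (D.ft a) n p; have := an_two (D := D) u n p
    have := an_symm (D := D) u y (D.ft a); have := D.X.tri n p y; have := D.X.symm y p
    unfold A at hA; omega
  have h2 := zv hy (l := 0) (l' := l) (j := 2) (by omega) (by omega)
  rw [vt_zero] at h2
  have := D.Z.tri (.base n) (.base y) (D.vt u y hy l)
  omega

theorem thin_lo {a b : D.W} {m : V} (h : D.Lo a b m) (e : D.W) :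
    ∃ c, (c ∈ D.L a e ∨ c ∈ D.L b e) ∧ D.Z.d (.base m) c ≤ 5 := by
  have key : ∀ {a b : D.W}, D.Lo a b m → D.X.Bt (0 + D.ε) (D.ft a) m (D.ft e) →
      ∃ c, (c ∈ D.L a e ∨ c ∈ D.L b e) ∧ D.Z.d (.base m) c ≤ 5 := by
    intro a b h h1
    have hs := D.hs
    obtain ⟨n, n1, n2⟩ := D.F.hyp.nb h1
    by_cases hl : D.Lo a e n
    · have := zb (D := D) (x := m) (y := n) (k := 1) (by omega)
      exact ⟨_, Or.inl hl.mem, by omega⟩
    obtain ⟨u, u1, u2⟩ : ∃ u, D.s < D.A u a n ∧ D.s < D.A u e n := by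
      by_contra hc
      exact hl ⟨n1, fun u => by by_contra h2; exact hc ⟨u, by omega, by omega⟩⟩
    obtain ⟨p, p1, p2⟩ := near n1 u1 u2
    have hG := G_ge n1 u1 u2
    have hd : D.X.d m p ≤ 6 * D.ε := by have := D.X.tri m n p; omega
    rcases h.2 u with h2 | h2
    · obtain ⟨c, c1, c2⟩ := climb (n := m) (by omega) hG p1 hd
      exact ⟨c, Or.inl c1.mem, c2⟩
    by_cases h3 : D.A u e m ≤ 4 * D.s
    · obtain ⟨c, c1, c2⟩ := climb h3 (hG.trans (G_symm u a e).le) p1 hd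
      exact ⟨c, Or.inl (L_symm c1.mem), c2⟩
    · have := an_tri (D := D) u (D.ft e) (D.ft b) m; have := an_symm (D := D) u (D.ft e) (D.ft b)
      obtain ⟨c, c1, c2⟩ := climb (a := b) (e := e) (n := m) (by omega)
        (by unfold A G at *; omega) p1 hd
      exact ⟨c, Or.inr c1.mem, c2⟩
  rcases D.F.hyp.l1 h.1 (D.ft e) with h1 | h1
  · exact key h h1
  · obtain ⟨c, c1, c2⟩ := key h.symm h1
    exact ⟨c, c1.symm, c2⟩

/-- A point of the cone is adjacent to the point at the same height above a projection. -/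
theorem adj_proj {u : U} {a : D.W} (hi : D.In u a) {y : V} (hy : y ∈ D.Y u)
    (h : D.an u (D.ft a) y ≤ 8 * D.ε) : D.Z.d a (D.vt u y hy (D.lev a)) ≤ 1 := by
  have := an_in hi.ft hy; have := le_pw (D := D) (D.lev a); have := D.hs
  have h1 := zh hi.ft hy (l := D.lev a) (by omega)
  rwa [← hi.eq_vt] at h1

theorem thin_hi {u : U} {a b c : D.W} (h : D.Hi u a b c) (e : D.W) :
    ∃ c', (c' ∈ D.L a e ∨ c' ∈ D.L b e) ∧ D.Z.d c c' ≤ 6 := by
  obtain ⟨y, hy, l, h1, h2, h3, rfl⟩ := h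
  have hs := D.hs; have := s_pos (D := D)
  cases l with
  | zero =>
    have hi : ¬ D.In u a := fun hi => by have := B_ge hi; omega
    obtain ⟨-, m, m1, m2⟩ := lohi (b := b) hy h1 hi (by omega)
    obtain ⟨c, c1, c2⟩ := thin_lo m1 e
    have := zb (D := D) (x := y) (y := m) (k := 1) (by omega)
    have := D.Z.tri (.base y) (.base m) c
    rw [vt_zero]
    exact ⟨c, c1, by omega⟩
  | succ k =>
    rw [pw_succ] at h2 h3
    have hv := zv hy (l := k + 1) (l' := k) (j := 1) (by omega) (by omega)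
    by_cases hG : 2 ^ k * D.s ≤ D.G u a e
    · by_cases hB : D.B u a ≤ 2 ^ k * D.s
      · exact ⟨_, Or.inl (Hi.mem ⟨y, hy, k, h1, hB, hG, rfl⟩), by omega⟩
      · have hi : D.In u a := by by_contra hi; have := B_out hi; omega
        have e1 := B_in hi
        have e2 : k < D.lev a := pw_lt (D := D) (by omega)
        have e3 : D.lev a < k + 1 + 1 := pw_lt (D := D) (by
          rw [pw_succ, pw_succ]; have := le_pw (D := D) k; omega)
        have e4 := adj_proj hi hy h1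
        rw [show D.lev a = k + 1 by omega, D.Z.symm] at e4
        exact ⟨a, Or.inl (Or.inl rfl), by omega⟩
    · obtain ⟨y', hy', h4⟩ := proj (D := D) u (D.ft e)
      have := an_tri (D := D) u (D.ft a) (D.ft e) (D.ft b)
      have h5 : D.Hi u e b (D.vt u y' hy' k) :=
        ⟨y', hy', k, h4, by unfold G at *; omega, by unfold G at *; omega, rfl⟩
      have := an_in hy hy'; have := an_tri (D := D) u y (D.ft a) y'
      have := an_tri (D := D) u (D.ft a) (D.ft e) y'; have := an_symm (D := D) u y (D.ft a)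
      have := le_pw (D := D) k
      have := zh hy hy' (l := k) (by unfold G at *; omega)
      have := D.Z.tri (D.vt u y hy (k + 1)) (D.vt u y hy k) (D.vt u y' hy' k)
      exact ⟨_, Or.inr (L_symm h5.mem), by omega⟩

theorem thin (a b e c : D.W) (h : c ∈ D.L a b) :
    ∃ c', (c' ∈ D.L a e ∨ c' ∈ D.L b e) ∧ D.Z.d c c' ≤ 10 := by
  rcases h with rfl | rfl | ⟨m, h, rfl⟩ | ⟨u, h | h⟩
  · exact ⟨c, Or.inl (Or.inl rfl), by rw [D.Z.d_self]; omega⟩
  · exact ⟨c, Or.inr (Or.inl rfl), by rw [D.Z.d_self]; omega⟩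
  · obtain ⟨c, c1, c2⟩ := thin_lo h e; exact ⟨c, c1, by omega⟩
  · obtain ⟨c, c1, c2⟩ := thin_hi h e; exact ⟨c, c1, by omega⟩
  · obtain ⟨c, c1, c2⟩ := thin_hi h e; exact ⟨c, c1.symm, by omega⟩

end CD

end Pool.Agent.P.MP_4b59b0_al
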