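import Pool.Agent.P.MP_4b59b0_al.Cone2

set_option autoImplicit false

namespace Pool.Agent.P.MP_4b59b0_al

open Sp

namespace CD

variable {V U : Type} {D : CD V U}

theorem low {a b : D.W} (h : D.R a b) (h0 : D.lev a = 0 ∨ D.lev b = 0) :
    D.lev a ≤ 1 ∧ D.lev b ≤ 1 ∧ D.X.d (D.ft a) (D.ft b) ≤ 2 * D.s := by
  obtain ⟨e1, e2, -⟩ := h.ep
  have e3 := h.symm.ep.1
  have := D.hρ
  have := e2 (by omega) (by omega)
  have := pw_mono (D := D) (show D.lev a ≤ 1 by omega)
  exact ⟨by omega, by omega, by omega⟩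

theorem B_low {u : U} {a : D.W} (h : D.lev a ≤ 1) : D.B u a ≤ 2 * D.s := by
  by_cases hi : D.In u a
  · have := pw_mono (D := D) h; rw [B_in hi]; omega
  · rw [B_out hi]; omega

theorem adj_lo {a b : D.W} (h : D.R a b) {m : V} (hm : D.Lo a b m) : D.Z.d a (.base m) ≤ 3 := by
  by_cases h0 : D.lev a = 0 ∨ D.lev b = 0
  · obtain ⟨h1, -, h2⟩ := low h h0
    have h3 := hm.1
    have := zd a; have := D.Z.symm a (.base (D.ft a))
    have := zb (D := D) (x := D.ft a) (y := m) (k := 2) (by unfold Bt at h3; omega)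
    have := D.Z.tri a (.base (D.ft a)) (.base m)
    omega
  · obtain ⟨u, hu⟩ := exists_in (a := a) (by omega)
    have hb := h.ep.2.2 u hu (by omega)
    have := B_ge hu; have := B_ge hb; have := hm.2 u; have := s_pos (D := D)
    unfold A at *; omega

theorem z_apex {u : U} {y : V} (hy : y ∈ D.Y u) {l j : ℕ} (h : D.ρ + 1 ≤ l + j) :
    D.Z.d (D.vt u y hy l) (.apex u) ≤ j := by
  have := zv hy (l := l) (l' := l + j) (j := j) (by omega) (by omega)
  rwa [vt_top hy (l := l + j) (by omega)] at this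

theorem adj_hi {a b c : D.W} {u : U} (h : D.R a b) (hc : D.Hi u a b c) : D.Z.d a c ≤ 7 := by
  obtain ⟨y, hy, l, h1, h2, h3, rfl⟩ := hc
  have hs := D.hs; have := s_pos (D := D); have := le_pw (D := D) l
  by_cases h0 : D.lev a = 0 ∨ D.lev b = 0
  · obtain ⟨e1, e2, e3⟩ := low h h0
    have := B_low (u := u) e1; have := B_low (u := u) e2
    have := an_two (D := D) u (D.ft a) (D.ft b)
    have hl : l < 4 := pw_lt (D := D) (by unfold G at h3; omega)
    have h4 : D.X.d (D.ft a) y ≤ 3 * D.s := by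
      by_cases hi : D.In u a
      · have := an_in hi.ft hy; omega
      · obtain ⟨-, m, m1, m2⟩ := lohi (b := b) hy h1 hi (by omega)
        have h5 := m1.1
        have := D.X.tri (D.ft a) m y; have := D.X.symm y m
        unfold Bt at h5; omega
    have := zb h4
    have := zd a; have := D.Z.symm a (.base (D.ft a))
    have h5 := zv hy (l := 0) (l' := l) (j := 3) (by omega) (by omega)
    rw [vt_zero] at h5
    have := D.Z.tri a (.base (D.ft a)) (D.vt u y hy l)
    have := D.Z.tri (.base (D.ft a)) (.base y) (D.vt u y hy l)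
    omega
  · obtain ⟨v, hv⟩ := exists_in (a := a) (by omega)
    have hb := h.ep.2.2 v hv (by omega)
    obtain rfl : u = v := by
      by_contra hne
      have := B_out (fun h => hne (In.uniq h hv)); have := B_out (fun h => hne (In.uniq h hb))
      have := an_ov hne hv.ft hb.ft
      unfold G at h3; omega
    have e1 := B_in hv; have e2 := B_in hb
    have e3 : D.lev a < l + 1 := pw_lt (D := D) (by rw [pw_succ]; omega)
    have e4 := adj_proj hv hy h1
    obtain ⟨f1, f2, -⟩ := h.ep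
    have f3 := h.symm.ep.1
    by_cases hr : D.lev a ≤ D.ρ ∧ D.lev b ≤ D.ρ
    · have := f2 hr.1 hr.2
      have := an_two (D := D) u (D.ft a) (D.ft b)
      have := pw_mono (D := D) f1
      have := le_pw (D := D) (D.lev a)
      have hl : l < D.lev a + 1 + 1 + 1 := pw_lt (D := D) (by
        rw [pw_succ] at *; rw [pw_succ, pw_succ]; unfold G at h3; omega)
      have := zv hy (l := D.lev a) (l' := l) (j := 2) (by omega) (by omega)
      have := D.Z.tri a (D.vt u y hy (D.lev a)) (D.vt u y hy l)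
      omega
    · have := z_apex hy (l := l) (j := 1) (by omega)
      have := z_apex hy (l := D.lev a) (j := 1) (by omega)
      have := D.Z.tri a (D.vt u y hy (D.lev a)) (D.vt u y hy l)
      have := D.Z.tri (D.vt u y hy (D.lev a)) (.apex u) (D.vt u y hy l)
      have := D.Z.symm (.apex u) (D.vt u y hy l)
      omega

theorem adj (a b c : D.W) (h : D.Z.d a b ≤ 1) (hc : c ∈ D.L a b) : D.Z.d a c ≤ 10 := by
  have hr := z_one.1 h
  rcases hc with rfl | rfl | ⟨m, hm, rfl⟩ | ⟨u, hc | hc⟩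
  · rw [D.Z.d_self]; omega
  · omega
  · have := adj_lo hr hm; omega
  · have := adj_hi hr hc; omega
  · have := adj_hi hr.symm hc; have := D.Z.tri a b c; omega

variable (D) in
/-- Chains in the guessed geodesics. -/
def Ch (a b : D.W) : D.W → D.W → Prop :=
  Relation.ReflTransGen fun c c' => c ∈ D.L a b ∧ c' ∈ D.L a b ∧ D.Z.d c c' ≤ 10

theorem Ch.one {a b c c' : D.W} (h : c ∈ D.L a b) (h' : c' ∈ D.L a b) (hd : D.Z.d c c' ≤ 10) :
    D.Ch a b c c' := Relation.ReflTransGen.single ⟨h, h', hd⟩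

theorem Ch.trans {a b c c' c'' : D.W} (h : D.Ch a b c c') (h' : D.Ch a b c' c'') :
    D.Ch a b c c'' := Relation.ReflTransGen.trans h h'

theorem Ch.symm {a b c c' : D.W} (h : D.Ch a b c c') : D.Ch a b c' c := by
  induction h with
  | refl => exact Relation.ReflTransGen.refl
  | tail _ h ih => exact (Ch.one h.2.1 h.1 (by rw [D.Z.symm]; exact h.2.2)).trans ih

theorem Ch.swap {a b c c' : D.W} (h : D.Ch a b c c') : D.Ch b a c c' := by
  induction h with
  | refl => exact Relation.ReflTransGen.refl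
  | tail _ h ih => exact ih.trans (Ch.one (L_symm h.1) (L_symm h.2.1) h.2.2)

theorem Ch.weak {a b c c' : D.W} (h : D.Ch a b c c') :
    Relation.ReflTransGen (fun c c' => c' ∈ D.L a b ∧ D.Z.d c c' ≤ 10) c c' := by
  induction h with
  | refl => exact Relation.ReflTransGen.refl
  | tail _ h ih => exact ih.tail h.2

theorem ch_up {u : U} {a b : D.W} {y : V} (hy : y ∈ D.Y u) (h : D.an u (D.ft a) y ≤ 8 * D.ε)
    {l : ℕ} (hl : D.B u a ≤ 2 ^ l * D.s) :
    ∀ j, 2 ^ (l + j) * D.s ≤ D.G u a b → D.Ch a b (D.vt u y hy l) (D.vt u y hy (l + j)) := by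
  intro j
  induction j with
  | zero => intro _; exact Relation.ReflTransGen.refl
  | succ j ih =>
    intro hj
    have h1 := pw_mono (D := D) (show l + j ≤ l + (j + 1) by omega)
    have h2 := pw_mono (D := D) (show l ≤ l + j by omega)
    have := zv hy (l := l + j) (l' := l + (j + 1)) (j := 1) (by omega) (by omega)
    exact (ih (by omega)).trans (Ch.one (Hi.mem ⟨y, hy, _, h, by omega, by omega, rfl⟩)
      (Hi.mem ⟨y, hy, _, h, by omega, hj, rfl⟩) (by omega))

/-- All points of the guessed geodesic in a given cone are chained. -/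
theorem ch_hi {u : U} {a b c c' : D.W} (h : D.Hi u a b c ∨ D.Hi u b a c)
    (h' : D.Hi u a b c' ∨ D.Hi u b a c') : D.Ch a b c c' := by
  have hs := D.hs; have := s_pos (D := D)
  have hG : D.s ≤ D.G u a b := by
    rcases h with ⟨y, hy, l, -, -, h, -⟩ | ⟨y, hy, l, -, -, h, -⟩
    · exact (le_pw l).trans h
    · exact ((le_pw l).trans h).trans (G_symm u b a).le
  obtain ⟨N, -, N1, N2⟩ := ivt (fun l => 2 ^ l * D.s ≤ D.G u a b) (D.G u a b) (by simpa using hG)
    (by
      have := Nat.lt_two_pow_self (n := D.G u a b)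
      have := Nat.le_mul_of_pos_right (2 ^ D.G u a b) (show 0 < D.s by omega)
      omega)
  have key : ∀ {a b c : D.W}, 2 ^ N * D.s ≤ D.G u a b → ¬ 2 ^ (N + 1) * D.s ≤ D.G u a b →
      D.Hi u a b c → ∃ y hy, D.an u (D.ft a) y ≤ 8 * D.ε ∧ D.vt u y hy N ∈ D.L a b ∧
        D.Ch a b c (D.vt u y hy N) := by
    rintro a b c N1 N2 ⟨y, hy, l, h1, h2, h3, rfl⟩
    have hl : l < N + 1 := pw_lt (D := D) (by omega)
    obtain ⟨j, rfl⟩ := Nat.exists_eq_add_of_le (Nat.lt_succ_iff.1 hl)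
    have := pw_mono (D := D) (show l ≤ l + j by omega)
    exact ⟨y, hy, h1, Hi.mem ⟨y, hy, _, h1, by omega, N1, rfl⟩, ch_up hy h1 h2 j N1⟩
  have key2 : ∀ {c : D.W}, D.Hi u a b c ∨ D.Hi u b a c → ∃ y hy,
      (D.an u (D.ft a) y ≤ 8 * D.ε ∨ D.an u (D.ft b) y ≤ 8 * D.ε) ∧ D.vt u y hy N ∈ D.L a b ∧
        D.Ch a b c (D.vt u y hy N) := by
    rintro c (h | h)
    · obtain ⟨y, hy, h1, h2, h3⟩ := key N1 N2 h
      exact ⟨y, hy, Or.inl h1, h2, h3⟩
    · obtain ⟨y, hy, h1, h2, h3⟩ := key (by rwa [G_symm]) (by rwa [G_symm]) h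
      exact ⟨y, hy, Or.inr h1, L_symm h2, h3.swap⟩
  obtain ⟨y, hy, h1, h2, h3⟩ := key2 h
  obtain ⟨y', hy', h1', h2', h3'⟩ := key2 h'
  refine h3.trans (Ch.trans (Ch.one h2 h2' ?_) h3'.symm)
  have h4 : D.an u y y' ≤ D.an u (D.ft a) (D.ft b) + 16 * D.ε := by
    have := an_symm (D := D) u y (D.ft a); have := an_symm (D := D) u y (D.ft b)
    have := an_symm (D := D) u (D.ft a) (D.ft b)
    have := an_tri (D := D) u y (D.ft a) y'; have := an_tri (D := D) u y (D.ft b) y'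
    have := an_tri (D := D) u (D.ft a) (D.ft b) y'; have := an_tri (D := D) u (D.ft b) (D.ft a) y'
    rcases h1 with h1 | h1 <;> rcases h1' with h1' | h1' <;> omega
  have := an_in hy hy'; have := le_pw (D := D) N
  have := zh hy hy' (l := N + 1) (by rw [pw_succ] at *; unfold G at N2; omega)
  have := zv hy (l := N) (l' := N + 1) (j := 1) (by omega) (by omega)
  have := zv hy' (l := N + 1) (l' := N) (j := 1) (by omega) (by omega)
  have := D.Z.tri (D.vt u y hy N) (D.vt u y hy (N + 1)) (D.vt u y' hy' N)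
  have := D.Z.tri (D.vt u y hy (N + 1)) (D.vt u y' hy' (N + 1)) (D.vt u y' hy' N)
  omega

theorem ch_lo {u : U} {a b c : D.W} {m p : V} (h : D.Lo a b m) (hG : D.s ≤ D.G u a b)
    (hp : p ∈ D.Y u) (hd : D.X.d m p ≤ 6 * D.ε) (hc : D.Hi u a b c ∨ D.Hi u b a c) :
    D.Ch a b (.base m) c := by
  rcases h.2 u with h1 | h1
  · obtain ⟨c', c1, c2⟩ := climb (n := m) (by omega) hG hp hd
    exact (Ch.one h.mem c1.mem (by omega)).trans (ch_hi (Or.inl c1) hc)
  · obtain ⟨c', c1, c2⟩ := climb (a := b) (e := a) (n := m) (by omega) (by rwa [G_symm]) hp hd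
    exact (Ch.one h.mem (L_symm c1.mem) (by omega)).trans (ch_hi (Or.inr c1) hc)

variable (D) in
def Sc (a b : D.W) (m : V) (c : D.W) : Prop :=
  (D.Lo a b m ∧ c = .base m) ∨
    ∃ u, D.s < D.A u a m ∧ D.s < D.A u b m ∧ (D.Hi u a b c ∨ D.Hi u b a c)

theorem Sc.swap {a b c : D.W} {m : V} (h : D.Sc a b m c) : D.Sc b a m c := by
  rcases h with ⟨h, h'⟩ | ⟨u, h1, h2, h3⟩
  exacts [Or.inl ⟨h.symm, h'⟩, Or.inr ⟨u, h2, h1, h3.symm⟩]

theorem sc_ex {a b : D.W} {m : V} (h : D.X.Bt 0 (D.ft a) m (D.ft b)) : ∃ c, D.Sc a b m c := by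
  by_cases hl : D.Lo a b m
  · exact ⟨_, Or.inl ⟨hl, rfl⟩⟩
  obtain ⟨u, u1, u2⟩ : ∃ u, D.s < D.A u a m ∧ D.s < D.A u b m := by
    by_contra hc
    exact hl ⟨h, fun u => by by_contra h2; exact hc ⟨u, by omega, by omega⟩⟩
  obtain ⟨y, hy, h1⟩ := proj (D := D) u (D.ft a)
  obtain ⟨l, l1, l2, -⟩ := hi_ex (G_ge h u1 u2)
  exact ⟨_, Or.inr ⟨u, u1, u2, Or.inl ⟨y, hy, l, h1, l1, l2, rfl⟩⟩⟩

theorem sc_ch {a b c c' : D.W} {m m' : V} (h : D.X.Bt 0 (D.ft a) m (D.ft b))
    (h' : D.X.Bt 0 (D.ft a) m' (D.ft b)) (hd : D.X.d m m' ≤ 1) (hc : D.Sc a b m c)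
    (hc' : D.Sc a b m' c') : D.Ch a b c c' := by
  have hs := D.hs; have := D.F.pos; have := D.X.symm m m'
  rcases hc with ⟨h1, rfl⟩ | ⟨u, u1, u2, u3⟩ <;> rcases hc' with ⟨h1', rfl⟩ | ⟨v, v1, v2, v3⟩
  · have := zb (D := D) (x := m) (y := m') (k := 1) (by omega)
    exact Ch.one h1.mem h1'.mem (by omega)
  · obtain ⟨p, p1, p2⟩ := near h' v1 v2
    exact ch_lo h1 (G_ge h' v1 v2) p1 (by have := D.X.tri m m' p; omega) v3
  · obtain ⟨p, p1, p2⟩ := near h u1 u2
    exact (ch_lo h1' (G_ge h u1 u2) p1 (by have := D.X.tri m' m p; omega) u3).symm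
  · obtain ⟨p, p1, p2⟩ := near h u1 u2
    obtain ⟨q, q1, q2⟩ := near h' v1 v2
    have := D.X.tri m m' q
    have := an_tri (D := D) v (D.ft a) m m'; have := an_two (D := D) v m m'
    obtain rfl : u = v := uq (a := a) (m := m) (r := 5 * D.ε) p1 q1 (by omega) (by omega)
      (by omega) (by unfold A at *; omega)
    exact ch_hi u3 v3

theorem sc_start (a b : D.W) : ∃ c, D.Sc a b (D.ft a) c ∧ D.Ch a b a c := by
  have hs := D.hs; have := s_pos (D := D)
  have h0 : ∀ u, ¬ D.In u a → D.A u a (D.ft a) ≤ D.s := by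
    intro u hu
    have := B_out hu; have := an_self (D := D) u (D.ft a)
    unfold A; omega
  rcases base_or a with ⟨h1, h2⟩ | ⟨u, hu⟩
  · refine ⟨a, Or.inl ⟨⟨bt_left _ _ _, fun u => Or.inl (h0 u fun h => ?_)⟩, h2⟩,
      Relation.ReflTransGen.refl⟩
    have := h.pos; omega
  · have := B_in hu; have := B_ge hu; have := an_self (D := D) u (D.ft a)
    have ha : D.Hi u a b a :=
      ⟨_, hu.ft, D.lev a, by omega, by omega, by unfold G; omega, hu.eq_vt⟩
    by_cases h1 : D.s < D.A u b (D.ft a)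
    · exact ⟨a, Or.inr ⟨u, by unfold A; omega, h1, Or.inl ha⟩, Relation.ReflTransGen.refl⟩
    · have hl : D.Lo a b (D.ft a) := by
        refine ⟨bt_left _ _ _, fun v => ?_⟩
        by_cases hv : D.In v a
        · rw [hv.uniq hu]; right; omega
        · exact Or.inl (h0 v hv)
      exact ⟨_, Or.inl ⟨hl, rfl⟩, (ch_lo hl (by unfold G; omega) hu.ft
        (by rw [D.X.d_self]; omega) (Or.inl ha)).symm⟩

theorem ch_conn (a b : D.W) : D.Ch a b a b := by
  obtain ⟨γ, g0, gn, hγ⟩ := D.X.exists_geo (D.ft a) (D.ft b)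
  have hb : ∀ i, i ≤ D.X.d (D.ft a) (D.ft b) → D.X.Bt 0 (D.ft a) (γ i) (D.ft b) := by
    intro i hi
    have := hγ.bt (Nat.zero_le i) hi le_rfl
    rwa [g0, gn] at this
  have key : ∀ i, i ≤ D.X.d (D.ft a) (D.ft b) → ∃ c, D.Sc a b (γ i) c ∧ D.Ch a b a c := by
    intro i
    induction i with
    | zero => intro _; rw [g0]; exact sc_start a b
    | succ i ih =>
      intro hi
      obtain ⟨c, c1, c2⟩ := ih (by omega)
      obtain ⟨c', h'⟩ := sc_ex (hb _ hi)
      exact ⟨c', h', c2.trans (sc_ch (hb i (by omega)) (hb _ hi)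
        (hγ.d_le (by omega) hi (by omega) (by omega)) c1 h')⟩
  obtain ⟨c, c1, c2⟩ := key _ le_rfl
  obtain ⟨c', c1', c2'⟩ := sc_start b a
  rw [gn] at c1
  exact c2.trans ((sc_ch (bt_right _ _ _) (bt_right _ _ _) (by rw [D.X.d_self]; omega) c1
    c1'.swap).trans c2'.swap.symm)

end CD

theorem cone_hyp : ∃ δ₀ K : ℕ, ∀ (V U : Type) (D : CD V U), D.Z.Hyp δ₀ ∧
    (∀ a b c, c ∈ D.L a b → ∃ m, D.Z.Bt 0 a m b ∧ D.Z.d c m ≤ K) ∧
    (∀ a b m, D.Z.Bt 0 a m b → ∃ c ∈ D.L a b, D.Z.d m c ≤ K) := by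
  obtain ⟨δ₀, K, h⟩ := bowditch 10
  exact ⟨δ₀, K, fun V U D => h _ D.Z D.L (fun _ _ _ => CD.L_symm) (fun _ _ => Or.inl rfl)
    (fun a b => (CD.ch_conn a b).weak) CD.thin CD.adj⟩

end Pool.Agent.P.MP_4b59b0_al
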