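import Pool.Agent.P.MP_4b59b0_al.Isom2

set_option autoImplicit false

namespace Pool.Agent.P.MP_4b59b0_al

open Sp

attribute [local instance] ConeOff.act

section

variable {V : Type} {X : Sp V} {H : Type} [Group H] [MulAction H V] {U : Type} [MulAction H U]
  {Y : U → Set V} {δ₀ K ε s ρ M : ℕ}

theorem ConeOff.foot (C : ConeOff X H Y δ₀ K ε s ρ M) {c : C.W} {x : V} {D : ℕ}
    (hx : C.Z.d c (C.ι x) ≤ D) (hρ : 3 * D ≤ ρ) {g : H} (hg : C.Z.d c (g • c) ≤ D) :
    X.d x (g • x) ≤ 3 * D * 2 ^ (3 * D) * s := by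
  have h1 := C.iso.disp_move g (C.ι x) c
  rw [C.Z.symm (C.ι x) c, ← C.ι_smul] at h1
  exact C.sh x (g • x) (3 * D) (by omega) hρ

theorem ConeOff.far (C : ConeOff X H Y δ₀ K ε s ρ M) {x y : V} {t : ℕ}
    (h : t + 1 ≤ C.Z.d (C.ι x) (C.ι y)) : t * s ≤ X.d x y := by
  have h1 := C.shrink x y
  have h2 : s * (t + 1) ≤ s * C.Z.d (C.ι x) (C.ι y) := Nat.mul_le_mul_left _ h
  rw [mul_add, mul_comm] at h2; omega

end

theorem coneInv (δ K : ℕ) : ∃ a₀ ρ₀ : ℕ,
    ∀ (V : Type) (X : Sp V) (H : Type) [Group H] [MulAction H V] (U : Type) [MulAction H U]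
      (Y : U → Set V) (δ₀ ε s ρ M A r : ℕ) (C : ConeOff X H Y δ₀ K ε s ρ M),
      δ₀ ≤ δ → Inv X H δ A → CSA H → A + 100 * δ ≤ s → ρ₀ ≤ ρ →
      (∀ (u : U) (g h : H), g • u = u → h • u = u → Commute g h) →
      (∀ (u : U) (g h : H), h ≠ 1 → Commute g h → h • u = u → g • u = u) →
      (ρ ≤ r ∨ (101 * δ ≤ r ∧
        ∀ (u : U) (h : H) (a : C.W), h ≠ 1 → h • u = u → ¬ C.P.Ang u a (h • a) M)) →
      Inv C.Z H δ (2 * r + a₀) := by
  obtain ⟨E, hE⟩ : ∃ E, E = 3 * (101 * δ) * 2 ^ (3 * (101 * δ)) := ⟨_, rfl⟩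
  obtain ⟨E', hE'⟩ : ∃ E, E = 2 * (700 * δ + K + 128) * 2 ^ (700 * δ + K) := ⟨_, rfl⟩
  obtain ⟨a, ha⟩ : ∃ a, a = 10 * E + E' + 300 * δ + 2 := ⟨_, rfl⟩
  refine ⟨2 * a + 10 * δ, 1000 * δ + K, fun V X H _ _ U _ Y δ₀ ε s ρ M A r C h0 inv csa hs hρ st1
    st2 hr => ?_⟩
  have pos := inv.pos
  have hyp : C.Z.Hyp δ := C.hyp.mono h0
  have iso := C.iso
  refine ⟨iso, hyp, pos, fun g h x y gx gy hx hy hd => ?_, fun g h p q h1 hc hp hq => ?_⟩
  · rcases C.shallow x (101 * δ) (by omega) with ⟨u, -, h1⟩ | ⟨x₀, hx₀⟩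
    · exact st1 u g h (h1 g (by omega)) (h1 h (by omega))
    rcases C.shallow y (101 * δ) (by omega) with ⟨u, -, h1⟩ | ⟨y₀, hy₀⟩
    · exact st1 u g h (h1 g (by omega)) (h1 h (by omega))
    have := C.Z.tri x (C.ι x₀) y; have := C.Z.tri (C.ι x₀) (C.ι y₀) y
    have := C.Z.symm y (C.ι y₀)
    have h2 := C.far (x := x₀) (y := y₀) (t := 10 * E + 1) (by omega)
    refine inv.i1big csa (D := E * s) (x := x₀) (y := y₀)
      (hE ▸ C.foot hx₀ (by omega) (by omega)) (hE ▸ C.foot hy₀ (by omega) (by omega))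
      (hE ▸ C.foot hx₀ (by omega) (by omega)) (hE ▸ C.foot hy₀ (by omega) (by omega)) ?_
    rw [add_mul, mul_assoc] at h2; omega
  · by_contra hcon
    have e0 := iso.disp_move g q p
    obtain ⟨q', q1, q2⟩ := C.Z.geod' q p a (by omega)
    have hq' := qc iso hyp hq hp q2
    have deep : ∀ (c : C.W) (u : U), C.Z.d c (h • c) ≤ 101 * δ → C.Z.d c (C.P.ω u) ≤ ρ →
        h • u = u → C.Z.d c (g • c) ≤ 2 * r := by
      intro c u hc1 hc2 hu
      have e1 := iso.disp_move g c (C.P.ω u)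
      rw [← C.P.ω_smul, st2 u g h h1 hc hu, C.Z.d_self] at e1
      rcases hr with hr | ⟨hr, hrot⟩
      · omega
      · have e2 := (C.P.bgi (hrot u h c h1 hu)).1
        unfold Bt at e2; omega
    rcases C.shallow q (101 * δ) (by omega) with ⟨u, u1, u2⟩ | ⟨x, hx⟩
    · have := deep q u (by omega) u1 (u2 h (by omega)); omega
    rcases C.shallow q' (101 * δ) (by omega) with ⟨u, u1, u2⟩ | ⟨x', hx'⟩
    · have := deep q' u (by omega) u1 (u2 h (by omega))
      have := iso.disp_move g q q'; omega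
    have side : ∀ k : H, C.Z.d p (k • p) = C.Z.d p (g • p) → C.Z.d q (k • q) = C.Z.d q (g • q) →
        C.Z.Bt δ q q' (k • q) := by
      intro k k1 k2
      rcases hyp.l1 q2 (k • q) with h2 | h2
      · simpa using h2
      · exfalso
        have := C.Z.tri p (k • p) (k • q); have := iso k p q; have := C.Z.symm p q
        have := C.Z.tri q q' p; have := C.Z.symm q' p; have := C.Z.tri q q' (k • q)
        unfold Bt at *; omega
    have b1 := side g rfl rfl
    have b2 := iso.bt g (side g⁻¹ (iso.disp_inv g p) (iso.disp_inv g q))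
    rw [smul_inv_smul] at b2
    have b3 : C.Z.Bt (4 * δ) q q' (g • q') := by
      have := iso g q q'; have := C.Z.symm (g • q) (g • q'); have := C.Z.tri q (g • q') (g • q)
      have := C.Z.symm q (g • q'); have := C.Z.symm q (g • q)
      rcases hyp.l2 b1 b2.symm with h2 | h2 <;> unfold Bt at * <;> omega
    have f1 : C.Z.d (g • q) (C.ι (g • x)) ≤ 101 * δ := by rw [C.ι_smul, iso]; exact hx
    have f2 : C.Z.d (g • q') (C.ι (g • x')) ≤ 101 * δ := by rw [C.ι_smul, iso]; exact hx'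
    have c1 := C.hd x x' (g • x') (700 * δ) (((b3.move hx f2).move_mid hx').mono (by omega))
      (by omega)
    have c2 := C.hd x (g • x') (g • x) (700 * δ)
      (((b2.symm.move hx f1).move_mid f2).mono (by omega)) (by omega)
    rw [← hE'] at c1 c2
    have := C.Z.tri q (C.ι x) q'; have := C.Z.tri (C.ι x) (C.ι x') q'
    have := C.Z.symm q' (C.ι x')
    have c3 := C.far (x := x) (y := x') (t := E + E' + 1) (by omega)
    have c4 := inv.jbig h1 hc (q := x) (hE ▸ C.foot hx (by omega) (by omega)) x'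
    have := inv.iso g x' x; have := X.symm x x'
    rw [add_mul, add_mul] at c3
    unfold Bt at c1 c2
    have : 1 * s ≤ E * s + s := by omega
    omega

end Pool.Agent.P.MP_4b59b0_al
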