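import Pool.Agent.P.MP_4b59b0_al.Basic

set_option autoImplicit false

namespace Pool.Agent.P.MP_4b59b0_al

/-- Torsion free, commutative transitive, centralisers are malnormal. -/
structure CSA (H : Type) [Group H] : Prop where
  tf : ∀ (g : H) (n : ℕ), 0 < n → g ^ n = 1 → g = 1
  ct : ∀ a b c : H, a ≠ 1 → Commute a b → Commute a c → Commute b c
  mal : ∀ a x : H, a ≠ 1 → Commute a (x⁻¹ * a * x) → Commute a x

namespace Sp

variable {V : Type} (X : Sp V)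

/-- The action is by isometries. -/
def Iso (H : Type) [Group H] [MulAction H V] : Prop :=
  ∀ (g : H) (x y : V), X.d (g • x) (g • y) = X.d x y

variable {H : Type} [Group H] [MulAction H V]

/-- Orbits of `g` escape to infinity. -/
def Esc (g : H) : Prop := ∀ (x : V) (D : ℕ), ∃ N, ∀ n, N ≤ n → D ≤ X.d x (g ^ n • x)

/-- `y` lies on the `c`-axis of `g`. -/
def Ax (g : H) (c : ℕ) (y : V) : Prop :=
  ∀ x : V, ∃ N, ∀ i j, N ≤ i → N ≤ j → X.Bt c (g⁻¹ ^ i • x) y (g ^ j • x)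

/-- `g` moves every point by at least `l`. -/
def Mv (g : H) (l : ℕ) : Prop := ∀ x : V, l ≤ X.d x (g • x)

end Sp

/-- The invariants of the induction. -/
structure Inv {V : Type} (X : Sp V) (H : Type) [Group H] [MulAction H V] (δ A : ℕ) : Prop where
  iso : X.Iso H
  hyp : X.Hyp δ
  pos : 1 ≤ δ
  i1 : ∀ (g h : H) (x y : V), X.d x (g • x) ≤ 100 * δ → X.d y (g • y) ≤ 100 * δ →
    X.d x (h • x) ≤ 100 * δ → X.d y (h • y) ≤ 100 * δ → A ≤ X.d x y → Commute g h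
  j : ∀ (g h : H) (p q : V), h ≠ 1 → Commute g h → X.d p (h • p) ≤ 100 * δ →
    X.d q (h • q) ≤ 100 * δ → X.d q (g • q) ≤ X.d p (g • p) + A

theorem Inv.mono {V : Type} {X : Sp V} {H : Type} [Group H] [MulAction H V] {δ A A' : ℕ}
    (h : Inv X H δ A) (hA : A ≤ A') : Inv X H δ A' :=
  ⟨h.iso, h.hyp, h.pos, fun g k x y h1 h2 h3 h4 h5 => h.i1 g k x y h1 h2 h3 h4 (by omega),
    fun g k p q h1 h2 h3 h4 => by have := h.j g k p q h1 h2 h3 h4; omega⟩

/-- A family of quasiconvex subsets with bounded overlaps. -/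
structure Fam {V : Type} (X : Sp V) {U : Type} (Y : U → Set V) (ε : ℕ) : Prop where
  hyp : X.Hyp ε
  pos : 1 ≤ ε
  ne : ∀ u, (Y u).Nonempty
  qc : ∀ u x y m, x ∈ Y u → y ∈ Y u → X.Bt 0 x m y → ∃ p ∈ Y u, X.d m p ≤ ε
  ov : ∀ u u', u ≠ u' → ∀ x ∈ Y u', ∀ y ∈ Y u', ∀ p ∈ Y u, ∀ q ∈ Y u,
    X.d x p + X.d y q ≤ X.d x q + X.d y p + ε

/-- The family is equivariant. -/
def Eqv (H : Type) [Group H] {V U : Type} [MulAction H V] [MulAction H U] (Y : U → Set V) : Prop :=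
  ∀ (g : H) (u : U) (y : V), y ∈ Y u → g • y ∈ Y (g • u)

/-- A family of apices with angles. -/
structure Apx {V : Type} (X : Sp V) (H : Type) [Group H] [MulAction H V] (U : Type)
    [MulAction H U] (M : ℕ) where
  ω : U → V
  Ang : U → V → V → ℕ → Prop
  ω_smul : ∀ (g : H) (u : U), ω (g • u) = g • ω u
  ω_inj : Function.Injective ω
  symm : ∀ {u a b θ}, Ang u a b θ → Ang u b a θ
  tri : ∀ {u a b c θ θ'}, Ang u a b θ → Ang u b c θ' → Ang u a c (θ + θ')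
  mono : ∀ {u a b θ θ'}, Ang u a b θ → θ ≤ θ' → Ang u a b θ'
  smul : ∀ (g : H) {u a b θ}, Ang u a b θ → Ang (g • u) (g • a) (g • b) θ
  bgi : ∀ {u a b}, ¬ Ang u a b M → X.On a b (ω u)

/-- A family of rotation groups at the apices. -/
structure Rot {V : Type} {X : Sp V} {H : Type} [Group H] [MulAction H V] {U : Type}
    [MulAction H U] {M : ℕ} (P : Apx X H U M) (Λ : ℕ) where
  G : U → Subgroup H
  conj : ∀ (g : H) (u : U) (r : H), r ∈ G u → g * r * g⁻¹ ∈ G (g • u)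
  fix : ∀ u r, r ∈ G u → r • u = u
  rot : ∀ u r a, r ∈ G u → r ≠ 1 → ¬ P.Ang u a (r • a) Λ

namespace Rot

variable {V : Type} {X : Sp V} {H : Type} [Group H] [MulAction H V] {U : Type}
    [MulAction H U] {M Λ : ℕ} {P : Apx X H U M} (R : Rot P Λ)

/-- The subgroup generated by all rotations. -/
def N : Subgroup H := ⨆ u, R.G u

/-- `n` is a product of at most `k` rotations. -/
def Len (k : ℕ) (n : H) : Prop :=
  ∃ l : List (U × H), l.length ≤ k ∧ (∀ p ∈ l, p.2 ∈ R.G p.1) ∧ (l.map Prod.snd).prod = n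

theorem le_N (u : U) : R.G u ≤ R.N := le_iSup R.G u

instance normal : R.N.Normal := by
  refine ⟨fun n hn g => ?_⟩
  refine Subgroup.iSup_induction R.G (C := fun n => g * n * g⁻¹ ∈ R.N) hn ?_ ?_ ?_
  · intro u r hr; exact R.le_N _ (R.conj g u r hr)
  · simp
  · intro x y hx hy
    have : g * (x * y) * g⁻¹ = g * x * g⁻¹ * (g * y * g⁻¹) := by group
    rw [this]; exact mul_mem hx hy

theorem mem_N_iff {n : H} : n ∈ R.N ↔ ∃ k, R.Len k n := by
  constructor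
  · intro hn
    refine Subgroup.iSup_induction R.G (C := fun n => ∃ k, R.Len k n) hn ?_ ?_ ?_
    · intro u r hr; exact ⟨1, [(u, r)], by simp, by simpa using hr, by simp⟩
    · exact ⟨0, [], by simp, by simp, by simp⟩
    · rintro x y ⟨k, l, h1, h2, h3⟩ ⟨k', l', h1', h2', h3'⟩
      refine ⟨k + k', l ++ l', by simp; omega, ?_, by simp [h3, h3']⟩
      intro p hp
      rcases List.mem_append.1 hp with hp | hp
      · exact h2 p hp
      · exact h2' p hp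
  · rintro ⟨k, l, -, h2, rfl⟩
    refine Subgroup.list_prod_mem _ ?_
    intro x hx
    obtain ⟨p, hp, rfl⟩ := List.mem_map.1 hx
    exact R.le_N _ (h2 p hp)

theorem Len.zero {n : H} (h : R.Len 0 n) : n = 1 := by
  obtain ⟨l, h1, -, h3⟩ := h
  have : l = [] := List.length_eq_zero_iff.1 (by omega)
  subst this; simpa using h3.symm

end Rot

/-- What we need to know about the cone-off of `X` along the family `Y`. -/
structure ConeOff {V : Type} (X : Sp V) (H : Type) [Group H] [MulAction H V] {U : Type}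
    [MulAction H U] (Y : U → Set V) (δ₀ K ε s ρ M : ℕ) where
  W : Type
  [act : MulAction H W]
  Z : Sp W
  ι : V → W
  P : Apx Z H U M
  iso : Z.Iso H
  hyp : Z.Hyp δ₀
  ι_smul : ∀ (g : H) (x : V), ι (g • x) = g • ι x
  ι_ne : ∀ x u, ι x ≠ P.ω u
  sep : ∀ u u', u ≠ u' → ρ < Z.d (P.ω u) (P.ω u')
  shrink : ∀ x y, s * Z.d (ι x) (ι y) ≤ X.d x y + s
  pa : ∀ (g : H) (u : U) (p : V) (D n : ℕ), X.d p (g • p) ≤ D → g • u ≠ u →
    P.Ang u (ι p) (ι (g ^ n • p)) (100 * (D + ε))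
  pl : ∀ (x y : V) (θ : ℕ), (∀ u, P.Ang u (ι x) (ι y) θ) →
    X.d x y ≤ (2 ^ ρ * s + θ + 2 * M) * Z.d (ι x) (ι y)
  rot : ∀ (g : H) (u : U) (T θ : ℕ) (a : W), g • u = u → (∀ y ∈ Y u, T ≤ X.d y (g • y)) →
    θ + 100 * ε ≤ T → ¬ P.Ang u a (g • a) θ
  shallow : ∀ (c : W) (D : ℕ), D ≤ ρ →
    (∃ u, Z.d c (P.ω u) ≤ ρ ∧ ∀ g : H, Z.d c (g • c) ≤ D → g • u = u) ∨ ∃ x, Z.d c (ι x) ≤ D
  sh : ∀ (x y : V) (n : ℕ), Z.d (ι x) (ι y) ≤ n → n ≤ ρ → X.d x y ≤ n * 2 ^ n * s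
  hd : ∀ (x p y : V) (c : ℕ), Z.Bt c (ι x) (ι p) (ι y) → c + K ≤ ρ →
    X.Bt (2 * (c + K + 128) * 2 ^ (c + K) * s) x p y

/-- The sequence of exponents of the small cancellation word. -/
structure Exps (n : ℤ → ℤ) (L n₀ : ℕ) : Prop where
  pos : 0 < L
  even : 2 ∣ L
  per : ∀ j, n (j + L) = n j
  ne : ∀ j, n j ≠ 0
  dvd : ∀ j, (n₀ : ℤ) ∣ n j
  dist : ∀ (j : ℤ) (i : ℕ), 0 < i → 2 * i < L → n (j + 2 * i) ≠ n j
  rigid : ∀ j : ℤ, ∃ t, j ≤ t ∧ t ≤ j + 4 ∧ ∀ k,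
    (n t * n (k + 2) = n k * n (t + 2) → (L : ℤ) ∣ k - t) ∧ n t * n (k - 2) ≠ n k * n (t + 2)
  sum0 : ∑ j ∈ (Finset.range L).filter (fun j => j % 2 = 0), n j = 0
  sum1 : ∑ j ∈ (Finset.range L).filter (fun j => ¬ j % 2 = 0), n j = 0

/-- The small cancellation word `a ^ n 0 * b ^ n 1 * a ^ n 2 * ...` with `j` syllables. -/
def Wd {G : Type} [Group G] (n : ℤ → ℤ) (a b : G) : ℕ → G
  | 0 => 1
  | j + 1 => Wd n a b j * (if j % 2 = 0 then a else b) ^ n j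

/-- Admissible pairs: the pairs for which a relation is imposed at the current step. -/
def Adm {V : Type} {X : Sp V} {H : Type} [Group H] [MulAction H V] {U : Type}
    [MulAction H U] {M : ℕ} (P : Apx X H U M) (n : ℤ → ℤ) (DT : ℕ) (a b : H) : Prop :=
  ¬ Commute a b ∧ ∃ ua ub : U, a • ua = ua ∧ b • ub = ub ∧ X.d (P.ω ua) (P.ω ub) ≤ DT ∧
    (∀ j c, ¬ P.Ang ua c (a ^ n j • c) (10 * M)) ∧ (∀ j c, ¬ P.Ang ub c (b ^ n j • c) (10 * M))

end Pool.Agent.P.MP_4b59b0_al
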