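import Pool.Agent.P.MP_4b59b0_al.Defs

set_option autoImplicit false

namespace Pool.Agent.P.MP_4b59b0_al

/-- The exponents, before periodisation: factorials, and two negative correcting terms. -/
def ex0 (L : ℕ) (j : ℕ) : ℤ :=
  if j + 2 < 2 * L then ((j + 1).factorial : ℤ)
  else - ∑ i ∈ (Finset.range (2 * L - 2)).filter (fun i => i % 2 = j % 2), ((i + 1).factorial : ℤ)

theorem ex0_pos {L j : ℕ} (h : j + 2 < 2 * L) : 0 < ex0 L j := by
  simp only [ex0, h, if_true]; exact_mod_cast Nat.factorial_pos _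

theorem ex0_neg {L j : ℕ} (hL : 4 ≤ L) (h : ¬ j + 2 < 2 * L) : ex0 L j < 0 := by
  simp only [ex0, h, if_false, Left.neg_neg_iff]
  refine Finset.sum_pos (fun i _ => by exact_mod_cast Nat.factorial_pos _) ⟨j % 2, ?_⟩
  simp only [Finset.mem_filter, Finset.mem_range]; omega

theorem ex0_sum {L : ℕ} (hL : 4 ≤ L) (r : ℕ) (hr : r < 2) :
    ∑ j ∈ (Finset.range (2 * L)).filter (fun j => j % 2 = r), ex0 L j = 0 := by
  have e : (Finset.range (2 * L)).filter (fun j => j % 2 = r) =
      insert (2 * L - 2 + r) ((Finset.range (2 * L - 2)).filter (fun j => j % 2 = r)) := by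
    ext j
    simp only [Finset.mem_filter, Finset.mem_range, Finset.mem_insert]; omega
  rw [e, Finset.sum_insert (by simp only [Finset.mem_filter, Finset.mem_range]; omega)]
  have h1 : ¬ (2 * L - 2 + r + 2 < 2 * L) := by omega
  have h2 : (2 * L - 2 + r) % 2 = r := by omega
  rw [ex0, if_neg h1, h2, neg_add_eq_zero]
  refine Finset.sum_congr rfl fun j hj => ?_
  simp only [Finset.mem_filter, Finset.mem_range] at hj
  rw [ex0, if_pos (by omega)]

theorem ex0_step {L j : ℕ} (h : j + 4 < 2 * L) :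
    ex0 L (j + 2) = ((j + 2) * (j + 3) : ℕ) * ex0 L j := by
  rw [ex0, ex0, if_pos (by omega), if_pos (by omega), Nat.factorial_succ (j + 2),
    Nat.factorial_succ (j + 1)]
  push_cast; ring

theorem ex0_inj {L i j : ℕ} (hL : 4 ≤ L) (hi : i < 2 * L) (hj : j < 2 * L) (hp : i % 2 = j % 2)
    (h : ex0 L i = ex0 L j) : i = j := by
  by_cases h1 : i + 2 < 2 * L <;> by_cases h2 : j + 2 < 2 * L
  · rw [ex0, ex0, if_pos h1, if_pos h2, Nat.cast_inj] at h
    rcases Nat.lt_trichotomy i j with h3 | h3 | h3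
    · have := (Nat.factorial_lt (n := i + 1) (m := j + 1) (by omega)).2 (by omega); omega
    · exact h3
    · have := (Nat.factorial_lt (n := j + 1) (m := i + 1) (by omega)).2 (by omega); omega
  · have := ex0_pos h1; have := ex0_neg hL h2; omega
  · have := ex0_pos h2; have := ex0_neg hL h1; omega
  · omega

theorem exists_exps (n₀ L : ℕ) (h0 : 0 < n₀) (hL : 4 ≤ L) : ∃ n, Exps n (2 * L) n₀ := by
  have hL0 : (0 : ℤ) < (2 * L : ℕ) := by omega
  let r : ℤ → ℕ := fun j => (j % (2 * L : ℕ)).toNat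
  have r1 : ∀ j, r j < 2 * L := by
    intro j
    have := Int.emod_lt_of_pos j hL0; have := Int.emod_nonneg j hL0.ne'
    simp only [r]; omega
  have r2 : ∀ j, ∃ c : ℤ, j = r j + c * (2 * L : ℕ) := by
    intro j
    have := Int.emod_nonneg j hL0.ne'
    refine ⟨j / (2 * L : ℕ), ?_⟩
    simp only [r]
    rw [Int.toNat_of_nonneg this, mul_comm (j / _)]; exact (Int.emod_add_mul_ediv _ _).symm
  have r3 : ∀ (j c : ℤ) (i : ℕ), i < 2 * L → j = i + c * (2 * L : ℕ) → r j = i := by
    intro j c i hi hj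
    simp only [r]
    rw [hj, Int.add_mul_emod_self_right, Int.emod_eq_of_lt (by omega) (by omega)]; simp
  have r4 : ∀ j, r j + 2 < 2 * L → r (j + 2) = r j + 2 := by
    intro j h
    obtain ⟨c, hc⟩ := r2 j
    exact r3 _ c _ h (by push_cast at *; linarith)
  have r5 : ∀ j, ¬ r j + 2 < 2 * L → r (j + 2) + 2 * L = r j + 2 := by
    intro j h
    obtain ⟨c, hc⟩ := r2 j
    have := r1 j
    have := r3 (j + 2) (c + 1) (r j + 2 - 2 * L) (by omega)
      (by rw [Nat.cast_sub (by omega)]; push_cast at *; linarith)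
    omega
  have sgn : ∀ j, ex0 L j ≠ 0 := by
    intro j
    by_cases h : j + 2 < 2 * L
    · exact (ex0_pos h).ne'
    · exact (ex0_neg hL h).ne
  have hn0 : (n₀ : ℤ) ≠ 0 := by omega
  refine ⟨fun j => n₀ * ex0 L (r j), by omega, by omega, fun j => ?_, fun j => ?_,
    fun j => dvd_mul_right _ _, fun j i hi hiL => ?_, fun j => ?_, ?_, ?_⟩
  · obtain ⟨c, hc⟩ := r2 j
    rw [r3 _ (c + 1) _ (r1 j) (by linarith)]
  · exact mul_ne_zero hn0 (sgn _)
  · intro h
    obtain ⟨c, hc⟩ := r2 j
    obtain ⟨c', hc'⟩ := r2 (j + 2 * i)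
    have e : (r (j + 2 * i) : ℤ) = r j + 2 * (i + (c - c') * L) := by push_cast at *; linarith
    have h1 := ex0_inj hL (r1 _) (r1 _) (by omega) (mul_left_cancel₀ hn0 h)
    have h2 : (i : ℤ) = (c' - c) * L := by rw [h1] at e; linarith
    rcases le_or_gt (c' - c) 0 with h3 | h3
    · have : (c' - c) * L ≤ 0 := mul_nonpos_of_nonpos_of_nonneg h3 (by omega)
      omega
    · have : 1 * (L : ℤ) ≤ (c' - c) * L := mul_le_mul_of_nonneg_right (by omega) (by omega)
      omega
  · have : ∃ t, j ≤ t ∧ t ≤ j + 4 ∧ r t + 4 < 2 * L := by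
      by_cases h : r j + 4 < 2 * L
      · exact ⟨j, le_rfl, by omega, h⟩
      · obtain ⟨c, hc⟩ := r2 j
        have := r1 j
        refine ⟨j + (2 * L - r j : ℕ), by omega, by omega, ?_⟩
        rw [r3 _ (c + 1) 0 (by omega) (by rw [Nat.cast_sub (by omega)]; push_cast at *; linarith)]
        omega
    obtain ⟨t, t1, t2, t3⟩ := this
    refine ⟨t, t1, t2, fun k => ?_⟩
    have pt := ex0_pos (L := L) (j := r t) (by omega)
    rw [r4 t (by omega), ex0_step t3]
    have q0 : (0 : ℤ) < n₀ * n₀ * ex0 L (r t) := by positivity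
    have key : ∀ k' k'' : ℤ, n₀ * ex0 L (r t) * (n₀ * ex0 L (r k')) =
        n₀ * ex0 L (r k'') * (n₀ * (((r t + 2) * (r t + 3) : ℕ) * ex0 L (r t))) →
        ex0 L (r k') = ((r t + 2) * (r t + 3) : ℕ) * ex0 L (r k'') := by
      intro k' k'' h
      apply mul_left_cancel₀ q0.ne'
      linarith
    have q1 : (6 : ℤ) ≤ ((r t + 2) * (r t + 3) : ℕ) := by
      have : 2 * 3 ≤ (r t + 2) * (r t + 3) := Nat.mul_le_mul (by omega) (by omega)
      omega
    constructor
    · intro h
      have h1 := key _ _ h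
      by_cases a1 : r k + 4 < 2 * L
      · rw [r4 k (by omega), ex0_step a1] at h1
        have h2 := mul_right_cancel₀ (sgn _) h1
        rw [Nat.cast_inj] at h2
        have h3 : r k = r t := by nlinarith
        obtain ⟨c, hc⟩ := r2 k
        obtain ⟨c', hc'⟩ := r2 t
        exact ⟨c - c', by rw [h3] at hc; linarith⟩
      · exfalso
        by_cases a2 : r k + 2 < 2 * L
        · have := ex0_pos a2
          have := ex0_neg hL (j := r (k + 2)) (by rw [r4 k a2]; omega)
          nlinarith
        · have := ex0_neg hL a2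
          have := r5 k a2; have := r1 k
          have := ex0_pos (L := L) (j := r (k + 2)) (by omega)
          nlinarith
    · intro h
      have h1 := key _ _ h
      obtain ⟨k, rfl⟩ : ∃ k', k = k' + 2 := ⟨k - 2, by ring⟩
      rw [add_sub_cancel_right] at h1
      by_cases a1 : r k + 4 < 2 * L
      · rw [r4 k (by omega), ex0_step a1] at h1
        have := ex0_pos (L := L) (j := r k) (by omega)
        have q2 : (6 : ℤ) ≤ ((r k + 2) * (r k + 3) : ℕ) := by
          have : 2 * 3 ≤ (r k + 2) * (r k + 3) := Nat.mul_le_mul (by omega) (by omega)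
          omega
        generalize (((r t + 2) * (r t + 3) : ℕ) : ℤ) = A at *
        generalize (((r k + 2) * (r k + 3) : ℕ) : ℤ) = B at *
        have : 6 * ex0 L (r k) ≤ B * ex0 L (r k) := by nlinarith
        nlinarith
      · by_cases a2 : r k + 2 < 2 * L
        · have := ex0_pos a2
          have := ex0_neg hL (j := r (k + 2)) (by rw [r4 k a2]; omega)
          nlinarith
        · have := ex0_neg hL a2
          have := r5 k a2; have := r1 k
          have := ex0_pos (L := L) (j := r (k + 2)) (by omega)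
          nlinarith
  · rw [← Finset.mul_sum, Finset.sum_congr rfl (g := fun j => ex0 L j), ex0_sum hL 0 (by omega),
      mul_zero]
    intro j hj
    simp only [Finset.mem_filter, Finset.mem_range] at hj
    rw [r3 j 0 j hj.1 (by simp)]
  · have e : (Finset.range (2 * L)).filter (fun j => ¬ j % 2 = 0) =
        (Finset.range (2 * L)).filter (fun j => j % 2 = 1) :=
      Finset.filter_congr fun j _ => by omega
    rw [← Finset.mul_sum, Finset.sum_congr rfl (g := fun j => ex0 L j), e, ex0_sum hL 1 (by omega),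
      mul_zero]
    intro j hj
    simp only [Finset.mem_filter, Finset.mem_range] at hj
    rw [r3 j 0 j hj.1 (by simp)]

theorem Wd_map {G G' : Type} [Group G] [Group G'] (f : G →* G') (n : ℤ → ℤ) (a b : G) (j : ℕ) :
    f (Wd n a b j) = Wd n (f a) (f b) j := by
  induction j with
  | zero => simp [Wd]
  | succ j ih => simp only [Wd, map_mul, map_zpow, ih]; split_ifs <;> rfl

theorem Wd_conj {G : Type} [Group G] (g : G) (n : ℤ → ℤ) (a b : G) (j : ℕ) :
    Wd n (g * a * g⁻¹) (g * b * g⁻¹) j = g * Wd n a b j * g⁻¹ :=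
  (Wd_map (MulAut.conj g).toMonoidHom n a b j).symm

theorem Wd_central_aux {G : Type} [Group G] (n : ℤ → ℤ) (a b s t : G)
    (hs : ∀ g, Commute s g) (ht : ∀ g, Commute t g) (j : ℕ) :
    Wd n (a * s) (b * t) j = Wd n a b j *
      s ^ (∑ i ∈ (Finset.range j).filter (fun j => j % 2 = 0), n i) *
      t ^ (∑ i ∈ (Finset.range j).filter (fun j => ¬ j % 2 = 0), n i) := by
  induction j with
  | zero => simp [Wd]
  | succ j ih =>
    simp only [Wd, ih, Finset.range_add_one, Finset.filter_insert]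
    generalize hS : (∑ i ∈ (Finset.range j).filter (fun j => j % 2 = 0), n i) = S
    generalize hT : (∑ i ∈ (Finset.range j).filter (fun j => ¬ j % 2 = 0), n i) = T
    by_cases hj : j % 2 = 0
    · simp only [hj, if_true, not_true, if_false]
      rw [Finset.sum_insert (by simp), hS, hT, (hs a).symm.mul_zpow, add_comm, zpow_add]
      have h1 := ((ht (a ^ n j * s ^ n j)).zpow_left T).eq
      have h2 := ((hs (a ^ n j)).zpow_left S).eq
      rw [mul_assoc, h1]
      simp only [← mul_assoc]
      rw [mul_assoc (Wd n a b j), h2, ← mul_assoc]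
    · simp only [hj, if_true, not_false_eq_true, if_false]
      rw [Finset.sum_insert (by simp), hS, hT, (ht b).symm.mul_zpow, add_comm, zpow_add]
      have h1 := ((ht (b ^ n j)).zpow_left T).eq
      have h2 := ((hs (b ^ n j)).zpow_left S).eq
      simp only [← mul_assoc]
      rw [mul_assoc _ (t ^ T), h1, ← mul_assoc, mul_assoc (Wd n a b j), h2, ← mul_assoc]

theorem Exps.Wd_central {G : Type} [Group G] {n : ℤ → ℤ} {L n₀ : ℕ} (E : Exps n L n₀)
    (a b s t : G) (hs : ∀ g, Commute s g) (ht : ∀ g, Commute t g) :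
    Wd n (a * s) (b * t) L = Wd n a b L := by
  rw [Wd_central_aux n a b s t hs ht, E.sum0, E.sum1]; simp

theorem Exps.Wd_self {G : Type} [Group G] {n : ℤ → ℤ} {L n₀ : ℕ} (E : Exps n L n₀) (a : G) :
    Wd n a a L = 1 := by
  have h := Wd_map (zpowersHom G a) n (Multiplicative.ofAdd 1) (Multiplicative.ofAdd 1) L
  have h2 := E.Wd_central (1 : Multiplicative ℤ) 1 (Multiplicative.ofAdd 1)
    (Multiplicative.ofAdd 1) (fun g => Commute.all _ _) (fun g => Commute.all _ _)
  have h3 : ∀ j, Wd n (1 : Multiplicative ℤ) 1 j = 1 := by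
    intro j; induction j with
    | zero => rfl
    | succ j ih => simp [Wd, ih]
  rw [one_mul, h3] at h2
  rw [h2] at h
  simpa using h.symm

theorem Exps.Wd_torsion {G : Type} [Group G] {n : ℤ → ℤ} {L n₀ : ℕ} (E : Exps n L n₀) (a b : G)
    (ha : a ^ n₀ = 1) (hb : b ^ n₀ = 1) (j : ℕ) : Wd n a b j = 1 := by
  induction j with
  | zero => rfl
  | succ j ih =>
    obtain ⟨c, hc⟩ := E.dvd j
    simp only [Wd, ih, hc, zpow_mul, zpow_natCast]
    split_ifs <;> simp [ha, hb]

end Pool.Agent.P.MP_4b59b0_al
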