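import Pool.Agent.P.MP_4b59b0_al.Green

set_option autoImplicit false

namespace Pool.Agent.P.MP_4b59b0_al

open Sp

section

variable {V : Type} {X : Sp V} {H : Type} [Group H] [MulAction H V] {U : Type}
  [MulAction H U] {M : ℕ}

theorem Sp.On.dist {x y w m : V} (h : X.On x y w) (hm : X.Bt 0 x m y) (hd : X.d x w ≤ X.d x m) :
    X.d x w + X.d w m = X.d x m := by
  obtain ⟨z, z1, z2⟩ := X.geod' x m _ hd
  have := h.2 z (hm.trans_left z2).1 z1
  subst this
  have := X.tri x z m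
  unfold Bt at z2; omega

theorem Sp.on_left (x y : V) : X.On x y x :=
  ⟨bt_left _ _ _, fun m _ h => by rw [X.d_self] at h; exact (X.eq_of _ _ h).symm⟩

/-- A bi-infinite geodesic through apices with large angles and with shift elements. -/
structure Geo (P : Apx X H U M) (DT : ℕ) (u : ℤ → U) (D : ℕ) : Prop where
  pos : 1 ≤ D
  le : D ≤ DT
  dist : ∀ i j, i ≤ j → (X.d (P.ω (u i)) (P.ω (u j)) : ℤ) = (j - i) * D
  ang : ∀ i j k, i < j → j < k → ¬ P.Ang (u j) (P.ω (u i)) (P.ω (u k)) (8 * M)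
  sh : ∀ i : ℕ, 0 < i → i ≤ DT → ∃ σ : ℤ → H,
    (∀ j, σ j • u j = u (j + 2 * i) ∧ σ j • u (j + 1) = u (j + 2 * i + 1)) ∧ ∀ j, σ j ≠ σ (j + 1)

variable {P : Apx X H U M} {DT : ℕ}

theorem Geo.rev {u : ℤ → U} {D : ℕ} (h : Geo P DT u D) : Geo P DT (fun j => u (-j)) D := by
  refine ⟨h.pos, h.le, fun i j hij => ?_, fun i j k hij hjk hc => ?_, fun i hi hi' => ?_⟩
  · rw [X.symm, h.dist _ _ (by omega)]; ring
  · exact h.ang _ _ _ (by omega) (by omega) (P.symm hc)
  · obtain ⟨σ, h1, h2⟩ := h.sh i hi hi'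
    refine ⟨fun j => (σ (-j - 1 - 2 * i))⁻¹, fun j => ⟨?_, ?_⟩, fun j hc => ?_⟩
    · rw [inv_smul_eq_iff]
      have := (h1 (-j - 1 - 2 * i)).2
      rw [show -j - 1 - 2 * i + 1 = -(j + 2 * i) by ring,
        show -j - 1 - 2 * i + 2 * i + 1 = -j by ring] at this
      exact this.symm
    · rw [inv_smul_eq_iff]
      have := (h1 (-j - 1 - 2 * i)).1
      rw [show -j - 1 - 2 * i + 2 * i = -(j + 1) by ring] at this
      rw [show -(j + 2 * i + 1) = -j - 1 - 2 * i by ring]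
      exact this.symm
    · apply h2 (-(j + 1) - 1 - 2 * i)
      rw [show -(j + 1) - 1 - 2 * i + 1 = -j - 1 - 2 * i by ring]
      exact (inv_inj.1 hc).symm

theorem Geo.on {u : ℤ → U} {D : ℕ} (h : Geo P DT u D) {i j k : ℤ} (hij : i ≤ j) (hjk : j ≤ k) :
    X.On (P.ω (u i)) (P.ω (u k)) (P.ω (u j)) := by
  rcases eq_or_lt_of_le hij with rfl | hij
  · exact on_left _ _
  rcases eq_or_lt_of_le hjk with rfl | hjk
  · exact (on_left _ _).symm
  exact P.bgi fun hc => h.ang i j k hij hjk (P.mono hc (by omega))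

theorem Geo.ne {u : ℤ → U} {D : ℕ} (h : Geo P DT u D) (j : ℤ) : u j ≠ u (j + 1) := by
  intro e
  have h1 := h.dist j (j + 1) (by omega)
  rw [← e, X.d_self] at h1
  have := h.pos; omega

variable (P) in
/-- A window of apices of the line through which all geodesics from `x` to `y` pass. -/
def Win (x y : V) (u : ℤ → U) (D : ℕ) (lo hi o : ℤ) : Prop :=
  ∀ j, lo ≤ j → j ≤ hi → X.On x y (P.ω (u j)) ∧ (X.d x (P.ω (u j)) : ℤ) = o + j * D

theorem Win.shift (iso : X.Iso H) {x y : V} {u : ℤ → U} {D : ℕ} {lo hi o : ℤ}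
    (h : Win P x y u D lo hi o) {k : ℤ} {i : ℕ} {σ : H}
    (s1 : σ • u k = u (k + 2 * i)) (s2 : σ • u (k + 1) = u (k + 2 * i + 1)) (k1 : lo ≤ k)
    (k2 : k + 2 * i + 1 ≤ hi) {w : V} (hw : X.On x y w) (w1 : o + k * D ≤ X.d x w)
    (w2 : X.d x w ≤ o + k * D + D) :
    X.Bt 0 x (σ • w) y ∧ (X.d x (σ • w) : ℤ) = X.d x w + 2 * i * D := by
  obtain ⟨a1, a2⟩ := h k k1 (by omega)
  obtain ⟨b1, b2⟩ := h (k + 1) (by omega) (by omega)
  obtain ⟨c1, c2⟩ := h (k + 2 * i) (by omega) (by omega)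
  obtain ⟨d1, d2⟩ := h (k + 2 * i + 1) (by omega) (by omega)
  simp only [add_mul, one_mul] at b2 c2 d2
  have e1 := a1.dist hw.1 (by omega)
  have e2 := hw.dist b1.1 (by omega)
  have e3 := iso σ (P.ω (u k)) w
  have e4 := iso σ w (P.ω (u (k + 1)))
  rw [← P.ω_smul, s1] at e3
  rw [← P.ω_smul, s2] at e4
  have := X.tri x (P.ω (u (k + 2 * i))) (σ • w)
  have := X.tri (σ • w) (P.ω (u (k + 2 * i + 1))) y
  have := X.tri x (σ • w) y
  have := d1.1
  unfold Bt at *
  constructor <;> omega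

theorem Win.map (iso : X.Iso H) {x y : V} {u u' : ℤ → U} {D D' : ℕ} {lo hi o lo' hi' o' : ℤ}
    (h : Win P x y u D lo hi o) (h' : Win P x y u' D' lo' hi' o') {k j : ℤ}
    {σ : H} (s1 : σ • u k = u (k + 2 * D')) (s2 : σ • u (k + 1) = u (k + 2 * D' + 1))
    (k1 : lo ≤ k) (k2 : k + 2 * D' + 1 ≤ hi) (j1 : lo' ≤ j) (j2 : j + 2 * D ≤ hi')
    (w1 : o + k * D ≤ o' + j * D') (w2 : o' + j * D' ≤ o + k * D + D) :
    σ • u' j = u' (j + 2 * D) := by
  obtain ⟨a1, a2⟩ := h' j j1 (by omega)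
  obtain ⟨b1, b2⟩ := h' (j + 2 * D) (by omega) j2
  obtain ⟨c1, c2⟩ := h.shift iso s1 s2 k1 k2 a1 (by omega) (by omega)
  apply P.ω_inj
  rw [P.ω_smul]
  apply b1.2 _ c1
  have : (j + 2 * D) * D' = j * D' + 2 * D' * D := by ring
  omega

theorem Win.claim (iso : X.Iso H)
    (fix2 : ∀ (u u' : U) (h : H), u ≠ u' → h • u = u → h • u' = u' → h = 1)
    {x y : V} {u u' : ℤ → U} {D D' : ℕ} {lo hi o lo' hi' o' : ℤ}
    (g : Geo P DT u D) (g' : Geo P DT u' D') (h : Win P x y u D lo hi o)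
    (h' : Win P x y u' D' lo' hi' o') {j k : ℤ} (j1 : lo ≤ j) (j2 : j + 2 + 2 * D' ≤ hi)
    (k1 : lo' ≤ k) (k2 : k + 2 * D + 1 ≤ hi') (w1 : o' + k * D' < o + j * D + D)
    (w2 : o + j * D + D < o' + k * D' + D') : False := by
  obtain ⟨σ, s1, s2⟩ := g.sh D' g'.pos g'.le
  obtain ⟨τ, t1, -⟩ := g'.sh D g.pos g.le
  have eq : ∀ (a b : H) (v v' : U), v ≠ v' → a • v = b • v → a • v' = b • v' → a = b := by
    intro a b v v' h1 h2 h3
    exact inv_mul_eq_one.1 (fix2 v v' (a⁻¹ * b) h1 (by rw [mul_smul, ← h2, inv_smul_smul])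
      (by rw [mul_smul, ← h3, inv_smul_smul]))
  have e1 : (j + 1) * D = j * D + D := by ring
  have e2 : (j + 1 + 1) * D = j * D + D + D := by ring
  have e3 : (k + 1) * D' = k * D' + D' := by ring
  have := g.pos; have := g'.pos
  have a0 := h'.map iso h (t1 k).1 (t1 k).2 k1 k2 (j := j + 1) (by omega) (by omega)
    (by omega) (by omega)
  have ne : ∀ l, lo' ≤ l → l ≤ hi' → o' + l * D' ≠ o + j * D + D → u (j + 1) ≠ u' l := by
    intro l l1 l2 l3 e
    have b1 := (h (j + 1) (by omega) (by omega)).2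
    have b2 := (h' l l1 l2).2
    rw [e] at b1; omega
  have a1 : σ j = τ k := by
    have b0 : σ j • u (j + 1) = τ k • u (j + 1) := by
      rw [a0, (s1 j).2]; congr 1; ring
    by_cases hc : o' + k * D' ≤ o + j * D
    · refine eq _ _ _ _ (g.ne j) ?_ b0
      rw [(s1 j).1, h'.map iso h (t1 k).1 (t1 k).2 k1 k2 j1 (by omega) hc (by omega)]
    · refine eq _ _ _ _ (ne k k1 (by omega) (by omega)) b0 ?_
      rw [(t1 k).1, h.map iso h' (s1 j).1 (s1 j).2 j1 (by omega) k1 (by omega) (by omega)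
        (by omega)]
  have a2 : σ (j + 1) = τ k := by
    have b0 : σ (j + 1) • u (j + 1) = τ k • u (j + 1) := by rw [a0, (s1 (j + 1)).1]
    by_cases hc : o + j * D + D + D ≤ o' + k * D' + D'
    · refine eq _ _ _ _ (g.ne (j + 1)) b0 ?_
      rw [(s1 (j + 1)).2, h'.map iso h (t1 k).1 (t1 k).2 k1 k2 (j := j + 1 + 1) (by omega)
        (by omega) (by omega) (by omega)]
      congr 1; ring
    · refine eq _ _ _ _ (ne (k + 1) (by omega) (by omega) (by omega)) b0 ?_
      rw [(t1 k).2, h.map iso h' (s1 (j + 1)).1 (s1 (j + 1)).2 (by omega) (by omega)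
        (j := k + 1) (by omega) (by omega) (by omega) (by omega)]
      congr 1; ring
  exact s2 j (a1.trans a2.symm)

theorem align_core (iso : X.Iso H)
    (fix2 : ∀ (u u' : U) (h : H), u ≠ u' → h • u = u → h • u' = u' → h = 1)
    {u u' : ℤ → U} {D D' : ℕ} (g : Geo P DT u D) (g' : Geo P DT u' D') {a b a' b' : ℤ}
    (hab : a ≤ b) (hab' : a' ≤ b')
    (hΩ : X.d (P.ω (u' a')) (P.ω (u a)) + X.d (P.ω (u' b')) (P.ω (u b)) + (8 * DT + 50) * DT <
      X.d (P.ω (u' a')) (P.ω (u b)) + X.d (P.ω (u' b')) (P.ω (u a))) :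
    ∃ j c : ℤ, ∀ t : ℤ, 0 ≤ t → t ≤ 10 → u (j + t) = u' (c + t) := by
  set x := P.ω (u' a') with hx
  set y := P.ω (u' b') with hy
  have pD := g.pos; have pD' := g'.pos; have lD := g.le; have lD' := g'.le
  have t1 := X.tri x (P.ω (u a)) (P.ω (u b))
  have t2 := X.tri y (P.ω (u b)) (P.ω (u a))
  have s1 := X.symm (P.ω (u a)) (P.ω (u b))
  have dl := g.dist a b hab
  obtain ⟨tx, htx⟩ : ∃ t : ℤ, t = (X.d (P.ω (u a)) (P.ω (u b)) + X.d x (P.ω (u a)) -
    X.d x (P.ω (u b)) : ℤ) / 2 := ⟨_, rfl⟩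
  have tx0 : 0 ≤ tx := by omega
  obtain ⟨q, hq⟩ : ∃ q, q = tx / D := ⟨_, rfl⟩
  have q1 : q * D ≤ tx := hq ▸ Int.ediv_mul_le _ (by omega)
  have q2 : tx < q * D + D := by
    have := Int.lt_ediv_add_one_mul_self tx (b := D) (by omega)
    rw [add_mul, one_mul, ← hq] at this; exact this
  have q0 : 0 ≤ q := hq ▸ Int.ediv_nonneg tx0 (by omega)
  have big : ((4 * DT + 21 : ℕ) : ℤ) * D ≤ (4 * DT + 25) * DT := by
    push_cast; nlinarith
  have hΩ' : (((8 * DT + 50) * DT : ℕ) : ℤ) = 2 * ((4 * DT + 25) * DT) := by push_cast; ring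
  have win0 : ∀ j, a + q + 1 ≤ j → j ≤ a + q + (4 * DT + 21 : ℕ) →
      a < j ∧ j < b ∧ P.Ang (u j) x (P.ω (u a)) M ∧ P.Ang (u j) (P.ω (u b)) y M := by
    intro j j1 j2
    have m1 : (q + 1) * D ≤ (j - a) * D := mul_le_mul_of_nonneg_right (by omega) (by omega)
    have m2 : (j - a) * D ≤ (q + (4 * DT + 21 : ℕ)) * D :=
      mul_le_mul_of_nonneg_right (by omega) (by omega)
    rw [add_mul] at m1 m2
    have jb : j < b := by
      by_contra hc
      have m3 : (b - a) * D ≤ (j - a) * D := mul_le_mul_of_nonneg_right (by omega) (by omega)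
      omega
    have d1 := g.dist a j (by omega)
    have d2 := g.dist j b (by omega)
    have e : (b - a) * D = (j - a) * D + (b - j) * D := by ring
    refine ⟨by omega, jb, P.of_not_bt fun hc => ?_, P.of_not_bt fun hc => ?_⟩
    · have := X.tri x (P.ω (u j)) (P.ω (u b)); have := X.symm (P.ω (u j)) (P.ω (u a))
      unfold Bt at hc; omega
    · have := X.tri y (P.ω (u j)) (P.ω (u a)); have := X.symm (P.ω (u j)) (P.ω (u a))
      have := X.symm (P.ω (u j)) (P.ω (u b)); have := X.symm y (P.ω (u j))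
      have := X.symm y (P.ω (u b))
      unfold Bt at hc; omega
  obtain ⟨lo, hlo⟩ : ∃ lo, lo = a + q + 1 := ⟨_, rfl⟩
  have win : Win P x y u D lo (lo + 4 * DT + 20) (X.d x (P.ω (u lo)) - lo * D) := by
    intro j j1 j2
    constructor
    · obtain ⟨b1, b2, b3, b4⟩ := win0 j (by omega) (by omega)
      exact P.bgi fun hc => g.ang a j b b1 b2
        (P.mono (P.tri (P.tri (P.symm b3) hc) (P.symm b4)) (by omega))
    · induction j, j1 using Int.leInduction with
      | base => ring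
      | succ j j1 ih =>
        obtain ⟨b1, b2, b3, b4⟩ := win0 j (by omega) (by omega)
        have b5 := (P.bgi fun hc => g.ang a j (j + 1) b1 (by omega)
          (P.mono (P.tri (P.symm b3) hc) (by omega))).1
        have := ih (by omega)
        have := g.dist j (j + 1) (by omega)
        have := X.tri x (P.ω (u j)) (P.ω (u (j + 1)))
        have : (j + 1) * D = j * D + D := by ring
        unfold Bt at b5; omega
  have win' : Win P x y u' D' a' b' (- a' * D') := fun k k1 k2 =>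
    ⟨g'.on k1 k2, by rw [g'.dist a' k k1]; ring⟩
  obtain ⟨o, ho⟩ : ∃ o, o = X.d x (P.ω (u lo)) - lo * D := ⟨_, rfl⟩
  rw [← ho] at win
  have top : o + (lo + 4 * DT + 20) * D ≤ -a' * D' + b' * D' := by
    obtain ⟨b1, b2⟩ := win (lo + 4 * DT + 20) (by omega) le_rfl
    have b3 := (win' b' hab' le_rfl).2
    rw [← hy] at b3
    have := b1.1
    unfold Bt at this; omega
  have room : ∀ j k, j ≤ lo + 12 → -a' * D' + k * D' ≤ o + j * D → k + 2 * D + 2 ≤ b' := by
    intro j k j2 hk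
    have m1 : j * D ≤ (lo + 12) * D := mul_le_mul_of_nonneg_right j2 (by omega)
    have : (k + 2 * D + 2) * D' ≤ b' * D' := by nlinarith
    exact le_of_mul_le_mul_right this (by omega)
  have hit : ∀ j, lo + 1 ≤ j → j ≤ lo + 12 → ∃ k, a' ≤ k ∧ -a' * D' + k * D' = o + j * D := by
    intro j j1 j2
    have b1 := (win j (by omega) (by omega)).2
    obtain ⟨r, hr⟩ : ∃ r, r = (o + j * D) / D' := ⟨_, rfl⟩
    have r1 : r * D' ≤ o + j * D := hr ▸ Int.ediv_mul_le _ (by omega)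
    have r2 : o + j * D < r * D' + D' := by
      have := Int.lt_ediv_add_one_mul_self (o + j * D) (b := D') (by omega)
      rw [add_mul, one_mul, ← hr] at this; exact this
    have r0 : 0 ≤ r := hr ▸ Int.ediv_nonneg (by omega) (by omega)
    have e : -a' * D' + (a' + r) * D' = r * D' := by ring
    refine ⟨a' + r, by omega, ?_⟩
    by_contra hc
    have := room j (a' + r) j2 (by omega)
    have e2 : (j - 1) * D + D = j * D := by ring
    exact win.claim iso fix2 g g' win' (j := j - 1) (k := a' + r) (by omega) (by omega) (by omega)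
      (by omega) (by omega) (by omega)
  obtain ⟨k, k1, k2⟩ := hit (lo + 1) le_rfl (by omega)
  obtain ⟨k', k1', k2'⟩ := hit (lo + 1 + 1) (by omega) (by omega)
  have r1 := room (lo + 1) k (by omega) k2.le
  have hD : D = D' := by
    rcases Nat.lt_trichotomy D D' with hc | hc | hc
    · exfalso
      have e : (lo + 1 + 1) * D = (lo + 1) * D + D := by ring
      have m1 : k * D' < k' * D' := by omega
      have m2 : k < k' := lt_of_mul_lt_mul_right m1 (by omega)
      have m3 : (k + 1) * D' ≤ k' * D' := mul_le_mul_of_nonneg_right (by omega) (by omega)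
      rw [add_mul] at m3; omega
    · exact hc
    · exact (win'.claim iso fix2 g' g win (j := k) (k := lo + 1) k1 (by omega) (by omega)
        (by omega) (by omega) (by omega)).elim
  subst hD
  refine ⟨lo + 1, k, fun t t1 t2 => ?_⟩
  have e : -a' * D + (k + t) * D = o + (lo + 1 + t) * D := by linear_combination k2
  have r2 := room (lo + 1 + t) (k + t) (by omega) e.le
  obtain ⟨b1, b2⟩ := win (lo + 1 + t) (by omega) (by omega)
  obtain ⟨c1, c2⟩ := win' (k + t) (by omega) (by omega)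
  exact P.ω_inj (c1.2 _ b1.1 (by omega))

theorem align (iso : X.Iso H)
    (fix2 : ∀ (u u' : U) (h : H), u ≠ u' → h • u = u → h • u' = u' → h = 1)
    {u u' : ℤ → U} {D D' : ℕ} (g : Geo P DT u D) (g' : Geo P DT u' D') {a b a' b' : ℤ}
    (hΩ : X.d (P.ω (u' a')) (P.ω (u a)) + X.d (P.ω (u' b')) (P.ω (u b)) + (8 * DT + 50) * DT <
      X.d (P.ω (u' a')) (P.ω (u b)) + X.d (P.ω (u' b')) (P.ω (u a))) :
    ∃ j c : ℤ, (∀ t : ℤ, 0 ≤ t → t ≤ 10 → u (j + t) = u' (c + t)) ∨
      ∀ t : ℤ, 0 ≤ t → t ≤ 10 → u (j + t) = u' (c - t) := by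
  rcases le_total a b with h | h <;> rcases le_total a' b' with h' | h'
  · obtain ⟨j, c, e⟩ := align_core iso fix2 g g' h h' hΩ
    exact ⟨j, c, Or.inl e⟩
  · obtain ⟨j, c, e⟩ := align_core iso fix2 g g'.rev (a' := -a') (b' := -b') h (by omega)
      (by simpa using hΩ)
    refine ⟨j, -c, Or.inr fun t t1 t2 => ?_⟩
    rw [e t t1 t2]; congr 1; ring
  · obtain ⟨j, c, e⟩ := align_core iso fix2 g.rev g' (a := -a) (b := -b) (by omega) h'
      (by simpa using hΩ)
    refine ⟨-j - 10, c + 10, Or.inr fun t t1 t2 => ?_⟩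
    have := e (10 - t) (by omega) (by omega)
    rw [show -j - 10 + t = -(j + (10 - t)) by ring, show c + 10 - t = c + (10 - t) by ring]
    exact this
  · obtain ⟨j, c, e⟩ := align_core iso fix2 g.rev g'.rev (a := -a) (b := -b) (a' := -a')
      (b' := -b') (by omega) (by omega) (by simpa using hΩ)
    refine ⟨-j - 10, -c - 10, Or.inl fun t t1 t2 => ?_⟩
    have := e (10 - t) (by omega) (by omega)
    rw [show -j - 10 + t = -(j + (10 - t)) by ring, show -c - 10 + t = -(c + (10 - t)) by ring]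
    exact this

end

end Pool.Agent.P.MP_4b59b0_al
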