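import Pool.Agent.P.MP_4b59b0_al.Isom

set_option autoImplicit false

namespace Pool.Agent.P.MP_4b59b0_al

open Sp

section

variable {V : Type} {X : Sp V} {H : Type} [Group H] [MulAction H V] {U : Type}
  [MulAction H U] {M Λ : ℕ}

theorem Apx.of_not_bt (P : Apx X H U M) {u : U} {a b : V} (h : ¬ X.Bt 0 a (P.ω u) b) :
    P.Ang u a b M := by
  by_contra hc; exact h (P.bgi hc).1

/-- A chain of points, consecutive ones differing by a large rotation, with a minimality
property. -/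
structure Cfg (P : Apx X H U M) (Λ m : ℕ) (x : ℕ → V) (v : ℕ → U) : Prop where
  hx : ∀ i u, x i ≠ P.ω u
  hv : ∀ i j, i < m → j < m → v i = v j → i = j
  ha : ∀ j, j < m → X.d (x (j + 1)) (P.ω (v j)) = X.d (x j) (P.ω (v j))
  hmin : ∀ j i, j < m → i ≤ m → X.d (x j) (P.ω (v j)) ≤ X.d (x i) (P.ω (v j))
  hrot : ∀ j, j < m → ¬ P.Ang (v j) (x j) (x (j + 1)) Λ

variable {P : Apx X H U M} {m : ℕ} {x : ℕ → V} {v : ℕ → U}

variable (P x v) in
/-- One side of the auxiliary claim. -/
def Side (a b : ℕ) (w e : V) (t : ℕ) : Prop :=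
  ∃ i, a ≤ i ∧ i < b ∧ X.Bt 0 w (P.ω (v i)) e ∧ ¬ P.Ang (v i) w e (2 * M) ∧
    X.d (P.ω (v i)) (P.ω (v t)) + X.d w (P.ω (v t)) + 2 * X.d (x t) (P.ω (v t)) ≤
      X.d w (P.ω (v i)) + 2 * X.d (x i) (P.ω (v i))

variable (P x v) in
def ClaimC (a b : ℕ) : Prop := ∀ u : U, (∀ i, a ≤ i → i < b → u ≠ v i) →
  ∃ a' b', a ≤ a' ∧ a' ≤ b' ∧ b' ≤ b ∧ ¬ X.Bt 0 (x a') (P.ω u) (x b') ∧
    (b' = b ∨ (b' < b ∧ Side P x v a b (P.ω u) (x b) b')) ∧
    (a' = a ∨ ∃ t, a' = t + 1 ∧ a ≤ t ∧ Side P x v a b (P.ω u) (x a) t)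

variable (P x v) in
def ClaimG (a b : ℕ) : Prop := ∀ j, a ≤ j → j < b →
  (∀ i, a ≤ i → i < b → X.d (x i) (P.ω (v i)) ≤ X.d (x j) (P.ω (v j))) →
  P.Ang (v j) (x a) (x j) (7 * M) ∧ P.Ang (v j) (x (j + 1)) (x b) (7 * M)

theorem Side.mono {a b a' b' : ℕ} {w e : V} {t : ℕ} (h : Side P x v a b w e t) (ha : a' ≤ a)
    (hb : b ≤ b') : Side P x v a' b' w e t := by
  obtain ⟨i, h1, h2, h3⟩ := h
  exact ⟨i, by omega, by omega, h3⟩

theorem Side.ang {a b : ℕ} {u : U} {e y : V} {t R : ℕ} (h : Side P x v a b (P.ω u) e t)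
    (hy : X.d y (P.ω (v t)) = X.d (x t) (P.ω (v t))) (hR : R ≤ X.d y (P.ω u))
    (ht : X.d (x t) (P.ω (v t)) < R)
    (hi : ∀ i, a ≤ i → i < b → X.d (x i) (P.ω (v i)) < R) : P.Ang u y e (2 * M) := by
  obtain ⟨i, h1, h2, h3, -, h5⟩ := h
  have := hi i h1 h2
  have a1 : P.Ang u y (P.ω (v t)) M := P.of_not_bt (by unfold Bt; omega)
  have a2 : P.Ang u (P.ω (v t)) e M := P.of_not_bt (by
    have := X.tri (P.ω (v t)) (P.ω (v i)) e; have := X.symm (P.ω (v t)) (P.ω (v i))
    have := X.tri y (P.ω (v t)) (P.ω u); have := X.symm (P.ω (v t)) (P.ω u)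
    unfold Bt at *; omega)
  rw [two_mul]; exact P.tri a1 a2

theorem Cfg.strict (C : Cfg P Λ m x v) {a b : ℕ} (hb : b ≤ m) (h : ClaimC P x v a b) {u : U}
    (hu : ∀ i, a ≤ i → i < b → u ≠ v i) {R : ℕ}
    (hR : ∀ i, i ≤ m → R ≤ X.d (x i) (P.ω u))
    (hi : ∀ i, a ≤ i → i < b → X.d (x i) (P.ω (v i)) < R) : P.Ang u (x a) (x b) (5 * M) := by
  obtain ⟨a', b', h1, h2, h3, h4, h5, h6⟩ := h u hu
  have self : ∀ i, P.Ang u (x i) (x i) (2 * M) := fun i => P.mono (P.of_not_bt (by
    have := d_pos (X := X) (C.hx i u)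
    unfold Bt; rw [X.d_self]; omega)) (by omega)
  have a1 : P.Ang u (x b') (x b) (2 * M) := by
    rcases h5 with rfl | ⟨h5, h7⟩
    · exact self _
    · exact h7.ang rfl (hR b' (by omega)) (hi b' (by omega) h5) hi
  have a2 : P.Ang u (x a') (x a) (2 * M) := by
    rcases h6 with rfl | ⟨t, rfl, h6, h7⟩
    · exact self _
    · exact h7.ang (C.ha t (by omega)) (hR _ (by omega)) (hi t h6 (by omega)) hi
  exact P.mono (P.tri (P.tri (P.symm a2) (P.of_not_bt h4)) a1) (by omega)

theorem Cfg.tie (C : Cfg P Λ m x v) (hΛ : 20 * M ≤ Λ) {i j : ℕ} (hi : i < m) (hj : j < m)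
    (hij : i ≠ j) (e : X.d (x i) (P.ω (v i)) = X.d (x j) (P.ω (v j))) {k l k' : ℕ} {y : V}
    (hk : k ≤ m) (hl : l ≤ m)
    (hkk : (k = i ∧ k' = i + 1) ∨ (k = i + 1 ∧ k' = i))
    (hl' : l = j ∨ l = j + 1)
    (h1 : P.Ang (v j) (x l) (x k) (5 * M)) (h2 : P.Ang (v i) (x l) (x k) (7 * M))
    (h3 : P.Ang (v i) (x k') y (7 * M)) : P.Ang (v j) (x l) y (7 * M) := by
  have hne : P.ω (v i) ≠ P.ω (v j) := fun h => hij (C.hv i j hi hj (P.ω_inj h))
  have hpos := d_pos (X := X) hne
  have := X.symm (P.ω (v i)) (P.ω (v j))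
  have dk : X.d (x k) (P.ω (v i)) = X.d (x i) (P.ω (v i)) := by
    rcases hkk with ⟨rfl, -⟩ | ⟨rfl, -⟩
    · rfl
    · exact C.ha i hi
  have dl : X.d (x l) (P.ω (v j)) = X.d (x j) (P.ω (v j)) := by
    rcases hl' with rfl | rfl
    · rfl
    · exact C.ha j hj
  have a1 : P.Ang (v j) (x k) (P.ω (v i)) M := P.of_not_bt (by
    have := C.hmin j k hj hk
    unfold Bt; omega)
  have a2 : P.Ang (v i) (x l) (P.ω (v j)) M := P.of_not_bt (by
    have := C.hmin i l hi hl
    unfold Bt; omega)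
  have a3 : X.Bt 0 (P.ω (v j)) (P.ω (v i)) y := by
    by_contra hc
    have a4 := P.tri (P.tri (P.tri (P.symm h2) a2) (P.of_not_bt hc)) (P.symm h3)
    rcases hkk with ⟨rfl, rfl⟩ | ⟨rfl, rfl⟩
    · exact C.hrot _ hi (P.mono a4 (by omega))
    · exact C.hrot _ hi (P.mono (P.symm a4) (by omega))
  have a4 : P.Ang (v j) (P.ω (v i)) y M := P.of_not_bt (by unfold Bt at *; omega)
  exact P.mono (P.tri (P.tri h1 a1) a4) (by omega)

theorem Cfg.claimG (C : Cfg P Λ m x v) (hΛ : 20 * M ≤ Λ) {a b : ℕ} (hb : b ≤ m)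
    (ih : ∀ a' b', a ≤ a' → a' ≤ b' → b' ≤ b → b' - a' < b - a →
      ClaimC P x v a' b' ∧ ClaimG P x v a' b') : ClaimG P x v a b := by
  classical
  intro j ja jb top
  have hu : ∀ i, i < b → i ≠ j → v j ≠ v i := fun i h1 h2 h =>
    h2 (C.hv j i (by omega) (by omega) h).symm
  have hR := fun i hi => C.hmin j i (by omega) hi
  constructor
  · by_cases ht : ∃ i ∈ Finset.Ico a j, X.d (x i) (P.ω (v i)) = X.d (x j) (P.ω (v j))
    · obtain ⟨i, hi, imax⟩ := Finset.exists_max_image ((Finset.Ico a j).filter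
        (fun i => X.d (x i) (P.ω (v i)) = X.d (x j) (P.ω (v j)))) id
        (by obtain ⟨i, h1, h2⟩ := ht; exact ⟨i, Finset.mem_filter.2 ⟨h1, h2⟩⟩)
      simp only [Finset.mem_filter, Finset.mem_Ico, id] at hi imax
      have h1 := C.strict (by omega) (ih (i + 1) j (by omega) (by omega) (by omega) (by omega)).1
        (fun k k1 k2 => hu k (by omega) (by omega)) hR (fun k k1 k2 => by
          have := top k (by omega) (by omega)
          have := imax k
          omega)
      have h2 := (ih a j le_rfl ja (by omega) (by omega)).2 i hi.1.1 hi.1.2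
        (fun k k1 k2 => by have := top k k1 (by omega); omega)
      exact P.symm (C.tie hΛ (by omega) (by omega) (by omega) hi.2 (by omega) (by omega)
        (Or.inr ⟨rfl, rfl⟩) (Or.inl rfl) (P.symm h1) (P.symm h2.2) (P.symm h2.1))
    · push Not at ht
      simp only [Finset.mem_Ico] at ht
      exact P.mono (C.strict (by omega) (ih a j le_rfl ja (by omega) (by omega)).1
        (fun k k1 k2 => hu k (by omega) (by omega)) hR (fun k k1 k2 => by
          have := top k k1 (by omega); have := ht k ⟨k1, k2⟩; omega)) (by omega)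
  · by_cases ht : ∃ i ∈ Finset.Ico (j + 1) b, X.d (x i) (P.ω (v i)) = X.d (x j) (P.ω (v j))
    · obtain ⟨i, hi, imin⟩ := Finset.exists_min_image ((Finset.Ico (j + 1) b).filter
        (fun i => X.d (x i) (P.ω (v i)) = X.d (x j) (P.ω (v j)))) id
        (by obtain ⟨i, h1, h2⟩ := ht; exact ⟨i, Finset.mem_filter.2 ⟨h1, h2⟩⟩)
      simp only [Finset.mem_filter, Finset.mem_Ico, id] at hi imin
      have h1 := C.strict (by omega) (ih (j + 1) i (by omega) (by omega) (by omega) (by omega)).1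
        (fun k k1 k2 => hu k (by omega) (by omega)) hR (fun k k1 k2 => by
          have := top k (by omega) (by omega)
          have := imin k
          omega)
      have h2 := (ih (j + 1) b (by omega) (by omega) le_rfl (by omega)).2 i hi.1.1 hi.1.2
        (fun k k1 k2 => by have := top k (by omega) k2; omega)
      exact C.tie hΛ (by omega) (by omega) (by omega) hi.2 (by omega) (by omega)
        (Or.inl ⟨rfl, rfl⟩) (Or.inr rfl) h1 h2.1 h2.2
    · push Not at ht
      simp only [Finset.mem_Ico] at ht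
      exact P.mono (C.strict (by omega) (ih (j + 1) b (by omega) (by omega) le_rfl (by omega)).1
        (fun k k1 k2 => hu k (by omega) (by omega)) hR (fun k k1 k2 => by
          have := top k (by omega) k2; have := ht k ⟨k1, k2⟩; omega)) (by omega)

theorem Cfg.side_step (C : Cfg P Λ m x v) {a b a₁ b₁ i k t : ℕ} {w e : V} (hb : b₁ ≤ m)
    (hk : k ≤ m) (ia : a ≤ i) (ib : i < b)
    (top : ∀ l, a₁ ≤ l → l < b₁ → X.d (x l) (P.ω (v l)) ≤ X.d (x i) (P.ω (v i)))
    (dk : X.d (x k) (P.ω (v i)) = X.d (x i) (P.ω (v i)))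
    (h1 : X.Bt 0 w (P.ω (v i)) e) (h2 : ¬ P.Ang (v i) w e (2 * M))
    (h : Side P x v a₁ b₁ w (x k) t) : Side P x v a b w e t := by
  obtain ⟨l, l1, l2, l3, l4, l5⟩ := h
  refine ⟨i, ia, ib, h1, h2, ?_⟩
  have := top l l1 l2
  have := X.tri (P.ω (v i)) (P.ω (v l)) (P.ω (v t))
  have := X.symm (P.ω (v i)) (P.ω (v l))
  by_cases hA : X.Bt 0 w (P.ω (v l)) (P.ω (v i))
  · unfold Bt at hA; omega
  · have hB : X.Bt 0 (P.ω (v i)) (P.ω (v l)) (x k) := by
      by_contra hB
      exact l4 (two_mul M ▸ P.tri (P.of_not_bt hA) (P.of_not_bt hB))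
    have := C.hmin l k (by omega) hk
    have := X.tri w (P.ω (v i)) (P.ω (v l))
    have := X.symm (x k) (P.ω (v l)); have := X.symm (x k) (P.ω (v i))
    unfold Bt at hB; omega

theorem Cfg.claimC (C : Cfg P Λ m x v) (hΛ : 20 * M ≤ Λ) {a b : ℕ} (hab : a ≤ b) (hb : b ≤ m)
    (hG : ClaimG P x v a b)
    (ih : ∀ a' b', a ≤ a' → a' ≤ b' → b' ≤ b → b' - a' < b - a → ClaimC P x v a' b') :
    ClaimC P x v a b := by
  intro u hu
  by_cases hbt : X.Bt 0 (x a) (P.ω u) (x b)
  swap
  · exact ⟨a, b, le_rfl, hab, le_rfl, hbt, Or.inl rfl, Or.inl rfl⟩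
  have hlt : a < b := by
    rcases eq_or_lt_of_le hab with rfl | h
    · have := d_pos (X := X) (C.hx a u)
      unfold Bt at hbt; rw [X.d_self] at hbt; omega
    · exact h
  obtain ⟨i, hi, top⟩ := Finset.exists_max_image (Finset.Ico a b)
    (fun i => X.d (x i) (P.ω (v i))) ⟨a, by simp [hlt]⟩
  simp only [Finset.mem_Ico] at hi top
  obtain ⟨g1, g2⟩ := hG i hi.1 hi.2 (fun k k1 k2 => top k ⟨k1, k2⟩)
  have big : ¬ P.Ang (v i) (x a) (x b) (3 * M) := fun h =>
    C.hrot i (by omega) (P.mono (P.tri (P.tri (P.symm g1) h) (P.symm g2)) (by omega))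
  have on := P.bgi (fun h => big (P.mono h (by omega)))
  have hne : P.ω u ≠ P.ω (v i) := fun h => hu i hi.1 hi.2 (P.ω_inj h)
  have hd : X.d (x a) (P.ω u) ≠ X.d (x a) (P.ω (v i)) := fun h => hne (on.2 _ hbt h)
  obtain ⟨γ, g0, gn, gm, hγ⟩ := exists_geo_through hbt
  have hw : X.d (x a) (P.ω (v i)) ≤ X.d (x a) (x b) := by have := on.1; unfold Bt at this; omega
  have hw' : X.d (x a) (P.ω u) ≤ X.d (x a) (x b) := by unfold Bt at hbt; omega
  have gw : γ (X.d (x a) (P.ω (v i))) = P.ω (v i) := by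
    apply on.2
    · have := hγ.bt (Nat.zero_le _) hw le_rfl
      rwa [g0, gn] at this
    · have := hγ 0 _ (Nat.zero_le _) hw
      rwa [g0] at this
  rcases lt_or_gt_of_ne hd with hd | hd
  · have b1 := hγ.bt hd.le hw le_rfl
    rw [gm, gw, gn] at b1
    have b2 : ¬ P.Ang (v i) (P.ω u) (x b) (2 * M) := fun h =>
      big (P.mono (P.tri (P.of_not_bt (a := x a) (by unfold Bt; omega)) h) (by omega))
    obtain ⟨a', b', h1, h2, h3, h4, h5, h6⟩ := ih a i le_rfl hi.1 (by omega) (by omega) u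
      (fun k k1 k2 => hu k k1 (by omega))
    refine ⟨a', b', h1, h2, by omega, h4, Or.inr ⟨by omega, ?_⟩, ?_⟩
    · rcases h5 with rfl | ⟨h5, h7⟩
      · exact ⟨b', hi.1, hi.2, b1, b2, by rw [X.d_self]; omega⟩
      · exact C.side_step (by omega) (by omega) hi.1 hi.2 (fun l l1 l2 => top l ⟨l1, by omega⟩)
          rfl b1 b2 h7
    · rcases h6 with h6 | ⟨t, t1, t2, t3⟩
      · exact Or.inl h6
      · exact Or.inr ⟨t, t1, t2, t3.mono le_rfl (by omega)⟩
  · have b1 := (hγ.bt (Nat.zero_le _) hd.le hw').symm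
    rw [gm, gw, g0] at b1
    have b2 : ¬ P.Ang (v i) (P.ω u) (x a) (2 * M) := fun h =>
      big (P.mono (P.tri (P.symm h) (P.of_not_bt (b := x b) (by
        have := X.tri (x a) (P.ω (v i)) (x b)
        unfold Bt at *; omega))) (by omega))
    obtain ⟨a', b', h1, h2, h3, h4, h5, h6⟩ := ih (i + 1) b (by omega) (by omega) le_rfl
      (by omega) u (fun k k1 k2 => hu k (by omega) k2)
    refine ⟨a', b', by omega, h2, h3, h4, ?_, Or.inr ?_⟩
    · rcases h5 with h5 | ⟨t1, t3⟩
      · exact Or.inl h5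
      · exact Or.inr ⟨t1, t3.mono (by omega) le_rfl⟩
    · rcases h6 with rfl | ⟨t, t1, t2, t3⟩
      · exact ⟨i, rfl, hi.1, i, hi.1, hi.2, b1, b2, by rw [X.d_self]; omega⟩
      · exact ⟨t, t1, by omega, C.side_step hb (by omega) hi.1 hi.2
          (fun l l1 l2 => top l ⟨by omega, l2⟩) (C.ha i (by omega)) b1 b2 t3⟩

theorem Cfg.main (C : Cfg P Λ m x v) (hΛ : 20 * M ≤ Λ) (hm : 0 < m) :
    ∃ j, j < m ∧ P.Ang (v j) (x 0) (x j) (7 * M) ∧ P.Ang (v j) (x (j + 1)) (x m) (7 * M) := by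
  have all : ∀ n a b, a ≤ b → b ≤ m → b - a < n → ClaimC P x v a b ∧ ClaimG P x v a b := by
    intro n
    induction n with
    | zero => intro a b _ _ h; omega
    | succ n ih =>
      intro a b hab hb hn
      have hG := C.claimG hΛ (a := a) hb
        (fun a' b' h1 h2 h3 h4 => ih a' b' h2 (by omega) (by omega))
      exact ⟨C.claimC hΛ hab hb hG
        (fun a' b' h1 h2 h3 h4 => (ih a' b' h2 (by omega) (by omega)).1), hG⟩
  obtain ⟨i, hi, top⟩ := Finset.exists_max_image (Finset.Ico 0 m)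
    (fun i => X.d (x i) (P.ω (v i))) ⟨0, by simp [hm]⟩
  simp only [Finset.mem_Ico] at hi top
  exact ⟨i, hi.2, (all (m + 1) 0 m (by omega) le_rfl (by omega)).2 i hi.1 hi.2
    (fun k k1 k2 => top k ⟨k1, k2⟩)⟩

end

theorem Rot.green {V : Type} {X : Sp V} {H : Type} [Group H] [MulAction H V] {U : Type}
    [MulAction H U] {M Λ : ℕ} {P : Apx X H U M} (R : Rot P Λ) (iso : X.Iso H)
    (hΛ : 20 * M ≤ Λ) {x : V} (hx : ∀ u, x ≠ P.ω u) {k : ℕ} {n : H} (hn : R.Len (k + 1) n)
    (h1 : n ≠ 1) : ∃ u r, r ∈ R.G u ∧ r ≠ 1 ∧ R.Len k (r⁻¹ * n) ∧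
      P.Ang u x ((r⁻¹ * n) • x) (14 * M) := by
  classical
  let pr : List (U × H) → H := fun l => (l.map Prod.snd).prod
  let Val : List (U × H) → Prop := fun l => (∀ p ∈ l, p.2 ∈ R.G p.1) ∧ pr l = n
  let wt : List (U × H) → ℕ := fun l => (l.map fun p => X.d x (P.ω p.1)).sum
  have pr_app : ∀ l l', pr (l ++ l') = pr l * pr l' := fun l l' => by simp [pr]
  have pr_cons : ∀ p l, pr (p :: l) = p.2 * pr l := fun p l => by simp [pr]
  have wt_app : ∀ l l', wt (l ++ l') = wt l + wt l' := fun l l' => by simp [wt]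
  have wt_cons : ∀ p l, wt (p :: l) = X.d x (P.ω p.1) + wt l := fun p l => by simp [wt]
  obtain ⟨l₀, l1, l2, l3⟩ := hn
  have ex1 : ∃ m, ∃ l, Val l ∧ l.length = m := ⟨_, l₀, ⟨l2, l3⟩, rfl⟩
  obtain ⟨m, hm⟩ : ∃ m, m = Nat.find ex1 := ⟨_, rfl⟩
  have ex2 : ∃ t, ∃ l, Val l ∧ l.length = m ∧ wt l = t := by
    obtain ⟨l, h1, h2⟩ := Nat.find_spec ex1
    exact ⟨_, l, h1, by omega, rfl⟩
  obtain ⟨l, hl, len, hwt⟩ := Nat.find_spec ex2
  have min1 : ∀ l', Val l' → m ≤ l'.length := fun l' h => hm ▸ Nat.find_min' ex1 ⟨l', h, rfl⟩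
  have min2 : ∀ l', Val l' → l'.length = m → wt l ≤ wt l' := fun l' h h' =>
    hwt ▸ Nat.find_min' ex2 ⟨l', h, h', rfl⟩
  have mk : m ≤ k + 1 := (min1 l₀ ⟨l2, l3⟩).trans l1
  have mpos : 0 < m := by
    rcases l with _ | ⟨p, l⟩
    · exact absurd hl.2.symm h1
    · simp at len; omega
  have moveL : ∀ l₁ l₂ l₃ p, l = l₁ ++ l₂ ++ p :: l₃ →
      Val (l₁ ++ (pr l₂ • p.1, pr l₂ * p.2 * (pr l₂)⁻¹) :: l₂ ++ l₃) := by
    rintro l₁ l₂ l₃ p rfl
    refine ⟨fun q hq => ?_, ?_⟩
    · simp only [List.mem_append, List.mem_cons] at hq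
      rcases hq with (hq | rfl | hq) | hq
      · exact hl.1 q (by simp [hq])
      · exact R.conj _ _ _ (hl.1 p (by simp))
      · exact hl.1 q (by simp [hq])
      · exact hl.1 q (by simp [hq])
    · rw [← hl.2]; simp only [pr_app, pr_cons]; group
  have moveR : ∀ l₁ l₂ l₃ p, l = l₁ ++ p :: l₂ ++ l₃ →
      Val (l₁ ++ l₂ ++ ((pr l₂)⁻¹ • p.1, (pr l₂)⁻¹ * p.2 * (pr l₂)⁻¹⁻¹) :: l₃) := by
    rintro l₁ l₂ l₃ p rfl
    refine ⟨fun q hq => ?_, ?_⟩
    · simp only [List.mem_append, List.mem_cons] at hq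
      rcases hq with (hq | hq) | rfl | hq
      · exact hl.1 q (by simp [hq])
      · exact hl.1 q (by simp [hq])
      · exact R.conj _ _ _ (hl.1 p (by simp))
      · exact hl.1 q (by simp [hq])
    · rw [← hl.2]; simp only [pr_app, pr_cons]; group
  obtain ⟨u₀, -⟩ : ∃ _ : U, True := by
    rcases l with _ | ⟨p, l⟩
    · simp at len; omega
    · exact ⟨p.1, trivial⟩
  let el : ℕ → U × H := fun j => l.getD j (u₀, 1)
  have split : ∀ j, j < m → l = l.take j ++ el j :: l.drop (j + 1) := by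
    intro j hj
    have : el j = l[j]'(by omega) := List.getD_eq_getElem _ _ _
    rw [this, ← List.drop_eq_getElem_cons, List.take_append_drop]
  have take_succ : ∀ j, j < m → l.take (j + 1) = l.take j ++ [el j] := by
    intro j hj
    have : el j = l[j]'(by omega) := List.getD_eq_getElem _ _ _
    rw [this, List.take_succ_eq_append_getElem]
  have take_split : ∀ i j, i ≤ j → ∃ l₂, l.take j = l.take i ++ l₂ := by
    intro i j hij
    refine ⟨(l.take j).drop i, ?_⟩
    conv_lhs => rw [← List.take_append_drop i (l.take j)]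
    rw [List.take_take, min_eq_left hij]
  have elG : ∀ j, j < m → (el j).2 ∈ R.G (el j).1 := fun j hj =>
    hl.1 _ (by rw [split j hj]; simp)
  have el1 : ∀ j, j < m → (el j).2 ≠ 1 := by
    intro j hj h
    have hv : Val (l.take j ++ l.drop (j + 1)) := by
      refine ⟨fun q hq => hl.1 q ?_, ?_⟩
      · rcases List.mem_append.1 hq with hq | hq
        · exact List.mem_of_mem_take hq
        · exact List.mem_of_mem_drop hq
      · rw [← hl.2]
        conv_rhs => rw [split j hj]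
        simp only [pr_app, pr_cons, h, one_mul]
    have := min1 _ hv
    simp at this; omega
  have prs : ∀ j, j < m → pr (l.take (j + 1)) = pr (l.take j) * (el j).2 := by
    intro j hj
    rw [take_succ j hj, pr_app, pr_cons]; simp [pr]
  have C : Cfg P Λ m (fun i => pr (l.take i) • x) (fun j => pr (l.take j) • (el j).1) := by
    have da : ∀ j, X.d (pr (l.take j) • x) (P.ω (pr (l.take j) • (el j).1)) =
        X.d x (P.ω (el j).1) := fun j => by rw [P.ω_smul, iso]
    refine ⟨fun i u h => ?_, ?_, fun j hj => ?_, fun j i hj hi => ?_, fun j hj h => ?_⟩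
    · exact hx ((pr (l.take i))⁻¹ • u) (by rw [P.ω_smul, ← h, inv_smul_smul])
    · have key : ∀ i j, i < j → j < m →
          pr (l.take i) • (el i).1 ≠ pr (l.take j) • (el j).1 := by
        intro i j hij hj h
        obtain ⟨l₂, e⟩ := take_split (i + 1) j hij
        have e1 : pr l₂ • (el j).1 = (el i).1 := by
          rw [e, pr_app, prs i (by omega), mul_smul, mul_smul, smul_left_cancel_iff] at h
          rw [← smul_left_cancel_iff (el i).2, ← h, R.fix _ _ (elG i (by omega))]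
        have hv := moveL (l.take (i + 1)) l₂ (l.drop (j + 1)) (el j) (by rw [← e]; exact split j hj)
        rw [e1, take_succ i (by omega)] at hv
        have hv' : Val (l.take i ++ ((el i).1, (el i).2 * (pr l₂ * (el j).2 * (pr l₂)⁻¹)) :: l₂ ++
            l.drop (j + 1)) := by
          refine ⟨fun q hq => ?_, ?_⟩
          · simp only [List.mem_append, List.mem_cons] at hq
            rcases hq with (hq | rfl | hq) | hq
            · exact hv.1 q (by simp [hq])
            · exact mul_mem (elG i (by omega))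
                (hv.1 ((el i).1, pr l₂ * (el j).2 * (pr l₂)⁻¹) (by simp))
            · exact hv.1 q (by simp [hq])
            · exact hv.1 q (by simp [hq])
          · rw [← hv.2]; simp only [pr_app, pr_cons]; simp [pr, mul_assoc]
        have h2 := min1 _ hv'
        have h3 := congrArg List.length e
        simp at h2 h3; omega
      intro i j hi hj h
      rcases Nat.lt_trichotomy i j with h2 | h2 | h2
      · exact absurd h (key i j h2 hj)
      · exact h2
      · exact absurd h.symm (key j i h2 hi)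
    · simp only [da]
      rw [prs j hj, mul_smul, P.ω_smul, iso]
      conv_lhs => rw [← R.fix _ _ (elG j hj), P.ω_smul, iso]
    · simp only [da]
      rcases le_or_gt i j with hij | hij
      · obtain ⟨l₂, e⟩ := take_split i j hij
        have e0 : l = l.take i ++ l₂ ++ el j :: l.drop (j + 1) := by rw [← e]; exact split j hj
        have h2 := min2 _ (moveL _ _ _ _ e0) (by
          have := congrArg List.length e0
          simp only [List.length_append, List.length_cons] at this ⊢; omega)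
        have h3 := congrArg wt e0
        simp only [wt_app, wt_cons] at h2 h3
        rw [e, pr_app, mul_smul, P.ω_smul, iso]
        omega
      · obtain ⟨l₂, e⟩ := take_split (j + 1) i hij
        have e0 : l = l.take j ++ el j :: l₂ ++ l.drop i := by
          conv_lhs => rw [← List.take_append_drop i l, e, take_succ j hj]
          simp
        have h2 := min2 _ (moveR _ _ _ _ e0) (by
          have := congrArg List.length e0
          simp only [List.length_append, List.length_cons] at this ⊢; omega)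
        have h3 : wt l = wt (l.take j ++ el j :: l₂ ++ l.drop i) := congrArg wt e0
        simp only [wt_app, wt_cons] at h2 h3
        rw [P.ω_smul, iso.inv'] at h2
        rw [e, pr_app, prs j hj, mul_smul, mul_smul, P.ω_smul, iso]
        conv_rhs => rw [← R.fix _ _ (elG j hj), P.ω_smul, iso]
        omega
    · have h2 := P.smul (pr (l.take j))⁻¹ h
      simp only [prs j hj, mul_smul, inv_smul_smul] at h2
      exact R.rot _ _ _ (elG j hj) (el1 j hj) h2
  obtain ⟨j, hj, a1, a2⟩ := C.main hΛ mpos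
  have hr := R.conj (pr (l.take j)) _ _ (elG j hj)
  have e1 : (pr (l.take j) * (el j).2 * (pr (l.take j))⁻¹)⁻¹ * n =
      pr (l.take j ++ l.drop (j + 1)) := by
    have h3 := congrArg pr (split j hj)
    rw [hl.2] at h3
    rw [h3]
    simp only [pr_app, pr_cons]
    group
  refine ⟨_, _, hr, ?_, ⟨l.take j ++ l.drop (j + 1), ?_, ?_, e1.symm⟩, ?_⟩
  · intro h
    apply el1 j hj
    simpa using h
  · simp; omega
  · intro q hq
    refine hl.1 q ?_
    rcases List.mem_append.1 hq with hq | hq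
    · exact List.mem_of_mem_take hq
    · exact List.mem_of_mem_drop hq
  · have a3 := P.smul (pr (l.take j) * (el j).2 * (pr (l.take j))⁻¹)⁻¹ a2
    rw [R.fix _ _ (inv_mem hr)] at a3
    simp only [List.take_zero, ← len, List.take_length, hl.2, smul_smul, prs j hj] at a1 a3
    have e2 : (pr (l.take j) * (el j).2 * (pr (l.take j))⁻¹)⁻¹ * (pr (l.take j) * (el j).2) =
        pr (l.take j) := by group
    rw [e2] at a3
    have e3 : pr [] = 1 := rfl
    rw [e3, one_smul] at a1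
    exact P.mono (P.tri a1 a3) (by omega)

end Pool.Agent.P.MP_4b59b0_al
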