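import Pool.Agent.P.MP_4b59b0_al.Defs

set_option autoImplicit false

namespace Pool.Agent.P.MP_4b59b0_al

namespace Sp

variable {V : Type} {X : Sp V} {H : Type} [Group H] [MulAction H V] {δ : ℕ}

theorem Iso.inv (iso : X.Iso H) (g : H) (x y : V) : X.d (g⁻¹ • x) y = X.d x (g • y) := by
  rw [← iso g (g⁻¹ • x) y, smul_inv_smul]

theorem Iso.inv' (iso : X.Iso H) (g : H) (x y : V) : X.d x (g⁻¹ • y) = X.d (g • x) y := by
  rw [← iso g x (g⁻¹ • y), smul_inv_smul]

theorem Iso.disp_inv (iso : X.Iso H) (g : H) (x : V) : X.d x (g⁻¹ • x) = X.d x (g • x) := by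
  rw [iso.inv', X.symm]

theorem Iso.bt (iso : X.Iso H) (g : H) {c : ℕ} {x m y : V} (h : X.Bt c x m y) :
    X.Bt c (g • x) (g • m) (g • y) := by
  unfold Bt at *; rw [iso, iso, iso]; exact h

theorem Iso.on (iso : X.Iso H) (g : H) {a b w : V} (h : X.On a b w) :
    X.On (g • a) (g • b) (g • w) := by
  refine ⟨iso.bt g h.1, fun m hm hd => ?_⟩
  have h1 := iso.bt g⁻¹ hm
  simp only [inv_smul_smul] at h1
  have h2 := h.2 _ h1 (by rw [iso.inv', hd, iso])
  rw [← h2, smul_inv_smul]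

theorem Iso.disp_mul (iso : X.Iso H) (g h : H) (x : V) :
    X.d x ((g * h) • x) ≤ X.d x (g • x) + X.d x (h • x) := by
  have := X.tri x (g • x) ((g * h) • x)
  rwa [mul_smul g h x, iso, ← mul_smul] at this

theorem Iso.disp_pow (iso : X.Iso H) (g : H) (x : V) (n : ℕ) :
    X.d x (g ^ n • x) ≤ n * X.d x (g • x) := by
  induction n with
  | zero => simp [X.d_self]
  | succ n ih =>
    have := iso.disp_mul (g ^ n) g x
    rw [← pow_succ] at this
    rw [Nat.succ_mul]; omega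

theorem Iso.disp_conj (iso : X.Iso H) (g h : H) (x : V) :
    X.d (h • x) ((h * g * h⁻¹) • h • x) = X.d x (g • x) := by
  rw [smul_smul, inv_mul_cancel_right, mul_smul, iso]

theorem Iso.disp_conj' (iso : X.Iso H) (g h : H) (x : V) :
    X.d x ((h⁻¹ * g * h) • x) = X.d (h • x) (g • h • x) := by
  rw [mul_smul, mul_smul, iso.inv']

theorem Iso.disp_move (iso : X.Iso H) (g : H) (x y : V) :
    X.d x (g • x) ≤ X.d y (g • y) + 2 * X.d x y := by
  have := X.tri x y (g • x); have := X.tri y (g • y) (g • x); have := iso g y x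
  have := X.symm x y
  omega

theorem Iso.disp_comm (iso : X.Iso H) {g h : H} (hc : Commute g h) (x : V) :
    X.d (h • x) (g • h • x) = X.d x (g • x) := by
  rw [smul_smul, hc.eq, mul_smul, iso]

/-- QC: the displacement is quasiconvex. -/
theorem qc (iso : X.Iso H) (hδ : X.Hyp δ) {g : H} {x y m : V} {c D : ℕ}
    (hx : X.d x (g • x) ≤ D) (hy : X.d y (g • y) ≤ D) (h : X.Bt c x m y) :
    X.d m (g • m) ≤ D + c + δ := by
  have := iso g x m; have := iso g y m
  have := X.tri x (g • x) (g • m); have := X.tri y (g • y) (g • m)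
  rcases hδ.l1 h (g • m) with h1 | h1 <;> unfold Bt at h1 <;> omega

/-- STL: an isometry moving both endpoints a little translates the middle points. -/
theorem stl (iso : X.Iso H) (hδ : X.Hyp δ) {g : H} {x y m : V} {c D : ℕ}
    (hx : X.d x (g • x) ≤ D) (hy : X.d y (g • y) ≤ D) (h : X.Bt c x m y)
    (fx : D + c + δ < X.d x m) (fy : D + c + δ < X.d y m) :
    X.Bt (c + 2 * δ) x (g • m) y ∧
      X.d x (g • m) + X.d x y ≤ X.d x m + X.d x (g • y) + c + δ ∧
      X.d x m + X.d x (g • y) ≤ X.d x (g • m) + X.d x y + c := by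
  have h1 := hδ.bc (a' := x) (b' := y) (D := D) (iso.bt g h) (by rw [X.symm]; exact hx)
    (by rw [X.symm]; exact hy) (by rw [iso]; exact fx) (by rw [iso]; exact fy)
  refine ⟨h1.2, ?_, ?_⟩
  · have h2 := h1.1
    unfold Bt at h2; rw [iso] at h2
    have := X.tri x m y; omega
  · have := X.tri x (g • m) (g • y)
    rw [iso] at this
    unfold Bt at h; omega

/-- COMM: two isometries moving both endpoints a little almost commute in the middle. -/
theorem comm (iso : X.Iso H) (hδ : X.Hyp δ) {g h : H} {x y m : V} {c D : ℕ}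
    (gx : X.d x (g • x) ≤ D) (gy : X.d y (g • y) ≤ D)
    (hx : X.d x (h • x) ≤ D) (hy : X.d y (h • y) ≤ D) (hm : X.Bt c x m y)
    (fx : 2 * D + 2 * c + 4 * δ < X.d x m) (fy : 2 * D + 2 * c + 4 * δ < X.d y m) :
    X.d (g • h • m) (h • g • m) ≤ 6 * c + 15 * δ := by
  have a1 := stl iso hδ gx gy hm (by omega) (by omega)
  have a2 := stl iso hδ hx hy hm (by omega) (by omega)
  have q1 := qc iso hδ gx gy hm
  have q2 := qc iso hδ hx hy hm
  have := X.tri x (g • m) m; have := X.tri y (g • m) m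
  have := X.tri x (h • m) m; have := X.tri y (h • m) m
  have := X.symm m (g • m); have := X.symm m (h • m)
  have a3 := stl iso hδ gx gy a2.1 (by omega) (by omega)
  have a4 := stl iso hδ hx hy a1.1 (by omega) (by omega)
  rcases hδ.l2 a3.1 a4.1 with h1 | h1 <;> omega

/-- MINc. -/
theorem minc (iso : X.Iso H) (hδ : X.Hyp δ) {g : H} {x : V} {c : ℕ}
    (h : X.Bt c (g⁻¹ • x) x (g • x)) (y : V) : X.d x (g • x) ≤ X.d y (g • y) + c + δ := by
  have e1 := iso.inv g x x; have e2 := iso.inv g x y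
  have := X.tri x y (g • y); have := X.tri (g • x) (g • y) y; have := iso g x y
  have := X.symm x (g • x); have := X.symm y (g • y)
  rcases hδ.l1 h y with h1 | h1 <;> unfold Bt at h1 <;> omega

theorem pw1 (iso : X.Iso H) (hδ : X.Hyp δ) {g : H} {x : V} {c : ℕ}
    (h : X.Bt c (g⁻¹ • x) x (g • x)) (hl : c + δ < X.d x (g • x)) (n : ℕ) :
    X.Bt (c + δ) (g⁻¹ • x) x (g ^ (n + 1) • x) := by
  induction n with
  | zero => simpa using h.mono (by omega)
  | succ n ih =>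
    rcases hδ.l1 h (g ^ (n + 1 + 1) • x) with h1 | h1
    · exact h1
    · have h2 := iso.bt g ih
      rw [smul_inv_smul, smul_smul, ← pow_succ'] at h2
      unfold Bt at h1 h2
      have := X.symm x (g • x); omega

theorem pw_lower (iso : X.Iso H) (hδ : X.Hyp δ) {g : H} {x : V} {c : ℕ}
    (h : X.Bt c (g⁻¹ • x) x (g • x)) (hl : c + δ < X.d x (g • x)) (n : ℕ) :
    n * X.d x (g • x) ≤ X.d x (g ^ n • x) + n * (c + δ) := by
  induction n with
  | zero => simp
  | succ n ih =>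
    cases n with
    | zero => simp
    | succ n =>
      have h2 := iso.bt g (pw1 iso hδ h hl n)
      rw [smul_inv_smul, smul_smul, ← pow_succ'] at h2
      unfold Bt at h2
      have h3 : X.d (g • x) (g ^ (n + 1 + 1) • x) = X.d x (g ^ (n + 1) • x) := by
        rw [pow_succ' g (n + 1), mul_smul, iso]
      rw [Nat.succ_mul (n + 1), Nat.succ_mul (n + 1)]; omega

/-- PW. -/
theorem pw (iso : X.Iso H) (hδ : X.Hyp δ) {g : H} {x : V} {c : ℕ}
    (h : X.Bt c (g⁻¹ • x) x (g • x)) (hl : c + 2 * δ < X.d x (g • x)) (i j : ℕ) :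
    X.Bt (c + 2 * δ) (g⁻¹ ^ (i + 1) • x) x (g ^ (j + 1) • x) := by
  have e1 := iso.disp_inv g x
  rcases hδ.l1 (pw1 iso hδ h (by omega) j) (g⁻¹ ^ (i + 1) • x) with h1 | h1
  · exfalso
    have := X.symm x (g⁻¹ • x)
    cases i with
    | zero =>
      unfold Bt at h1
      simp only [zero_add, pow_one, X.d_self] at h1; omega
    | succ i =>
      have h' : X.Bt c (g⁻¹⁻¹ • x) x (g⁻¹ • x) := by rw [inv_inv]; exact h.symm
      have h2 := iso.bt g⁻¹ (pw1 iso hδ h' (by omega) i)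
      rw [smul_inv_smul, smul_smul, ← pow_succ'] at h2
      unfold Bt at h1 h2; omega
  · exact (h1.mono (by omega)).symm

/-- MID: the midpoint of `[q, g q]`. -/
theorem mid (iso : X.Iso H) (hδ : X.Hyp δ) {g : H} {q m : V} (hm : X.Bt 0 q m (g • q))
    (hd : X.d q m = X.d q (g • q) / 2) (hl : 2 * δ + 1 < X.d m (g • m)) :
    X.Bt (2 * δ) (g⁻¹ • m) m (g • m) ∧ X.Bt δ q m (g • m) ∧ X.Bt δ (g • q) m (g⁻¹ • m) := by
  have e1 := iso g q m; have e2 := iso.inv' g q m; have e3 := iso.disp_inv g m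
  have := X.symm m (g • q); have := X.tri q m (g • q)
  have h1 : X.Bt δ q m (g • m) := by
    rcases hδ.l1 hm (g • m) with h1 | h1
    · simpa using h1
    · unfold Bt at *; omega
  have h2 : X.Bt δ (g • q) m (g⁻¹ • m) := by
    rcases hδ.l1 hm (g⁻¹ • m) with h2 | h2
    · unfold Bt at *; omega
    · simpa using h2
  refine ⟨?_, h1, h2⟩
  rcases hδ.l1 h1 (g⁻¹ • m) with h3 | h3
  · unfold Bt at *; omega
  · exact (h3.mono (by omega)).symm

theorem exists_mid (X : Sp V) (q q' : V) : ∃ m, X.Bt 0 q m q' ∧ X.d q m = X.d q q' / 2 := by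
  obtain ⟨m, h1, h2⟩ := X.geod' q q' (X.d q q' / 2) (by omega)
  exact ⟨m, h2, h1⟩

theorem Esc.inv (iso : X.Iso H) {g : H} (h : X.Esc g) : X.Esc g⁻¹ := by
  intro x D
  obtain ⟨N, hN⟩ := h x D
  exact ⟨N, fun n hn => by rw [inv_pow, iso.disp_inv]; exact hN n hn⟩

theorem Esc.far (iso : X.Iso H) {g : H} (h : X.Esc g) (x y : V) (D : ℕ) :
    ∃ N, ∀ n, N ≤ n → D ≤ X.d (g ^ n • x) y ∧ D ≤ X.d (g⁻¹ ^ n • x) y := by
  obtain ⟨N, hN⟩ := h x (D + X.d x y)
  refine ⟨N, fun n hn => ?_⟩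
  have h1 := hN n hn
  have h2 : X.d x (g⁻¹ ^ n • x) = X.d x (g ^ n • x) := by rw [inv_pow, iso.disp_inv]
  have := X.tri x y (g ^ n • x); have := X.tri x y (g⁻¹ ^ n • x)
  have := X.symm y (g ^ n • x); have := X.symm y (g⁻¹ ^ n • x)
  omega

theorem Esc.ne_one {g : H} (h : X.Esc g) (x : V) : g ≠ 1 := by
  rintro rfl
  obtain ⟨N, hN⟩ := h x 1
  have := hN N le_rfl
  simp [X.d_self] at this

theorem Esc.conj (iso : X.Iso H) {g : H} (h : X.Esc g) (k : H) : X.Esc (k * g * k⁻¹) := by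
  intro x D
  obtain ⟨N, hN⟩ := h (k⁻¹ • x) D
  refine ⟨N, fun n hn => ?_⟩
  have := hN n hn
  rw [← iso.disp_conj (g ^ n) k, smul_inv_smul] at this
  rwa [conj_pow]

theorem Ax.mono {g : H} {c c' : ℕ} {y : V} (h : X.Ax g c y) (hc : c ≤ c') : X.Ax g c' y := by
  intro x
  obtain ⟨N, hN⟩ := h x
  exact ⟨N, fun i j hi hj => (hN i j hi hj).mono hc⟩

/-- AX0. -/
theorem ax0 (iso : X.Iso H) (hδ : X.Hyp δ) {g : H} {x : V} {c : ℕ}
    (h : X.Bt c (g⁻¹ • x) x (g • x)) (hl : c + 2 * δ < X.d x (g • x)) :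
    X.Esc g ∧ X.Ax g (c + 4 * δ) x := by
  have h1 : ∀ n, n ≤ X.d x (g ^ n • x) := by
    intro n
    have h2 := pw_lower iso hδ h (by omega) n
    have h3 : n * (c + δ + 1) ≤ n * X.d x (g • x) := Nat.mul_le_mul_left _ (by omega)
    rw [Nat.mul_succ] at h3; omega
  have hE : X.Esc g := by
    intro y D
    refine ⟨D + 2 * X.d x y, fun n hn => ?_⟩
    have := h1 n; have := iso.disp_move (g ^ n) x y; omega
  refine ⟨hE, fun y => ?_⟩
  obtain ⟨N, hN⟩ := hE.far iso x x (X.d x y + c + 3 * δ + 1)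
  refine ⟨N + 1, fun i j hi hj => ?_⟩
  obtain ⟨i, rfl⟩ : ∃ k, i = k + 1 := ⟨i - 1, by omega⟩
  obtain ⟨j, rfl⟩ : ∃ k, j = k + 1 := ⟨j - 1, by omega⟩
  have h2 := (hN (i + 1) (by omega)).2
  have h3 := (hN (j + 1) (by omega)).1
  have := (hδ.bc (a' := g⁻¹ ^ (i + 1) • y) (b' := g ^ (j + 1) • y) (D := X.d x y)
    (pw iso hδ h hl i j) (by rw [iso]) (by rw [iso]) (by omega) (by omega)).2
  exact this.mono (by omega)

theorem Ax.conj (iso : X.Iso H) {g : H} {c : ℕ} {y : V} (h : X.Ax g c y) (k : H) :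
    X.Ax (k * g * k⁻¹) c (k • y) := by
  intro x
  obtain ⟨N, hN⟩ := h (k⁻¹ • x)
  refine ⟨N, fun i j hi hj => ?_⟩
  have := iso.bt k (hN i j hi hj)
  have e1 : (k * g * k⁻¹)⁻¹ = k * g⁻¹ * k⁻¹ := by group
  rw [e1, conj_pow, conj_pow, mul_smul, mul_smul, mul_smul, mul_smul]
  exact this

theorem Ax.comm (iso : X.Iso H) {g k : H} {c : ℕ} {y : V} (h : X.Ax g c y) (hc : Commute g k) :
    X.Ax g c (k • y) := by
  have := h.conj iso k
  rwa [← hc.eq, mul_inv_cancel_right] at this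

theorem Ax.inv {g : H} {c : ℕ} {y : V} (h : X.Ax g c y) : X.Ax g⁻¹ c y := by
  intro x
  obtain ⟨N, hN⟩ := h x
  exact ⟨N, fun i j hi hj => by rw [inv_inv]; exact (hN j i hj hi).symm⟩

/-- The axis is quasiconvex. -/
theorem Ax.bt (hδ : X.Hyp δ) {g : H} {c c' : ℕ} {y y' m : V} (h : X.Ax g c y) (h' : X.Ax g c y')
    (hm : X.Bt c' y m y') : X.Ax g (c + c' + δ) m := by
  intro x
  obtain ⟨N, hN⟩ := h x
  obtain ⟨N', hN'⟩ := h' x
  refine ⟨N + N', fun i j hi hj => ?_⟩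
  have h1 := hN i j (by omega) (by omega)
  have h2 := hN' i j (by omega) (by omega)
  generalize g⁻¹ ^ i • x = a at *
  generalize g ^ j • x = b at *
  have := X.tri m y b; have := X.tri m y' b
  have := X.symm a m; have := X.symm a y; have := X.symm a y'; have := X.symm m y
  have := X.symm m y'
  rcases hδ.l1 hm a with h3 | h3 <;> unfold Bt at * <;> omega

/-- Elements commuting with `g` have nearly minimal displacement on the axis of `g`. -/
theorem Ax.move (iso : X.Iso H) (hδ : X.Hyp δ) {g k : H} {c : ℕ} {y : V} (h : X.Ax g c y)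
    (hc : Commute g k) (p : V) : X.d y (k • y) ≤ X.d p (k • p) + c + δ := by
  obtain ⟨N, hN⟩ := h p
  refine qc iso hδ ?_ ?_ (hN N N le_rfl le_rfl)
  · exact (iso.disp_comm (hc.symm.inv_right.pow_right N) p).le
  · exact (iso.disp_comm (hc.symm.pow_right N) p).le

/-- CM: axes of commuting elements. -/
theorem Ax.cm (iso : X.Iso H) (hδ : X.Hyp δ) {g g' : H} {c c₀ : ℕ} {y y₀ : V}
    (hc : Commute g g') (h₀ : X.Ax g c₀ y₀) (h : X.Ax g' c y) : X.Ax g (c₀ + c + δ) y := by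
  obtain ⟨N, hN⟩ := h y₀
  exact (h₀.comm iso (hc.inv_right.pow_right N)).bt hδ (h₀.comm iso (hc.pow_right N))
    (hN N N le_rfl le_rfl)

theorem mid_ax (iso : X.Iso H) (hδ : X.Hyp δ) {g : H} {q m : V} (hm : X.Bt 0 q m (g • q))
    (hd : X.d q m = X.d q (g • q) / 2) (hl : 4 * δ + 1 < X.d m (g • m)) :
    X.Esc g ∧ X.Ax g (6 * δ) m := by
  have := ax0 iso hδ (mid iso hδ hm hd (by omega)).1 (by omega)
  exact ⟨this.1, this.2.mono (by omega)⟩

theorem Mv.mono {g : H} {l l' : ℕ} (h : X.Mv g l) (hl : l' ≤ l) : X.Mv g l' :=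
  fun x => hl.trans (h x)

theorem Mv.inv (iso : X.Iso H) {g : H} {l : ℕ} (h : X.Mv g l) : X.Mv g⁻¹ l :=
  fun x => by rw [iso.disp_inv]; exact h x

theorem Mv.conj (iso : X.Iso H) {g : H} {l : ℕ} (h : X.Mv g l) (k : H) : X.Mv (k * g * k⁻¹) l :=
  fun x => by
    have := iso.disp_conj g k (k⁻¹ • x)
    rw [smul_inv_smul] at this; rw [this]; exact h _

theorem Mv.ax (iso : X.Iso H) (hδ : X.Hyp δ) {g : H} {l : ℕ} (h : X.Mv g l)
    (hl : 4 * δ + 1 < l) (q : V) :
    X.Esc g ∧ ∃ m, X.Ax g (6 * δ) m ∧ X.d q m ≤ X.d q (g • q) := by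
  obtain ⟨m, h1, h2⟩ := X.exists_mid q (g • q)
  have := mid_ax iso hδ h1 h2 (by have := h m; omega)
  exact ⟨this.1, m, this.2, by omega⟩

theorem pow_lower (iso : X.Iso H) (hδ : X.Hyp δ) {g : H} {m : V}
    (hm : X.Bt (2 * δ) (g⁻¹ • m) m (g • m)) (hl : 4 * δ < X.d m (g • m)) (n : ℕ) (y : V) :
    n * X.d m (g • m) ≤ X.d y (g ^ n • y) + n * (3 * δ) + 5 * δ := by
  cases n with
  | zero => simp
  | succ n =>
    have h1 := pw_lower iso hδ hm (by omega) (n + 1)
    have h2 := pw iso hδ hm (by omega) n n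
    rw [inv_pow] at h2
    have h3 := minc iso hδ h2 y
    have : 2 * δ + δ = 3 * δ := by ring
    rw [this] at h1; omega

/-- Powers of an element that moves every point a lot. -/
theorem Mv.pow (iso : X.Iso H) (hδ : X.Hyp δ) {g : H} {l : ℕ} (h : X.Mv g (l + 3 * δ))
    (hl : δ + 1 < l) (n : ℕ) (y : V) : n * l ≤ X.d y (g ^ n • y) + 5 * δ := by
  obtain ⟨m, h1, h2⟩ := X.exists_mid y (g • y)
  have h3 := h m
  have h4 := pow_lower iso hδ (mid iso hδ h1 h2 (by omega)).1 (by omega) n y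
  have h5 : n * (l + 3 * δ) ≤ n * X.d m (g • m) := Nat.mul_le_mul_left _ h3
  rw [mul_add] at h5; omega

/-- If a power of `g` moves a point a little, then so does `g`. -/
theorem small_root (iso : X.Iso H) (hδ : X.Hyp δ) {g : H} {n D : ℕ} {x : V} (hn : 0 < n)
    (h : X.d x (g ^ n • x) ≤ D) : ∃ q, X.d q (g • q) ≤ D + 8 * δ + 1 := by
  obtain ⟨m, h1, h2⟩ := X.exists_mid x (g • x)
  refine ⟨m, ?_⟩
  by_contra hc
  have h4 := pow_lower iso hδ (mid iso hδ h1 h2 (by omega)).1 (by omega) n x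
  obtain ⟨t, ht⟩ : ∃ t, X.d m (g • m) = t + 3 * δ := ⟨X.d m (g • m) - 3 * δ, by omega⟩
  rw [ht, mul_add] at h4
  have : t ≤ n * t := Nat.le_mul_of_pos_left _ hn
  omega

/-- CW: the central window of `[q, g q]`. -/
theorem cw (iso : X.Iso H) (hδ : X.Hyp δ) {g : H} {q m y : V} {c : ℕ}
    (hm : X.Bt 0 q m (g • q)) (hd : X.d q m = X.d q (g • q) / 2)
    (hl : 4 * δ + 1 < X.d m (g • m)) (hy : X.Bt c q y (g • q))
    (h1 : 2 * X.d q y + c + 2 * δ < 2 * X.d q m + X.d m (g • m))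
    (h2 : 2 * X.d q m + 2 * c + 3 * δ + 1 < 2 * X.d q y + X.d m (g • m)) :
    X.Ax g (c + 9 * δ) y := by
  obtain ⟨-, m1, m2⟩ := mid iso hδ hm hd (by omega)
  have hax := (mid_ax iso hδ hm hd hl).2
  have e1 := iso g q m; have e2 := iso.inv' g q m; have e3 := iso.disp_inv g m
  have := X.symm m (g • q); have := X.tri q m (g • q); have := X.tri q y (g • q)
  have := X.symm y (g • q); have := X.tri q y (g • m); have := X.tri (g • q) y (g⁻¹ • m)
  have a1 : X.Bt (c + δ) q y (g • m) := by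
    rcases hδ.l1 hy (g • m) with h3 | h3
    · exact h3
    · unfold Bt at *; omega
  have a2 : X.Bt (c + δ + δ) (g • m) y (g⁻¹ • m) := by
    rcases hδ.l1 a1 (g⁻¹ • m) with h3 | h3
    · unfold Bt at *; omega
    · exact h3
  have := (hax.comm iso (Commute.refl g)).bt hδ (hax.comm iso (Commute.refl g).inv_right) a2
  exact this.mono (by omega)

/-- TW. -/
theorem tw (iso : X.Iso H) (hδ : X.Hyp δ) {a b : H} (hc : Commute a b) {p y m : V} {D : ℕ}
    (hp : X.d p (a • p) ≤ D) (hy : X.d y (b • y) ≤ D) (hm : X.Bt 0 p m y) :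
    X.d m (a • m) ≤ D + 2 * δ ∨ X.d m (b • m) ≤ 5 * D + 3 * δ := by
  rcases hδ.l1 hm (b • p) with h1 | h1
  · left
    have := qc iso hδ hp ((iso.disp_comm hc p).le.trans hp) h1
    omega
  · right
    have h2 := (iso.bt b hm).move (a' := b • p) (b' := y) (D := 0) (D' := D)
      (by simp [X.d_self]) (by rw [X.symm]; exact hy)
    have e1 := iso b p m; have e2 := iso b p y
    have := X.tri p m y; have := X.tri (b • p) m y; have := X.tri (b • p) y (b • y)
    have := X.tri (b • p) (b • y) y; have := X.symm y (b • y)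
    have := X.symm y m; have := X.symm m (b • p); have := X.symm y (b • p)
    rcases hδ.l2 h1.symm h2 with h3 | h3 <;> unfold Bt at * <;> omega

/-- Circumcenter: an element of finite order has a point moved a little by all its powers. -/
theorem circ (iso : X.Iso H) (hδ : X.Hyp δ) {g : H} {n : ℕ} (hn : 0 < n) (hg : g ^ n = 1)
    (x : V) : ∃ p, ∀ i : ℕ, X.d p (g ^ i • p) ≤ 2 * δ + 1 := by
  classical
  have hex : ∃ r, ∃ p, ∀ i : ℕ, X.d p (g ^ i • x) ≤ r := by
    refine ⟨n * X.d x (g • x), x, fun i => ?_⟩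
    rw [pow_eq_pow_mod i hg]
    exact (iso.disp_pow g x _).trans (Nat.mul_le_mul_right _ (Nat.mod_lt _ hn).le)
  obtain ⟨p, hp⟩ := Nat.find_spec hex
  refine ⟨p, fun i => ?_⟩
  by_contra hc
  have hp' : ∀ k : ℕ, X.d (g ^ i • p) (g ^ k • x) ≤ Nat.find hex := by
    intro k
    have e : g ^ k = g ^ i * g ^ (k + (n - 1) * i) := by
      rw [← pow_add]
      have : i + (k + (n - 1) * i) = k + n * i := by
        obtain ⟨n, rfl⟩ : ∃ k, n = k + 1 := ⟨n - 1, by omega⟩
        simp; ring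
      rw [this, pow_add, pow_mul, hg]; simp
    rw [e, mul_smul, iso]; exact hp _
  obtain ⟨m, h1, h2⟩ := X.exists_mid p (g ^ i • p)
  have hpos : 0 < Nat.find hex := by
    have := hp 0; have := hp' 0
    have := X.tri p (g ^ 0 • x) (g ^ i • p); have := X.symm (g ^ 0 • x) (g ^ i • p)
    omega
  refine Nat.find_min hex (m := Nat.find hex - 1) (by omega) ⟨m, fun k => ?_⟩
  have := hp k; have := hp' k; have := X.tri p m (g ^ i • p); have := X.symm m (g ^ i • p)
  rcases hδ.l1 h1 (g ^ k • x) with h3 | h3 <;> unfold Bt at h3 <;> omega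

/-- FREE, first part. -/
theorem free_ct (iso : X.Iso H) (hδ : X.Hyp δ) {a b b' : H} {w : V} {c : ℕ} (hE : X.Esc a)
    (hw : X.Ax a c w) (rigid : ∀ h : H, X.d w (h • w) ≤ 6 * c + 15 * δ → h = 1)
    (hb : Commute a b) (hb' : Commute a b') : Commute b b' := by
  obtain ⟨N, hN⟩ := hw w
  obtain ⟨N', hN'⟩ := hE.far iso w w
    (2 * (X.d w (b • w) + X.d w (b' • w)) + 2 * c + 4 * δ + 1)
  have h1 := hN' (N + N') (by omega)
  have h2 := comm iso hδ (g := b) (h := b') (D := X.d w (b • w) + X.d w (b' • w))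
    (by rw [iso.disp_comm (hb.symm.inv_right.pow_right _)]; omega)
    (by rw [iso.disp_comm (hb.symm.pow_right _)]; omega)
    (by rw [iso.disp_comm (hb'.symm.inv_right.pow_right _)]; omega)
    (by rw [iso.disp_comm (hb'.symm.pow_right _)]; omega)
    (hN (N + N') (N + N') (by omega) (by omega)) (by omega) (by omega)
  have h3 := rigid ((b * b')⁻¹ * (b' * b)) (by
    rw [mul_smul, iso.inv', mul_smul, mul_smul]; exact h2)
  exact (inv_mul_eq_one.1 h3)

theorem free_arith {p0 pB pa pi β τ e e' t0 t1 c δ : ℕ}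
    (l1 : p0 + β ≤ pB + c + δ ∨ pB + β ≤ p0 + c + δ)
    (l2 : p0 + τ ≤ pa + c + δ ∨ pa + τ ≤ p0 + c + δ)
    (l4 : pB + e ≤ pa + c + δ ∨ pa + e ≤ pB + c + δ)
    (l5 : pB + e' ≤ pi + c + δ ∨ pi + e' ≤ pB + c + δ)
    (h1 : pB ≤ p0 + β) (h2 : p0 ≤ pB + β) (h3 : pa ≤ p0 + τ) (h4 : p0 ≤ pa + τ)
    (h5 : pi ≤ p0 + τ) (h6 : p0 ≤ pi + τ) (b1 : β ≤ τ + c + δ) (b2 : τ ≤ β + c + δ)
    (s1 : pa + t0 ≤ p0 + t1 + c + δ) (s2 : p0 + t1 ≤ pa + t0 + c)
    (s3 : p0 + t0 ≤ pi + t1 + c + δ) (s4 : pi + t1 ≤ p0 + t0 + c) :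
    e ≤ 10 * c + 10 * δ ∨ e' ≤ 10 * c + 10 * δ := by
  rcases l1 with l1 | l1 <;> rcases l2 with l2 | l2
  · left; clear l5; omega
  · right; clear l4; omega
  · right; clear l4; omega
  · left; clear l5; omega

/-- FREE, second part. -/
theorem free_conj (iso : X.Iso H) (hδ : X.Hyp δ) {a x : H} {w : V} {c : ℕ} (hE : X.Esc a)
    (hw : X.Ax a c w) (rigid : ∀ h : H, X.d w (h • w) ≤ 10 * c + 10 * δ → h = 1)
    (hx : Commute a (x⁻¹ * a * x)) : x⁻¹ * a * x = a ∨ x⁻¹ * a * x = a⁻¹ := by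
  set B := x⁻¹ * a * x with hB
  have hτ : 10 * c + 10 * δ < X.d w (a • w) := by
    by_contra hc
    exact hE.ne_one w (rigid a (by omega))
  have b1 : X.d w (B • w) ≤ X.d w (a • w) + c + δ := by
    have := hw.move iso hδ hx (x⁻¹ • w)
    have e := iso.disp_conj' a x (x⁻¹ • w)
    rw [smul_inv_smul, ← hB] at e
    rwa [e] at this
  have b2 : X.d w (a • w) ≤ X.d w (B • w) + c + δ := by
    have := hw.move iso hδ (Commute.refl a) (x • w)
    rwa [← iso.disp_conj'] at this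
  obtain ⟨N1, hN1⟩ := hw w
  obtain ⟨N2, hN2⟩ := hw.comm iso hx w
  obtain ⟨N3, hN3⟩ := hw.comm iso (Commute.refl a) w
  obtain ⟨N4, hN4⟩ := hw.comm iso (Commute.refl a).inv_right w
  obtain ⟨N5, hN5⟩ := hE.far iso w w (2 * X.d w (a • w) + c + δ + 1)
  set N := N1 + N2 + N3 + N4 + N5
  have c1 := hN1 N N (by omega) (by omega)
  have c2 := hN2 N N (by omega) (by omega)
  have c3 := hN3 N N (by omega) (by omega)
  have c4 := hN4 N N (by omega) (by omega)
  have c5 := hN5 N (by omega)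
  have d1 : X.d (a⁻¹ ^ N • w) (a • a⁻¹ ^ N • w) ≤ X.d w (a • w) :=
    (iso.disp_comm ((Commute.refl a).inv_right.pow_right _) w).le
  have d2 : X.d (a ^ N • w) (a • a ^ N • w) ≤ X.d w (a • w) :=
    (iso.disp_comm ((Commute.refl a).pow_right _) w).le
  have e0 := iso.disp_inv a w
  generalize a⁻¹ ^ N • w = p at *
  generalize a ^ N • w = q at *
  have := X.tri p (a⁻¹ • w) w; have := X.tri q (a⁻¹ • w) w; have := X.symm w (a⁻¹ • w)
  have s1 := stl iso hδ d1 d2 c1 (by omega) (by omega)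
  have s2 := stl iso hδ d1 d2 c4 (by omega) (by omega)
  rw [smul_inv_smul] at s2
  have key : X.d (B • w) (a • w) ≤ 10 * c + 10 * δ ∨
      X.d (B • w) (a⁻¹ • w) ≤ 10 * c + 10 * δ :=
    free_arith (hδ.l2 c1 c2) (hδ.l2 c1 c3) (hδ.l2 c2 c3) (hδ.l2 c2 c4) (X.tri p w (B • w))
      (by have := X.tri p (B • w) w; rwa [X.symm (B • w) w] at this) (X.tri p w (a • w))
      (by have := X.tri p (a • w) w; rwa [X.symm (a • w) w] at this)
      (by have := X.tri p w (a⁻¹ • w); rwa [e0] at this)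
      (by have := X.tri p (a⁻¹ • w) w; rwa [X.symm (a⁻¹ • w) w, e0] at this)
      b1 b2 s1.2.1 s1.2.2 s2.2.1 s2.2.2
  rcases key with h | h
  · left
    have := rigid (B⁻¹ * a) (by rw [mul_smul, iso.inv']; exact h)
    exact inv_mul_eq_one.1 this
  · right
    have := rigid (B⁻¹ * a⁻¹) (by rw [mul_smul, iso.inv']; exact h)
    exact inv_mul_eq_one.1 this

end Sp

end Pool.Agent.P.MP_4b59b0_al
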