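import Pool.Agent.P.MP_4b59b0_al.Isom

set_option autoImplicit false

namespace Pool.Agent.P.MP_4b59b0_al

open Sp

theorem CSA.pow_ne {H : Type} [Group H] (csa : CSA H) {g : H} (hg : g ≠ 1) {n : ℕ} (hn : 0 < n) :
    g ^ n ≠ 1 := fun h => hg (csa.tf g n hn h)

theorem CSA.zpow_ne {H : Type} [Group H] (csa : CSA H) {g : H} (hg : g ≠ 1) {n : ℤ} (hn : n ≠ 0) :
    g ^ n ≠ 1 := by
  intro h
  apply csa.pow_ne hg (n := n.natAbs) (by omega)
  rcases Int.natAbs_eq n with e | e
  · rw [← zpow_natCast, ← e, h]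
  · rw [e, zpow_neg, inv_eq_one, zpow_natCast] at h; exact h

theorem mal_of_conj {H : Type} [Group H] (tf : ∀ (g : H) (n : ℕ), 0 < n → g ^ n = 1 → g = 1)
    (ct : ∀ a b c : H, a ≠ 1 → Commute a b → Commute a c → Commute b c) {a x : H}
    (h : x⁻¹ * a * x = a ∨ x⁻¹ * a * x = a⁻¹) : Commute a x := by
  rcases h with h | h
  · rw [mul_assoc, inv_mul_eq_iff_eq_mul] at h; exact h
  · by_cases hx : x = 1
    · rw [hx]; exact Commute.one_right _
    · refine ct (x ^ 2) a x (fun h2 => hx (tf x 2 (by norm_num) h2)) ?_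
        ((Commute.refl x).pow_left 2)
      have h1 : a * x = x * a⁻¹ := by
        rw [mul_assoc, inv_mul_eq_iff_eq_mul] at h; exact h
      have h2 : a⁻¹ * x = x * a := by
        rw [inv_mul_eq_iff_eq_mul, ← mul_assoc, h1, inv_mul_cancel_right]
      show x ^ 2 * a = a * x ^ 2
      rw [pow_two, ← mul_assoc, h1, mul_assoc x a⁻¹, h2, mul_assoc]

namespace Inv

variable {V : Type} {X : Sp V} {H : Type} [Group H] [MulAction H V] {δ A : ℕ}

/-- I1big. -/
theorem i1big (inv : Inv X H δ A) (csa : CSA H) {g h : H} {x y : V} {D : ℕ}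
    (gx : X.d x (g • x) ≤ D) (gy : X.d y (g • y) ≤ D)
    (hx : X.d x (h • x) ≤ D) (hy : X.d y (h • y) ≤ D)
    (hd : A + 10 * D + 100 * δ ≤ X.d x y) : Commute g h := by
  have iso := inv.iso; have hδ := inv.hyp; have pos := inv.pos
  set k := (h * g)⁻¹ * (g * h) with hk
  have ek : ∀ m, X.d m (k • m) = X.d (g • h • m) (h • g • m) := by
    intro m
    rw [hk, mul_smul, iso.inv', mul_smul, mul_smul, X.symm]
  have key : ∀ t : H, X.d x (t • x) ≤ D → X.d y (t • y) ≤ D → ∀ m, X.Bt 0 x m y →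
      3 * D + 9 * δ < X.d x m → 3 * D + 9 * δ < X.d y m →
      X.d m (k • m) ≤ 100 * δ ∧ X.d m ((t⁻¹ * k * t) • m) ≤ 100 * δ := by
    intro t tx ty m hm fx fy
    constructor
    · have := comm iso hδ gx gy hx hy hm (by omega) (by omega)
      rw [ek]; omega
    · have a1 := stl iso hδ tx ty hm (by omega) (by omega)
      have a2 := qc iso hδ tx ty hm
      have := X.tri x (t • m) m; have := X.tri y (t • m) m; have := X.symm m (t • m)
      have := comm iso hδ gx gy hx hy a1.1 (by omega) (by omega)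
      rw [iso.disp_conj', ek]; omega
  obtain ⟨m, m1, m2⟩ := X.geod' x y (3 * D + 9 * δ + 1) (by omega)
  obtain ⟨m', m1', m2'⟩ := X.geod' x y (3 * D + 9 * δ + 1 + A) (by omega)
  have := X.tri x m y; have := X.tri x m' y; have := X.symm y m; have := X.symm y m'
  have := X.tri x m m'
  have key2 : ∀ t : H, X.d x (t • x) ≤ D → X.d y (t • y) ≤ D → Commute k (t⁻¹ * k * t) := by
    intro t tx ty
    have a1 := key t tx ty m m2 (by omega) (by omega)
    have a2 := key t tx ty m' m2' (by omega) (by omega)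
    exact inv.i1 _ _ m m' a1.1 a2.1 a1.2 a2.2 (by omega)
  by_contra hc
  have hk1 : k ≠ 1 := fun h1 => hc (inv_mul_eq_one.1 h1).symm
  exact hc (csa.ct k g h hk1 (csa.mal k g hk1 (key2 g gx gy)) (csa.mal k h hk1 (key2 h hx hy)))

theorem jm (inv : Inv X H δ A) {g h : H} (h1 : h ≠ 1) (hc : Commute g h) {m : V}
    (hm : X.d m (h • m) ≤ 90 * δ) (p : V) : X.d m (g • m) ≤ X.d p (g • p) + A + 3 * δ := by
  have iso := inv.iso; have hδ := inv.hyp; have pos := inv.pos
  obtain ⟨m', a1, a2⟩ := X.exists_mid m (g • m)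
  have a3 := qc iso hδ hm ((iso.disp_comm hc.symm m).le.trans hm) a1
  have a4 := inv.j g h m' m h1 hc (by omega) (by omega)
  by_cases hl : 2 * δ + 1 < X.d m' (g • m')
  · have := minc iso hδ (mid iso hδ a1 a2 hl).1 p
    omega
  · omega

theorem axm (inv : Inv X H δ A) {g h : H} (h1 : h ≠ 1) (hc : Commute g h) {q m : V}
    (hm : X.Bt 0 q m (h • q)) (hd : X.d q m = X.d q (h • q) / 2) (p : V) :
    X.d m (g • m) ≤ X.d p (g • p) + A + 7 * δ := by
  have iso := inv.iso; have hδ := inv.hyp; have pos := inv.pos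
  by_cases hl : 4 * δ + 1 < X.d m (h • m)
  · have := (mid_ax iso hδ hm hd hl).2.move iso hδ hc.symm p
    omega
  · have := inv.jm h1 hc (m := m) (by omega) p
    omega

/-- Jbig. -/
theorem jbig (inv : Inv X H δ A) {g h : H} (h1 : h ≠ 1) (hc : Commute g h) {q : V} {D : ℕ}
    (hq : X.d q (h • q) ≤ D) (p : V) : X.d q (g • q) ≤ X.d p (g • p) + D + A + 7 * δ := by
  obtain ⟨m, a1, a2⟩ := X.exists_mid q (h • q)
  have := inv.axm h1 hc a1 a2 p
  have := inv.iso.disp_move g q m
  omega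

theorem dl_core (inv : Inv X H δ A) (csa : CSA H) {a b : H} (hab : ¬ Commute a b) {q : V}
    {ε l : ℕ} (hq : X.d (a⁻¹ ^ 61 • q) (b ^ 61 • q) ≤ ε) (ha : X.Mv a l)
    (pa : V) (hpa : X.d pa (a • pa) ≤ l) (pb : V) (hpb : X.d pb (b • pb) ≤ l)
    (hl : A + 10 * ε + 100 * δ < l) : False := by
  have iso := inv.iso; have hδ := inv.hyp; have pos := inv.pos
  have ha1 : a ≠ 1 := by rintro rfl; exact hab (Commute.one_left _)
  have hb1 : b ≠ 1 := by rintro rfl; exact hab (Commute.one_right _)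
  set g := b ^ 61 with hg
  set k := a⁻¹ ^ 61 with hk
  have hka : Commute k a := ((Commute.refl a).inv_left.pow_left _)
  have hgb : Commute g b := ((Commute.refl b).pow_left _)
  obtain ⟨m, m1, m2⟩ := X.exists_mid q (g • q)
  obtain ⟨m', m1', m2'⟩ := X.exists_mid q (k • q)
  obtain ⟨l', rfl⟩ : ∃ l', l = l' + 3 * δ := ⟨l - 3 * δ, by omega⟩
  have τ' : 61 * l' ≤ X.d m' (k • m') + 5 * δ := (ha.inv iso).pow iso hδ (by omega) 61 m'
  have t1 := X.tri q (k • q) (g • q); have t2 := X.tri q (g • q) (k • q)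
  have t3 := X.symm (k • q) (g • q)
  have t4 : X.d m' (k • m') ≤ X.d q (k • q) := by
    have := X.tri m' (k • q) (k • m'); have := iso k q m'
    unfold Bt at m1'; omega
  have win : ∀ y, X.Bt δ q y (g • q) →
      2 * X.d q y + 4 * ε + 5 * δ < 2 * X.d q m + X.d m' (k • m') →
      2 * X.d q m + 6 * ε + 8 * δ < 2 * X.d q y + X.d m' (k • m') →
      X.d y (a • y) ≤ l' + 2 * ε + 14 * δ := by
    intro y hy h1 h2
    have hy' := hy.move (a' := q) (b' := k • q) (D := 0) (D' := ε) (by simp [X.d_self]) (by omega)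
    have := (cw iso hδ m1' m2' (by omega) hy' (by omega) (by omega)).move iso hδ hka pa
    omega
  by_cases hτ : 61 * l' ≤ 4 * X.d m (g • m)
  · have t5 : X.d m (g • m) ≤ X.d q (g • q) := by
      have := X.tri m (g • q) (g • m); have := iso g q m
      unfold Bt at m1; omega
    obtain ⟨y1, y11, y12⟩ := X.geod' q (g • q)
      (X.d q m - (5 * l' + A + 10 * ε + 120 * δ)) (by omega)
    obtain ⟨y2, y21, y22⟩ := X.geod' q (g • q)
      (X.d q m + (5 * l' + A + 10 * ε + 120 * δ)) (by omega)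
    have a1 := win y1 (y12.mono (by omega)) (by omega) (by omega)
    have a2 := win y2 (y22.mono (by omega)) (by omega) (by omega)
    have b1 := (cw iso hδ m1 m2 (by omega) y12 (by omega) (by omega)).move iso hδ hgb pb
    have b2 := (cw iso hδ m1 m2 (by omega) y22 (by omega) (by omega)).move iso hδ hgb pb
    have := X.tri q y1 y2
    exact hab (inv.i1big csa a1 a2 (by omega) (by omega) (by omega))
  · have sym : ∀ y, X.Bt 0 q y m → 2 * X.d q y + X.d m (g • m) + δ < 2 * X.d q m →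
        X.Bt δ q (g • y) (g • q) ∧ X.d q (g • q) ≤ X.d q (g • y) + X.d q y ∧
          X.d q (g • y) + X.d q y ≤ X.d q (g • q) + δ := by
      intro y hy h1
      have e1 := iso g q y; have e2 := iso g y m; have e3 := iso g q m
      have := X.tri (g • q) (g • y) m; have := X.symm (g • q) m; have := X.symm (g • y) (g • m)
      have := X.symm m (g • m); have := X.tri q m (g • y); have := X.symm m (g • y)
      have := X.symm (g • q) (g • y); have := X.tri q (g • y) (g • q)
      have := X.tri q y m; have := X.tri q m (g • q)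
      rcases hδ.l1 (iso.bt g hy) m with h2 | h2 <;> unfold Bt at * <;> omega
    obtain ⟨y1, y11, y12⟩ := X.geod' q m (X.d q m - (8 * l' + δ)) (by omega)
    obtain ⟨y2, y21, y22⟩ := X.geod' q m
      (X.d q m - (18 * l' + A + 20 * ε + 241 * δ)) (by omega)
    have s1 := sym y1 y12 (by omega)
    have s2 := sym y2 y22 (by omega)
    have a1 := win y1 ((m1.trans_left y12).1.mono (by omega)) (by omega) (by omega)
    have a2 := win y2 ((m1.trans_left y22).1.mono (by omega)) (by omega) (by omega)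
    have b1 := win _ s1.1 (by omega) (by omega)
    have b2 := win _ s2.1 (by omega) (by omega)
    rw [← iso.disp_conj'] at b1 b2
    have := X.tri q y2 y1; have := X.symm y1 y2
    have c1 := inv.i1big csa a1 a2 b1 b2 (by omega)
    have c2 := csa.mal a g ha1 c1
    exact hab (csa.ct g a b (csa.pow_ne hb1 (by norm_num)) c2.symm hgb)

theorem exists_min (X : Sp V) (g : H) (x : V) : ∃ p, X.Mv g (X.d p (g • p)) := by
  classical
  have hex : ∃ l, ∃ p, X.d p (g • p) = l := ⟨_, x, rfl⟩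
  obtain ⟨p, hp⟩ := Nat.find_spec hex
  exact ⟨p, fun y => by rw [hp]; exact Nat.find_min' hex ⟨y, rfl⟩⟩

/-- DL: if `a ^ 61 * b ^ 61` is short then `a` and `b` are simultaneously short. -/
theorem dl (inv : Inv X H δ A) (csa : CSA H) {a b : H} (hab : ¬ Commute a b) {q : V} {ε : ℕ}
    (hq : X.d q ((a ^ 61 * b ^ 61) • q) ≤ ε) :
    ∃ p, X.d p (a • p) ≤ 20 * ε + 2 * A + 200 * δ ∧ X.d p (b • p) ≤ 20 * ε + 2 * A + 200 * δ := by
  have iso := inv.iso; have hδ := inv.hyp; have pos := inv.pos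
  have ha1 : a ≠ 1 := by rintro rfl; exact hab (Commute.one_left _)
  have hb1 : b ≠ 1 := by rintro rfl; exact hab (Commute.one_right _)
  have hq' : X.d (a⁻¹ ^ 61 • q) (b ^ 61 • q) ≤ ε := by
    rw [inv_pow, iso.inv, smul_smul]; exact hq
  obtain ⟨pa, hpa⟩ := exists_min X a q
  obtain ⟨pb, hpb⟩ := exists_min X b q
  have hl : X.d pa (a • pa) ≤ A + 10 * ε + 100 * δ ∧ X.d pb (b • pb) ≤ A + 10 * ε + 100 * δ := by
    by_contra hc
    rcases le_total (X.d pb (b • pb)) (X.d pa (a • pa)) with h | h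
    · exact inv.dl_core csa hab hq' hpa pa le_rfl pb h (by omega)
    · refine inv.dl_core csa (a := b⁻¹) (b := a⁻¹) (q := q) (ε := ε) (l := X.d pb (b • pb))
        (fun h => hab (by simpa using h.symm)) (by rw [inv_inv, X.symm]; exact hq')
        (hpb.inv iso) pb (by rw [iso.disp_inv]) pa (by rw [iso.disp_inv]; exact h) (by omega)
  obtain ⟨m, m1, m2⟩ := X.exists_mid q (b ^ 61 • q)
  obtain ⟨m', m1', m2'⟩ := X.exists_mid q (a⁻¹ ^ 61 • q)
  have h1 := inv.axm (csa.pow_ne hb1 (by norm_num)) ((Commute.refl b).pow_right 61) m1 m2 pb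
  have h2 := inv.axm (csa.pow_ne (inv_ne_one.2 ha1) (by norm_num))
    ((Commute.refl a).inv_right.pow_right 61) m1' m2' pa
  have h3 := iso.disp_move a m m'
  have h4 := m1.move (a' := q) (b' := a⁻¹ ^ 61 • q) (D := 0) (D' := ε) (by simp [X.d_self])
    (by rw [X.symm]; exact hq')
  have t1 := X.tri q (a⁻¹ ^ 61 • q) (b ^ 61 • q); have t2 := X.tri q (b ^ 61 • q) (a⁻¹ ^ 61 • q)
  have t3 := X.symm (a⁻¹ ^ 61 • q) (b ^ 61 • q)
  have h5 := hδ.l2 h4 m1'
  exact ⟨m, by omega, by omega⟩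

end Inv

end Pool.Agent.P.MP_4b59b0_al
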