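import Pool.Agent.P.MP_4b59b0_al.Green
import Pool.Agent.P.MP_4b59b0_al.Exps

set_option autoImplicit false

namespace Pool.Agent.P.MP_4b59b0_al

/-- Pull back a family of apices along a homomorphism. -/
def Apx.comap {V : Type} {X : Sp V} {H : Type} [Group H] [MulAction H V] {U : Type}
    [MulAction H U] {M : ℕ} (P : Apx X H U M) {G : Type} [Group G] (π : G →* H) :
    @Apx V X G _ (MulAction.compHom V π) U (MulAction.compHom U π) M :=
  letI := MulAction.compHom V π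
  letI := MulAction.compHom U π
  { ω := P.ω
    Ang := P.Ang
    ω_smul := fun g u => P.ω_smul (π g) u
    ω_inj := P.ω_inj
    symm := P.symm
    tri := P.tri
    mono := P.mono
    smul := fun g => P.smul (π g)
    bgi := P.bgi }

theorem lift_rot {V : Type} {X : Sp V} {H : Type} [Group H] [MulAction H V] {U : Type}
    [MulAction H U] {M Λ : ℕ} {P : Apx X H U M} (R : Rot P Λ) (iso : X.Iso H)
    (hΛ : 20 * M ≤ Λ) {x : V} (hx : ∀ u, x ≠ P.ω u)
    {G : Type} [Group G] (π : G →* H) (z : G) (surj : Function.Surjective π)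
    (cen : ∀ g, Commute z g) (πz : π z = 1) (ker : ∀ g, π g = 1 → g ∈ Subgroup.zpowers z)
    {n : ℤ → ℤ} {L n₀ : ℕ} (E : Exps n L n₀) (F : H → H → ℕ)
    (hF : ∀ g a b, F (g * a * g⁻¹) (g * b * g⁻¹) = F a b) (pair : U → H → H → Prop)
    (p1 : ∀ u, ∃ a b, pair u a b)
    (p2 : ∀ (g : H) u a b, pair u a b → pair (g • u) (g * a * g⁻¹) (g * b * g⁻¹))
    (p3 : ∀ u a b a' b', pair u a b → pair u a' b' → ∃ g ∈ Subgroup.zpowers (Wd n a b L),
      a' = g * a * g⁻¹ ∧ b' = g * b * g⁻¹)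
    (p4 : ∀ (g : H) u a b, pair u a b → (g ∈ R.G u ↔ g ∈ Subgroup.zpowers (Wd n a b L)))
    (p5 : ∀ u a b (k : ℤ), pair u a b → k ≠ 0 → Wd n a b L ^ k ≠ 1) :
    ∃ N : Subgroup G, N.Normal ∧ (∀ g ∈ N, π g ∈ R.N) ∧ (∀ h ∈ R.N, ∃ g ∈ N, π g = h) ∧
      (∀ g ∈ N, π g = 1 → g = 1) ∧
      (∀ u a b, pair u (π a) (π b) → Wd n a b L * (z ^ F (π a) (π b))⁻¹ ∈ N) := by
  let _ := MulAction.compHom V π
  let _ := MulAction.compHom U π
  have cz : ∀ s ∈ Subgroup.zpowers z, ∀ g, Commute s g := by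
    rintro s ⟨k, rfl⟩ g; exact (cen g).zpow_left k
  have lifts : ∀ a b a' b' : G, π a = π a' → π b = π b' → Wd n a b L = Wd n a' b' L := by
    intro a b a' b' ha hb
    have h1 := ker (a⁻¹ * a') (by simp [ha])
    have h2 := ker (b⁻¹ * b') (by simp [hb])
    have := E.Wd_central a b _ _ (cz _ h1) (cz _ h2)
    simpa using this.symm
  let S : U → Set G := fun u => {r | ∃ a b, pair u (π a) (π b) ∧
    r = Wd n a b L * (z ^ F (π a) (π b))⁻¹}
  have πS : ∀ a b : G, π (Wd n a b L * (z ^ F (π a) (π b))⁻¹) = Wd n (π a) (π b) L := by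
    intro a b; simp [Wd_map, πz]
  have uniq : ∀ u, ∀ r ∈ S u, ∀ r' ∈ S u, r' = r := by
    rintro u r ⟨a, b, hp, rfl⟩ r' ⟨a', b', hp', rfl⟩
    obtain ⟨g, ⟨k, rfl⟩, h1, h2⟩ := p3 u _ _ _ _ hp hp'
    have e1 : Wd n a' b' L = Wd n a b L := by
      rw [lifts a' b' (Wd n a b L ^ k * a * (Wd n a b L ^ k)⁻¹)
        (Wd n a b L ^ k * b * (Wd n a b L ^ k)⁻¹) (by simpa [Wd_map] using h1)
        (by simpa [Wd_map] using h2), Wd_conj]
      group
    rw [e1, h1, h2, hF]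
  have single : ∀ u, ∃ a b, pair u (π a) (π b) ∧ Subgroup.closure (S u) =
      Subgroup.zpowers (Wd n a b L * (z ^ F (π a) (π b))⁻¹) := by
    intro u
    obtain ⟨a, b, hp⟩ := p1 u
    obtain ⟨a, rfl⟩ := surj a
    obtain ⟨b, rfl⟩ := surj b
    refine ⟨a, b, hp, ?_⟩
    rw [Subgroup.zpowers_eq_closure]
    congr 1
    ext r
    constructor
    · intro hr; exact uniq u _ ⟨a, b, hp, rfl⟩ r hr
    · rintro rfl; exact ⟨a, b, hp, rfl⟩
  have memG : ∀ u r, r ∈ Subgroup.closure (S u) → π r ∈ R.G u ∧ (π r = 1 → r = 1) := by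
    intro u r hr
    obtain ⟨a, b, hp, e⟩ := single u
    rw [e] at hr
    obtain ⟨k, rfl⟩ := hr
    simp only [map_zpow, πS]
    refine ⟨(p4 _ u _ _ hp).2 ⟨k, rfl⟩, fun h => ?_⟩
    by_cases hk : k = 0
    · simp [hk]
    · exact absurd h (p5 u _ _ k hp hk)
  let R' : Rot (P.comap π) Λ :=
    { G := fun u => Subgroup.closure (S u)
      conj := by
        intro g u r hr
        obtain ⟨a, b, hp, e⟩ := single u
        rw [e] at hr
        obtain ⟨k, rfl⟩ := hr
        show g * _ ^ k * g⁻¹ ∈ _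
        rw [← conj_zpow]
        refine Subgroup.zpow_mem _ (Subgroup.subset_closure ?_) k
        refine ⟨g * a * g⁻¹, g * b * g⁻¹, by simp only [map_mul, map_inv]; exact p2 (π g) u _ _ hp, ?_⟩
        rw [Wd_conj]
        simp only [map_mul, map_inv, hF]
        rw [mul_assoc, mul_assoc, (((cen g⁻¹).pow_left _).inv_left).eq]
        simp only [mul_assoc]
      fix := fun u r hr => R.fix u _ (memG u r hr).1
      rot := fun u r a hr h1 => R.rot u _ a (memG u r hr).1 (fun h => h1 ((memG u r hr).2 h)) }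
  refine ⟨R'.N, inferInstance, ?_, ?_, ?_, ?_⟩
  · intro g hg
    refine Subgroup.iSup_induction R'.G (C := fun g => π g ∈ R.N) hg ?_ ?_ ?_
    · intro u r hr; exact R.le_N u (memG u r hr).1
    · simp
    · intro a b ha hb; rw [map_mul]; exact mul_mem ha hb
  · intro h hh
    refine Subgroup.iSup_induction R.G (C := fun h => ∃ g ∈ R'.N, π g = h) hh ?_ ?_ ?_
    · intro u r hr
      obtain ⟨a, b, hp, e⟩ := single u
      obtain ⟨k, rfl⟩ := (p4 _ u _ _ hp).1 hr
      refine ⟨_ ^ k, R'.le_N u ?_, by rw [map_zpow, πS]⟩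
      show _ ∈ Subgroup.closure (S u)
      rw [e]; exact ⟨k, rfl⟩
    · exact ⟨1, one_mem _, map_one _⟩
    · rintro _ _ ⟨a, ha, rfl⟩ ⟨b, hb, rfl⟩; exact ⟨a * b, mul_mem ha hb, map_mul _ _ _⟩
  · intro g hg h1
    by_contra hne
    obtain ⟨k, hk⟩ := R'.mem_N_iff.1 hg
    cases k with
    | zero => exact hne hk.zero
    | succ k =>
      obtain ⟨u, r, hr, r1, -, ha⟩ := R'.green (fun g => iso (π g)) hΛ (x := x) hx hk hne
      refine R'.rot u r⁻¹ x (inv_mem hr) (inv_ne_one.2 r1) (P.mono ?_ (θ := 14 * M) (by omega))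
      have e : (r⁻¹ * g) • x = r⁻¹ • x := by
        show π (r⁻¹ * g) • x = π r⁻¹ • x
        rw [map_mul, h1, mul_one]
      rw [e] at ha; exact ha
  · intro u a b hp
    exact R'.le_N u (Subgroup.subset_closure ⟨a, b, hp, rfl⟩)

end Pool.Agent.P.MP_4b59b0_al
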