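import Pool.Agent.P.MP_4b59b0_al.Step
import Pool.Agent.P.MP_4b59b0_al.Base

set_option autoImplicit false

namespace Pool.Agent.P.MP_4b59b0_al

open Sp

attribute [local instance] Stage.gG Stage.gH Stage.act

theorem stage0 {δ A m₀ L : ℕ} {n : ℤ → ℤ} (h1 : 1 ≤ δ) (hA : 1000 * δ ≤ A) (hm : 100 * δ ≤ m₀) :
    Nonempty (Stage δ A m₀ L n) := by
  obtain ⟨X, csa, hinv, hpow⟩ := base
  refine ⟨{ G := Γ₀, H := FreeGroup (Fin 2), V := FreeGroup (Fin 2), φ := MonoidHom.id _,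
            π := MonoidHom.fst _ _, ψ := FreeGroup.lift ![finRotate 3, Equiv.swap 0 1],
            X := X, x₀ := 1, φ_surj := Function.surjective_id, π_surj := fun h => ⟨(h, 1), rfl⟩,
            πz := rfl, ker := ?_, zinf := ?_, ψ_eq := fun _ => rfl, inv := hinv δ A h1 hA,
            csa := csa, rel := ?_ }⟩
  · rintro ⟨g, t⟩ hg
    refine ⟨Multiplicative.toAdd t, ?_⟩
    have hg' : g = 1 := hg
    subst hg'
    simp [z₀, ← ofAdd_zsmul]
  · intro k hk
    have := congrArg (fun g : Γ₀ => Multiplicative.toAdd g.2) hk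
    simpa [z₀] using this
  · intro a b hab hT
    exfalso
    apply hT
    intro x
    refine hm.trans (hpow _ x m₀ ?_)
    intro h; rw [h] at hab; exact hab (Commute.one_left _)

theorem Stage.rel_comm {δ A m₀ L n₀ : ℕ} {n : ℤ → ℤ} (E : Exps n L n₀) (S : Stage δ A m₀ L n)
    (a b : S.G) (h : Commute (vw (S.π a) (S.π b)) (vw' (S.π a) (S.π b))) :
    ww n L a b =
      S.φ z₀ ^ fl (vw (S.ψ (S.π a)) (S.ψ (S.π b))) (vw' (S.ψ (S.π a)) (S.ψ (S.π b))) := by
  have h1 : fl (vw (S.ψ (S.π a)) (S.ψ (S.π b))) (vw' (S.ψ (S.π a)) (S.ψ (S.π b))) = 0 := by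
    have := (h.map S.ψ).eq
    rw [map_vw, map_vw'] at this
    simp [fl, this]
  have h2 : vw' (S.π a) (S.π b) = vw (S.π a) (S.π b) := by
    by_cases hv : vw (S.π a) (S.π b) = 1
    · simp [vw', hv]
    · have := (S.csa.mal _ _ hv h).eq
      rw [vw', mul_assoc, this]; simp
  have h3 := S.ker ((vw a b)⁻¹ * vw' a b) (by rw [map_mul, map_inv, map_vw, map_vw', h2]; simp)
  obtain ⟨k, hk⟩ := h3
  have h4 := E.Wd_central (vw a b) (vw a b) 1 ((vw a b)⁻¹ * vw' a b) (fun g => Commute.one_left g)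
    (fun g => hk ▸ (S.cen g).zpow_left k)
  rw [mul_one, mul_inv_cancel_left, E.Wd_self] at h4
  rw [h1, pow_zero, ww, h4]

theorem limit : ∃ (n : ℤ → ℤ) (L : ℕ) (N : Subgroup Γ₀), N.Normal ∧ (∀ γ ∈ N, ψ₀ γ = 1) ∧
    (∀ k : ℤ, z₀ ^ k ∈ N → k = 0) ∧
    ∀ a b : Γ₀, (ww n L a b)⁻¹ * z₀ ^ fl (vw (ψ₀ a) (ψ₀ b)) (vw' (ψ₀ a) (ψ₀ b)) ∈ N := by
  obtain ⟨δ, A, m₀, L, n₀, n, h1, hA, hm, E, hstep⟩ := step
  obtain ⟨S₀⟩ := stage0 (L := L) (n := n) h1 hA hm
  choose nx hk hd using hstep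
  let S : ℕ → Stage δ A m₀ L n := fun i => nx^[i] S₀
  have hS : ∀ i, S (i + 1) = nx (S i) := fun i => Function.iterate_succ_apply' nx i S₀
  have mono : Monotone fun i => (S i).φ.ker := by
    refine monotone_nat_of_le_succ fun i γ hγ => ?_
    rw [hS]; exact hk _ γ hγ
  have mem : ∀ γ, γ ∈ (⨆ i, (S i).φ.ker) ↔ ∃ i, (S i).φ γ = 1 := fun γ =>
    Subgroup.mem_iSup_of_directed mono.directed_le
  refine ⟨n, L, ⨆ i, (S i).φ.ker, ⟨fun γ hγ g => ?_⟩, fun γ hγ => ?_, fun k hk => ?_,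
    fun a b => ?_⟩
  · obtain ⟨i, hi⟩ := (mem _).1 hγ
    exact (mem _).2 ⟨i, by simp [hi]⟩
  · obtain ⟨i, hi⟩ := (mem _).1 hγ
    rw [← (S i).ψ_eq, hi, map_one, map_one]
  · obtain ⟨i, hi⟩ := (mem _).1 hk
    exact (S i).zinf k (by rw [← map_zpow, hi])
  · have small : ∀ (γ : Γ₀) (t i : ℕ),
        (S i).X.d (S i).x₀ ((S i).π ((S i).φ γ) • (S i).x₀) ≤ t + 2 →
        ∃ j, (S j).X.d (S j).x₀ ((S j).π ((S j).φ γ) • (S j).x₀) ≤ 2 := by
      intro γ t
      induction t with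
      | zero => intro i hi; exact ⟨i, hi⟩
      | succ t ih =>
        intro i hi
        apply ih (i + 1)
        have := hd (S i) γ
        rw [hS]; omega
    obtain ⟨j, hj⟩ := small (vw a b ^ m₀) _ 0 (Nat.le_add_right _ _)
    refine (mem _).2 ⟨j, ?_⟩
    rw [map_mul, map_inv, inv_mul_eq_one, map_ww, map_pow, ← (S j).ψ_eq, ← (S j).ψ_eq]
    by_cases hc : Commute (vw ((S j).π ((S j).φ a)) ((S j).π ((S j).φ b)))
      (vw' ((S j).π ((S j).φ a)) ((S j).π ((S j).φ b)))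
    · exact (S j).rel_comm E _ _ hc
    · refine (S j).rel _ _ hc fun hT => ?_
      have := hT (S j).x₀
      rw [map_pow, map_pow, map_vw, map_vw] at hj
      omega

theorem counterexample : ∃ (v : FreeGroup (Fin 2)) (G : Type) (_ : Group G),
    (Subgroup.closure {a : G | ∀ (f : Fin 2 → G) (i : Fin 2),
      FreeGroup.lift (Function.update f i (f i * a)) v = FreeGroup.lift f v}).index ≠ 0 ∧
    ¬ ((Subgroup.closure (Set.range (fun f : Fin 2 → G => FreeGroup.lift f v)) : Subgroup G)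
      : Set G).Finite := by
  obtain ⟨n, L, N, hN, hψ, hz, hw⟩ := limit
  let ψ : Γ₀ ⧸ N →* S3 := QuotientGroup.lift N ψ₀ hψ
  have val : ∀ f : Fin 2 → Γ₀ ⧸ N, FreeGroup.lift f (ww n L (FreeGroup.of 0) (FreeGroup.of 1)) =
      (z₀ : Γ₀ ⧸ N) ^ fl (vw (ψ (f 0)) (ψ (f 1))) (vw' (ψ (f 0)) (ψ (f 1))) := by
    intro f
    rw [map_ww, FreeGroup.lift_apply_of, FreeGroup.lift_apply_of]
    obtain ⟨a, ha⟩ := QuotientGroup.mk_surjective (f 0)
    obtain ⟨b, hb⟩ := QuotientGroup.mk_surjective (f 1)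
    rw [← ha, ← hb]
    have := QuotientGroup.eq.2 (hw a b)
    rw [QuotientGroup.mk_pow] at this
    exact (map_ww (QuotientGroup.mk' N) n L a b).symm.trans this
  refine ⟨ww n L (FreeGroup.of 0) (FreeGroup.of 1), Γ₀ ⧸ N, inferInstance, ?_, ?_⟩
  · refine ne_zero_of_dvd_ne_zero (Subgroup.FiniteIndex.index_ne_zero (H := ψ.ker))
      (Subgroup.index_dvd_of_le fun a ha => Subgroup.subset_closure fun f i => ?_)
    have : ∀ j, ψ (Function.update f i (f i * a) j) = ψ (f j) := by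
      intro j
      by_cases h : j = i
      · subst h; rw [Function.update_self, map_mul, MonoidHom.mem_ker.1 ha, mul_one]
      · rw [Function.update_of_ne h]
    rw [val, val, this, this]
  · apply Set.infinite_of_injective_forall_mem (f := fun k : ℤ => (z₀ : Γ₀ ⧸ N) ^ k)
    · intro k l hkl
      have : (z₀ : Γ₀ ⧸ N) ^ (k - l) = 1 := by
        simp only at hkl
        rw [zpow_sub, hkl, mul_inv_cancel]
      rw [← QuotientGroup.mk_zpow, QuotientGroup.eq_one_iff] at this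
      have := hz _ this; omega
    · intro k
      refine Subgroup.zpow_mem _ (Subgroup.subset_closure ?_) k
      refine ⟨![((FreeGroup.of 0, 1) : Γ₀), ((FreeGroup.of 1, 1) : Γ₀)], ?_⟩
      simp only [val]
      have e0 : ψ ((FreeGroup.of 0, 1) : Γ₀) = finRotate 3 := by simp [ψ, ψ₀]
      have e1 : ψ ((FreeGroup.of 1, 1) : Γ₀) = Equiv.swap 0 1 := by simp [ψ, ψ₀]
      have e2 : fl (vw (finRotate 3) (Equiv.swap 0 1)) (vw' (finRotate 3) (Equiv.swap 0 1)) = 1 := by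
        decide +kernel
      simp only [Matrix.cons_val_zero, Matrix.cons_val_one, e0, e1, e2, pow_one]

end Pool.Agent.P.MP_4b59b0_al
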