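import Pool.Agent.P.MP_4b59b0_al.Green
import Pool.Agent.P.MP_4b59b0_al.Isom2

set_option autoImplicit false

namespace Pool.Agent.P.MP_4b59b0_al

open Sp

section

variable {V : Type} {X : Sp V} {H : Type} [Group H] [MulAction H V] {U : Type}
  [MulAction H U] {M Λ : ℕ} {P : Apx X H U M}

/-- The quotient space. -/
structure QS (R : Rot P Λ) where
  V' : Type
  [act : MulAction (H ⧸ R.N) V']
  X' : Sp V'
  pr : V → V'
  surj : Function.Surjective pr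
  eqv : ∀ (g : H) (x : V), pr (g • x) = (g : H ⧸ R.N) • pr x
  le : ∀ x y, X'.d (pr x) (pr y) ≤ X.d x y
  ex : ∀ x y, ∃ n ∈ R.N, X'.d (pr x) (pr y) = X.d x (n • y)

theorem exists_QS (R : Rot P Λ) (iso : X.Iso H) : Nonempty (QS R) := by
  classical
  have hex : ∀ x y : V, ∃ t, ∃ n ∈ R.N, t = X.d x (n • y) := fun x y => ⟨_, 1, one_mem _, rfl⟩
  let dq : V → V → ℕ := fun x y => Nat.find (hex x y)
  have d1 : ∀ x y, ∃ n ∈ R.N, dq x y = X.d x (n • y) := fun x y => Nat.find_spec (hex x y)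
  have d2 : ∀ x y, ∀ n ∈ R.N, dq x y ≤ X.d x (n • y) := fun x y n hn =>
    Nat.find_min' (hex x y) ⟨n, hn, rfl⟩
  have d3 : ∀ x y, ∀ n ∈ R.N, ∀ n' ∈ R.N, dq (n • x) (n' • y) ≤ dq x y := by
    intro x y n hn n' hn'
    obtain ⟨k, hk, e⟩ := d1 x y
    have := d2 (n • x) (n' • y) (n * k * n'⁻¹) (mul_mem (mul_mem hn hk) (inv_mem hn'))
    rwa [mul_smul, inv_smul_smul, mul_smul, iso, ← e] at this
  have d4 : ∀ x y, ∀ n ∈ R.N, ∀ n' ∈ R.N, dq (n • x) (n' • y) = dq x y := by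
    intro x y n hn n' hn'
    refine le_antisymm (d3 x y n hn n' hn') ?_
    have := d3 (n • x) (n' • y) n⁻¹ (inv_mem hn) n'⁻¹ (inv_mem hn')
    simpa using this
  let S : Setoid V := ⟨fun x y => ∃ n ∈ R.N, x = n • y,
    ⟨fun x => ⟨1, one_mem _, (one_smul _ _).symm⟩,
      by rintro x y ⟨n, hn, rfl⟩; exact ⟨n⁻¹, inv_mem hn, (inv_smul_smul _ _).symm⟩,
      by rintro x y z ⟨n, hn, rfl⟩ ⟨k, hk, rfl⟩; exact ⟨n * k, mul_mem hn hk, smul_smul _ _ _⟩⟩⟩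
  let d' : Quotient S → Quotient S → ℕ := Quotient.lift₂ dq (by
    rintro _ _ x y ⟨n, hn, rfl⟩ ⟨k, hk, rfl⟩; exact d4 x y n hn k hk)
  let X' : Sp (Quotient S) :=
    { d := d'
      d_self := by
        rintro ⟨x⟩
        have := d2 x x 1 (one_mem _)
        rw [one_smul, X.d_self] at this
        exact Nat.le_zero.1 this
      eq_of := by
        rintro ⟨x⟩ ⟨y⟩ h
        obtain ⟨n, hn, e⟩ := d1 x y
        exact Quotient.sound ⟨n, hn, X.eq_of _ _ (e.symm.trans h)⟩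
      symm := by
        have : ∀ x y, dq x y ≤ dq y x := by
          intro x y
          obtain ⟨n, hn, e⟩ := d1 y x
          have := d2 x y n⁻¹ (inv_mem hn)
          rwa [iso.inv', X.symm, ← e] at this
        rintro ⟨x⟩ ⟨y⟩
        exact le_antisymm (this x y) (this y x)
      tri := by
        rintro ⟨x⟩ ⟨y⟩ ⟨z⟩
        obtain ⟨n, hn, e⟩ := d1 x y
        obtain ⟨k, hk, e'⟩ := d1 y z
        have h1 := d2 x z (n * k) (mul_mem hn hk)
        have h2 := X.tri x (n • y) ((n * k) • z)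
        rw [mul_smul n k z, iso, ← mul_smul, ← e, ← e'] at h2
        exact h1.trans h2
      geod := by
        rintro ⟨x⟩ ⟨y⟩ k hk
        obtain ⟨n, hn, e⟩ := d1 x y
        obtain ⟨m, h1, h2⟩ := X.geod x (n • y) k (e ▸ hk)
        have h3 := d2 x m 1 (one_mem _)
        have h4 := d2 m y n hn
        rw [one_smul] at h3
        have h5 : dq x y ≤ dq x m + dq m y := by
          obtain ⟨n, hn, e⟩ := d1 x m
          obtain ⟨k, hk, e'⟩ := d1 m y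
          have h1 := d2 x y (n * k) (mul_mem hn hk)
          have h2 := X.tri x (n • m) ((n * k) • y)
          rw [mul_smul n k y, iso, ← mul_smul, ← e, ← e'] at h2
          exact h1.trans h2
        refine ⟨Quotient.mk S m, ?_, ?_⟩
        · show dq x m = k; omega
        · show dq x m + dq m y = dq x y; omega }
  let act : MulAction H (Quotient S) :=
    { smul := fun g => Quotient.map (fun x => g • x) (by
        rintro _ y ⟨n, hn, rfl⟩
        exact ⟨g * n * g⁻¹, R.normal.conj_mem n hn g, by simp [mul_smul]⟩)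
      one_smul := by rintro ⟨x⟩; exact congrArg (Quotient.mk S) (one_smul H x)
      mul_smul := by rintro g h ⟨x⟩; exact congrArg (Quotient.mk S) (mul_smul g h x) }
  let f : H ⧸ R.N →* Equiv.Perm (Quotient S) :=
    QuotientGroup.lift R.N (MulAction.toPermHom H (Quotient S)) (by
      intro n hn
      ext ⟨x⟩
      exact Quotient.sound ⟨n, hn, rfl⟩)
  exact ⟨{ V' := Quotient S, act := MulAction.compHom _ f, X' := X', pr := Quotient.mk S,
           surj := Quotient.mk_surjective, eqv := fun g x => rfl,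
           le := fun x y => by
             have := d2 x y 1 (one_mem _)
             rwa [one_smul] at this
           ex := d1 }⟩

attribute [local instance] QS.act

variable (P) in
/-- All angles are small. -/
def Sm (θ : ℕ) (x y : V) : Prop := ∀ u, P.Ang u x y θ

theorem Sm.symm {θ : ℕ} {x y : V} (h : Sm P θ x y) : Sm P θ y x := fun u => P.symm (h u)

theorem Sm.tri {θ θ' : ℕ} {x y z : V} (h : Sm P θ x y) (h' : Sm P θ' y z) : Sm P (θ + θ') x z :=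
  fun u => P.tri (h u) (h' u)

theorem Sm.smul {θ : ℕ} {x y : V} (h : Sm P θ x y) (g : H) : Sm P θ (g • x) (g • y) := by
  intro u
  have := P.smul g (h (g⁻¹ • u))
  rwa [smul_inv_smul] at this

theorem ang_chain {u : U} {c : ℕ → V} (k : ℕ)
    (h : ∀ i, i < k + 1 → P.Ang u (c i) (c (i + 1)) M) :
    P.Ang u (c 0) (c (k + 1)) ((k + 1) * M) := by
  induction k with
  | zero => simpa using h 0 (by omega)
  | succ k ih =>
    rw [Nat.succ_mul (k + 1)]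
    exact P.tri (ih fun i hi => h i (by omega)) (h (k + 1) (by omega))

variable {R : Rot P Λ}

theorem Sm.not_apex (nt : ∀ u, ∃ r ∈ R.G u, r ≠ 1) {θ : ℕ} {x y : V} (h : Sm P θ x y)
    (hθ : 2 * θ ≤ Λ) (u : U) : x ≠ P.ω u := by
  rintro rfl
  obtain ⟨r, hr, r1⟩ := nt u
  have h1 := h.smul r u
  rw [← P.ω_smul, R.fix u r hr] at h1
  exact R.rot u r y hr r1 (P.mono (P.tri (P.symm (h u)) h1) (by omega))

theorem Sm.le (iso : X.Iso H) (nt : ∀ u, ∃ r ∈ R.G u, r ≠ 1) (hΛ : 20 * M ≤ Λ) {θ : ℕ} {x y : V}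
    (h : Sm P θ x y) (hθ : 2 * θ + 16 * M ≤ Λ) (k : ℕ) :
    ∀ n, R.Len k n → X.d x y ≤ X.d x (n • y) := by
  induction k with
  | zero => intro n hn; rw [hn.zero, one_smul]
  | succ k ih =>
    intro n hn
    by_cases h1 : n = 1
    · rw [h1, one_smul]
    obtain ⟨u, r, hr, r1, hl, ha⟩ := R.green iso hΛ (h.symm.not_apex nt (by omega)) hn h1
    have h2 := ih _ hl
    have e : n • y = r • (r⁻¹ * n) • y := by rw [smul_smul, mul_inv_cancel_left]
    generalize (r⁻¹ * n) • y = y' at *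
    have h3 : X.Bt 0 x (P.ω u) (r • y') := by
      by_contra hc
      exact R.rot u r y' hr r1
        (P.mono (P.tri (P.symm (P.tri (h u) ha)) (P.of_not_bt hc)) (by omega))
    have h4 := iso r (P.ω u) y'
    rw [← P.ω_smul, R.fix u r hr] at h4
    have := X.tri x (P.ω u) y'
    rw [e]; unfold Bt at h3; omega

theorem Sm.uniq (iso : X.Iso H) (nt : ∀ u, ∃ r ∈ R.G u, r ≠ 1) (hΛ : 100 * M ≤ Λ) {θ : ℕ}
    (hθ : θ ≤ 10 * M) {x : V} {g g' : H} (e : (g : H ⧸ R.N) = g') (h : Sm P θ (g • x) (g' • x)) :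
    g = g' := by
  have hn : g' * g⁻¹ ∈ R.N := by
    rw [← QuotientGroup.eq_one_iff, QuotientGroup.mk_mul, QuotientGroup.mk_inv, e, mul_inv_cancel]
  by_contra hne
  obtain ⟨k, hk⟩ := R.mem_N_iff.1 hn
  have h1 : g' * g⁻¹ ≠ 1 := fun h => hne (mul_inv_eq_one.1 h).symm
  cases k with
  | zero => exact h1 hk.zero
  | succ k =>
    obtain ⟨u, r, hr, r1, -, ha⟩ := R.green iso (by omega) (h.not_apex nt (by omega)) hk h1
    refine R.rot u r _ hr r1 (P.mono (P.tri (P.symm ha) ?_) (θ := 14 * M + θ) (by omega))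
    rw [smul_smul, mul_inv_cancel_left, smul_smul, inv_mul_cancel_right]
    exact h u

namespace QS

variable (Q : QS R)

theorem pr_N {n : H} (hn : n ∈ R.N) (x : V) : Q.pr (n • x) = Q.pr x := by
  rw [Q.eqv, (QuotientGroup.eq_one_iff _).2 hn, one_smul]

theorem next (x : V) (b : Q.V') : ∃ y, Q.pr y = b ∧ X.d x y = Q.X'.d (Q.pr x) b := by
  obtain ⟨y, rfl⟩ := Q.surj b
  obtain ⟨n, hn, e⟩ := Q.ex x y
  exact ⟨n • y, Q.pr_N hn y, e.symm⟩

theorem iso' (iso : X.Iso H) : Q.X'.Iso (H ⧸ R.N) := by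
  have : ∀ (g : H ⧸ R.N) (a b : Q.V'), Q.X'.d (g • a) (g • b) ≤ Q.X'.d a b := by
    intro g a b
    obtain ⟨g, rfl⟩ := QuotientGroup.mk_surjective g
    obtain ⟨x, rfl⟩ := Q.surj a
    obtain ⟨y, rfl, e⟩ := Q.next x b
    rw [← Q.eqv, ← Q.eqv, ← e, ← iso g x y]
    exact Q.le _ _
  intro g a b
  refine le_antisymm (this g a b) ?_
  simpa using this g⁻¹ (g • a) (g • b)

theorem lift_el (h : H ⧸ R.N) (x : V) :
    ∃ k : H, (k : H ⧸ R.N) = h ∧ X.d x (k • x) = Q.X'.d (Q.pr x) (h • Q.pr x) := by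
  obtain ⟨h, rfl⟩ := QuotientGroup.mk_surjective h
  obtain ⟨n, hn, e⟩ := Q.ex x (h • x)
  refine ⟨n * h, ?_, by rw [mul_smul, ← e, Q.eqv]⟩
  rw [QuotientGroup.mk_mul, (QuotientGroup.eq_one_iff _).2 hn, one_mul]

theorem bend (iso : X.Iso H) (hΛ : 100 * M ≤ Λ) (l : ℕ) : ∀ (c : ℕ → V) (n : H),
    (∀ u, c 0 ≠ P.ω u) → R.Len l n → c 5 = n • c 0 →
    (∀ i, i < 5 → X.d (c i) (c (i + 1)) = Q.X'.d (Q.pr (c i)) (Q.pr (c (i + 1)))) →
    ∃ c' : ℕ → V, (∀ i, Q.pr (c' i) = Q.pr (c i)) ∧ c' 5 = c' 0 ∧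
      ∀ i, i < 5 → X.d (c' i) (c' (i + 1)) = Q.X'.d (Q.pr (c i)) (Q.pr (c (i + 1))) := by
  induction l with
  | zero =>
    intro c n _ hn e hd
    exact ⟨c, fun _ => rfl, by rw [e, hn.zero, one_smul], hd⟩
  | succ l ih =>
    intro c n h0 hn e hd
    by_cases h1 : n = 1
    · exact ⟨c, fun _ => rfl, by rw [e, h1, one_smul], hd⟩
    obtain ⟨u, r, hr, r1, hl, ha⟩ := R.green iso (by omega) h0 hn h1
    have : ∃ i, i < 5 ∧ X.Bt 0 (c i) (P.ω u) (c (i + 1)) := by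
      by_contra hc
      push Not at hc
      have h2 := ang_chain (P := P) (u := u) (c := c) 4 (fun i hi => P.of_not_bt (hc i hi))
      refine R.rot u r _ hr r1 (P.mono (P.tri (P.symm ha) ?_) (θ := 14 * M + 5 * M) (by omega))
      rw [smul_smul, mul_inv_cancel_left, ← e]; exact h2
    obtain ⟨i, hi, hb⟩ := this
    have hrN : r⁻¹ ∈ R.N := inv_mem (R.le_N u hr)
    let c₁ : ℕ → V := fun j => if j ≤ i then c j else r⁻¹ • c j
    have p1 : ∀ j, Q.pr (c₁ j) = Q.pr (c j) := by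
      intro j; simp only [c₁]; split_ifs
      · rfl
      · exact Q.pr_N hrN _
    have e0 : c₁ 0 = c 0 := by simp [c₁]
    obtain ⟨c', a1, a2, a3⟩ := ih c₁ (r⁻¹ * n) (by rwa [e0]) hl (by
        rw [e0, mul_smul, ← e]; simp only [c₁]; rw [if_neg (by omega)]) (by
      intro j hj
      rw [p1, p1, ← hd j hj]
      simp only [c₁]
      rcases Nat.lt_trichotomy j i with h2 | rfl | h2
      · rw [if_pos (by omega), if_pos (by omega)]
      · rw [if_pos le_rfl, if_neg (by omega)]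
        have h3 := Q.le (c j) (r⁻¹ • c (j + 1))
        rw [Q.pr_N hrN, ← hd j hj] at h3
        have h4 := iso r⁻¹ (P.ω u) (c (j + 1))
        rw [← P.ω_smul, R.fix u _ (inv_mem hr)] at h4
        have := X.tri (c j) (P.ω u) (r⁻¹ • c (j + 1))
        unfold Bt at hb; omega
      · rw [if_neg (by omega), if_neg (by omega), iso])
    exact ⟨c', fun j => (a1 j).trans (p1 j), a2, fun j hj => by rw [a3 j hj, p1, p1]⟩

theorem rips (iso : X.Iso H) (hΛ : 100 * M ≤ Λ) {δ₀ ρ : ℕ} (hyp0 : X.Hyp δ₀) (hρ : 1 ≤ ρ)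
    (sep : ∀ u u', u ≠ u' → ρ < X.d (P.ω u) (P.ω u')) : Q.X'.Rips δ₀ := by
  intro x y m z hm
  by_cases h0 : Q.X'.d x m = 0
  · left; rw [Q.X'.eq_of _ _ h0]; exact bt_left _ _ _
  have : ∃ x', Q.X'.Bt 0 x x' m ∧ ∀ u, x' ≠ Q.pr (P.ω u) := by
    by_cases hx : ∀ u, x ≠ Q.pr (P.ω u)
    · exact ⟨x, bt_left _ _ _, hx⟩
    · push Not at hx
      obtain ⟨u, rfl⟩ := hx
      obtain ⟨x', h1, h2⟩ := Q.X'.geod' (Q.pr (P.ω u)) m 1 (by omega)
      refine ⟨x', h2, ?_⟩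
      rintro u' rfl
      obtain ⟨n, -, e⟩ := Q.ex (P.ω u) (P.ω u')
      rw [← P.ω_smul] at e
      by_cases h3 : u = n • u'
      · rw [← h3, X.d_self] at e; omega
      · have := sep _ _ h3; omega
  obtain ⟨x', h1, h2⟩ := this
  obtain ⟨c0, rfl⟩ := Q.surj x'
  obtain ⟨c1, rfl, e1⟩ := Q.next c0 m
  obtain ⟨c2, rfl, e2⟩ := Q.next c1 y
  obtain ⟨c3, rfl, e3⟩ := Q.next c2 z
  obtain ⟨c4, rfl, e4⟩ := Q.next c3 x
  obtain ⟨c5, p5, e5⟩ := Q.next c4 (Q.pr c0)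
  obtain ⟨n, hn, e6⟩ := Q.ex c5 c0
  rw [p5, Q.X'.d_self] at e6
  obtain ⟨l, hl⟩ := R.mem_N_iff.1 hn
  let c : ℕ → V := fun i => match i with
    | 0 => c0 | 1 => c1 | 2 => c2 | 3 => c3 | 4 => c4 | _ => c5
  obtain ⟨c', a1, a2, a3⟩ := Q.bend iso hΛ l c n (fun u h => h2 u (congrArg Q.pr h)) hl
    (X.eq_of _ _ e6.symm) (by
      intro i hi
      interval_cases i
      · exact e1
      · exact e2
      · exact e3
      · exact e4
      · exact e5.trans (by rw [← p5]; rfl))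
  have b0 : X.d (c' 0) (c' 1) = Q.X'.d (Q.pr c0) (Q.pr c1) := a3 0 (by omega)
  have b1 : X.d (c' 1) (c' 2) = Q.X'.d (Q.pr c1) (Q.pr c2) := a3 1 (by omega)
  have b2 : X.d (c' 2) (c' 3) = Q.X'.d (Q.pr c2) (Q.pr c3) := a3 2 (by omega)
  have b3 : X.d (c' 3) (c' 4) = Q.X'.d (Q.pr c3) (Q.pr c4) := a3 3 (by omega)
  have b4 : X.d (c' 4) (c' 5) = Q.X'.d (Q.pr c4) (Q.pr c5) := a3 4 (by omega)
  rw [a2, p5] at b4
  have l1 := Q.le (c' 4) (c' 1); have l2 := Q.le (c' 4) (c' 2); have l3 := Q.le (c' 1) (c' 3)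
  rw [a1, a1] at l1 l2 l3
  change Q.X'.d (Q.pr c4) (Q.pr c1) ≤ _ at l1
  change Q.X'.d (Q.pr c4) (Q.pr c2) ≤ _ at l2
  change Q.X'.d (Q.pr c1) (Q.pr c3) ≤ _ at l3
  have := X.tri (c' 4) (c' 0) (c' 1)
  have hb : X.Bt 0 (c' 4) (c' 1) (c' 2) := by unfold Bt at *; omega
  have := X.symm (c' 3) (c' 4); have := X.symm (c' 1) (c' 2)
  have := Q.X'.symm (Q.pr c3) (Q.pr c4); have := Q.X'.symm (Q.pr c1) (Q.pr c2)
  rcases hyp0.l1 hb (c' 3) with h | h
  · left; unfold Bt at *; omega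
  · right; unfold Bt at *; omega

end QS

/-- The standing hypotheses on a rotating family. -/
structure RH (R : Rot P Λ) (δ A ρ : ℕ) : Prop where
  inv : Inv X H δ A
  csa : CSA H
  hΛ : 100 * M ≤ Λ
  sep : ∀ u u', u ≠ u' → ρ < X.d (P.ω u) (P.ω u')
  hρ : 1000 * δ ≤ ρ
  stab : ∀ (u : U) (g : H), g • u = u → g ∈ R.G u
  nt : ∀ u, ∃ r ∈ R.G u, r ≠ 1

namespace QS

variable (Q : QS R) {δ A ρ : ℕ}

theorem rigid (h : RH R δ A ρ) (u : U) (g : H ⧸ R.N)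
    (hg : Q.X'.d (Q.pr (P.ω u)) (g • Q.pr (P.ω u)) ≤ ρ) : g = 1 := by
  obtain ⟨k, rfl, e⟩ := Q.lift_el g (P.ω u)
  rw [← P.ω_smul] at e
  rw [QuotientGroup.eq_one_iff]
  refine R.le_N u (h.stab u k ?_)
  by_contra hc
  have := h.sep _ _ (Ne.symm hc); omega

theorem sm_of {x y : V} (e : X.d x y = Q.X'.d (Q.pr x) (Q.pr y))
    (hb : ∀ u, ¬ Q.X'.Bt 0 (Q.pr x) (Q.pr (P.ω u)) (Q.pr y)) : Sm P M x y := by
  intro u
  refine P.of_not_bt fun hc => hb u ?_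
  have := Q.le x (P.ω u); have := Q.le (P.ω u) y
  unfold Bt at *; omega

include Q in
theorem sm_small (h : RH R δ A ρ) {g : H} (g1 : (g : H ⧸ R.N) ≠ 1) {x : V}
    (hg : X.d x (g • x) ≤ 100 * δ) : Sm P M x (g • x) := by
  intro u
  refine P.of_not_bt fun hc => g1 (Q.rigid h u _ ?_)
  have h1 := h.inv.iso.disp_move g (P.ω u) x
  have h2 := Q.le (P.ω u) (g • P.ω u)
  rw [Q.eqv] at h2
  have := X.symm x (P.ω u); have := h.hρ
  unfold Bt at hc; omega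

theorem ls (h : RH R δ A ρ) (hyp : Q.X'.Hyp δ) {g g' : H} (g1 : (g : H ⧸ R.N) ≠ 1)
    (e : (g : H ⧸ R.N) = g') {x y : V} (exy : X.d x y = Q.X'.d (Q.pr x) (Q.pr y))
    (hx : X.d x (g • x) ≤ 100 * δ) (hy : X.d y (g' • y) ≤ 100 * δ) : g = g' := by
  have s1 := Q.sm_small h g1 hx
  have s2 := Q.sm_small h (e ▸ g1) hy
  have s3 : Sm P M x y := Q.sm_of exy fun u hb => g1 (Q.rigid h u _ (by
    have a1 := Q.le x (g • x); have a2 := Q.le y (g' • y)
    rw [Q.eqv] at a1 a2; rw [← e] at a2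
    have := qc (Q.iso' h.inv.iso) hyp (a1.trans hx) (a2.trans hy) hb
    have := h.hρ; omega))
  exact Sm.uniq h.inv.iso h.nt h.hΛ (by omega) e
    ((((s3.smul g).symm.tri s1.symm).tri s3).tri s2)

theorem lift_comm (h : RH R δ A ρ) (hyp : Q.X'.Hyp δ) {k : H} (k1 : (k : H ⧸ R.N) ≠ 1) {x : V}
    (hx : X.d x (k • x) ≤ 100 * δ) {g : H ⧸ R.N} (hc : Commute g k) :
    ∃ g₀ : H, (g₀ : H ⧸ R.N) = g ∧ X.d x (g₀ • x) = Q.X'.d (Q.pr x) (g • Q.pr x) ∧
      Commute g₀ k := by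
  obtain ⟨g₀, rfl, e⟩ := Q.lift_el g x
  refine ⟨g₀, rfl, e, ?_⟩
  have := Q.ls h hyp (g' := g₀ * k * g₀⁻¹) k1 (by
    rw [QuotientGroup.mk_mul, QuotientGroup.mk_mul, hc.eq, QuotientGroup.mk_inv,
      mul_inv_cancel_right]) (x := x) (y := g₀ • x) (by rw [e, Q.eqv]) hx
    (by rw [h.inv.iso.disp_conj]; exact hx)
  exact (mul_inv_eq_iff_eq_mul.1 this.symm)

theorem inv' (h : RH R δ A ρ) (hyp : Q.X'.Hyp δ) : Inv Q.X' (H ⧸ R.N) δ A := by
  refine ⟨Q.iso' h.inv.iso, hyp, h.inv.pos, fun g k x y gx gy kx ky hd => ?_,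
    fun g k p q k1 hc kp kq => ?_⟩
  · by_cases g1 : g = 1
    · rw [g1]; exact Commute.one_left _
    by_cases k1 : k = 1
    · rw [k1]; exact Commute.one_right _
    obtain ⟨x, rfl⟩ := Q.surj x
    obtain ⟨y, rfl, e⟩ := Q.next x y
    obtain ⟨g₁, rfl, a1⟩ := Q.lift_el g x
    obtain ⟨g₂, a2, a3⟩ := Q.lift_el g₁ y
    obtain ⟨k₁, rfl, b1⟩ := Q.lift_el k x
    obtain ⟨k₂, b2, b3⟩ := Q.lift_el k₁ y
    obtain rfl := Q.ls h hyp g1 a2.symm e (by omega) (by omega)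
    obtain rfl := Q.ls h hyp k1 b2.symm e (by omega) (by omega)
    exact (h.inv.i1 g₁ k₁ x y (by omega) (by omega) (by omega) (by omega) (by omega)).map
      (QuotientGroup.mk' R.N)
  · obtain ⟨p, rfl⟩ := Q.surj p
    obtain ⟨q, rfl, e⟩ := Q.next p q
    obtain ⟨k₁, rfl, b1⟩ := Q.lift_el k p
    obtain ⟨k₂, b2, b3⟩ := Q.lift_el k₁ q
    obtain rfl := Q.ls h hyp k1 b2.symm e (by omega) (by omega)
    obtain ⟨g₀, rfl, a1, a2⟩ := Q.lift_comm h hyp k1 (x := p) (by omega) hc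
    have := h.inv.j g₀ k₁ p q (fun h => k1 (by rw [h]; rfl)) a2 (by omega) (by omega)
    have h2 := Q.le q (g₀ • q)
    rw [Q.eqv] at h2; omega

theorem tf' (h : RH R δ A ρ) (hyp : Q.X'.Hyp δ) (x : V) (g : H ⧸ R.N) (n : ℕ) (hn : 0 < n)
    (hg : g ^ n = 1) : g = 1 := by
  by_contra g1
  have pos := h.inv.pos
  obtain ⟨p, hp⟩ := circ (Q.iso' h.inv.iso) hyp hn hg (Q.pr x)
  obtain ⟨p, rfl⟩ := Q.surj p
  obtain ⟨g, rfl, e⟩ := Q.lift_el g p
  have s1 := Q.sm_small h g1 (x := p) (by have := hp 1; rw [pow_one] at this; omega)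
  have s0 : Sm P M p p := fun u => P.of_not_bt fun hb => by
    have := d_pos (X := X) (s1.not_apex h.nt (by have := h.hΛ; omega) u)
    unfold Bt at hb; rw [X.d_self] at hb; omega
  have lifts : ∀ i : ℕ, ∃ k : H, (k : H ⧸ R.N) = (g : H ⧸ R.N) ^ i ∧ Sm P M p (k • p) := by
    intro i
    by_cases h1 : (g : H ⧸ R.N) ^ i = 1
    · exact ⟨1, h1.symm, by rwa [one_smul]⟩
    · obtain ⟨k, a1, a2⟩ := Q.lift_el ((g : H ⧸ R.N) ^ i) p
      exact ⟨k, a1, Q.sm_small h (a1 ▸ h1) (by have := hp i; omega)⟩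
  have key : ∀ i : ℕ, Sm P M p (g ^ i • p) := by
    intro i
    induction i with
    | zero => rwa [pow_zero, one_smul]
    | succ i ih =>
      obtain ⟨k, a1, a2⟩ := lifts (i + 1)
      have := Sm.uniq h.inv.iso h.nt h.hΛ (g := k) (g' := g ^ (i + 1)) (x := p) (θ := M + M + M)
        (by omega) a1 (by rw [pow_succ, mul_smul]; exact (a2.symm.tri ih).tri (s1.smul _))
      rwa [← this]
  have := Sm.uniq h.inv.iso h.nt h.hΛ (g := 1) (g' := g ^ n) (x := p) (θ := M) (by omega)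
    hg.symm (by rw [one_smul]; exact key n)
  exact g1 (by rw [h.csa.tf g n hn this.symm]; rfl)

theorem ct' (h : RH R δ A ρ) (hyp : Q.X'.Hyp δ) (x : V) (a b c : H ⧸ R.N) (a1 : a ≠ 1)
    (hb : Commute a b) (hc : Commute a c) : Commute b c := by
  have pos := h.inv.pos; have hρ := h.hρ
  have iso' := Q.iso' h.inv.iso
  by_cases hm : Q.X'.Mv a (100 * δ)
  · obtain ⟨hE, m, m1, -⟩ := hm.ax iso' hyp (by omega) (Q.pr x)
    by_cases hu : ∃ u, Q.X'.Ax a (20 * δ) (Q.pr (P.ω u))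
    · obtain ⟨u, hu⟩ := hu
      exact free_ct iso' hyp hE hu (fun k hk => Q.rigid h u k (by omega)) hb hc
    · push Not at hu
      obtain ⟨q, rfl⟩ := Q.surj m
      have key : ∀ b : H ⧸ R.N, Commute a b → ∃ b₀ : H, (b₀ : H ⧸ R.N) = b ∧
          Sm P M q (b₀ • q) := by
        intro b hb
        obtain ⟨b₀, rfl, e⟩ := Q.lift_el b q
        refine ⟨b₀, rfl, Q.sm_of (by rw [e, Q.eqv]) fun u hbt => hu u ?_⟩
        rw [Q.eqv] at hbt
        exact (m1.bt hyp (m1.comm iso' hb) hbt).mono (by omega)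
      obtain ⟨a₀, rfl, sa⟩ := key a (Commute.refl a)
      have key2 : ∀ b₀ : H, Commute (a₀ : H ⧸ R.N) b₀ → Sm P M q (b₀ • q) → Commute a₀ b₀ := by
        intro b₀ hb sb
        refine Sm.uniq h.inv.iso h.nt h.hΛ (θ := M + M + M + M) (x := q) (by omega) hb.eq ?_
        rw [mul_smul, mul_smul]
        exact (((sb.smul a₀).symm.tri sa.symm).tri sb).tri (sa.smul b₀)
      obtain ⟨b₀, rfl, sb⟩ := key b hb
      obtain ⟨c₀, rfl, sc⟩ := key c hc
      exact (h.csa.ct a₀ b₀ c₀ (fun h => a1 (by rw [h]; rfl)) (key2 _ hb sb)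
        (key2 _ hc sc)).map (QuotientGroup.mk' R.N)
  · unfold Mv at hm
    push Not at hm
    obtain ⟨p, hp⟩ := hm
    obtain ⟨p, rfl⟩ := Q.surj p
    obtain ⟨a₀, rfl, e⟩ := Q.lift_el a p
    obtain ⟨b₀, rfl, -, b2⟩ := Q.lift_comm h hyp a1 (x := p) (by omega) hb.symm
    obtain ⟨c₀, rfl, -, c2⟩ := Q.lift_comm h hyp a1 (x := p) (by omega) hc.symm
    exact (h.csa.ct a₀ b₀ c₀ (fun h => a1 (by rw [h]; rfl)) b2.symm c2.symm).map
      (QuotientGroup.mk' R.N)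

theorem mal' (h : RH R δ A ρ) (hyp : Q.X'.Hyp δ) (x₀ : V) (a x : H ⧸ R.N) (a1 : a ≠ 1)
    (hx : Commute a (x⁻¹ * a * x)) : Commute a x := by
  have pos := h.inv.pos; have hρ := h.hρ
  have iso' := Q.iso' h.inv.iso
  have fin : ∀ (q : V) (a₀ : H), (a₀ : H ⧸ R.N) = a → Sm P M q (a₀ • q) →
      (∀ u, ¬ Q.X'.Bt 0 (Q.pr q) (Q.pr (P.ω u)) (x⁻¹ • Q.pr q)) → Commute a x := by
    rintro q a₀ rfl sa hu
    obtain ⟨y, ey, e⟩ := Q.lift_el x⁻¹ q
    have sy : Sm P M q (y • q) := Q.sm_of (by rw [e, Q.eqv, ey]) (by rw [Q.eqv, ey]; exact hu)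
    have sB : Sm P (M + M + M) q ((y * a₀ * y⁻¹) • q) := by
      have s1 := sa.smul y
      have s2 := (sy.smul (y * a₀ * y⁻¹)).symm
      rw [smul_smul, inv_mul_cancel_right, mul_smul] at s2
      exact (sy.tri s1).tri s2
    have c1 : Commute a₀ (y * a₀ * y⁻¹) := by
      refine Sm.uniq h.inv.iso h.nt h.hΛ (θ := M + M + M + M + (M + M + M) + M) (x := q)
        (by omega) ?_ ?_
      · have := hx.eq
        simp only [QuotientGroup.mk_mul, QuotientGroup.mk_inv, ey, inv_inv]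
        exact this
      · rw [mul_smul, mul_smul _ a₀]
        exact (((sB.smul a₀).symm.tri sa.symm).tri sB).tri (sa.smul _)
    have c2 := (h.csa.mal a₀ y⁻¹ (fun h => a1 (by rw [h]; rfl)) (by rwa [inv_inv])).map
      (QuotientGroup.mk' R.N)
    simpa [ey] using c2
  by_cases hm : Q.X'.Mv a (100 * δ)
  · obtain ⟨hE, m, m1, -⟩ := hm.ax iso' hyp (by omega) (Q.pr x₀)
    by_cases hu : ∃ u, Q.X'.Ax a (20 * δ) (Q.pr (P.ω u))
    · obtain ⟨u, hu⟩ := hu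
      exact mal_of_conj (Q.tf' h hyp x₀) (Q.ct' h hyp x₀)
        (free_conj iso' hyp hE hu (fun k hk => Q.rigid h u k (by omega)) hx)
    · push Not at hu
      obtain ⟨q, rfl⟩ := Q.surj m
      obtain ⟨a₀, rfl, e⟩ := Q.lift_el a q
      refine fin q a₀ rfl (Q.sm_of (by rw [e, Q.eqv]) fun u hbt => hu u ?_) fun u hbt => hu u ?_
      · rw [Q.eqv] at hbt
        exact (m1.bt hyp (m1.comm iso' (Commute.refl _)) hbt).mono (by omega)
      · have m2 := m1.conj iso' x⁻¹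
        rw [inv_inv] at m2
        exact ((m1.mono (by omega)).bt hyp (Ax.cm iso' hyp hx m1 m2) hbt).mono (by omega)
  · unfold Mv at hm
    push Not at hm
    obtain ⟨p, hp⟩ := hm
    obtain ⟨p, rfl⟩ := Q.surj p
    obtain ⟨a₀, rfl, e⟩ := Q.lift_el a p
    refine fin p a₀ rfl (Q.sm_small h a1 (by omega)) fun u hbt => ?_
    rcases tw iso' hyp hx hp.le (by rw [iso'.disp_conj', smul_inv_smul]; exact hp.le) hbt with
      h1 | h1
    · exact a1 (Q.rigid h u _ (by omega))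
    · have := Q.rigid h u _ (h1.trans (by omega))
      apply a1
      rw [mul_assoc, inv_mul_eq_one] at this
      exact mul_eq_right.1 this.symm

end QS

end

theorem Rot.quot {V : Type} {X : Sp V} {H : Type} [Group H] [MulAction H V] {U : Type}
    [MulAction H U] {M Λ : ℕ} {P : Apx X H U M} (R : Rot P Λ) {δ₀ δ A ρ : ℕ} (x₀ : V)
    (hyp0 : X.Hyp δ₀) (hδ : 2 * δ₀ + 2 ≤ δ) (inv : Inv X H δ A) (csa : CSA H)
    (hΛ : 100 * M ≤ Λ) (sep : ∀ u u', u ≠ u' → ρ < X.d (P.ω u) (P.ω u')) (hρ : 1000 * δ ≤ ρ)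
    (stab : ∀ (u : U) (g : H), g • u = u → g ∈ R.G u) (nt : ∀ u, ∃ r ∈ R.G u, r ≠ 1) :
    ∃ (V' : Type) (_ : MulAction (H ⧸ R.N) V') (X' : Sp V') (pr : V → V'),
      Inv X' (H ⧸ R.N) δ A ∧ CSA (H ⧸ R.N) ∧ Function.Surjective pr ∧
      (∀ (g : H) (x : V), pr (g • x) = (g : H ⧸ R.N) • pr x) ∧
      (∀ x y, X'.d (pr x) (pr y) ≤ X.d x y) ∧
      (∀ x y, ∃ n ∈ R.N, X'.d (pr x) (pr y) = X.d x (n • y)) ∧
      (∀ x y θ, (∀ u, P.Ang u x y θ) → 2 * θ + 16 * M ≤ Λ → X'.d (pr x) (pr y) = X.d x y) := by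
  obtain ⟨Q⟩ := exists_QS R inv.iso
  have h : RH R δ A ρ := ⟨inv, csa, hΛ, sep, hρ, stab, nt⟩
  have hyp : Q.X'.Hyp δ := (Q.rips inv.iso hΛ hyp0 (by omega) sep).hyp.mono hδ
  refine ⟨Q.V', Q.act, Q.X', Q.pr, Q.inv' h hyp, ⟨Q.tf' h hyp x₀, Q.ct' h hyp x₀, Q.mal' h hyp x₀⟩,
    Q.surj, Q.eqv, Q.le, Q.ex, fun x y θ h1 h2 => le_antisymm (Q.le x y) ?_⟩
  obtain ⟨n, hn, e⟩ := Q.ex x y
  obtain ⟨k, hk⟩ := R.mem_N_iff.1 hn
  rw [e]
  exact Sm.le inv.iso nt (by omega) h1 h2 k n hk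

end Pool.Agent.P.MP_4b59b0_al
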