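import Pool.Agent.P.MP_4b59b0_al.Isom2
import Pool.Agent.P.MP_4b59b0_al.Exps
import Pool.Agent.P.MP_4b59b0_al.Geo

set_option autoImplicit false

namespace Pool.Agent.P.MP_4b59b0_al

open Sp Pointwise

def alt {α : Type} (a b : α) (j : ℤ) : α := if j % 2 = 0 then a else b

theorem alt_add {α : Type} (a b : α) (j i : ℤ) : alt a b (j + 2 * i) = alt a b j := by
  unfold alt; rw [Int.add_mul_emod_self_left]

theorem alt_cases {α β : Type} (a b : α) (c d : β) (j : ℤ) :
    (alt a b j = a ∧ alt a b (j + 1) = b ∧ alt c d j = c ∧ alt c d (j + 1) = d) ∨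
    (alt a b j = b ∧ alt a b (j + 1) = a ∧ alt c d j = d ∧ alt c d (j + 1) = c) := by
  unfold alt
  by_cases h : j % 2 = 0
  · have h' : ¬ (j + 1) % 2 = 0 := by omega
    left; simp only [h, h', if_true, if_false, and_self]
  · have h' : (j + 1) % 2 = 0 := by omega
    right; simp only [h, h', if_true, if_false, and_self]

section

variable {H : Type} [Group H] {n : ℤ → ℤ} {L n₀ : ℕ}

variable (n L) in
/-- The bi-infinite periodic word. -/
def gl (a b : H) (j : ℤ) : H := Wd n a b L ^ (j / L) * Wd n a b (j % L).toNat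

variable (n L) in
def pl (a b : H) (j : ℤ) : H := gl n L a b j * alt a b j * (gl n L a b j)⁻¹

theorem Exps.per' (E : Exps n L n₀) (j k : ℤ) : n (j + k * L) = n j := by
  induction k using Int.induction_on with
  | zero => simp
  | succ k ih => rw [add_mul, one_mul, ← add_assoc, E.per, ih]
  | pred k ih => rw [← E.per, ← ih]; congr 1; ring

theorem Exps.alt_per (E : Exps n L n₀) {α : Type} (a b : α) (j k : ℤ) :
    alt a b (j + k * L) = alt a b j := by
  obtain ⟨c, hc⟩ := E.even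
  rw [hc, ← alt_add a b j (k * c)]; congr 1; push_cast; ring

theorem Exps.gl_per (E : Exps n L n₀) (a b : H) (j k : ℤ) :
    gl n L a b (j + k * L) = Wd n a b L ^ k * gl n L a b j := by
  have := E.pos
  unfold gl
  rw [Int.add_mul_emod_self_right, Int.add_mul_ediv_right _ _ (by omega), add_comm, zpow_add,
    mul_assoc]

theorem Exps.gl_nat (E : Exps n L n₀) (a b : H) (r : ℕ) (hr : r ≤ L) :
    gl n L a b r = Wd n a b r := by
  have := E.pos
  unfold gl
  rcases eq_or_lt_of_le hr with rfl | hr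
  · simp [Int.ediv_self (show (r : ℤ) ≠ 0 by omega), Wd]
  · rw [Int.ediv_eq_zero_of_lt (by omega) (by omega), Int.emod_eq_of_lt (by omega) (by omega)]
    simp

theorem Exps.gl_succ (E : Exps n L n₀) (a b : H) (j : ℤ) :
    gl n L a b (j + 1) = gl n L a b j * alt a b j ^ n j := by
  have hL : (0 : ℤ) < L := by have := E.pos; omega
  obtain ⟨r, k, hr, rfl⟩ : ∃ (r : ℕ) (k : ℤ), r < L ∧ j = r + k * L := by
    have h1 := Int.emod_lt_of_pos j hL; have h2 := Int.emod_nonneg j hL.ne'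
    refine ⟨(j % L).toNat, j / L, by omega, ?_⟩
    rw [Int.toNat_of_nonneg h2, mul_comm]; exact (Int.emod_add_mul_ediv _ _).symm
  rw [add_right_comm, E.gl_per, E.gl_per, E.per', E.alt_per, ← Nat.cast_succ,
    E.gl_nat a b _ hr, E.gl_nat a b _ hr.le, mul_assoc]
  congr 1
  have : ((r : ℤ) % 2 = 0) ↔ (r % 2 = 0) := by omega
  simp only [Wd, alt, this]

theorem gl_conj (g a b : H) (j : ℤ) :
    gl n L (g * a * g⁻¹) (g * b * g⁻¹) j = g * gl n L a b j * g⁻¹ := by
  unfold gl; rw [Wd_conj, Wd_conj, conj_zpow]; group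

theorem Exps.pl_per (E : Exps n L n₀) (a b : H) (j k : ℤ) :
    pl n L a b (j + k * L) = Wd n a b L ^ k * pl n L a b j * (Wd n a b L ^ k)⁻¹ := by
  unfold pl; rw [E.gl_per, E.alt_per]; group

theorem Exps.gl_succ' (E : Exps n L n₀) (a b : H) (j : ℤ) :
    gl n L a b (j + 1) = pl n L a b j ^ n j * gl n L a b j := by
  rw [E.gl_succ, pl, conj_zpow]; group

theorem Exps.pl_step (E : Exps n L n₀) (a b : H) (j : ℤ) : pl n L a b (j + 2) =
    pl n L a b (j + 1) ^ n (j + 1) * pl n L a b j * (pl n L a b (j + 1) ^ n (j + 1))⁻¹ := by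
  have e1 : alt a b (j + 2) = alt a b j := by simpa using alt_add a b j 1
  have e2 : pl n L a b j = gl n L a b (j + 1) * alt a b j * (gl n L a b (j + 1))⁻¹ := by
    rw [E.gl_succ, pl]; group
  rw [e2, pl, e1, show j + 2 = j + 1 + 1 by ring, E.gl_succ' a b (j + 1)]; group

theorem Exps.pl_zero (E : Exps n L n₀) (a b : H) : pl n L a b 0 = a := by
  have := E.gl_nat a b 0 (Nat.zero_le _)
  simp only [Nat.cast_zero] at this
  simp [pl, this, Wd, alt]

theorem Exps.pl_one (E : Exps n L n₀) (a b : H) : pl n L a b 1 = a ^ n 0 * b * (a ^ n 0)⁻¹ := by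
  have := E.gl_nat a b 1 E.pos
  simp only [Nat.cast_one] at this
  simp [pl, this, Wd, alt]

theorem CSA.zpow_inj (csa : CSA H) {g : H} (hg : g ≠ 1) {k l : ℤ} (h : g ^ k = g ^ l) : k = l := by
  by_contra hc
  exact csa.zpow_ne hg (sub_ne_zero.2 hc) (by rw [zpow_sub, h, mul_inv_cancel])

theorem CSA.root (csa : CSA H) {g h : H} (hc : Commute g h) {k : ℤ} (hk : k ≠ 0)
    (e : g ^ k = h ^ k) : g = h := by
  by_contra hne
  refine csa.zpow_ne (g := g * h⁻¹) (fun h1 => hne (mul_inv_eq_one.1 h1)) hk ?_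
  rw [hc.inv_right.mul_zpow, inv_zpow, e, mul_inv_cancel]

variable {V : Type} {X : Sp V} [MulAction H V] {U : Type} [MulAction H U] {M DT : ℕ}
  {P : Apx X H U M}

variable (n L) in
def ul (a b : H) (ua ub : U) (j : ℤ) : U := gl n L a b j • alt ua ub j

variable (P n DT) in
/-- Admissible data. -/
structure AD (a b : H) (ua ub : U) : Prop where
  nc : ¬ Commute a b
  fa : a • ua = ua
  fb : b • ub = ub
  dist : X.d (P.ω ua) (P.ω ub) ≤ DT
  ra : ∀ j c, ¬ P.Ang ua c (a ^ n j • c) (10 * M)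
  rb : ∀ j c, ¬ P.Ang ub c (b ^ n j • c) (10 * M)

theorem zpow_fix {g : H} {u : U} (h : g • u = u) (k : ℤ) : g ^ k • u = u :=
  MulAction.mem_stabilizer_iff.1 (Subgroup.zpow_mem _ (MulAction.mem_stabilizer_iff.2 h) _)

theorem ul_conj (g a b : H) (ua ub : U) (j : ℤ) :
    ul n L (g * a * g⁻¹) (g * b * g⁻¹) (g • ua) (g • ub) j = g • ul n L a b ua ub j := by
  have : alt (g • ua) (g • ub) j = g • alt ua ub j := by unfold alt; split_ifs <;> rfl
  rw [ul, ul, gl_conj, this, mul_smul, inv_smul_smul, mul_smul]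

theorem Exps.ul_per (E : Exps n L n₀) (a b : H) (ua ub : U) (j k : ℤ) :
    ul n L a b ua ub (j + k * L) = Wd n a b L ^ k • ul n L a b ua ub j := by
  rw [ul, ul, E.gl_per, E.alt_per, mul_smul]

namespace AD

variable {a b : H} {ua ub : U}

theorem conj (iso : X.Iso H) (h : AD n P a b ua ub (DT := DT)) (g : H) :
    AD n P (g * a * g⁻¹) (g * b * g⁻¹) (g • ua) (g • ub) (DT := DT) := by
  have key : ∀ (a : H) (u : U), (∀ j c, ¬ P.Ang u c (a ^ n j • c) (10 * M)) →
      ∀ j c, ¬ P.Ang (g • u) c ((g * a * g⁻¹) ^ n j • c) (10 * M) := by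
    intro a u h j c hc
    have := P.smul g⁻¹ hc
    rw [conj_zpow, mul_smul, mul_smul, inv_smul_smul, inv_smul_smul] at this
    exact h j _ this
  refine ⟨fun hc => h.nc ?_, ?_, ?_, ?_, key a ua h.ra, key b ub h.rb⟩
  · simpa [mul_assoc] using hc.map (MulAut.conj g⁻¹).toMonoidHom
  · rw [mul_smul, inv_smul_smul, mul_smul, h.fa]
  · rw [mul_smul, inv_smul_smul, mul_smul, h.fb]
  · rw [P.ω_smul, P.ω_smul, iso]; exact h.dist

theorem alt_ne (h : AD n P a b ua ub (DT := DT)) (j : ℤ) : alt a b j ≠ 1 := by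
  unfold alt
  split_ifs
  · rintro rfl; exact h.nc (Commute.one_left _)
  · rintro rfl; exact h.nc (Commute.one_right _)

theorem pl_ne (h : AD n P a b ua ub (DT := DT)) (j : ℤ) : pl n L a b j ≠ 1 := by
  intro e
  apply h.alt_ne j
  simpa [pl] using e

theorem alt_fix (h : AD n P a b ua ub (DT := DT)) (j : ℤ) : alt a b j • alt ua ub j = alt ua ub j := by
  unfold alt
  split_ifs
  · exact h.fa
  · exact h.fb

theorem pl_fix (h : AD n P a b ua ub (DT := DT)) (j : ℤ) :
    pl n L a b j • ul n L a b ua ub j = ul n L a b ua ub j := by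
  rw [pl, ul, mul_smul, inv_smul_smul, mul_smul, h.alt_fix]

theorem ul_prev (E : Exps n L n₀) (h : AD n P a b ua ub (DT := DT)) (j : ℤ) :
    ul n L a b ua ub j = gl n L a b (j + 1) • alt ua ub j := by
  rw [E.gl_succ, mul_smul, zpow_fix (h.alt_fix j), ul]

theorem ul_step (E : Exps n L n₀) (h : AD n P a b ua ub (DT := DT)) (j : ℤ) :
    ul n L a b ua ub (j + 2) = pl n L a b (j + 1) ^ n (j + 1) • ul n L a b ua ub j := by
  have e1 : alt ua ub (j + 2) = alt ua ub j := by simpa using alt_add ua ub j 1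
  rw [h.ul_prev E j, ul, e1, show j + 2 = j + 1 + 1 by ring, E.gl_succ' a b (j + 1), mul_smul]

theorem pl_rot (h : AD n P a b ua ub (DT := DT)) (j k : ℤ) (c : V) :
    ¬ P.Ang (ul n L a b ua ub j) c (pl n L a b j ^ n k • c) (10 * M) := by
  intro hc
  have := P.smul (gl n L a b j)⁻¹ hc
  rw [pl, ul, conj_zpow, mul_smul, mul_smul, inv_smul_smul, inv_smul_smul] at this
  revert this
  unfold alt
  split_ifs
  · exact h.ra k _
  · exact h.rb k _

theorem geo (iso : X.Iso H) (csa : CSA H) (E : Exps n L n₀) (hL : 2 * DT < L)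
    (st1 : ∀ (u : U) (g h : H), g • u = u → h • u = u → Commute g h)
    (h : AD n P a b ua ub (DT := DT)) :
    Geo P DT (ul n L a b ua ub) (X.d (P.ω ua) (P.ω ub)) := by
  set D := X.d (P.ω ua) (P.ω ub) with hD
  set u := ul n L a b ua ub with hu
  have pos : 1 ≤ D := d_pos fun e => h.nc (st1 ua a b h.fa (by rw [P.ω_inj e]; exact h.fb))
  have d1 : ∀ j, X.d (P.ω (u j)) (P.ω (u (j + 1))) = D := by
    intro j
    rw [hu, h.ul_prev E j, ul, P.ω_smul, P.ω_smul, iso]
    rcases alt_cases ua ub ua ub j with ⟨e1, e2, -⟩ | ⟨e1, e2, -⟩ <;> rw [e1, e2]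
    exact X.symm _ _
  have ang : ∀ N : ℕ,
      (∀ i j : ℤ, i ≤ j → j ≤ i + N → (X.d (P.ω (u i)) (P.ω (u j)) : ℤ) = (j - i) * D) →
      ∀ i j k : ℤ, i < j → j < k → k ≤ i + N + 1 →
        ¬ P.Ang (u j) (P.ω (u i)) (P.ω (u k)) (8 * M) := by
    intro N hN i j k hij hjk hk hc
    obtain ⟨j, rfl⟩ : ∃ j', j = j' + 1 := ⟨j - 1, by ring⟩
    have a1 : P.Ang (u (j + 1)) (P.ω (u j)) (P.ω (u i)) M := P.of_not_bt fun hb => by
      have := hN i j (by omega) (by omega); have := hN i (j + 1) (by omega) (by omega)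
      have := X.symm (P.ω (u j)) (P.ω (u i)); have := X.symm (P.ω (u (j + 1))) (P.ω (u i))
      have : (j + 1 - i) * D = (j - i) * D + D := by ring
      unfold Bt at hb; omega
    have a2 : P.Ang (u (j + 1)) (P.ω (u k)) (P.ω (u (j + 2))) M := P.of_not_bt fun hb => by
      have := hN (j + 2) k (by omega) (by omega); have := hN (j + 1) k (by omega) (by omega)
      have := X.symm (P.ω (u k)) (P.ω (u (j + 2))); have := X.symm (P.ω (u k)) (P.ω (u (j + 1)))
      have : (k - (j + 1)) * D = (k - (j + 2)) * D + D := by ring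
      unfold Bt at hb; omega
    refine h.pl_rot (L := L) (j + 1) (j + 1) (P.ω (u j)) ?_
    rw [← P.ω_smul, hu, ← h.ul_step E j]
    exact P.mono (P.tri (P.tri a1 hc) a2) (by omega)
  have dist : ∀ N : ℕ, ∀ i j : ℤ, i ≤ j → j ≤ i + N →
      (X.d (P.ω (u i)) (P.ω (u j)) : ℤ) = (j - i) * D := by
    intro N
    induction N with
    | zero => intro i j h1 h2; obtain rfl : i = j := by omega
              simp [X.d_self]
    | succ N ih =>
      intro i j h1 h2
      by_cases h3 : j ≤ i + N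
      · exact ih i j h1 h3
      by_cases h4 : j = i + 1
      · rw [h4, d1]; ring
      have h5 := (P.bgi fun hc => ang N ih i (i + 1) j (by omega) (by omega) (by omega)
        (P.mono hc (by omega))).1
      have := d1 i; have := ih (i + 1) j (by omega) (by omega)
      have := X.tri (P.ω (u i)) (P.ω (u (i + 1))) (P.ω (u j))
      have : (j - i) * D = (j - (i + 1)) * D + D := by ring
      unfold Bt at h5; omega
  refine ⟨pos, h.dist, fun i j hij => dist (j - i).toNat i j hij (by omega),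
    fun i j k hij hjk => ang (k - i).toNat (dist _) i j k hij hjk (by omega), fun i hi hi' => ?_⟩
  refine ⟨fun j => gl n L a b (j + 2 * i + 1) * (gl n L a b (j + 1))⁻¹, fun j => ⟨?_, ?_⟩,
    fun j hc => ?_⟩
  · rw [hu, h.ul_prev E j, h.ul_prev E (j + 2 * i), mul_smul, inv_smul_smul, alt_add]
  · rw [hu, ul, ul, mul_smul, inv_smul_smul, add_right_comm j (2 * (i : ℤ)) 1, alt_add]
  · simp only at hc
    rw [E.gl_succ a b (j + 1 + 2 * i), E.gl_succ a b (j + 1), alt_add,
      add_right_comm j (2 * (i : ℤ)) 1, mul_inv_rev, ← mul_assoc, mul_left_inj, mul_assoc,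
      left_eq_mul, mul_inv_eq_one] at hc
    exact E.dist (j + 1) i hi (by omega) (csa.zpow_inj (h.alt_ne _) hc)

end AD

theorem rig (iso : X.Iso H) (csa : CSA H) (E : Exps n L n₀) (hL : 2 * DT < L)
    (st1 : ∀ (u : U) (g h : H), g • u = u → h • u = u → Commute g h)
    (fix2 : ∀ (u u' : U) (h : H), u ≠ u' → h • u = u → h • u' = u' → h = 1)
    {a b a' b' : H} {ua ub ua' ub' : U} (h : AD n P a b ua ub (DT := DT))
    (h' : AD n P a' b' ua' ub' (DT := DT)) {i j i' j' : ℤ}
    (hΩ : X.d (P.ω (ul n L a' b' ua' ub' i')) (P.ω (ul n L a b ua ub i)) +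
      X.d (P.ω (ul n L a' b' ua' ub' j')) (P.ω (ul n L a b ua ub j)) + (8 * DT + 50) * DT <
      X.d (P.ω (ul n L a' b' ua' ub' i')) (P.ω (ul n L a b ua ub j)) +
      X.d (P.ω (ul n L a' b' ua' ub' j')) (P.ω (ul n L a b ua ub i))) :
    ∃ g ∈ Subgroup.zpowers (Wd n a b L), a' = g * a * g⁻¹ ∧ b' = g * b * g⁻¹ ∧
      ua' = g • ua ∧ ub' = g • ub := by
  have g := h.geo iso csa E hL st1
  have g' := h'.geo iso csa E hL st1
  obtain ⟨j₀, c, hh⟩ := align iso fix2 g g' hΩ
  set u := ul n L a b ua ub with hu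
  set u' := ul n L a' b' ua' ub' with hu'
  set p := pl n L a b with hp
  set p' := pl n L a' b' with hp'
  have eq : ∀ (a b : H) (v v' : U), v ≠ v' → a • v = b • v → a • v' = b • v' → a = b := by
    intro a b v v' h1 h2 h3
    exact inv_mul_eq_one.1 (fix2 v v' (a⁻¹ * b) h1 (by rw [mul_smul, ← h2, inv_smul_smul])
      (by rw [mul_smul, ← h3, inv_smul_smul]))
  have us : ∀ j, u (j + 1) = p j ^ n j • u (j - 1) := fun j => by
    have := h.ul_step E (j - 1)
    rwa [show j - 1 + 2 = j + 1 by ring, sub_add_cancel] at this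
  have us' : ∀ j, u' (j + 1) = p' j ^ n j • u' (j - 1) := fun j => by
    have := h'.ul_step E (j - 1)
    rwa [show j - 1 + 2 = j + 1 by ring, sub_add_cancel] at this
  have pf : ∀ j, p j • u j = u j := h.pl_fix
  have pf' : ∀ j, p' j • u' j = u' j := h'.pl_fix
  have une : ∀ j, u (j - 1) ≠ u j := fun j => by simpa using g.ne (j - 1)
  obtain ⟨t, t1, t2, ht⟩ := E.rigid (j₀ + 1)
  have ps := E.pl_step a b t
  rw [← hp] at ps
  rcases hh with hh | hh
  · obtain ⟨k, hk⟩ : ∃ k, k = c + (t - j₀) := ⟨_, rfl⟩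
    have e0 : ∀ s : ℤ, -1 ≤ s → s ≤ 3 → u (t + s) = u' (k + s) := fun s s1 s2 => by
      have := hh (t - j₀ + s) (by omega) (by omega)
      rwa [show j₀ + (t - j₀ + s) = t + s by ring, ← add_assoc, ← hk] at this
    have e1 : ∀ s : ℤ, 0 ≤ s → s ≤ 2 → p (t + s) ^ n (t + s) = p' (k + s) ^ n (k + s) := by
      intro s s1 s2
      refine eq _ _ _ _ (une (t + s)) ?_ ?_
      · rw [← us, add_sub_assoc t s 1, e0 (s - 1) (by omega) (by omega), ← add_sub_assoc, ← us',
          add_assoc, add_assoc, e0 (s + 1) (by omega) (by omega)]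
      · rw [zpow_fix (pf _), e0 s (by omega) (by omega), zpow_fix (pf' _)]
    have ps' := E.pl_step a' b' k
    rw [← hp'] at ps'
    have f0 := e1 0 (by omega) (by omega)
    have f1 := e1 1 (by omega) (by omega)
    have f2 := e1 2 (by omega) (by omega)
    rw [add_zero, add_zero] at f0
    rw [ps, ps', conj_zpow, conj_zpow, f1, mul_left_inj, mul_right_inj] at f2
    have f3 : n t * n (k + 2) = n k * n (t + 2) := csa.zpow_inj (h.pl_ne (L := L) t) (by
      rw [← hp, zpow_mul, f0, mul_comm (n k), zpow_mul (p t), f2, ← zpow_mul, ← zpow_mul, mul_comm])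
    obtain ⟨e, he⟩ := (ht k).1 f3
    obtain rfl : k = t + e * L := by linarith
    have root : ∀ s : ℤ, 0 ≤ s → s ≤ 2 → p (t + s) = p' (t + s + e * L) := by
      intro s s1 s2
      have a1 := e1 s s1 s2
      have a2 := e0 s (by omega) (by omega)
      rw [add_right_comm t (e * L) s] at a1 a2
      rw [E.per'] at a1
      exact csa.root (st1 _ _ _ (pf _) (by rw [a2]; exact pf' _)) (E.ne _) a1
    have all : ∀ s : ℤ, p (t + s) = p' (t + s + e * L) ∧
        p (t + s + 1) = p' (t + s + 1 + e * L) := by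
      have st : ∀ j, p' (j + 2 + e * L) = p' (j + 1 + e * L) ^ n (j + 1) * p' (j + e * L) *
          (p' (j + 1 + e * L) ^ n (j + 1))⁻¹ := fun j => by
        have := E.pl_step a' b' (j + e * L)
        rwa [add_right_comm j (e * L) 2, add_right_comm j (e * L) 1, E.per'] at this
      intro s
      induction s using Int.induction_on with
      | zero => exact ⟨root 0 (by omega) (by omega), by
          have := root 1 (by omega) (by omega)
          rwa [add_zero]⟩
      | succ s ih =>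
        rw [← add_assoc]
        refine ⟨ih.2, ?_⟩
        rw [add_assoc (t + s) 1 1, one_add_one_eq_two, st, ← ih.1, ← ih.2]
        exact E.pl_step a b _
      | pred s ih =>
        rw [← add_sub_assoc, sub_add_cancel]
        refine ⟨?_, ih.1⟩
        have a1 := E.pl_step a b (t + -s - 1)
        have a2 := st (t + -s - 1)
        rw [show t + -s - 1 + 2 = t + -s + 1 by ring, sub_add_cancel] at a1 a2
        rw [← hp, ih.2, a2, ih.1, mul_left_inj, mul_right_inj] at a1
        exact a1.symm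
    have b0 := (all (-t + -e * L)).1
    have b1 := (all (-t + -e * L)).2
    rw [show t + (-t + -e * L) = 0 + -e * L by ring] at b0 b1
    rw [show 0 + -e * L + e * L = 0 by ring, hp, hp', E.pl_per, E.pl_zero, E.pl_zero] at b0
    rw [show 0 + -e * L + 1 + e * L = 1 by ring, show 0 + -e * L + 1 = 1 + -e * L by ring, hp, hp',
      E.pl_per, E.pl_one, E.pl_one, ← b0, conj_zpow] at b1
    have b2 : b' = Wd n a b L ^ (-e) * b * (Wd n a b L ^ (-e))⁻¹ := by
      generalize Wd n a b L ^ (-e) = w at b1 ⊢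
      generalize a ^ n 0 = x at b1
      have : b' = (w * x * w⁻¹)⁻¹ * (w * x * w⁻¹ * b' * (w * x * w⁻¹)⁻¹) * (w * x * w⁻¹) := by group
      rw [this, ← b1]; group
    have hc := h.conj iso (Wd n a b L ^ (-e))
    rw [b0, ← b2] at hc
    refine ⟨_, ⟨-e, rfl⟩, b0.symm, b2, ?_, ?_⟩
    · by_contra hne
      exact h'.alt_ne 0 (fix2 _ _ _ hne h'.fa hc.fa)
    · by_contra hne
      exact h'.alt_ne 1 (fix2 _ _ _ hne h'.fb hc.fb)
  · exfalso
    obtain ⟨k, hk⟩ : ∃ k, k = c - (t - j₀) := ⟨_, rfl⟩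
    have e0 : ∀ s : ℤ, -1 ≤ s → s ≤ 3 → u (t + s) = u' (k - s) := fun s s1 s2 => by
      have := hh (t - j₀ + s) (by omega) (by omega)
      rwa [show j₀ + (t - j₀ + s) = t + s by ring, ← sub_sub, ← hk] at this
    have e1 : ∀ s : ℤ, 0 ≤ s → s ≤ 2 → p (t + s) ^ n (t + s) = (p' (k - s) ^ n (k - s))⁻¹ := by
      intro s s1 s2
      refine eq _ _ _ _ (une (t + s)) ?_ ?_
      · rw [← us, add_sub_assoc t s 1, e0 (s - 1) (by omega) (by omega), add_assoc,
          e0 (s + 1) (by omega) (by omega), eq_inv_smul_iff, ← sub_sub, ← us']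
        congr 1; ring
      · rw [zpow_fix (pf _), e0 s (by omega) (by omega), eq_inv_smul_iff,
          zpow_fix (pf' _)]
    have ps' := E.pl_step a' b' (k - 2)
    rw [← hp', sub_add_cancel, show k - 2 + 1 = k - 1 by ring] at ps'
    have f0 := e1 0 (by omega) (by omega)
    have f1 := e1 1 (by omega) (by omega)
    have f2 := e1 2 (by omega) (by omega)
    rw [add_zero, sub_zero] at f0
    have f3 : p t ^ n (t + 2) = (p' k ^ n (k - 2))⁻¹ := by
      rw [ps, conj_zpow, f1, mul_inv_eq_iff_eq_mul, inv_mul_eq_iff_eq_mul] at f2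
      rw [ps', conj_zpow, f2]; group
    refine (ht k).2 (csa.zpow_inj (h.pl_ne (L := L) t) ?_)
    rw [← hp, zpow_mul, f0, mul_comm (n k), zpow_mul (p t), f3, inv_zpow, inv_zpow, ← zpow_mul,
      ← zpow_mul, mul_comm]

end

theorem relator (δ DT : ℕ) (hδ : 1 ≤ δ) : ∃ ε₂ : ℕ,
    ∀ (n : ℤ → ℤ) (L n₀ M : ℕ), Exps n L n₀ → 2 * DT < L →
    ∀ (V : Type) (X : Sp V) (H : Type) [Group H] [MulAction H V] (U : Type) [MulAction H U]
      (P : Apx X H U M), X.Iso H → X.Hyp δ → CSA H →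
      (∀ (u : U) (g h : H), g • u = u → h • u = u → Commute g h) →
      (∀ (u u' : U) (h : H), u ≠ u' → h • u = u → h • u' = u' → h = 1) →
      ∃ (U₂ : Type) (_ : MulAction H U₂) (Y : U₂ → Set V) (pair : U₂ → H → H → Prop),
        Fam X Y ε₂ ∧ Eqv H Y ∧ (∀ u, ∃ a b, pair u a b) ∧
        (∀ a b, Adm P n DT a b → ∃ u, pair u a b) ∧
        (∀ (g : H) u a b, pair u a b → pair (g • u) (g * a * g⁻¹) (g * b * g⁻¹)) ∧
        (∀ u a b a' b', pair u a b → pair u a' b' → ∃ g ∈ Subgroup.zpowers (Wd n a b L),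
          a' = g * a * g⁻¹ ∧ b' = g * b * g⁻¹) ∧
        (∀ (g : H) u a b, pair u a b → (g • u = u ↔ g ∈ Subgroup.zpowers (Wd n a b L))) ∧
        (∀ u a b (k : ℤ), pair u a b → k ≠ 0 → ∀ y ∈ Y u, L ≤ X.d y (Wd n a b L ^ k • y)) ∧
        (∀ (u : U₂) (g h : H), h ≠ 1 → Commute g h → h • u = u → g • u = u) := by
  refine ⟨(8 * DT + 50) * DT + DT + δ, fun n L n₀ M E hL V X H _ _ U _ P iso hyp csa st1 fix2 => ?_⟩
  let Yl : H → H → U → U → Set V := fun a b ua ub => Set.range fun j => P.ω (ul n L a b ua ub j)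
  have Yc : ∀ (g a b : H) (ua ub : U), g • Yl a b ua ub =
      Yl (g * a * g⁻¹) (g * b * g⁻¹) (g • ua) (g • ub) := by
    intro g a b ua ub
    simp only [Yl, Set.smul_set_range, ul_conj, P.ω_smul]
  have Yw : ∀ (a b : H) (ua ub : U), ∀ g ∈ Subgroup.zpowers (Wd n a b L),
      g • Yl a b ua ub = Yl a b ua ub := by
    rintro a b ua ub _ ⟨k, rfl⟩
    simp only [Yl, Set.smul_set_range, ← P.ω_smul, ← E.ul_per]
    exact (Equiv.addRight (k * L)).surjective.range_comp fun j => P.ω (ul n L a b ua ub j)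
  let U₂ : SubMulAction H (Set V) :=
    { carrier := {S | ∃ a b ua ub, AD n P a b ua ub (DT := DT) ∧ S = Yl a b ua ub}
      smul_mem' := by
        rintro g _ ⟨a, b, ua, ub, h, rfl⟩
        exact ⟨_, _, _, _, h.conj iso g, Yc g a b ua ub⟩ }
  let pair : U₂ → H → H → Prop := fun u a b =>
    ∃ ua ub, AD n P a b ua ub (DT := DT) ∧ u.1 = Yl a b ua ub
  have ov : ∀ u u' : U₂, u ≠ u' → ∀ x ∈ u'.1, ∀ y ∈ u'.1, ∀ p ∈ u.1, ∀ q ∈ u.1,
      X.d x p + X.d y q ≤ X.d x q + X.d y p + ((8 * DT + 50) * DT + DT + δ) := by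
    rintro ⟨_, a, b, ua, ub, h, rfl⟩ ⟨_, a', b', ua', ub', h', rfl⟩ hne _ ⟨i', rfl⟩ _ ⟨j', rfl⟩
      _ ⟨j, rfl⟩ _ ⟨i, rfl⟩
    by_contra hc
    obtain ⟨g, hg, rfl, rfl, rfl, rfl⟩ := rig iso csa E hL st1 fix2 h h' (i := i) (j := j)
      (i' := i') (j' := j') (by simp only at hc; omega)
    exact hne (Subtype.ext ((Yw a b ua ub g hg).symm.trans (Yc g a b ua ub)))
  have disp : ∀ u a b (k : ℤ), pair u a b → ∀ y ∈ u.1,
      k.natAbs * L ≤ X.d y (Wd n a b L ^ k • y) := by
    rintro u a b k ⟨ua, ub, h, e⟩ y hy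
    rw [e] at hy
    obtain ⟨j, rfl⟩ := hy
    have g := h.geo iso csa E hL st1
    have := g.pos
    simp only [← P.ω_smul, ← E.ul_per]
    have h0 : (0 : ℤ) ≤ k.natAbs * L := by positivity
    have h2 : (k.natAbs * L : ℤ) * 1 ≤ (k.natAbs * L : ℤ) * X.d (P.ω ua) (P.ω ub) :=
      mul_le_mul_of_nonneg_left (by omega) h0
    obtain ⟨t, ht⟩ : ∃ t, t = k.natAbs := ⟨_, rfl⟩
    rw [← ht] at h0 h2 ⊢
    rcases Int.natAbs_eq k with e | e <;> rw [← ht] at e <;> subst e
    · have h1 := g.dist j (j + t * L) (by omega)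
      rw [add_sub_cancel_left] at h1
      zify; omega
    · have h1 := g.dist (j + -t * L) j (by rw [neg_mul]; omega)
      rw [X.symm, show j - (j + -t * L) = t * L by ring] at h1
      zify; omega
  have p2 : ∀ (g : H) u a b, pair u a b → pair (g • u) (g * a * g⁻¹) (g * b * g⁻¹) := by
    rintro g u a b ⟨ua, ub, h, e⟩
    exact ⟨_, _, h.conj iso g, by rw [SubMulAction.val_smul, e, Yc]⟩
  have p3 : ∀ u a b a' b', pair u a b → pair u a' b' → ∃ g ∈ Subgroup.zpowers (Wd n a b L),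
      a' = g * a * g⁻¹ ∧ b' = g * b * g⁻¹ := by
    rintro u a b a' b' ⟨ua, ub, h, e⟩ ⟨ua', ub', h', e'⟩
    have g := h.geo iso csa E hL st1
    have m : ∀ j, ∃ j', P.ω (ul n L a' b' ua' ub' j') = P.ω (ul n L a b ua ub j) := fun j =>
      (e.symm.trans e' ▸ ⟨j, rfl⟩ : P.ω (ul n L a b ua ub j) ∈ Yl a' b' ua' ub')
    obtain ⟨i', hi⟩ := m 0
    obtain ⟨j', hj⟩ := m ((8 * DT + 50) * DT + 1 : ℕ)
    obtain ⟨g, hg, h1, h2, -⟩ := rig iso csa E hL st1 fix2 h h' (i := 0)
      (j := ((8 * DT + 50) * DT + 1 : ℕ)) (i' := i') (j' := j') (by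
        have h1 := g.dist 0 ((8 * DT + 50) * DT + 1 : ℕ) (by omega)
        have h2 := g.pos
        rw [hi, hj, X.d_self, X.d_self]
        generalize (8 * DT + 50) * DT = T at *
        have : ((T + 1 : ℕ) : ℤ) * 1 ≤ ((T + 1 : ℕ) - 0) * (X.d (P.ω ua) (P.ω ub) : ℤ) := by
          rw [sub_zero]; exact mul_le_mul_of_nonneg_left (by omega) (by omega)
        omega)
    exact ⟨g, hg, h1, h2⟩
  have p4 : ∀ (g : H) u a b, pair u a b → (g • u = u ↔ g ∈ Subgroup.zpowers (Wd n a b L)) := by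
    intro g u a b hp
    constructor
    · intro e
      have h1 := p2 g u a b hp
      rw [e] at h1
      obtain ⟨w, hw, h2, h3⟩ := p3 u _ _ _ _ hp h1
      obtain ⟨ua, ub, h, -⟩ := hp
      have : w⁻¹ * g = 1 := by
        by_contra hne
        refine h.nc (csa.ct _ a b hne ?_ ?_)
        · show w⁻¹ * g * a = a * (w⁻¹ * g)
          rw [mul_assoc, mul_inv_eq_iff_eq_mul.1 h2]; group
        · show w⁻¹ * g * b = b * (w⁻¹ * g)
          rw [mul_assoc, mul_inv_eq_iff_eq_mul.1 h3]; group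
      rwa [← inv_mul_eq_one.1 this]
    · obtain ⟨ua, ub, h, e⟩ := hp
      intro hg
      apply Subtype.ext
      rw [SubMulAction.val_smul, e, Yw a b ua ub g hg]
  have p1 : ∀ u, ∃ a b, pair u a b := by
    rintro ⟨_, a, b, ua, ub, h, rfl⟩; exact ⟨a, b, ua, ub, h, rfl⟩
  have ne : ∀ u : U₂, (u.1).Nonempty := by
    rintro ⟨_, a, b, ua, ub, h, rfl⟩; exact Set.range_nonempty _
  refine ⟨U₂, inferInstance, fun u => u.1, pair, ⟨hyp.mono (by omega), by omega, ne, ?_, ov⟩,
    fun g u y hy => Set.smul_mem_smul_set hy, p1, ?_, p2, p3, p4, fun u a b k hp hk y hy => ?_, ?_⟩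
  · rintro ⟨_, a, b, ua, ub, h, rfl⟩
    have g := h.geo iso csa E hL st1
    have key : ∀ i j m, i ≤ j → X.Bt 0 (P.ω (ul n L a b ua ub i)) m (P.ω (ul n L a b ua ub j)) →
        ∃ p ∈ Yl a b ua ub, X.d m p ≤ DT := by
      intro i j m hij hm
      have pD := g.pos; have lD := g.le
      generalize X.d (P.ω ua) (P.ω ub) = D at *
      obtain ⟨r, hr⟩ : ∃ r, r = X.d (P.ω (ul n L a b ua ub i)) m / D := ⟨_, rfl⟩
      have r1 : r * D ≤ X.d (P.ω (ul n L a b ua ub i)) m := hr ▸ Nat.div_mul_le_self _ _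
      have r2 : X.d (P.ω (ul n L a b ua ub i)) m < r * D + D := by
        have := Nat.lt_div_mul_add (a := X.d (P.ω (ul n L a b ua ub i)) m) (b := D) (by omega)
        rwa [← hr] at this
      have d1 := g.dist i (i + r) (by omega)
      rw [add_sub_cancel_left, ← Nat.cast_mul, Nat.cast_inj] at d1
      have d2 := g.dist i j hij
      have hrj : i + r ≤ j := by
        have : (r : ℤ) * D ≤ (j - i) * D := by
          rw [← d2, ← Nat.cast_mul]; unfold Bt at hm; omega
        have := le_of_mul_le_mul_right this (by omega); omega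
      have := (g.on (by omega) hrj).dist hm (by omega)
      exact ⟨_, ⟨i + r, rfl⟩, by rw [X.symm]; simp only; omega⟩
    rintro _ _ m ⟨i, rfl⟩ ⟨j, rfl⟩ hm
    rcases le_total i j with hij | hij
    · obtain ⟨p, p1, p2⟩ := key i j m hij hm
      exact ⟨p, p1, by omega⟩
    · obtain ⟨p, p1, p2⟩ := key j i m hij hm.symm
      exact ⟨p, p1, by omega⟩
  · rintro a b ⟨h1, ua, ub, h2, h3, h4, h5, h6⟩
    have h : AD n P a b ua ub (DT := DT) := ⟨h1, h2, h3, h4, h5, h6⟩
    exact ⟨⟨_, a, b, ua, ub, h, rfl⟩, ua, ub, h, rfl⟩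
  · have h1 := disp u a b k hp y hy
    have : 1 * L ≤ k.natAbs * L := Nat.mul_le_mul_right _ (by omega)
    omega
  · intro u g h h1 hc hu
    by_contra hne
    obtain ⟨a, b, hp⟩ := p1 u
    obtain ⟨k, rfl⟩ := (p4 h u a b hp).1 hu
    have hk : k ≠ 0 := by rintro rfl; exact h1 (zpow_zero _)
    obtain ⟨p, hp'⟩ := ne u
    obtain ⟨m, hm⟩ : ∃ m : ℕ, m = 4 * X.d p (g • p) + ((8 * DT + 50) * DT + DT + δ) + 1 := ⟨_, rfl⟩
    have h2 := disp u a b (k * m) hp p hp'
    have h3 : m ≤ (k * m).natAbs * L := by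
      rw [Int.natAbs_mul, Int.natAbs_natCast]
      have : 1 * m * 1 ≤ k.natAbs * m * L :=
        Nat.mul_le_mul (Nat.mul_le_mul_right _ (by omega)) E.pos
      omega
    set w := Wd n a b L ^ (k * m) with hw
    have wu : w • u = u := (p4 w u a b hp).2 ⟨_, rfl⟩
    have cw : Commute g w := by rw [hw, zpow_mul]; exact hc.zpow_right _
    have m1 : w • p ∈ u.1 := by rw [← wu]; exact Set.smul_mem_smul_set hp'
    have h4 := ov u (g • u) (Ne.symm hne) (g • p) (Set.smul_mem_smul_set hp') (g • w • p)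
      (Set.smul_mem_smul_set m1) (w • p) m1 p hp'
    have h5 := iso.disp_comm cw p
    have := X.tri p (g • p) (w • p); have := X.tri (w • p) (g • w • p) p
    have := X.symm p (g • p); have := X.symm (w • p) (g • w • p); have := X.symm p (w • p)
    omega

end Pool.Agent.P.MP_4b59b0_al
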