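import Pool.Agent.P.MP_4b59b0_al.Isom2

set_option autoImplicit false

namespace Pool.Agent.P.MP_4b59b0_al

open Sp Pointwise

section

variable {V : Type} {X : Sp V} {H : Type} [Group H] [MulAction H V] {δ A : ℕ}

theorem orbit_bt (iso : X.Iso H) (hδ : X.Hyp δ) {g : H} {m : V} {c : ℕ}
    (h : X.Bt c (g⁻¹ • m) m (g • m)) (hl : c + 2 * δ < X.d m (g • m)) {i j k : ℤ}
    (hij : i ≤ j) (hjk : j ≤ k) : X.Bt (c + 2 * δ) (g ^ i • m) (g ^ j • m) (g ^ k • m) := by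
  rcases eq_or_lt_of_le hij with rfl | hij
  · exact bt_left _ _ _
  rcases eq_or_lt_of_le hjk with rfl | hjk
  · exact bt_right _ _ _
  obtain ⟨a, rfl⟩ : ∃ a : ℕ, i = j - (a + 1 : ℕ) := ⟨(j - i - 1).toNat, by omega⟩
  obtain ⟨b, rfl⟩ : ∃ b : ℕ, k = j + (b + 1 : ℕ) := ⟨(k - j - 1).toNat, by omega⟩
  have := iso.bt (g ^ j) (pw iso hδ h hl a b)
  rwa [smul_smul, smul_smul, inv_pow, ← zpow_natCast, ← zpow_natCast, ← zpow_sub,
    ← zpow_add] at this

variable (X δ) in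
/-- Generic and short elements. -/
def Good (g : H) : Prop := X.Mv g (100 * δ) ∧ ∃ x, X.d x (g • x) ≤ 200 * δ

variable (X δ) in
/-- The common axis of the centraliser of `g`. -/
def YG (g : H) : Set V := {y | ∃ g', Good X δ g' ∧ Commute g g' ∧ X.Ax g' (10 * δ) y}

theorem Good.conj (iso : X.Iso H) {g : H} (h : Good X δ g) (k : H) : Good X δ (k * g * k⁻¹) := by
  obtain ⟨h1, x, hx⟩ := h
  exact ⟨h1.conj iso k, k • x, by rw [iso.disp_conj]; exact hx⟩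

theorem YG_smul (iso : X.Iso H) {g : H} {y : V} (k : H) (h : y ∈ YG X δ g) :
    k • y ∈ YG X δ (k * g * k⁻¹) := by
  obtain ⟨g', h1, h2, h3⟩ := h
  exact ⟨_, h1.conj iso k, h2.map (MulAut.conj k).toMonoidHom, h3.conj iso k⟩

theorem smul_YG (iso : X.Iso H) (g k : H) : k • YG X δ g = YG X δ (k * g * k⁻¹) := by
  ext y
  constructor
  · rintro ⟨y, hy, rfl⟩; exact YG_smul iso k hy
  · intro hy
    have := YG_smul iso k⁻¹ hy
    rw [Set.mem_smul_set_iff_inv_smul_mem]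
    simpa [mul_assoc] using this

theorem Good.mid (inv : Inv X H δ A) {g : H} (h : Good X δ g) :
    X.Esc g ∧ ∃ m, X.Ax g (6 * δ) m ∧ X.Bt (2 * δ) (g⁻¹ • m) m (g • m) := by
  obtain ⟨h1, x, -⟩ := h
  have pos := inv.pos
  obtain ⟨m, m1, m2⟩ := X.exists_mid x (g • x)
  have := h1 m
  have h2 := mid_ax inv.iso inv.hyp m1 m2 (by omega)
  exact ⟨h2.1, m, h2.2, (Sp.mid inv.iso inv.hyp m1 m2 (by omega)).1⟩

theorem Good.ne_one (inv : Inv X H δ A) {g : H} (h : Good X δ g) : g ≠ 1 := by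
  obtain ⟨x, -⟩ := h.2
  exact (h.mid inv).1.ne_one x

theorem YG_eq (inv : Inv X H δ A) (csa : CSA H) {g g' : H} (h : Good X δ g) (h' : Good X δ g')
    (hc : Commute g g') : YG X δ g = YG X δ g' := by
  ext y
  constructor
  · rintro ⟨k, h1, h2, h3⟩; exact ⟨k, h1, csa.ct g _ _ (h.ne_one inv) hc h2, h3⟩
  · rintro ⟨k, h1, h2, h3⟩; exact ⟨k, h1, csa.ct g' _ _ (h'.ne_one inv) hc.symm h2, h3⟩

theorem YG_ax (inv : Inv X H δ A) {g : H} (h : Good X δ g) {y : V} (hy : y ∈ YG X δ g) :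
    X.Ax g (17 * δ) y := by
  obtain ⟨-, m, m1, -⟩ := h.mid inv
  obtain ⟨g', -, h2, h3⟩ := hy
  exact (Ax.cm inv.iso inv.hyp h2 m1 h3).mono (by omega)

theorem YG_ov (inv : Inv X H δ A) (csa : CSA H) {g g' : H} (h : Good X δ g) (h' : Good X δ g')
    {x y p q : V} (hx : x ∈ YG X δ g') (hy : y ∈ YG X δ g') (hp : p ∈ YG X δ g)
    (hq : q ∈ YG X δ g) (hΩ : X.d x q + X.d y p + (10 * A + 10000 * δ) < X.d x p + X.d y q) :
    Commute g g' := by
  have pos := inv.pos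
  obtain ⟨m, m', a1, a2, a3, a4, a5⟩ := inv.hyp.ov1 (t := A + 2310 * δ) (x := x) (y := y)
    (p := p) (q := q) (by omega)
  obtain ⟨z, hz⟩ := h.2
  obtain ⟨z', hz'⟩ := h'.2
  have b1 := ((YG_ax inv h hq).bt inv.hyp (YG_ax inv h hp) a3).move inv.iso inv.hyp
    (Commute.refl g) z
  have b2 := ((YG_ax inv h hq).bt inv.hyp (YG_ax inv h hp) a4).move inv.iso inv.hyp
    (Commute.refl g) z
  have b3 := ((YG_ax inv h' hx).bt inv.hyp (YG_ax inv h' hy) a1).move inv.iso inv.hyp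
    (Commute.refl g') z'
  have b4 := ((YG_ax inv h' hx).bt inv.hyp (YG_ax inv h' hy) a2).move inv.iso inv.hyp
    (Commute.refl g') z'
  have := X.tri x m m'
  exact inv.i1big csa (D := 221 * δ) (x := m) (y := m') (by omega) (by omega) (by omega)
    (by omega) (by omega)

theorem YG_inj (inv : Inv X H δ A) (csa : CSA H) {g g' : H} (h : Good X δ g) (h' : Good X δ g')
    (e : YG X δ g = YG X δ g') : Commute g g' := by
  obtain ⟨hE, m, m1, -⟩ := h.mid inv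
  obtain ⟨N, hN⟩ := hE m (10 * A + 10000 * δ + 1)
  have := hN N le_rfl
  have h1 : m ∈ YG X δ g := ⟨g, h, Commute.refl g, m1.mono (by omega)⟩
  have h2 : g ^ N • m ∈ YG X δ g :=
    ⟨g, h, Commute.refl g, (m1.comm inv.iso ((Commute.refl g).pow_right N)).mono (by omega)⟩
  refine YG_ov inv csa h h' (e ▸ h1) (e ▸ h2) h2 h1 ?_
  rw [X.d_self, X.d_self]; omega

theorem YG_qc (inv : Inv X H δ A) {g : H} (h : Good X δ g) {x y m : V} (hx : x ∈ YG X δ g)
    (hy : y ∈ YG X δ g) (hm : X.Bt 0 x m y) : ∃ p ∈ YG X δ g, X.d m p ≤ 300 * δ := by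
  have pos := inv.pos
  have iso := inv.iso
  obtain ⟨hE, m₀, m1, m2⟩ := h.mid inv
  have mem : ∀ k : ℤ, g ^ k • m₀ ∈ YG X δ g := fun k =>
    ⟨g, h, Commute.refl g, (m1.comm iso ((Commute.refl g).zpow_right k)).mono (by omega)⟩
  obtain ⟨N, hN⟩ := (YG_ax inv h hx).bt inv.hyp (YG_ax inv h hy) hm m₀
  have h1 := hN N N le_rfl le_rfl
  rw [inv_pow, ← zpow_natCast, ← zpow_neg] at h1
  obtain ⟨z, hz⟩ := h.2
  have h2 := m1.move iso inv.hyp (Commute.refl g) z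
  have h3 := h.1 m₀
  by_cases hP : X.d (g ^ (-(N : ℤ)) • m₀) (g ^ (-(N : ℤ) + (2 * N : ℕ)) • m₀) ≤
      X.d (g ^ (-(N : ℤ)) • m₀) m
  · have e : -(N : ℤ) + (2 * N : ℕ) = N := by push_cast; ring
    rw [e] at hP
    exact ⟨_, mem N, by unfold Bt at h1; omega⟩
  · obtain ⟨i, hi, i1, i2⟩ := ivt (fun i : ℕ => X.d (g ^ (-(N : ℤ)) • m₀)
      (g ^ (-(N : ℤ) + i) • m₀) ≤ X.d (g ^ (-(N : ℤ)) • m₀) m) (2 * N) (by simp [X.d_self]) hP
    have h4 := orbit_bt iso inv.hyp m2 (by omega) (i := -(N : ℤ)) (j := -(N : ℤ) + i) (k := N)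
      (by omega) (by omega)
    have h5 : X.d (g ^ (-(N : ℤ) + i) • m₀) (g ^ (-(N : ℤ) + (i + 1 : ℕ)) • m₀) =
        X.d m₀ (g • m₀) := by
      rw [Nat.cast_succ, ← add_assoc, zpow_add_one, mul_smul, iso]
    have h6 := X.tri (g ^ (-(N : ℤ)) • m₀) (g ^ (-(N : ℤ) + i) • m₀)
      (g ^ (-(N : ℤ) + (i + 1 : ℕ)) • m₀)
    refine ⟨_, mem (-(N : ℤ) + i), ?_⟩
    rcases inv.hyp.l2 h1 h4 with h7 | h7 <;> omega

end

theorem type1 {V : Type} {X : Sp V} {H : Type} [Group H] [MulAction H V] {δ A : ℕ}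
    (inv : Inv X H δ A) (csa : CSA H) :
    ∃ (U : Type) (_ : MulAction H U) (Y : U → Set V),
      Fam X Y (10 * A + 10000 * δ) ∧ Eqv H Y ∧
      (∀ (u : U) (g h : H), g • u = u → h • u = u → Commute g h) ∧
      (∀ (u : U) (g h : H), h ≠ 1 → Commute g h → h • u = u → g • u = u) ∧
      (∀ (u u' : U) (h : H), u ≠ u' → h • u = u → h • u' = u' → h = 1) ∧
      (∀ (g : H) (x : V), X.Mv g (100 * δ) → X.d x (g • x) ≤ 200 * δ → ∃ u : U, g • u = u) := by
  have iso := inv.iso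
  have pos := inv.pos
  let U : SubMulAction H (Set V) :=
    { carrier := {S | ∃ g : H, Good X δ g ∧ S = YG X δ g}
      smul_mem' := by
        rintro k _ ⟨g, hg, rfl⟩
        exact ⟨_, hg.conj iso k, smul_YG iso g k⟩ }
  have stab : ∀ (u : U) (g : H), Good X δ g → u.1 = YG X δ g → ∀ h : H,
      (h • u = u ↔ Commute g h) := by
    intro u g hg e h
    rw [Subtype.ext_iff, SubMulAction.val_smul, e, smul_YG iso]
    constructor
    · intro e'
      have := csa.mal g h⁻¹ (hg.ne_one inv)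
        (by rw [inv_inv]; exact (YG_inj inv csa (hg.conj iso h) hg e').symm)
      simpa using this
    · intro hc
      rw [← hc.eq, mul_inv_cancel_right]
  refine ⟨U, inferInstance, fun u => u.1, ⟨inv.hyp.mono (by omega), by omega, ?_, ?_, ?_⟩,
    ?_, ?_, ?_, ?_, ?_⟩
  · rintro ⟨_, g, hg, rfl⟩
    obtain ⟨-, m, m1, -⟩ := hg.mid inv
    exact ⟨m, g, hg, Commute.refl g, m1.mono (by omega)⟩
  · rintro ⟨_, g, hg, rfl⟩ x y m hx hy hm
    obtain ⟨p, p1, p2⟩ := YG_qc inv hg hx hy hm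
    exact ⟨p, p1, by omega⟩
  · rintro ⟨_, g, hg, rfl⟩ ⟨_, g', hg', rfl⟩ hne x hx y hy p hp q hq
    by_contra hc
    exact hne (Subtype.ext (YG_eq inv csa hg hg' (YG_ov inv csa hg hg' hx hy hp hq (by omega))))
  · intro g u y hy
    exact Set.smul_mem_smul_set hy
  · intro u g h hg hh
    obtain ⟨k, hk, e⟩ := u.2
    exact csa.ct k g h (hk.ne_one inv) ((stab u k hk e g).1 hg) ((stab u k hk e h).1 hh)
  · intro u g h h1 hc hh
    obtain ⟨k, hk, e⟩ := u.2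
    exact (stab u k hk e g).2 (csa.ct h k g h1 ((stab u k hk e h).1 hh).symm hc.symm)
  · intro u u' h hne hu hu'
    obtain ⟨k, hk, e⟩ := u.2
    obtain ⟨k', hk', e'⟩ := u'.2
    by_contra h1
    apply hne
    apply Subtype.ext
    rw [e, e']
    exact YG_eq inv csa hk hk'
      (csa.ct h k k' h1 ((stab u k hk e h).1 hu).symm ((stab u' k' hk' e' h).1 hu').symm)
  · intro g x h1 h2
    have hg : Good X δ g := ⟨h1, x, h2⟩
    exact ⟨⟨_, g, hg, rfl⟩, (stab _ g hg rfl g).2 (Commute.refl g)⟩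

end Pool.Agent.P.MP_4b59b0_al
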