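import Pool.Agent.P.MP_4b59b0_al.Lift
import Pool.Agent.P.MP_4b59b0_al.Quot
import Pool.Agent.P.MP_4b59b0_al.Cone
import Pool.Agent.P.MP_4b59b0_al.ConeInv
import Pool.Agent.P.MP_4b59b0_al.Type1
import Pool.Agent.P.MP_4b59b0_al.Relator

set_option autoImplicit false

namespace Pool.Agent.P.MP_4b59b0_al

open Sp

attribute [local instance] ConeOff.act

abbrev Γ₀ := FreeGroup (Fin 2) × Multiplicative ℤ

abbrev S3 := Equiv.Perm (Fin 3)

def z₀ : Γ₀ := (1, Multiplicative.ofAdd 1)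

def ψ₀ : Γ₀ →* S3 :=
  (FreeGroup.lift ![finRotate 3, Equiv.swap 0 1]).comp (MonoidHom.fst _ _)

def vw {G : Type} [Group G] (a b : G) : G := a ^ 61 * b ^ 61

def vw' {G : Type} [Group G] (a b : G) : G := a⁻¹ * vw a b * a

def ww {G : Type} [Group G] (n : ℤ → ℤ) (L : ℕ) (a b : G) : G := Wd n (vw a b) (vw' a b) L

def fl (a b : S3) : ℕ := if a * b = b * a then 0 else 1

theorem map_vw {G G' : Type} [Group G] [Group G'] (f : G →* G') (a b : G) :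
    f (vw a b) = vw (f a) (f b) := by simp [vw]

theorem map_vw' {G G' : Type} [Group G] [Group G'] (f : G →* G') (a b : G) :
    f (vw' a b) = vw' (f a) (f b) := by simp [vw', map_vw]

theorem map_ww {G G' : Type} [Group G] [Group G'] (f : G →* G') (n : ℤ → ℤ) (L : ℕ) (a b : G) :
    f (ww n L a b) = ww n L (f a) (f b) := by simp [ww, Wd_map, map_vw, map_vw']

theorem fl_conj (g a b : S3) : fl (g * a * g⁻¹) (g * b * g⁻¹) = fl a b := by
  unfold fl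
  have : g * a * g⁻¹ * (g * b * g⁻¹) = g * b * g⁻¹ * (g * a * g⁻¹) ↔ a * b = b * a := by
    rw [conj_mul, conj_mul, mul_left_inj, mul_right_inj]
  simp only [this]

/-- One stage of the construction. -/
structure Stage (δ A m₀ L : ℕ) (n : ℤ → ℤ) where
  G : Type
  H : Type
  V : Type
  [gG : Group G]
  [gH : Group H]
  [act : MulAction H V]
  φ : Γ₀ →* G
  π : G →* H
  ψ : H →* S3
  X : Sp V
  x₀ : V
  φ_surj : Function.Surjective φ
  π_surj : Function.Surjective π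
  πz : π (φ z₀) = 1
  ker : ∀ g, π g = 1 → g ∈ Subgroup.zpowers (φ z₀)
  zinf : ∀ k : ℤ, φ z₀ ^ k = 1 → k = 0
  ψ_eq : ∀ γ, ψ (π (φ γ)) = ψ₀ γ
  inv : Inv X H δ A
  csa : CSA H
  rel : ∀ a b : G, ¬ Commute (vw (π a) (π b)) (vw' (π a) (π b)) →
    ¬ X.Mv (vw (π a) (π b) ^ m₀) (100 * δ) →
    ww n L a b = φ z₀ ^ fl (vw (ψ (π a)) (ψ (π b))) (vw' (ψ (π a)) (ψ (π b)))

attribute [local instance] Stage.gG Stage.gH Stage.act

section aux

variable {V : Type} {X : Sp V} {H : Type} [Group H] [MulAction H V] {U : Type} [MulAction H U]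
  {δ A : ℕ}

theorem doubling (inv : Inv X H δ A)
    (st2 : ∀ (u : U) (g h : H), h ≠ 1 → Commute g h → h • u = u → g • u = u)
    (cover : ∀ (g : H) (x : V), X.Mv g (100 * δ) → X.d x (g • x) ≤ 200 * δ → ∃ u : U, g • u = u)
    {v : H} (hv : ∀ u : U, v • u ≠ u) (i : ℕ) (h : X.Mv (v ^ 2 ^ i) (100 * δ)) :
    X.Mv v (100 * δ) := by
  induction i with
  | zero => simpa using h
  | succ i ih =>
    apply ih
    by_contra hc
    unfold Mv at hc
    push Not at hc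
    obtain ⟨x, hx⟩ := hc
    have h1 := inv.iso.disp_mul (v ^ 2 ^ i) (v ^ 2 ^ i) x
    rw [← pow_add, ← two_mul, ← pow_succ'] at h1
    obtain ⟨u, hu⟩ := cover _ x h (by omega)
    refine hv u (st2 u v _ ?_ ((Commute.refl v).pow_right _) hu)
    intro h0
    have := h x; have := inv.pos
    rw [h0, one_smul, X.d_self] at *; omega

theorem Sp.Mv.zpow (iso : X.Iso H) (hδ : X.Hyp δ) (pos : 1 ≤ δ) {g : H} (h : X.Mv g (100 * δ))
    {T : ℕ} {k : ℤ} (hk : T + 5 * δ ≤ k.natAbs) : X.Mv (g ^ k) T := by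
  have h1 : X.Mv (g ^ k.natAbs) T := by
    intro y
    have h2 := Mv.pow iso hδ (l := 97 * δ) (by rw [← add_mul]; exact h) (by omega) k.natAbs y
    have h3 : k.natAbs * 1 ≤ k.natAbs * (97 * δ) := Nat.mul_le_mul_left _ (by omega)
    omega
  rcases Int.natAbs_eq k with e | e
  · rw [e, zpow_natCast]; exact h1
  · rw [e, zpow_neg, zpow_natCast]; exact h1.inv iso

variable {Y : U → Set V} {δ₀ K ε s ρ M : ℕ}

theorem adm_of_fix (C : ConeOff X H Y δ₀ K ε s ρ M) (inv : Inv X H δ A) (inv₁ : Inv C.Z H δ A)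
    (csa : CSA H) {n : ℤ → ℤ} {L m₀ : ℕ}
    (E : Exps n L (6 * m₀ * (10 * M + 100 * ε + 5 * δ))) {a b : H}
    (hab : ¬ Commute (vw a b) (vw' a b)) {u : U} (hu : vw a b • u = u)
    (hv : X.Mv (vw a b ^ m₀) (100 * δ)) :
    Adm C.P n (1000 * A + 100000 * δ) (vw a b) (vw' a b) := by
  have hab' : ¬ Commute a b := by
    intro h
    apply hab
    have : Commute (vw a b) a := by
      unfold vw
      exact ((Commute.refl a).pow_left _).mul_left (h.symm.pow_left _)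
    unfold vw'
    exact (this.inv_right.mul_right (Commute.refl _)).mul_right this
  have hv1 : vw a b ≠ 1 := by
    intro h; rw [h] at hab; exact hab (Commute.one_left _)
  have rot : ∀ j c, ¬ C.P.Ang u c (vw a b ^ n j • c) (10 * M) := by
    intro j c
    obtain ⟨t, ht⟩ := E.dvd j
    have ht0 : t ≠ 0 := by rintro rfl; exact E.ne j (by simpa using ht)
    have e : vw a b ^ n j = (vw a b ^ m₀) ^ (6 * (10 * M + 100 * ε + 5 * δ : ℕ) * t : ℤ) := by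
      rw [← zpow_natCast, ← zpow_mul, ht]; congr 1; push_cast; ring
    have h1 : X.Mv (vw a b ^ n j) (10 * M + 100 * ε) := by
      rw [e]
      refine hv.zpow inv.iso inv.hyp inv.pos ?_
      rw [Int.natAbs_mul, Int.natAbs_mul, Int.natAbs_natCast]
      have : 1 ≤ t.natAbs := by omega
      have h6 : (6 : ℤ).natAbs = 6 := rfl
      rw [h6]
      nlinarith
    refine C.rot _ u _ _ c ?_ (fun y _ => h1 y) le_rfl
    exact MulAction.mem_stabilizer_iff.1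
      (Subgroup.zpow_mem _ (MulAction.mem_stabilizer_iff.2 hu) _)
  have hw : ∀ k : ℤ, vw a b ^ k • C.P.ω u = C.P.ω u := by
    intro k
    rw [← C.P.ω_smul]; congr 1
    exact MulAction.mem_stabilizer_iff.1
      (Subgroup.zpow_mem _ (MulAction.mem_stabilizer_iff.2 hu) _)
  refine ⟨hab, u, a⁻¹ • u, hu, by rw [vw', mul_smul, mul_smul, smul_inv_smul, hu], ?_, rot, ?_⟩
  · obtain ⟨p, pa, pb⟩ := inv₁.dl csa hab' (q := C.P.ω u) (ε := 0) (by
      have := hw 1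
      rw [zpow_one] at this
      rw [show a ^ 61 * b ^ 61 = vw a b from rfl, this, C.Z.d_self])
    have h1 : C.Z.d p (vw a b • p) ≤ 122 * (2 * A + 200 * δ) := by
      have := C.iso.disp_mul (a ^ 61) (b ^ 61) p
      have := C.iso.disp_pow a p 61; have := C.iso.disp_pow b p 61
      unfold vw; omega
    have h2 := inv₁.jbig (g := vw a b ^ n 0) hv1 ((Commute.refl _).zpow_left _) h1 (C.P.ω u)
    rw [hw, C.Z.d_self] at h2
    have h3 := (C.P.bgi (fun h => rot 0 p (C.P.mono h (by omega)))).1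
    have h4 := C.iso (vw a b ^ n 0) (C.P.ω u) p
    rw [hw] at h4
    have h5 := C.iso.disp_move a (C.P.ω u) p
    have h6 := C.Z.symm p (C.P.ω u)
    rw [C.P.ω_smul, C.iso.disp_inv]
    unfold Bt at h3; omega
  · intro j c h
    have h1 := C.P.smul a h
    have e : a • vw' a b ^ n j • c = vw a b ^ n j • a • c := by
      have := conj_zpow (a := a⁻¹) (b := vw a b) (i := n j)
      rw [inv_inv] at this
      rw [vw', this, mul_smul, mul_smul, smul_inv_smul]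
    rw [smul_inv_smul, e] at h1
    exact rot j _ h1

theorem lower1 (C : ConeOff X H Y δ₀ K ε s ρ M) (inv : Inv X H δ A) (inv₁ : Inv C.Z H δ A)
    (hρ : 300 * δ ≤ ρ) {v : H} (hv : X.Mv v (100 * δ)) (hu : ∀ u : U, v • u ≠ u) (p : C.W)
    {B : ℕ} (hB1 : 1 ≤ B)
    (hB : 2 ^ ρ * s + 100 * (300 * δ * 2 ^ (300 * δ) * s + ε) + 2 * M ≤ B) :
    ∃ c, ∀ k : ℕ, k ≤ B * C.Z.d p (v ^ k • p) + c := by
  have pos := inv.pos
  have aux : ∀ k : ℕ, k ≤ k * (97 * δ) := fun k => Nat.le_mul_of_pos_right _ (by omega)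
  by_cases hm : C.Z.Mv v (100 * δ)
  · refine ⟨5 * δ, fun k => ?_⟩
    have h2 := Mv.pow C.iso inv₁.hyp (l := 97 * δ) (by rw [← add_mul]; exact hm) (by omega) k p
    have := aux k
    have : C.Z.d p (v ^ k • p) ≤ B * C.Z.d p (v ^ k • p) := Nat.le_mul_of_pos_left _ hB1
    omega
  · unfold Mv at hm
    push Not at hm
    obtain ⟨c, hc⟩ := hm
    rcases C.shallow c (100 * δ) (by omega) with ⟨u, -, h1⟩ | ⟨x, hx⟩
    · exact absurd (h1 v hc.le) (hu u)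
    have h1 := C.iso.disp_move v (C.ι x) c
    rw [C.Z.symm (C.ι x) c, ← C.ι_smul] at h1
    have h2 := C.sh x (v • x) (300 * δ) (by omega) hρ
    refine ⟨5 * δ + B * (2 * C.Z.d (C.ι x) p), fun k => ?_⟩
    have h3 := C.pl x (v ^ k • x) _ (fun u => C.pa v u x _ k h2 (hu u))
    have h4 := Mv.pow inv.iso inv.hyp (l := 97 * δ) (by rw [← add_mul]; exact hv) (by omega) k x
    have h5 := C.iso.disp_move (v ^ k) (C.ι x) p
    rw [← C.ι_smul] at h5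
    have h6 := (Nat.mul_le_mul hB h5)
    have := aux k
    rw [Nat.mul_add B] at h6
    omega

theorem final_contra {B₁ B₂ m c c' δ : ℕ} {f g : ℕ → ℕ} (h1 : ∀ k, k ≤ B₁ * f k + c)
    (h2 : ∀ k, f k ≤ B₂ * g k) (h3 : ∀ k, g (m * k) ≤ k * (100 * δ) + c')
    (hm : 100 * δ * B₁ * B₂ < m) : False := by
  set k := B₁ * B₂ * c' + c + 1 with hk
  have a1 := h1 (m * k)
  have a2 : B₁ * f (m * k) ≤ B₁ * (B₂ * (k * (100 * δ) + c')) :=
    Nat.mul_le_mul_left _ ((h2 _).trans (Nat.mul_le_mul_left _ (h3 k)))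
  have a3 : (100 * δ * B₁ * B₂ + 1) * k ≤ m * k := Nat.mul_le_mul_right _ hm
  have a4 : B₁ * (B₂ * (k * (100 * δ) + c')) = 100 * δ * B₁ * B₂ * k + B₁ * B₂ * c' := by ring
  rw [add_mul, one_mul] at a3
  omega

end aux

theorem z₀_central (γ : Γ₀) : Commute z₀ γ := by
  unfold z₀
  exact Prod.ext (by simp) (mul_comm _ _)

theorem Stage.cen {δ A m₀ L : ℕ} {n : ℤ → ℤ} (S : Stage δ A m₀ L n) (g : S.G) :
    Commute (S.φ z₀) g := by
  obtain ⟨γ, rfl⟩ := S.φ_surj g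
  exact (z₀_central γ).map _

theorem vw_central {G : Type} [Group G] (a b s t : G) (hs : ∀ g, Commute s g)
    (ht : ∀ g, Commute t g) : vw (a * s) (b * t) = vw a b * (s ^ 61 * t ^ 61) := by
  unfold vw
  rw [(hs a).symm.mul_pow, (ht b).symm.mul_pow, mul_assoc, mul_assoc, ← mul_assoc (s ^ 61),
    ((hs (b ^ 61)).pow_left 61).eq, mul_assoc]

theorem ww_central {G : Type} [Group G] {n : ℤ → ℤ} {L n₀ : ℕ} (E : Exps n L n₀) (a b s t : G)
    (hs : ∀ g, Commute s g) (ht : ∀ g, Commute t g) : ww n L (a * s) (b * t) = ww n L a b := by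
  have hc : ∀ g, Commute (s ^ 61 * t ^ 61) g := fun g =>
    ((hs g).pow_left _).mul_left ((ht g).pow_left _)
  have e : vw' (a * s) (b * t) = vw' a b * (s ^ 61 * t ^ 61) := by
    unfold vw'
    rw [vw_central a b s t hs ht]
    generalize s ^ 61 * t ^ 61 = c at hc
    rw [mul_inv_rev, mul_assoc, mul_assoc, (hs _).inv_left.eq]
    simp only [mul_assoc, mul_inv_cancel, mul_one]
    rw [(hc a).eq]
  unfold ww
  rw [e, vw_central a b s t hs ht, E.Wd_central _ _ _ _ hc hc]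

theorem step : ∃ (δ A m₀ L n₀ : ℕ) (n : ℤ → ℤ), 1 ≤ δ ∧ 1000 * δ ≤ A ∧ 100 * δ ≤ m₀ ∧
    Exps n L n₀ ∧ ∀ S : Stage δ A m₀ L n, ∃ S' : Stage δ A m₀ L n,
      (∀ γ, S.φ γ = 1 → S'.φ γ = 1) ∧ ∀ γ, 2 * S'.X.d S'.x₀ (S'.π (S'.φ γ) • S'.x₀) ≤
        S.X.d S.x₀ (S.π (S.φ γ) • S.x₀) + 2 := by
  obtain ⟨δ₀, K, hcone⟩ := exists_coneOff
  obtain ⟨δ, hδ⟩ : ∃ δ, δ = 2 * δ₀ + 2 := ⟨_, rfl⟩
  obtain ⟨a₀, ρ₀, hinv⟩ := coneInv δ K
  obtain ⟨ρ₁, hρ₁⟩ : ∃ ρ, ρ = ρ₀ + 1000 * δ := ⟨_, rfl⟩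
  obtain ⟨A, hA⟩ : ∃ A, A = 2 * ρ₁ + a₀ := ⟨_, rfl⟩
  obtain ⟨ε₁, hε₁⟩ : ∃ e, e = 10 * A + 10000 * δ := ⟨_, rfl⟩
  obtain ⟨s₁, hs₁⟩ : ∃ e, e = 100 * ε₁ := ⟨_, rfl⟩
  obtain ⟨M₁, hM₁⟩ := hcone ε₁ s₁ ρ₁ (by omega) (by omega)
  obtain ⟨ε₂, hrel⟩ := relator δ (1000 * A + 100000 * δ) (by omega)
  obtain ⟨s₂, hs₂⟩ : ∃ e, e = 100 * ε₂ + A + 100 * δ := ⟨_, rfl⟩
  obtain ⟨D', hD'⟩ : ∃ e, e = 2 * A + 3000 * δ := ⟨_, rfl⟩
  obtain ⟨ρ₂, hρ₂⟩ : ∃ e, e = ρ₀ + 1000 * δ + 3 * D' := ⟨_, rfl⟩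
  obtain ⟨M₂, hM₂⟩ := hcone ε₂ s₂ ρ₂ (by omega) (by omega)
  obtain ⟨D'', hD''⟩ : ∃ e, e = 3 * D' * 2 ^ (3 * D') * s₂ := ⟨_, rfl⟩
  obtain ⟨Θ, hΘ⟩ : ∃ e, e = 100 * (122 * D'' + ε₂) := ⟨_, rfl⟩
  obtain ⟨B₂, hB₂⟩ : ∃ e, e = 2 ^ ρ₂ * s₂ + Θ + 2 * M₂ := ⟨_, rfl⟩
  obtain ⟨B₁, hB₁⟩ : ∃ e,
    e = 2 ^ ρ₁ * s₁ + 100 * (300 * δ * 2 ^ (300 * δ) * s₁ + ε₁) + 2 * M₁ + 1 := ⟨_, rfl⟩
  obtain ⟨i₀, hi₀⟩ : ∃ e, e = 100 * δ * B₁ * B₂ + 100 * δ := ⟨_, rfl⟩
  obtain ⟨m₀, hm₀⟩ : ∃ e, e = 2 ^ i₀ := ⟨_, rfl⟩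
  have hm₀' : i₀ < m₀ := hm₀ ▸ Nat.lt_two_pow_self
  obtain ⟨Λ, hΛ⟩ : ∃ e, e = 100 * M₂ + 2 * Θ := ⟨_, rfl⟩
  obtain ⟨L', hL'⟩ : ∃ e, e = Λ + 100 * ε₂ + (1000 * A + 100000 * δ) + 4 := ⟨_, rfl⟩
  obtain ⟨n, E⟩ := exists_exps (6 * m₀ * (10 * M₁ + 100 * ε₁ + 5 * δ)) L'
    (Nat.mul_pos (by omega) (by omega)) (by omega)
  refine ⟨δ, A, m₀, 2 * L', _, n, by omega, by omega, by omega, E, fun S => ?_⟩
  have inv := S.inv
  have csa := S.csa
  obtain ⟨U₁, _, Y₁, fam₁, eqv₁, st1, st2, fix2, cover⟩ := type1 inv csa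
  rw [← hε₁] at fam₁
  obtain ⟨C₁⟩ := hM₁ _ S.X S.H U₁ Y₁ fam₁ inv.iso eqv₁
  have inv₁ : Inv C₁.Z S.H δ A := (hinv _ S.X S.H U₁ Y₁ δ₀ ε₁ s₁ ρ₁ M₁ A ρ₁ C₁ (by omega) inv
    csa (by omega) (by omega) st1 st2 (Or.inl le_rfl)).mono (by omega)
  obtain ⟨U₂, _, Y₂, pair, fam₂, eqv₂, p1, padm, p2, p3, p4, p5, st2'⟩ :=
    hrel n (2 * L') _ M₁ E (by omega) _ C₁.Z S.H U₁ C₁.P C₁.iso inv₁.hyp csa st1 fix2
  obtain ⟨C₂⟩ := hM₂ _ C₁.Z S.H U₂ Y₂ fam₂ C₁.iso eqv₂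
  have st1' : ∀ (u : U₂) (g h : S.H), g • u = u → h • u = u → Commute g h := by
    intro u g h hg hh
    obtain ⟨a, b, hp⟩ := p1 u
    obtain ⟨k, rfl⟩ := (p4 g u a b hp).1 hg
    obtain ⟨l, rfl⟩ := (p4 h u a b hp).1 hh
    exact Commute.zpow_zpow_self _ _ _
  have rot₂ : ∀ (u : U₂) (h : S.H) (a : C₂.W), h ≠ 1 → h • u = u →
      ¬ C₂.P.Ang u a (h • a) Λ := by
    intro u h c h1 hh
    obtain ⟨a, b, hp⟩ := p1 u
    obtain ⟨k, rfl⟩ := (p4 h u a b hp).1 hh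
    refine C₂.rot _ u (2 * L') _ c hh (p5 u a b k hp ?_) (by omega)
    rintro rfl; exact h1 (zpow_zero _)
  have inv₂ : Inv C₂.Z S.H δ A := (hinv _ C₁.Z S.H U₂ Y₂ δ₀ ε₂ s₂ ρ₂ M₂ A (101 * δ) C₂ (by omega)
    inv₁ csa (by omega) (by omega) st1' st2' (Or.inr ⟨le_rfl, fun u h a h1 hh h2 =>
      rot₂ u h a h1 hh (C₂.P.mono h2 (by omega))⟩)).mono (by omega)
  let R : Rot C₂.P Λ :=
    { G := fun u => MulAction.stabilizer S.H u
      conj := fun g u r hr => by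
        rw [MulAction.mem_stabilizer_iff] at *
        rw [mul_smul, inv_smul_smul, mul_smul, hr]
      fix := fun u r hr => hr
      rot := fun u r a hr h1 => rot₂ u r a h1 hr }
  have p5' : ∀ u a b (k : ℤ), pair u a b → k ≠ 0 → Wd n a b (2 * L') ^ k ≠ 1 := by
    intro u a b k hp hk h
    obtain ⟨y, hy⟩ := fam₂.ne u
    have := p5 u a b k hp hk y hy
    rw [h, one_smul, C₁.Z.d_self] at this; omega
  obtain ⟨V', _, X', pr, inv', csa', prs, pre, prle, prex, priso⟩ :=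
    R.quot (C₂.ι (C₁.ι S.x₀)) C₂.hyp (by omega) inv₂ csa (by omega) C₂.sep (by omega) (fun u g h => h) (fun u => by
      obtain ⟨a, b, hp⟩ := p1 u
      refine ⟨Wd n a b (2 * L'), (p4 _ u a b hp).2 (Subgroup.mem_zpowers _), ?_⟩
      simpa using p5' u a b 1 hp one_ne_zero)
  obtain ⟨N, hN, N1, N2, N3, N4⟩ := lift_rot R C₂.iso (by omega) (C₂.ι_ne (C₁.ι S.x₀)) S.π
    (S.φ z₀) S.π_surj S.cen S.πz S.ker E (fun a b => fl (S.ψ a) (S.ψ b))
    (fun g a b => by simp only [map_mul, map_inv, fl_conj]) pair p1 p2 p3 p4 p5'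
  have hψ : ∀ h ∈ R.N, S.ψ h = 1 := by
    intro h hh
    refine Subgroup.iSup_induction R.G (C := fun h => S.ψ h = 1) hh ?_ (map_one _) ?_
    · intro u r hr
      obtain ⟨a, b, hp⟩ := p1 u
      obtain ⟨k, rfl⟩ := (p4 r u a b hp).1 hr
      have h6 : ∀ x : S3, x ^ (6 * m₀ * (10 * M₁ + 100 * ε₁ + 5 * δ)) = 1 := by
        intro x
        have : x ^ 6 = 1 := by
          have := pow_card_eq_one (G := S3) (x := x)
          rwa [Fintype.card_perm, Fintype.card_fin] at this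
        rw [mul_assoc, pow_mul, this, one_pow]
      simp only [map_zpow, Wd_map]
      rw [E.Wd_torsion _ _ (h6 _) (h6 _), one_zpow]
    · intro x y hx hy; rw [map_mul, hx, hy, one_mul]
  let π' : S.G ⧸ N →* S.H ⧸ R.N := QuotientGroup.map N R.N S.π N1
  have π'e : ∀ g : S.G, π' (g : S.G ⧸ N) = (S.π g : S.H ⧸ R.N) := fun g => rfl
  let ψ' : S.H ⧸ R.N →* S3 := QuotientGroup.lift R.N S.ψ hψ
  have ψ'e : ∀ g : S.H, ψ' (g : S.H ⧸ R.N) = S.ψ g := fun g => rfl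
  have ker' : ∀ g : S.G ⧸ N, π' g = 1 →
      g ∈ Subgroup.zpowers (((QuotientGroup.mk' N).comp S.φ) z₀) := by
    intro g hg
    obtain ⟨g, rfl⟩ := QuotientGroup.mk_surjective g
    rw [π'e, QuotientGroup.eq_one_iff] at hg
    obtain ⟨g', h1, h2⟩ := N2 _ hg
    obtain ⟨k, hk⟩ := S.ker (g'⁻¹ * g) (by simp [h2])
    refine ⟨k, ?_⟩
    show ((QuotientGroup.mk' N) (S.φ z₀)) ^ k = _
    rw [← map_zpow]
    simp only at hk
    rw [hk, map_mul, map_inv, QuotientGroup.mk'_apply, (QuotientGroup.eq_one_iff _).2 h1]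
    simp
  have cen' : ∀ s ∈ Subgroup.zpowers (((QuotientGroup.mk' N).comp S.φ) z₀), ∀ g, Commute s g := by
    rintro s ⟨k, rfl⟩ g
    obtain ⟨g, rfl⟩ := QuotientGroup.mk_surjective g
    exact ((S.cen g).map (QuotientGroup.mk' N)).zpow_left k
  refine ⟨{ G := S.G ⧸ N, H := S.H ⧸ R.N, V := V', φ := (QuotientGroup.mk' N).comp S.φ,
            π := π', ψ := ψ', X := X', x₀ := pr (C₂.ι (C₁.ι S.x₀)),
            φ_surj := (QuotientGroup.mk'_surjective N).comp S.φ_surj,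
            π_surj := ?_, πz := ?_, ker := ker', zinf := ?_, ψ_eq := fun γ => S.ψ_eq γ,
            inv := inv', csa := csa', rel := ?_ }, ?_, ?_⟩
  · intro h
    obtain ⟨h, rfl⟩ := QuotientGroup.mk_surjective h
    obtain ⟨g, rfl⟩ := S.π_surj h
    exact ⟨g, rfl⟩
  · show ((S.π (S.φ z₀) : S.H) : S.H ⧸ R.N) = 1
    rw [S.πz]; rfl
  · intro k hk
    apply S.zinf k
    apply N3
    · rw [← QuotientGroup.eq_one_iff]; exact hk
    · rw [map_zpow, S.πz, one_zpow]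
  · intro a' b' hab hT
    have pos := inv.pos
    have hab' : ¬ Commute (π' a') (π' b') := by
      intro h
      apply hab
      have : Commute (vw (π' a') (π' b')) (π' a') := by
        unfold vw
        exact ((Commute.refl _).pow_left _).mul_left (h.symm.pow_left _)
      unfold vw'
      exact (this.inv_right.mul_right (Commute.refl _)).mul_right this
    unfold Mv at hT
    push Not at hT
    obtain ⟨x', hx'⟩ := hT
    obtain ⟨q, hq⟩ := small_root inv'.iso inv'.hyp (by omega) hx'.le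
    obtain ⟨p', pa, pb⟩ := inv'.dl csa' hab' hq
    obtain ⟨p, rfl⟩ := prs p'
    have lift : ∀ c' : S.G ⧸ N, ∃ c : S.G, S.π c = S.π c ∧ π' c' = (S.π c : S.H ⧸ R.N) ∧
        C₂.Z.d p (S.π c • p) = X'.d (pr p) (π' c' • pr p) := by
      intro c'
      obtain ⟨c, rfl⟩ := QuotientGroup.mk_surjective c'
      obtain ⟨m, hm, e⟩ := prex p (S.π c • p)
      obtain ⟨c₁, hc₁⟩ := S.π_surj (m * S.π c)
      refine ⟨c₁, rfl, ?_, ?_⟩
      · rw [π'e, hc₁, QuotientGroup.mk_mul, (QuotientGroup.eq_one_iff _).2 hm, one_mul]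
      · rw [hc₁, mul_smul, ← e, pre, π'e]
    obtain ⟨a, -, ea, da⟩ := lift a'
    obtain ⟨b, -, eb, db⟩ := lift b'
    have e1 : ww n (2 * L') a' b' = ((ww n (2 * L') a b : S.G) : S.G ⧸ N) := by
      have h1 := ker' ((a : S.G ⧸ N)⁻¹ * a') (by rw [map_mul, map_inv, π'e, ea]; simp)
      have h2 := ker' ((b : S.G ⧸ N)⁻¹ * b') (by rw [map_mul, map_inv, π'e, eb]; simp)
      have := ww_central E (a : S.G ⧸ N) (b : S.G ⧸ N) _ _ (cen' _ h1) (cen' _ h2)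
      rw [mul_inv_cancel_left, mul_inv_cancel_left] at this
      rw [this]; exact (map_ww (QuotientGroup.mk' N) n _ a b).symm
    rw [e1, ea, eb, ψ'e, ψ'e]
    rw [ea, eb] at hab hx'
    have evw : vw (S.π a : S.H ⧸ R.N) (S.π b : S.H ⧸ R.N) = (vw (S.π a) (S.π b) : S.H) :=
      (map_vw (QuotientGroup.mk' R.N) _ _).symm
    have evw' : vw' (S.π a : S.H ⧸ R.N) (S.π b : S.H ⧸ R.N) = (vw' (S.π a) (S.π b) : S.H) :=
      (map_vw' (QuotientGroup.mk' R.N) _ _).symm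
    rw [evw, evw'] at hab
    rw [evw] at hx'
    have hab0 : ¬ Commute (vw (S.π a) (S.π b)) (vw' (S.π a) (S.π b)) :=
      fun h => hab (h.map (QuotientGroup.mk' R.N))
    by_cases hT0 : S.X.Mv (vw (S.π a) (S.π b) ^ m₀) (100 * δ)
    swap
    · rw [S.rel a b hab0 hT0]; rfl
    by_cases hu : ∃ u : U₁, vw (S.π a) (S.π b) • u = u
    · obtain ⟨u, hu⟩ := hu
      obtain ⟨u₂, hp⟩ := padm _ _ (adm_of_fix C₁ inv inv₁ csa E hab0 hu hT0)
      rw [← map_vw, ← map_vw'] at hp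
      have := N4 u₂ _ _ hp
      rw [← QuotientGroup.eq_one_iff, QuotientGroup.mk_mul, QuotientGroup.mk_inv,
        mul_inv_eq_one] at this
      simp only [map_vw, map_vw'] at this
      exact this
    exfalso
    push Not at hu
    set v := vw (S.π a) (S.π b) with hv
    have hv2 : ∀ u : U₂, v • u ≠ u := by
      intro u h
      apply hab
      rw [(QuotientGroup.eq_one_iff _).2 (R.le_N u h)]
      exact Commute.one_left _
    have hgen := doubling inv st2 cover hu i₀ (hm₀ ▸ hT0)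
    rcases C₂.shallow p D' (by omega) with ⟨u, -, h1⟩ | ⟨x, hx⟩
    · apply hab'
      rw [ea, eb]
      exact (st1' u _ _ (h1 _ (by omega)) (h1 _ (by omega))).map (QuotientGroup.mk' R.N)
    have sm : ∀ g : S.H, C₂.Z.d p (g • p) ≤ D' → C₁.Z.d x (g • x) ≤ D'' := by
      intro g hg
      have h1 := C₂.iso.disp_move g (C₂.ι x) p
      rw [C₂.Z.symm (C₂.ι x) p, ← C₂.ι_smul] at h1
      exact hD'' ▸ C₂.sh x (g • x) (3 * D') (by omega) (by omega)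
    have sv : C₁.Z.d x (v • x) ≤ 122 * D'' := by
      have := sm (S.π a) (by omega); have := sm (S.π b) (by omega)
      have := C₁.iso.disp_mul (S.π a ^ 61) (S.π b ^ 61) x
      have := C₁.iso.disp_pow (S.π a) x 61; have := C₁.iso.disp_pow (S.π b) x 61
      rw [hv]; unfold vw; omega
    obtain ⟨c, hc⟩ := lower1 C₁ inv inv₁ (by omega) hgen hu x (B := B₁) (by omega) (by omega)
    refine final_contra (m := m₀) (δ := δ) (B₂ := B₂) (c' := 2 * X'.d (pr (C₂.ι x)) x') hc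
      (g := fun k => X'.d (pr (C₂.ι x)) (pr (C₂.ι (v ^ k • x)))) (fun k => ?_) (fun k => ?_)
      (by omega)
    · have h1 : ∀ u, C₂.P.Ang u (C₂.ι x) (C₂.ι (v ^ k • x)) Θ :=
        fun u => hΘ ▸ C₂.pa v u x _ k sv (hv2 u)
      rw [priso _ _ Θ h1 (by omega), hB₂]
      exact C₂.pl _ _ _ h1
    · have h1 := inv'.iso.disp_move ((v : S.H ⧸ R.N) ^ (m₀ * k)) (pr (C₂.ι x)) x'
      have h2 := inv'.iso.disp_pow ((v : S.H ⧸ R.N) ^ m₀) x' k
      have h3 := Nat.mul_le_mul_left k hx'.le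
      rw [← pow_mul] at h2
      simp only [C₂.ι_smul, pre, QuotientGroup.mk_pow]
      omega
  · intro γ h
    show ((S.φ γ : S.G) : S.G ⧸ N) = 1
    rw [h]; rfl
  · intro γ
    show 2 * X'.d (pr (C₂.ι (C₁.ι S.x₀)))
      (((S.π (S.φ γ) : S.H) : S.H ⧸ R.N) • pr (C₂.ι (C₁.ι S.x₀))) ≤ _
    rw [← pre, ← C₂.ι_smul, ← C₁.ι_smul]
    have h1 := prle (C₂.ι (C₁.ι S.x₀)) (C₂.ι (C₁.ι (S.π (S.φ γ) • S.x₀)))
    have h2 := C₂.shrink (C₁.ι S.x₀) (C₁.ι (S.π (S.φ γ) • S.x₀))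
    have h3 := C₁.shrink S.x₀ (S.π (S.φ γ) • S.x₀)
    have pos := inv.pos
    generalize C₂.Z.d _ _ = d2 at *
    generalize C₁.Z.d _ _ = d1 at *
    generalize S.X.d _ _ = d0 at *
    have h4 : d1 ≤ d0 + 1 := by
      by_contra hc
      have : s₁ * (d0 + 2) ≤ s₁ * d1 := Nat.mul_le_mul_left _ (by omega)
      have : 1 * d0 ≤ s₁ * d0 := Nat.mul_le_mul_right _ (by omega)
      rw [mul_add] at *; omega
    have h5 : 2 * d2 ≤ d0 + 2 := by
      rcases Nat.lt_or_ge d2 2 with hd | hd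
      · omega
      · obtain ⟨e, rfl⟩ : ∃ e, d2 = e + 1 := ⟨d2 - 1, by omega⟩
        have : 4 * e ≤ s₂ * e := Nat.mul_le_mul_right _ (by omega)
        rw [mul_add] at h2; omega
    omega

end Pool.Agent.P.MP_4b59b0_al
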